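import Pool.Agent.Helper28.HH.Defs

/-!
# Project HH: the sizes of the slices (block HH-SZ)

`choose_sizes`: rows `i ≤ b < j` have prescribed sizes `X b`, strictly increasing, `1 ≤ X b < m`; the
rows `j ≤ b < i + m` get the unused sizes of `[1,m]` in decreasing order.
PROOF: `U = Finset.Icc 1 m \ image of X`, `card U = m - (j - i)` (`X` injective with values in
`[1,m-1]`, so `j - i ≤ m - 1`), `s (j + k) = U.orderEmbOfFin rfl (card U - 1 - k)` for `k < card U`,
`s b = X b` for `i ≤ b < j`, `0` otherwise.  Strictly decreasing on `[j,i+m)`, so `s b ≤ m - (b - j)`.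
Injective on `[i,i+m)` with values in `[1,m]`, so the sum is `∑_{v=1}^m v = T m`.
-/

set_option autoImplicit false

namespace Pool.Agent.Helper28.HH

private lemma sum_Icc88 (m : ℕ) : ∑ v ∈ Finset.Icc 1 m, v = T m := by
  induction m with
  | zero => simp
  | succ k ih => rw [Finset.sum_Icc_succ_top (by omega), ih, T_succ]

private lemma mono88 {i j : ℕ} {X : ℕ → ℕ} (hmono : ∀ b, i ≤ b → b + 1 < j → X b < X (b + 1)) :
    ∀ b c, i ≤ b → b < c → c < j → X b < X c := by
  intro b c hb hbc
  induction c, hbc using Nat.le_induction with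
  | base => exact fun h => hmono b hb h
  | succ c hc ih =>
    intro h
    exact (ih (by omega)).trans (hmono c (by omega) h)

theorem choose_sizes {m i j : ℕ} (hij : i ≤ j) (X : ℕ → ℕ)
    (hX : ∀ b, i ≤ b → b < j → 1 ≤ X b ∧ X b < m)
    (hmono : ∀ b, i ≤ b → b + 1 < j → X b < X (b + 1)) (hm : 1 ≤ m) :
    j < i + m ∧ ∃ s : ℕ → ℕ, (∀ b, i ≤ b → b < j → s b = X b) ∧ (∀ b, b < i → s b = 0) ∧
      (∀ b, i + m ≤ b → s b = 0) ∧ (∀ b, i ≤ b → b < i + m → 1 ≤ s b ∧ s b ≤ m) ∧
      (∀ b, j ≤ b → b < i + m → s (b + 1) + 1 ≤ s b) ∧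
      (∀ b, j ≤ b → b < i + m → s b + (b - j) ≤ m) ∧
      Set.InjOn s (Set.Ico i (i + m)) ∧ ∑ b ∈ Finset.Ico i (i + m), s b = T m := by
  classical
  have hX' := mono88 hmono
  have hinj : Set.InjOn X (Finset.Ico i j : Finset ℕ) := by
    intro b hb c hc hbc
    simp only [Finset.coe_Ico, Set.mem_Ico] at hb hc
    rcases lt_trichotomy b c with h | h | h
    · exact absurd hbc (hX' b c hb.1 h hc.2).ne
    · exact h
    · exact absurd hbc (hX' c b hc.1 h hb.2).ne'
  have hcI : ((Finset.Ico i j).image X).card = j - i := by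
    rw [Finset.card_image_of_injOn hinj, Nat.card_Ico]
  have hsub : (Finset.Ico i j).image X ⊆ Finset.Icc 1 (m - 1) := by
    intro x hx
    obtain ⟨b, hb, rfl⟩ := Finset.mem_image.1 hx
    rw [Finset.mem_Ico] at hb
    have := hX b hb.1 hb.2
    rw [Finset.mem_Icc]
    omega
  have hjm : j < i + m := by
    have h := Finset.card_le_card hsub
    rw [hcI, Nat.card_Icc] at h
    omega
  refine ⟨hjm, ?_⟩
  set U : Finset ℕ := Finset.Icc 1 m \ (Finset.Ico i j).image X with hU
  have hsub' : (Finset.Ico i j).image X ⊆ Finset.Icc 1 m :=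
    hsub.trans (Finset.Icc_subset_Icc le_rfl (by omega))
  have hcU : U.card = i + m - j := by
    rw [hU, Finset.card_sdiff_of_subset hsub', hcI, Nat.card_Icc]
    omega
  let e : ℕ → ℕ := fun k => if h : k < i + m - j then U.orderEmbOfFin hcU ⟨k, h⟩ else 0
  have heU : ∀ k, k < i + m - j → e k ∈ U := by
    intro k hk
    simp only [e, hk, dif_pos]
    exact Finset.orderEmbOfFin_mem _ _ _
  have hemono : ∀ k l, k < l → l < i + m - j → e k < e l := by
    intro k l hkl hl
    have hk : k < i + m - j := hkl.trans hl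
    simp only [e, hk, hl, dif_pos]
    exact (U.orderEmbOfFin hcU).strictMono hkl
  let s : ℕ → ℕ := fun b =>
    if b < i then 0 else if b < j then X b else if b < i + m then e (i + m - 1 - b) else 0
  have s1 : ∀ b, i ≤ b → b < j → s b = X b := by
    intro b h1 h2
    simp only [s]
    rw [if_neg (by omega), if_pos h2]
  have s2 : ∀ b, b < i → s b = 0 := by
    intro b h
    simp only [s]
    rw [if_pos h]
  have s3 : ∀ b, i + m ≤ b → s b = 0 := by
    intro b h
    simp only [s]
    rw [if_neg (by omega), if_neg (by omega), if_neg (by omega)]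
  have s4 : ∀ b, j ≤ b → b < i + m → s b = e (i + m - 1 - b) := by
    intro b h1 h2
    simp only [s]
    rw [if_neg (by omega), if_neg (by omega), if_pos h2]
  have sU : ∀ b, j ≤ b → b < i + m → s b ∈ U := by
    intro b h1 h2
    rw [s4 b h1 h2]
    exact heU _ (by omega)
  have p4 : ∀ b, i ≤ b → b < i + m → 1 ≤ s b ∧ s b ≤ m := by
    intro b h1 h2
    by_cases hb : b < j
    · rw [s1 b h1 hb]
      have := hX b h1 hb
      omega
    · have h := sU b (by omega) h2
      rw [hU, Finset.mem_sdiff, Finset.mem_Icc] at h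
      exact h.1
  have p5 : ∀ b, j ≤ b → b < i + m → s (b + 1) + 1 ≤ s b := by
    intro b h1 h2
    by_cases hb : b + 1 < i + m
    · rw [s4 b h1 h2, s4 (b + 1) (by omega) hb]
      exact hemono _ _ (by omega) (by omega)
    · rw [s3 (b + 1) (by omega)]
      exact (p4 b (by omega) h2).1
  have p6 : ∀ b, j ≤ b → b < i + m → s b + (b - j) ≤ m := by
    intro b hb
    induction b, hb using Nat.le_induction with
    | base =>
      intro h
      have := (p4 j hij h).2
      omega
    | succ b hb ih =>
      intro h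
      have h1 := ih (by omega)
      have h2 := p5 b hb (by omega)
      omega
  have dis : ∀ b c, i ≤ b → b < j → j ≤ c → c < i + m → s b ≠ s c := by
    intro b c hb1 hb2 hc1 hc2 h
    have hc := sU c hc1 hc2
    rw [← h, s1 b hb1 hb2, hU, Finset.mem_sdiff] at hc
    exact hc.2 (Finset.mem_image_of_mem X (Finset.mem_Ico.2 ⟨hb1, hb2⟩))
  have anti : ∀ b c, j ≤ b → b < c → c < i + m → s c < s b := by
    intro b c hb hbc hc
    rw [s4 b hb (by omega), s4 c (by omega) hc]
    exact hemono _ _ (by omega) (by omega)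
  have p7 : Set.InjOn s (Set.Ico i (i + m)) := by
    intro b hb c hc h
    rw [Set.mem_Ico] at hb hc
    by_cases hbj : b < j
    · by_cases hcj : c < j
      · rw [s1 b hb.1 hbj, s1 c hc.1 hcj] at h
        exact hinj (by simpa using ⟨hb.1, hbj⟩) (by simpa using ⟨hc.1, hcj⟩) h
      · exact absurd h (dis b c hb.1 hbj (by omega) hc.2)
    · by_cases hcj : c < j
      · exact absurd h.symm (dis c b hc.1 hcj (by omega) hb.2)
      · rcases lt_trichotomy b c with h' | h' | h'
        · exact absurd h (anti b c (by omega) h' hc.2).ne'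
        · exact h'
        · exact absurd h (anti c b (by omega) h' hb.2).ne
  refine ⟨s, s1, s2, s3, p4, p5, p6, p7, ?_⟩
  have hinj' : Set.InjOn s (Finset.Ico i (i + m) : Finset ℕ) := by
    rw [Finset.coe_Ico]
    exact p7
  have himg : (Finset.Ico i (i + m)).image s = Finset.Icc 1 m := by
    apply Finset.eq_of_subset_of_card_le
    · intro x hx
      obtain ⟨b, hb, rfl⟩ := Finset.mem_image.1 hx
      rw [Finset.mem_Ico] at hb
      exact Finset.mem_Icc.2 (p4 b hb.1 hb.2)
    · rw [Finset.card_image_of_injOn hinj', Nat.card_Icc, Nat.card_Ico]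
      omega
  rw [← sum_Icc88, ← himg, Finset.sum_image hinj']

end Pool.Agent.Helper28.HH
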