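import Pool.Agent.Helper28.HH.Tri
import Pool.Agent.Helper28.HH.Sz

/-!
# Project HH: one exact step (block HH-ROW)

`row_good`, `row_inj`: apply `prio_good`, `prio_inj` with `L = Finset.Ico i (i+m)`,
`key b = m - s b`.  `hs`: outside `L` the size is `0`.  `hkey`: `s` is injective on `L` with values
`≤ m`.  `hdeg`: the rows with smaller key have larger size; the sizes are distinct in `[1,m]`, so their
number is `≤ m - s b`.  `hspan`: `b < b0 < i+m` with `s b < n - b - u b`: `b < i` impossible (`h0`), `i ≤ b < j`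
impossible (`hX`, the row is taken entirely), so `j ≤ b`, `s b0 < s b`, `key b < key b0`
(`b0 ≥ j` too).  `hcard`: `min (s b) (n-b-u b) = s b` on all rows `b < n`, and `s b = 0` for `b ≥ n`
(capacity: `s b ≤ n - b - u b = 0`), sum `= T m`.
-/

set_option autoImplicit false

namespace Pool.Agent.Helper28.HH

private theorem row_hyp89 {n m i j : ℕ} {u s : ℕ → ℕ} (hij : i ≤ j)
    (h0 : ∀ b, b < i → n - b - u b = 0)
    (hX : ∀ b, i ≤ b → b < j → s b = n - b - u b)
    (hs0 : ∀ b, b < i → s b = 0) (hs1 : ∀ b, i + m ≤ b → s b = 0)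
    (hs2 : ∀ b, i ≤ b → b < i + m → 1 ≤ s b ∧ s b ≤ m)
    (hs3 : ∀ b, j ≤ b → b < i + m → s (b + 1) + 1 ≤ s b)
    (hs4 : Set.InjOn s (Set.Ico i (i + m))) :
    (∀ b, b ∉ Finset.Ico i (i + m) → min (s b) (n - b - u b) = 0) ∧
    Set.InjOn (fun b => m - s b) (Finset.Ico i (i + m) : Finset ℕ) ∧
    (∀ b ∈ Finset.Ico i (i + m), 0 < min (s b) (n - b - u b) →
      ((Finset.Ico i (i + m)).filter (fun β => m - s β < m - s b)).card +
        min (s b) (n - b - u b) ≤ m) ∧
    (∀ b b0, b < b0 → b0 ∈ Finset.Ico i (i + m) → 0 < min (s b0) (n - b0 - u b0) →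
      s b < n - b - u b → b ∈ Finset.Ico i (i + m) ∧ m - s b < m - s b0) := by
  classical
  refine ⟨?_, ?_, ?_, ?_⟩
  · intro b hb
    rw [Finset.mem_Ico] at hb
    rcases Nat.lt_or_ge b i with h | h
    · rw [hs0 b h, Nat.zero_min]
    · rw [hs1 b (by omega), Nat.zero_min]
  · intro b hb c hc h
    rw [Finset.coe_Ico, Set.mem_Ico] at hb hc
    have h1 := hs2 b hb.1 hb.2
    have h2 := hs2 c hc.1 hc.2
    have h3 : m - s b = m - s c := h
    exact hs4 hb hc (by omega)
  · intro b hb _
    rw [Finset.mem_Ico] at hb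
    have h1 := hs2 b hb.1 hb.2
    have h2 : ((Finset.Ico i (i + m)).filter (fun β => m - s β < m - s b)).card ≤
        (Finset.Icc (s b + 1) m).card := by
      refine Finset.card_le_card_of_injOn s ?_ ?_
      · intro β hβ
        rw [Finset.mem_coe, Finset.mem_filter, Finset.mem_Ico] at hβ
        have h3 := hs2 β hβ.1.1 hβ.1.2
        rw [Finset.mem_coe, Finset.mem_Icc]
        omega
      · intro β hβ γ hγ h
        rw [Finset.mem_coe, Finset.mem_filter, Finset.mem_Ico] at hβ hγ
        exact hs4 hβ.1 hγ.1 h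
    rw [Nat.card_Icc] at h2
    have h3 := Nat.min_le_left (s b) (n - b - u b)
    omega
  · intro b b0 hbb hb0 _ hlt
    rw [Finset.mem_Ico] at hb0
    have hi : i ≤ b := by
      by_contra h
      rw [h0 b (not_le.1 h)] at hlt
      omega
    have hj : j ≤ b := by
      by_contra h
      have := hX b hi (not_le.1 h)
      omega
    have anti : ∀ c, b < c → c < i + m → s c < s b := by
      intro c hc
      induction c, hc using Nat.le_induction with
      | base =>
        intro h
        have := hs3 b hj (by omega)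
        show s (b + 1) < s b
        omega
      | succ c hc ih =>
        intro h
        have h1 := ih (by omega)
        have h2 := hs3 c (by omega) (by omega)
        omega
    have h1 := anti b0 hbb hb0.2
    have h2 := hs2 b hi (by omega)
    exact ⟨Finset.mem_Ico.2 ⟨hi, by omega⟩, by omega⟩

theorem row_good {n m i j : ℕ} {u s : ℕ → ℕ} (hij : i ≤ j) (hjm : j ≤ i + m)
    (h0 : ∀ b, b < i → n - b - u b = 0)
    (hX : ∀ b, i ≤ b → b < j → s b = n - b - u b)
    (hcap : ∀ b, i ≤ b → s b ≤ n - b - u b)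
    (hs0 : ∀ b, b < i → s b = 0) (hs1 : ∀ b, i + m ≤ b → s b = 0)
    (hs2 : ∀ b, i ≤ b → b < i + m → 1 ≤ s b ∧ s b ≤ m)
    (hs3 : ∀ b, j ≤ b → b < i + m → s (b + 1) + 1 ≤ s b)
    (hs4 : Set.InjOn s (Set.Ico i (i + m))) (hs5 : ∑ b ∈ Finset.Ico i (i + m), s b = T m)
    {ms : List ℕ} (hI : GoodD (DS n (fun b => u b + s b)) ms) : GoodD (DS n u) (m :: ms) := by
  obtain ⟨p1, p2, p3, p4⟩ := row_hyp89 (n := n) (u := u) hij h0 hX hs0 hs1 hs2 hs3 hs4
  refine prio_good (Finset.Ico i (i + m)) (fun b => m - s b) p1 p2 p3 p4 ?_ hI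
  have hmin : ∀ b, min (s b) (n - b - u b) = s b := by
    intro b
    rcases Nat.lt_or_ge b i with h | h
    · rw [hs0 b h, Nat.zero_min]
    · exact min_eq_left (hcap b h)
  have hz : ∀ b, n ≤ b → s b = 0 := by
    intro b hb
    rcases Nat.lt_or_ge b i with h | h
    · exact hs0 b h
    · have := hcap b h
      omega
  rw [← hs5, Finset.sum_congr rfl fun b _ => hmin b]
  have e1 : ∑ b ∈ Finset.range n, s b = ∑ b ∈ Finset.range (n + (i + m)), s b := by
    refine Finset.sum_subset (Finset.range_mono (by omega)) fun b _ hb => hz b ?_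
    rw [Finset.mem_range] at hb
    omega
  have e2 : ∑ b ∈ Finset.Ico i (i + m), s b = ∑ b ∈ Finset.range (n + (i + m)), s b := by
    refine Finset.sum_subset (fun b hb => ?_) fun b _ hb => ?_
    · rw [Finset.mem_Ico] at hb
      rw [Finset.mem_range]
      omega
    · rw [Finset.mem_Ico] at hb
      rcases Nat.lt_or_ge b i with h | h
      · exact hs0 b h
      · exact hs1 b (by omega)
  rw [e1, e2]

theorem row_inj {n m i j : ℕ} {u s : ℕ → ℕ} (hij : i ≤ j) (hjm : j ≤ i + m)
    (h0 : ∀ b, b < i → n - b - u b = 0)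
    (hX : ∀ b, i ≤ b → b < j → s b = n - b - u b)
    (hcap : ∀ b, i ≤ b → s b ≤ n - b - u b)
    (hs0 : ∀ b, b < i → s b = 0) (hs1 : ∀ b, i + m ≤ b → s b = 0)
    (hs2 : ∀ b, i ≤ b → b < i + m → 1 ≤ s b ∧ s b ≤ m)
    (hs3 : ∀ b, j ≤ b → b < i + m → s (b + 1) + 1 ≤ s b)
    (hs4 : Set.InjOn s (Set.Ico i (i + m)))
    {ms : List ℕ} (hI : InjD (DS n (fun b => u b + s b)) ms) : InjD (DS n u) (m :: ms) := by
  obtain ⟨p1, p2, p3, p4⟩ := row_hyp89 (n := n) (u := u) hij h0 hX hs0 hs1 hs2 hs3 hs4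
  exact prio_inj (Finset.Ico i (i + m)) (fun b => m - s b) p1 p2 p3 p4 hI

/-- crude step: slices `m, m-1, ..., 1` from the row `i`, overflow allowed.  PROOF: `prio_inj` with
`L = Finset.Ico i (i+m)`, `key b = b`, `s b = m - (b - i)`: the rows of `L` below `b` are `b - i` many. -/
theorem crude_step {n m i : ℕ} {u : ℕ → ℕ} (h0 : ∀ b, b < i → n - b - u b = 0)
    {ms : List ℕ}
    (hI : InjD (DS n (fun b => u b + (if b < i then 0 else m - (b - i)))) ms) :
    InjD (DS n u) (m :: ms) := by
  classical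
  refine prio_inj (s := fun b => if b < i then 0 else m - (b - i)) (Finset.Ico i (i + m))
    (fun b => b) ?_ ?_ ?_ ?_ hI
  · intro b hb
    rw [Finset.mem_Ico] at hb
    show min (if b < i then 0 else m - (b - i)) (n - b - u b) = 0
    split_ifs with h
    · exact Nat.zero_min _
    · rw [show m - (b - i) = 0 by omega, Nat.zero_min]
  · intro b _ c _ h
    exact h
  · intro b hb _
    rw [Finset.mem_Ico] at hb
    have h1 : ((Finset.Ico i (i + m)).filter (fun β => β < b)) = Finset.Ico i b := by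
      ext x
      rw [Finset.mem_filter, Finset.mem_Ico, Finset.mem_Ico]
      omega
    show ((Finset.Ico i (i + m)).filter (fun β => β < b)).card +
      min (if b < i then 0 else m - (b - i)) (n - b - u b) ≤ m
    rw [h1, Nat.card_Ico, if_neg (by omega)]
    have h3 := Nat.min_le_left (m - (b - i)) (n - b - u b)
    omega
  · intro b b0 hbb hb0 _ hlt
    rw [Finset.mem_Ico] at hb0
    have hi : i ≤ b := by
      by_contra h
      rw [h0 b (not_le.1 h)] at hlt
      omega
    exact ⟨Finset.mem_Ico.2 ⟨hi, by omega⟩, hbb⟩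

end Pool.Agent.Helper28.HH
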