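import Pool.Agent.Helper28.HH.InvA

/-!
# Project HH: Theorem S, `v ≥ (M1 - 1)(M2 - 1)` implies independence (block HH-STA1)

Points are placed in ascending order.  State: `r b = n - b - u b` (row `b` is `a ∈ [u b, n - b)`).
`InvA n u i F F' μ`: rows below `i` empty, rows `≥ F` untouched, `u` decreases by at least `1` (by at
least `2` below `F'`) on `[i,F)`, `u b + (b - i) ≤ μ` on `[max i F', F)`, `F ≤ i + μ`.
`R = card (DS n u) = ∑_{b<n} r b` (`card_DS`).

FACTS.  (a) `r` is nondecreasing on `[i,F]`: `r (b+1) ≥ r b` for `i ≤ b < F` (`A3`), strictly for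
`b < F'` (`A4`).  `r b = n - b` for `b ≥ F`.
(b) If `R ≥ T(m-1) + (m-1) μ + 1` and `μ ≤ m`, then `F + m ≤ n`.  Otherwise `h = n - F ≤ m - 1`, all rows of
`[i,F)` have `r ≤ h` (if `F ≤ n`: `r ≤ r F = h`; if `F > n` then `r = 0` for them by the same
monotonicity), so `R ≤ (F-i) h + T h ≤ μ (m-1) + T (m-1)`.
(c) If `R ≥ T(m-1) + (m-1) μ + T(μ-1) + 1` then no row `b` with `max i F' ≤ b < F` has `r b ≤ m - 1`:
otherwise with `σ = u b ≥ 1`: `n - b = r b + σ ≤ m - 1 + σ`, rows `[i,b)` have `r ≤ r b ≤ m-1`, so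
`R ≤ (m-1)(b-i) + T(n-b) - σ ≤ (m-1)(b-i) + T(m-1+σ) - σ = T(m-1) + (m-1)(b-i+σ) + T(σ-1)`, and
`b - i + σ ≤ μ` (`A5`).

`stepA` (intermediate point, `1 ≤ m`, `μ ≤ m`, `R ≥ T(m-1)+(m-1)μ+T(μ-1)+1`): WLOG `i` is the first nonempty
row (`InvA` persists if `i` increases over empty rows; `R ≥ 1`).  `j` = first row `≥ i` with `r ≥ m`; `j ≤ F`
because `r F = n - F ≥ m` by (b).  By (c) the rows `i ≤ b < j` satisfy `b < F'`, so their sizes
`1 ≤ r i < ... < r (j-1) < m` are strictly increasing.  `choose_sizes` with `X = r` gives `s`.  Capacity: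
for `j ≤ b < F` `r b ≥ r j ≥ m ≥ s b`; for `F ≤ b < i+m`: `r b = n - b ≥ m - (b - F) ≥ m - (b - j) ≥ s b`;
for `b ≥ i+m` `s b = 0`.  `row_good`.  New state `u' = u + s`, new `i = j`, new `F = i + m`, new `F' = F`,
`μ = m`: rows below `j` are empty; `A1`: `F ≤ i + μ ≤ i + m`; `A3`, `A4` from `s (b+1) + 1 ≤ s b` on `[j,i+m)`;
`A5`: for `b ≥ F` `u' b = s b ≤ m - (b - j)`; `A6`: `i + m ≤ j + m`.
`card (DS n u') = R - T m`.
-/

set_option autoImplicit false

namespace Pool.Agent.Helper28.HH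

lemma sta1_sum_desc (K : ℕ) : ∑ t ∈ Finset.range K, (K - t) = T K := by
  induction K with
  | zero => simp
  | succ K ih =>
    rw [Finset.sum_range_succ', T_succ, ← ih]
    simp

lemma sta1_sum_tail (n k : ℕ) : ∑ b ∈ Finset.Ico k n, (n - b) = T (n - k) := by
  rw [Finset.sum_Ico_eq_sum_range, ← sta1_sum_desc]
  apply Finset.sum_congr rfl
  intro t _
  omega

lemma sta1_T_add (a b : ℕ) : T (a + b) = T a + a * b + T b := by
  have h1 := two_T a
  have h2 := two_T b
  have h3 := two_T (a + b)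
  nlinarith

/-- the general upper bound -/
lemma sta1_card_le {n : ℕ} {u : ℕ → ℕ} {i c h : ℕ} (hic : i ≤ c) (h0 : ∀ b, b < i → n - b - u b = 0)
    (h1 : ∀ b, i ≤ b → b < c → n - b - u b ≤ h) :
    (DS n u).card ≤ (c - i) * h + ∑ b ∈ Finset.Ico c n, (n - b - u b) := by
  rw [card_DS]
  have e1 : ∑ b ∈ Finset.range n, (n - b - u b) ≤ ∑ b ∈ Finset.range c, (n - b - u b) +
      ∑ b ∈ Finset.Ico c n, (n - b - u b) := by
    rcases le_total c n with hcn | hcn
    · rw [Finset.range_eq_Ico, Finset.range_eq_Ico,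
        Finset.sum_Ico_consecutive _ (Nat.zero_le _) hcn]
    · rw [Finset.Ico_eq_empty_of_le hcn, Finset.sum_empty, add_zero]
      apply Finset.sum_le_sum_of_subset
      exact Finset.range_subset_range.2 hcn
  have e2 : ∑ b ∈ Finset.range c, (n - b - u b) ≤ (c - i) * h := by
    rw [Finset.range_eq_Ico, ← Finset.sum_Ico_consecutive _ (Nat.zero_le i) hic]
    have e3 : ∑ b ∈ Finset.Ico 0 i, (n - b - u b) = 0 := by
      apply Finset.sum_eq_zero
      intro b hb
      exact h0 b (Finset.mem_Ico.1 hb).2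
    have e4 : ∑ b ∈ Finset.Ico i c, (n - b - u b) ≤ (c - i) * h := by
      have := Finset.sum_le_card_nsmul (Finset.Ico i c) (fun b => n - b - u b) h
        (fun b hb => h1 b (Finset.mem_Ico.1 hb).1 (Finset.mem_Ico.1 hb).2)
      simpa using this
    omega
  omega

/-- monotone rows -/
lemma InvA.sta1_mono {n : ℕ} {u : ℕ → ℕ} {i F F' μ : ℕ} (hI : InvA n u i F F' μ) {b c : ℕ} (hib : i ≤ b)
    (hbc : b ≤ c) (hcF : c ≤ F) : n - b - u b ≤ n - c - u c := by
  induction c, hbc using Nat.le_induction with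
  | base => exact le_refl _
  | succ c hc ih =>
    have h1 := ih (by omega)
    have h2 := hI.A3 c (by omega) (by omega)
    omega

/-- the first row may be increased over empty rows -/
lemma InvA.sta1_first {n : ℕ} {u : ℕ → ℕ} {i F F' μ : ℕ} (hI : InvA n u i F F' μ)
    (hR : 1 ≤ (DS n u).card) : ∃ i0, InvA n u i0 F F' μ ∧ i0 ≤ F ∧ 1 ≤ n - i0 - u i0 := by
  classical
  have hex : ∃ b, 1 ≤ n - b - u b := by
    by_contra h
    push Not at h
    rw [card_DS] at hR
    have h1 : ∑ b ∈ Finset.range n, (n - b - u b) = 0 := by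
      apply Finset.sum_eq_zero
      intro b _
      have := h b
      omega
    omega
  have h1 := Nat.find_spec hex
  have h2 : ∀ b, b < Nat.find hex → n - b - u b = 0 := by
    intro b hb
    have := Nat.find_min hex hb
    omega
  have h3 : i ≤ Nat.find hex := by
    by_contra h
    have := hI.A0 _ (not_le.1 h)
    omega
  have h4 : Nat.find hex ≤ F := by
    by_contra h
    have h5 := h2 F (not_le.1 h)
    have h6 := hI.A1 F le_rfl
    omega
  refine ⟨Nat.find hex, ⟨h2, hI.A1, hI.A2, ?_, ?_, ?_, ?_, hI.A7⟩, h4, h1⟩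
  · intro b hb1 hb2
    exact hI.A3 b (by omega) hb2
  · intro b hb1 hb2
    exact hI.A4 b (by omega) hb2
  · intro b hb1 hb2 hb3
    have := hI.A5 b (by omega) hb2 hb3
    omega
  · have := hI.A6
    omega

/-- fact (b) -/
lemma InvA.sta1_room {n m : ℕ} {u : ℕ → ℕ} {i F F' μ : ℕ} (hI : InvA n u i F F' μ) (hiF : i ≤ F)
    (hR : T (m - 1) + (m - 1) * μ + 1 ≤ (DS n u).card) : F + m ≤ n := by
  by_contra hlt
  push Not at hlt
  have hF := hI.A1 F le_rfl
  have h1 := sta1_card_le (n := n) (u := u) (i := i) (c := F) (h := m - 1) hiF hI.A0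
    (fun b hb1 hb2 => by
      have := hI.sta1_mono hb1 hb2.le le_rfl
      omega)
  have h2 : ∑ b ∈ Finset.Ico F n, (n - b - u b) ≤ T (m - 1) := by
    calc ∑ b ∈ Finset.Ico F n, (n - b - u b) ≤ ∑ b ∈ Finset.Ico F n, (n - b) :=
          Finset.sum_le_sum (fun b _ => by omega)
      _ = T (n - F) := sta1_sum_tail n F
      _ ≤ T (m - 1) := T_mono (by omega)
  have h3 : (F - i) * (m - 1) ≤ (m - 1) * μ := by
    rw [mul_comm]
    apply Nat.mul_le_mul_left
    have := hI.A6
    omega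
  omega

/-- fact (c) -/
lemma InvA.sta1_big {n m : ℕ} {u : ℕ → ℕ} {i F F' μ : ℕ} (hI : InvA n u i F F' μ) (hm : 1 ≤ m)
    (hR : T (m - 1) + (m - 1) * μ + T (μ - 1) + 1 ≤ (DS n u).card) {b : ℕ} (hib : i ≤ b)
    (hF' : F' ≤ b) (hbF : b < F) : m ≤ n - b - u b := by
  by_contra hlt
  push Not at hlt
  have h5 := hI.A5 b hib hF' hbF
  have h3 := hI.A3 b hib hbF
  have h2 := hI.A2 b
  obtain ⟨σ, hσ⟩ : ∃ σ, u b = σ + 1 := ⟨u b - 1, by omega⟩
  have h1 := sta1_card_le (n := n) (u := u) (i := i) (c := b) (h := m - 1) hib hI.A0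
    (fun c hc1 hc2 => by
      have := hI.sta1_mono hc1 hc2.le hbF.le
      omega)
  have hbn : b < n := by omega
  have h6 : ∑ c ∈ Finset.Ico b n, (n - c - u c) + (σ + 1) ≤ T (n - b) := by
    rw [← sta1_sum_tail n b, Finset.sum_eq_sum_Ico_succ_bot hbn, Finset.sum_eq_sum_Ico_succ_bot hbn]
    have : ∑ c ∈ Finset.Ico (b + 1) n, (n - c - u c) ≤ ∑ c ∈ Finset.Ico (b + 1) n, (n - c) :=
      Finset.sum_le_sum (fun c _ => by omega)
    omega
  have h7 : T (n - b) ≤ T ((m - 1) + (σ + 1)) := T_mono (by omega)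
  rw [sta1_T_add, T_succ] at h7
  have h8 : T σ ≤ T (μ - 1) := T_mono (by omega)
  have h9 : (b - i) * (m - 1) + (m - 1) * (σ + 1) ≤ (m - 1) * μ := by
    rw [mul_comm (b - i), ← mul_add]
    apply Nat.mul_le_mul_left
    omega
  omega

theorem stepA {n m : ℕ} {u : ℕ → ℕ} {i F F' μ : ℕ} (hI : InvA n u i F F' μ) (hm : 1 ≤ m) (hμ : μ ≤ m)
    (hR : T (m - 1) + (m - 1) * μ + T (μ - 1) + 1 ≤ (DS n u).card) :
    ∃ u' i' F1 F1', InvA n u' i' F1 F1' m ∧ (DS n u').card + T m = (DS n u).card ∧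
      ∀ ms : List ℕ, GoodD (DS n u') ms → GoodD (DS n u) (m :: ms) := by
  classical
  obtain ⟨i, hI, hiF, hri⟩ := hI.sta1_first (by omega)
  have hroom : F + m ≤ n := hI.sta1_room hiF (by omega)
  have hA1F := hI.A1 F le_rfl
  have hA6 := hI.A6
  have hex : ∃ b, i ≤ b ∧ m ≤ n - b - u b := ⟨F, hiF, by omega⟩
  obtain ⟨j, ⟨hij, hjm⟩, hjmin⟩ : ∃ j, (i ≤ j ∧ m ≤ n - j - u j) ∧
      ∀ b, b < j → ¬ (i ≤ b ∧ m ≤ n - b - u b) :=
    ⟨Nat.find hex, Nat.find_spec hex, fun b hb => Nat.find_min hex hb⟩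
  have hjF : j ≤ F := by
    by_contra h
    exact hjmin F (not_le.1 h) ⟨hiF, by omega⟩
  have hlt : ∀ b, i ≤ b → b < j → n - b - u b < m := by
    intro b hb1 hb2
    have := hjmin b hb2
    omega
  have hbF' : ∀ b, i ≤ b → b < j → b < F' := by
    intro b hb1 hb2
    by_contra h
    have h1 := hI.sta1_big hm hR hb1 (not_lt.1 h) (by omega)
    have h2 := hlt b hb1 hb2
    omega
  have hpos : ∀ b, i ≤ b → b ≤ F → 1 ≤ n - b - u b := by
    intro b hb1 hb2
    have := hI.sta1_mono le_rfl hb1 hb2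
    omega
  obtain ⟨hjim, s, hsa, hsb, hsc, hsd, hse, hsf, hinj, hsum⟩ :=
    choose_sizes (m := m) hij (fun b => n - b - u b)
      (fun b hb1 hb2 => ⟨hpos b hb1 (by omega), hlt b hb1 hb2⟩)
      (fun b hb1 hb2 => by
        have h1 := hI.A4 b hb1 (hbF' b hb1 (by omega))
        have h2 := hI.A2 b
        show n - b - u b < n - (b + 1) - u (b + 1)
        omega) hm
  have hcap : ∀ b, i ≤ b → s b ≤ n - b - u b := by
    intro b hb
    by_cases h1 : b < j
    · exact (hsa b hb h1).le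
    · by_cases h2 : b < i + m
      · by_cases h3 : b < F
        · have h4 := hI.sta1_mono hij (not_lt.1 h1) h3.le
          have h5 := (hsd b hb h2).2
          omega
        · have h4 := hI.A1 b (not_lt.1 h3)
          have h5 := hsf b (not_lt.1 h1) h2
          omega
      · rw [hsc b (not_lt.1 h2)]
        exact Nat.zero_le _
  have hcap' : ∀ b, s b ≤ n - b - u b := by
    intro b
    by_cases h1 : b < i
    · rw [hsb b h1]
      exact Nat.zero_le _
    · exact hcap b (not_lt.1 h1)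
  refine ⟨fun b => u b + s b, j, i + m, F, ⟨?_, ?_, ?_, ?_, ?_, ?_, ?_, ?_⟩, ?_, ?_⟩
  · intro b hb
    show n - b - (u b + s b) = 0
    by_cases h1 : b < i
    · have := hI.A0 b h1
      omega
    · have : s b = n - b - u b := hsa b (not_lt.1 h1) hb
      omega
  · intro b hb
    show u b + s b = 0
    rw [hI.A1 b (by omega), hsc b hb]
  · intro b
    show u b + s b ≤ n - b
    have h1 := hcap' b
    have h2 := hI.A2 b
    omega
  · intro b hb1 hb2
    show u (b + 1) + s (b + 1) + 1 ≤ u b + s b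
    have h1 := hse b hb1 hb2
    by_cases h2 : b < F
    · have := hI.A3 b (by omega) h2
      omega
    · have := hI.A1 (b + 1) (by omega)
      omega
  · intro b hb1 hb2
    show u (b + 1) + s (b + 1) + 2 ≤ u b + s b
    have h1 := hse b hb1 (by omega)
    have := hI.A3 b (by omega) hb2
    omega
  · intro b hb1 hb2 hb3
    show u b + s b + (b - j) ≤ m
    have h1 := hsf b hb1 hb3
    have := hI.A1 b hb2
    omega
  · omega
  · omega
  · rw [card_DS, card_DS, ← hsum]
    have hsub : Finset.Ico i (i + m) ⊆ Finset.range n := by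
      intro b hb
      rw [Finset.mem_Ico] at hb
      rw [Finset.mem_range]
      have h1 := (hsd b hb.1 hb.2).1
      have h2 := hcap b hb.1
      omega
    rw [Finset.sum_subset hsub (f := s), ← Finset.sum_add_distrib]
    · apply Finset.sum_congr rfl
      intro b _
      have := hcap' b
      show n - b - (u b + s b) + s b = n - b - u b
      omega
    · intro b _ hb
      rw [Finset.mem_Ico] at hb
      by_cases h1 : b < i
      · exact hsb b h1
      · exact hsc b (by omega)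
  · intro ms hms
    exact row_good hij hjim.le hI.A0 hsa hcap hsb hsc hsd hse hinj hsum hms

end Pool.Agent.Helper28.HH
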