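import Pool.Agent.Helper28.HH.StE1
import Pool.Agent.Helper28.HH.StA1

/-!
# Project HH: the tail inequality, abstract form

PROOF.  Let `x = r i`, `s = sl i`, `f γ = γ + hh n u i γ`.  If `m ≤ x`: `G ≤ T s` (`gs_le`, `sl_eq`),
`2 T s = s (s+1) ≤ (m+1) s`.  If `x < m`: let `γ0` be the largest `γ < x` with `f γ ≥ m`.  For `γ0 < γ < x` `f γ < m`, for
`x ≤ γ < m` `f γ = γ < m`.  So with `s1 = card {γ < γ0 | f γ < m}`: `s = s1 + (x - 1 - γ0)`,
`G ≤ T s1 + T (m - 1 - γ0)` (`staircase`), `s1 ≥ m - x + 1`, `s1 ≤ γ0`, and the rest is arithmetic.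
-/

set_option autoImplicit false

namespace Pool.Agent.Helper28.HH

theorem tail_abs {n m i : ℕ} {u : ℕ → ℕ} (hz : ∀ γ, n - i - u i ≤ γ → γ < m → hh n u i γ = 0)
    (hs : n - i - u i < m → hh n u i 0 + 1 ≤ n - i - u i) (h2 : sl n m u i < n - i - u i) :
    2 * gs n m u i ≤ (m + 1) * sl n m u i := by
  classical
  have hf : ∀ γ, (γ + 1) + hh n u i (γ + 1) ≤ γ + hh n u i γ + 1 := fun γ => by
    have := hh_anti n u i γ
    omega
  rcases Nat.lt_or_ge (n - i - u i) m with hx | hx
  · -- short row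
    have hmin : min (n - i - u i) m = n - i - u i := min_eq_left hx.le
    have hsl : sl n m u i = ((Finset.range (n - i - u i)).filter (fun γ => hh n u i γ + γ < m)).card := by
      unfold sl
      rw [hmin]
    obtain ⟨γ1, hγ1, hγ1m⟩ : ∃ γ, γ < n - i - u i ∧ m ≤ γ + hh n u i γ := by
      by_contra hcon
      push Not at hcon
      have h4 : sl n m u i = n - i - u i := by
        rw [hsl, Finset.filter_true_of_mem, Finset.card_range]
        intro γ hγ
        have := hcon γ (Finset.mem_range.mp hγ)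
        omega
      omega
    have hex : ∃ γ0, γ0 < n - i - u i ∧ m ≤ γ0 + hh n u i γ0 ∧
        ∀ γ, γ0 < γ → γ < n - i - u i → γ + hh n u i γ < m := by
      have hne : ((Finset.range (n - i - u i)).filter (fun γ => m ≤ γ + hh n u i γ)).Nonempty :=
        ⟨γ1, Finset.mem_filter.2 ⟨Finset.mem_range.2 hγ1, hγ1m⟩⟩
      obtain ⟨γ0, h0, hmax⟩ := Finset.exists_max_image _ (fun γ => γ) hne
      rw [Finset.mem_filter, Finset.mem_range] at h0
      refine ⟨γ0, h0.1, h0.2, fun γ h1 h2 => ?_⟩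
      by_contra h3
      have h4 := hmax γ (Finset.mem_filter.2 ⟨Finset.mem_range.2 h2, not_lt.1 h3⟩)
      have h5 : γ ≤ γ0 := h4
      omega
    obtain ⟨γ0, hγ0, hγ0m, hγ0max⟩ := hex
    have hst := staircase m (fun γ => γ + hh n u i γ) hf γ0 hγ0m
    obtain ⟨s1, hs1⟩ : ∃ s1, s1 = ((Finset.range γ0).filter (fun γ => γ + hh n u i γ < m)).card := ⟨_, rfl⟩
    have hst1 : m - (0 + hh n u i 0) ≤ s1 := by
      rw [hs1]
      exact hst.1
    have hst2 : ∑ γ ∈ Finset.range γ0, (m - (γ + hh n u i γ)) ≤ T s1 := by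
      rw [hs1]
      exact hst.2
    have hs1le : s1 ≤ γ0 := by
      rw [hs1]
      refine (Finset.card_filter_le _ _).trans ?_
      rw [Finset.card_range]
    have hsl2 : s1 + (n - i - u i - 1 - γ0) ≤ sl n m u i := by
      have h3 : ((Finset.range γ0).filter (fun γ => γ + hh n u i γ < m)) ∪ Finset.Ico (γ0 + 1) (n - i - u i) ⊆
          (Finset.range (n - i - u i)).filter (fun γ => hh n u i γ + γ < m) := by
        intro γ hγ
        rw [Finset.mem_union, Finset.mem_filter, Finset.mem_range, Finset.mem_Ico] at hγ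
        rw [Finset.mem_filter, Finset.mem_range]
        rcases hγ with ⟨h4, h5⟩ | ⟨h4, h5⟩
        · omega
        · have := hγ0max γ (by omega) h5
          omega
      have h4 := Finset.card_le_card h3
      rw [Finset.card_union_of_disjoint, Nat.card_Ico, ← hs1, ← hsl] at h4
      · omega
      · rw [Finset.disjoint_left]
        intro γ h5 h6
        rw [Finset.mem_filter, Finset.mem_range] at h5
        rw [Finset.mem_Ico] at h6
        omega
    have hgs : gs n m u i ≤ T s1 + T (m - 1 - γ0) := by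
      unfold gs
      have h3 : ∑ γ ∈ Finset.range m, (m - (γ + hh n u i γ)) =
          ∑ γ ∈ Finset.range (γ0 + 1), (m - (γ + hh n u i γ)) +
            ∑ γ ∈ Finset.Ico (γ0 + 1) m, (m - (γ + hh n u i γ)) := by
        rw [Finset.range_eq_Ico, Finset.range_eq_Ico,
          Finset.sum_Ico_consecutive _ (Nat.zero_le _) (by omega)]
      rw [h3, Finset.sum_range_succ]
      have h4 : m - (γ0 + hh n u i γ0) = 0 := by omega
      have h5 : ∑ γ ∈ Finset.Ico (γ0 + 1) m, (m - (γ + hh n u i γ)) ≤ T (m - 1 - γ0) := by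
        have h6 : m - 1 - γ0 = m - (γ0 + 1) := by omega
        rw [h6, ← sta1_sum_tail m (γ0 + 1)]
        exact Finset.sum_le_sum fun γ _ => by omega
      omega
    have hh0 := hs hx
    obtain ⟨z, hz⟩ : ∃ z, m = (n - i - u i) + z := ⟨m - (n - i - u i), by omega⟩
    obtain ⟨e, he⟩ : ∃ e, m - 1 - γ0 = z + e := ⟨m - 1 - γ0 - z, by omega⟩
    obtain ⟨p, hp⟩ : ∃ p, s1 = z + 1 + p := ⟨s1 - (z + 1), by omega⟩
    obtain ⟨r, hr⟩ : ∃ r, m = 2 * z + e + 2 + p + r := ⟨m - (2 * z + e + 2 + p), by omega⟩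
    have hT1 := two_T s1
    have hT2 := two_T (m - 1 - γ0)
    have hle : z + 1 + p + e ≤ sl n m u i := by omega
    have h7 : (m + 1) * (z + 1 + p + e) ≤ (m + 1) * sl n m u i := Nat.mul_le_mul_left _ hle
    rw [he] at hT2 hgs
    rw [hp] at hT1 hgs
    have h8 : (z + 1 + p) * (z + 1 + p + 1) + (z + e) * (z + e + 1) ≤ (m + 1) * (z + 1 + p + e) := by
      rw [hr]
      nlinarith [Nat.zero_le (z * e), Nat.zero_le (z * r), Nat.zero_le (e * r), Nat.zero_le (p * e),
        Nat.zero_le (p * z), Nat.zero_le (p * r), Nat.zero_le (p * p)]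
    omega
  · -- long row
    have h3 := sl_eq n m u i hx
    have h4 := gs_le n m u i
    have h5 := (sl_le n m u i).2.1
    rw [h3] at h5 ⊢
    have h6 := two_T (ss n m u i)
    have h7 : ss n m u i * (ss n m u i + 1) ≤ ss n m u i * (m + 1) := Nat.mul_le_mul_left _ (by omega)
    rw [mul_comm (m + 1)]
    omega

end Pool.Agent.Helper28.HH
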