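import Pool.Agent.Helper28.HH.Defs

/-!
# Project HH: polynomial functions of the exponents, triangulation (block HH-PF)

PROOF of `triangulate`: strong induction downward on `κ e0` (bounded on the finite set `D'`): take the
`g` of `h` for `e0` and put `f = g - ∑_{e ∈ D', κ e0 < κ e} g e • F e`, `F e` the function of the
induction for `e`.  `F e` vanishes at all elements of `D'` other than `e`, in particular at `e0`, and on
`Z (κ e) ⊇ Z (κ e0)`.
-/

set_option autoImplicit false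

namespace Pool.Agent.Helper28.HH

lemma PF_mono {k l : ℕ} (h : k ≤ l) : PF k ≤ PF l := by
  refine Submodule.span_mono ?_
  rintro _ ⟨i, j, hij, rfl⟩
  exact ⟨i, j, lt_of_lt_of_le hij h, rfl⟩

lemma one_mem_PF {m : ℕ} (hm : 1 ≤ m) : (fun _ => (1 : ℝ)) ∈ PF m := by
  refine Submodule.subset_span ⟨0, 0, by omega, ?_⟩
  funext e
  simp

lemma PF_mul {k l : ℕ} {f g : ℕ × ℕ → ℝ} (hf : f ∈ PF (k + 1)) (hg : g ∈ PF (l + 1)) :
    f * g ∈ PF (k + l + 1) := by
  have h := Submodule.mul_mem_mul hf hg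
  unfold PF at h
  rw [Submodule.span_mul_span] at h
  refine (Submodule.span_le.2 ?_) h
  rintro _ ⟨_, ⟨i, j, hij, rfl⟩, _, ⟨i', j', hij', rfl⟩, rfl⟩
  refine Submodule.subset_span ⟨i + i', j + j', by omega, ?_⟩
  funext e
  change ((e.1 : ℝ) ^ i * (e.2 : ℝ) ^ j) * ((e.1 : ℝ) ^ i' * (e.2 : ℝ) ^ j') = _
  rw [pow_add, pow_add]
  ring

private lemma fst_mem_h54 : (fun e : ℕ × ℕ => (e.1 : ℝ)) ∈ PF 2 := by
  refine Submodule.subset_span ⟨1, 0, by omega, ?_⟩
  funext e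
  simp

private lemma snd_mem_h54 : (fun e : ℕ × ℕ => (e.2 : ℝ)) ∈ PF 2 := by
  refine Submodule.subset_span ⟨0, 1, by omega, ?_⟩
  funext e
  simp

private lemma const_mem_h54 (x : ℝ) : (fun _ : ℕ × ℕ => x) ∈ PF 2 := by
  have h := (PF 2).smul_mem x (one_mem_PF (m := 2) (by omega))
  have h1 : (x • fun _ : ℕ × ℕ => (1 : ℝ)) = fun _ => x := by
    funext e
    simp
  rwa [h1] at h

lemma fst_sub_mem (x : ℝ) : (fun e : ℕ × ℕ => (e.1 : ℝ) - x) ∈ PF 2 :=
  (PF 2).sub_mem fst_mem_h54 (const_mem_h54 x)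

lemma snd_sub_mem (x : ℝ) : (fun e : ℕ × ℕ => (e.2 : ℝ) - x) ∈ PF 2 :=
  (PF 2).sub_mem snd_mem_h54 (const_mem_h54 x)

lemma third_sub_mem (x : ℝ) : (fun e : ℕ × ℕ => x - (e.1 : ℝ) - (e.2 : ℝ)) ∈ PF 2 :=
  (PF 2).sub_mem ((PF 2).sub_mem (const_mem_h54 x) fst_mem_h54) snd_mem_h54

lemma PF_prod {ι : Type*} (s : Finset ι) (f : ι → ℕ × ℕ → ℝ) (hf : ∀ i ∈ s, f i ∈ PF 2) :
    (fun e => ∏ i ∈ s, f i e) ∈ PF (s.card + 1) := by
  classical
  induction s using Finset.induction_on with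
  | empty =>
    simp only [Finset.prod_empty, Finset.card_empty]
    exact one_mem_PF (by omega)
  | insert a s ha ih =>
    have h1 := PF_mul (k := 1) (l := s.card) (hf a (Finset.mem_insert_self a s))
      (ih fun i hi => hf i (Finset.mem_insert_of_mem hi))
    rw [Finset.card_insert_of_notMem ha]
    have h2 : (fun e => ∏ i ∈ insert a s, f i e) = f a * fun e => ∏ i ∈ s, f i e := by
      funext e
      rw [Finset.prod_insert ha]
      rfl
    rw [h2]
    have h3 : 1 + s.card + 1 = s.card + 1 + 1 := by omega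
    rwa [h3] at h1

theorem triangulate {m : ℕ} (D' : Finset (ℕ × ℕ)) (κ : ℕ × ℕ → ℕ) (Z : ℕ → Set (ℕ × ℕ))
    (hZ : Monotone Z)
    (h : ∀ e0 ∈ D', ∃ g ∈ PF m, g e0 = 1 ∧ (∀ e ∈ D', e ≠ e0 → κ e ≤ κ e0 → g e = 0) ∧
      ∀ e ∈ Z (κ e0), g e = 0) :
    ∀ e0 ∈ D', ∃ f ∈ PF m, f e0 = 1 ∧ (∀ e ∈ D', e ≠ e0 → f e = 0) ∧ ∀ e ∈ Z (κ e0), f e = 0 := by
  classical
  have key : ∀ n : ℕ, ∀ e0 ∈ D', D'.sup κ - κ e0 = n →
      ∃ f ∈ PF m, f e0 = 1 ∧ (∀ e ∈ D', e ≠ e0 → f e = 0) ∧ ∀ e ∈ Z (κ e0), f e = 0 := by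
    intro n
    induction n using Nat.strong_induction_on with
    | _ n ih =>
      intro e0 he0 hn
      have hF : ∀ e : ℕ × ℕ, ∃ F : ℕ × ℕ → ℝ, e ∈ D' → κ e0 < κ e →
          F ∈ PF m ∧ F e = 1 ∧ (∀ e' ∈ D', e' ≠ e → F e' = 0) ∧ ∀ e' ∈ Z (κ e), F e' = 0 := by
        intro e
        by_cases he : e ∈ D' ∧ κ e0 < κ e
        · have h1 : κ e ≤ D'.sup κ := Finset.le_sup he.1
          obtain ⟨F, hF1, hF2, hF3, hF4⟩ := ih (D'.sup κ - κ e) (by omega) e he.1 rfl
          exact ⟨F, fun _ _ => ⟨hF1, hF2, hF3, hF4⟩⟩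
        · exact ⟨0, fun h1 h2 => absurd ⟨h1, h2⟩ he⟩
      choose F hF using hF
      obtain ⟨g, hg, hg1, hg2, hg3⟩ := h e0 he0
      refine ⟨g - ∑ e ∈ D'.filter (fun e => κ e0 < κ e), g e • F e, ?_, ?_, ?_, ?_⟩
      · refine (PF m).sub_mem hg ((PF m).sum_mem fun e he => (PF m).smul_mem _ ?_)
        rw [Finset.mem_filter] at he
        exact (hF e he.1 he.2).1
      · rw [Pi.sub_apply, Finset.sum_apply, hg1, Finset.sum_eq_zero, sub_zero]
        intro e he
        rw [Finset.mem_filter] at he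
        rw [Pi.smul_apply, (hF e he.1 he.2).2.2.1 e0 he0 (by rintro rfl; exact lt_irrefl _ he.2),
          smul_zero]
      · intro e' he' hne
        rw [Pi.sub_apply, Finset.sum_apply]
        by_cases hk : κ e0 < κ e'
        · rw [Finset.sum_eq_single e']
          · rw [Pi.smul_apply, (hF e' he' hk).2.1, smul_eq_mul, mul_one, sub_self]
          · intro e he hee
            rw [Finset.mem_filter] at he
            rw [Pi.smul_apply, (hF e he.1 he.2).2.2.1 e' he' hee.symm, smul_zero]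
          · intro hno
            exact absurd (Finset.mem_filter.2 ⟨he', hk⟩) hno
        · rw [hg2 e' he' hne (not_lt.1 hk), Finset.sum_eq_zero, sub_zero]
          intro e he
          rw [Finset.mem_filter] at he
          rw [Pi.smul_apply, (hF e he.1 he.2).2.2.1 e' he' (by
            rintro rfl
            exact hk he.2), smul_zero]
      · intro z hz
        rw [Pi.sub_apply, Finset.sum_apply, hg3 z hz, Finset.sum_eq_zero, sub_zero]
        intro e he
        rw [Finset.mem_filter] at he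
        rw [Pi.smul_apply, (hF e he.1 he.2).2.2.2 z (hZ he.2.le hz), smul_zero]
  exact fun e0 he0 => key _ e0 he0 rfl

end Pool.Agent.Helper28.HH
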