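import Pool.Agent.Helper28.HH.One
import Pool.Agent.Helper28.HH.PF

/-!
# Project HH: top corner, simple points (block HH-TOP)

`top_corner`: `one_point_desc` with `D' = rows b ≥ n - m` of `DS n 0` (for `e ∈ D \ D'`, `e.2 < e0.2`, no
condition), dual functions by `triangulate`, `κ e = e.2`, `Z κ = ∅` (or the rows `[n-m, κ)`):
`g = C * ∏_{β ∈ [n-m,b0)} (e.2 - β) * ∏_{a < n - b0, a ≠ a0} (e.1 - a)`, degree
`(b0 - (n-m)) + (n - b0 - 1) = m - 1`.
`fill`: `InjD D ms` by induction on `card D`: if `D` is nonempty, `1 ∈ ms`; up to a permutation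
`ms = 1 :: ms.erase 1`; `one_point` with `D' = {e0}`, `e0` the least element of `D` for `lexlt`, `f = 1`
(`1 ∈ PF 1`).
`fill_good`: take any `E ⊆ D` with `card E = v` and `fill`.
-/

set_option autoImplicit false

namespace Pool.Agent.Helper28.HH

theorem top_corner {n m : ℕ} (hm : m ≤ n) {ms : List ℕ} (hI : InjD (DL n (n - m) (fun _ => 0)) ms) :
    InjD (DS n (fun _ => 0)) (m :: ms) := by
  classical
  set D' : Finset (ℕ × ℕ) := (DS n (fun _ => 0)).filter (fun e => n - m ≤ e.2) with hD'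
  have hmem : ∀ e : ℕ × ℕ, e ∈ D' ↔ e.1 + e.2 < n ∧ n - m ≤ e.2 := by
    intro e
    rw [hD', Finset.mem_filter, mem_DS]
    constructor
    · rintro ⟨⟨h1, _⟩, h2⟩
      exact ⟨h1, h2⟩
    · rintro ⟨h1, h2⟩
      exact ⟨⟨h1, Nat.zero_le _⟩, h2⟩
  have hdiff : DS n (fun _ => 0) \ D' = DL n (n - m) (fun _ => 0) := by
    ext e
    rw [Finset.mem_sdiff, hmem, mem_DS, mem_DL]
    constructor
    · rintro ⟨⟨h1, h2⟩, h3⟩
      refine ⟨⟨h1, h2⟩, ?_⟩
      by_contra h4
      exact h3 ⟨h1, by omega⟩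
    · rintro ⟨⟨h1, h2⟩, h3⟩
      refine ⟨⟨h1, h2⟩, ?_⟩
      rintro ⟨_, h4⟩
      omega
  have key := triangulate (m := m) D' (fun e => e.2) (fun _ => ∅) (fun _ _ _ => le_refl _) (by
    intro e0 he0
    rw [hmem] at he0
    obtain ⟨a0, b0⟩ := e0
    obtain ⟨h1, h2⟩ := he0
    dsimp only at h1 h2
    set P : ℕ × ℕ → ℝ := fun e => ∏ β ∈ Finset.Ico (n - m) b0, ((e.2 : ℝ) - (β : ℝ)) with hP
    set Q : ℕ × ℕ → ℝ := fun e => ∏ a ∈ (Finset.range (n - b0)).erase a0, ((e.1 : ℝ) - (a : ℝ)) with hQ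
    have hPm : P ∈ PF ((Finset.Ico (n - m) b0).card + 1) :=
      PF_prod _ (fun (β : ℕ) (e : ℕ × ℕ) => (e.2 : ℝ) - (β : ℝ)) fun β _ => snd_sub_mem _
    have hQm : Q ∈ PF (((Finset.range (n - b0)).erase a0).card + 1) :=
      PF_prod _ (fun (a : ℕ) (e : ℕ × ℕ) => (e.1 : ℝ) - (a : ℝ)) fun a _ => fst_sub_mem _
    have hPQ := PF_mul hPm hQm
    have hcard : (Finset.Ico (n - m) b0).card + ((Finset.range (n - b0)).erase a0).card + 1 = m := by
      rw [Nat.card_Ico, Finset.card_erase_of_mem (Finset.mem_range.2 (by omega)), Finset.card_range]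
      omega
    rw [hcard] at hPQ
    have hP0 : P (a0, b0) ≠ 0 := by
      rw [hP]
      refine Finset.prod_ne_zero_iff.2 fun β hβ => ?_
      rw [Finset.mem_Ico] at hβ
      rw [sub_ne_zero]
      intro h
      have h3 : b0 = β := by exact_mod_cast h
      omega
    have hQ0 : Q (a0, b0) ≠ 0 := by
      rw [hQ]
      refine Finset.prod_ne_zero_iff.2 fun a ha => ?_
      rw [sub_ne_zero]
      intro h
      have h3 : a0 = a := by exact_mod_cast h
      exact (Finset.ne_of_mem_erase ha) h3.symm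
    refine ⟨(P (a0, b0) * Q (a0, b0))⁻¹ • (P * Q), Submodule.smul_mem _ _ hPQ, ?_, ?_, ?_⟩
    · rw [Pi.smul_apply, Pi.mul_apply, smul_eq_mul]
      exact inv_mul_cancel₀ (mul_ne_zero hP0 hQ0)
    · intro e he hne hle
      dsimp only at hle
      rw [hmem] at he
      rw [Pi.smul_apply, Pi.mul_apply, smul_eq_mul]
      rcases Nat.lt_or_ge e.2 b0 with h3 | h3
      · have h4 : P e = 0 := by
          rw [hP]
          exact Finset.prod_eq_zero (Finset.mem_Ico.2 ⟨he.2, h3⟩) (sub_self _)
        rw [h4, zero_mul, mul_zero]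
      · have h5 : e.2 = b0 := le_antisymm hle h3
        have h4 : Q e = 0 := by
          rw [hQ]
          refine Finset.prod_eq_zero (i := e.1) (Finset.mem_erase.2 ⟨?_, Finset.mem_range.2 (by omega)⟩)
            (sub_self _)
          intro h6
          exact hne (Prod.ext h6 h5)
        rw [h4, mul_zero, mul_zero]
    · intro e he
      exact absurd he (Set.notMem_empty _))
  refine one_point_desc (D' := D') (Finset.filter_subset _ _) ?_ (by rw [hdiff]; exact hI)
  intro e0 he0
  obtain ⟨f, h1, h2, h3, -⟩ := key e0 he0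
  refine ⟨f, h1, h2, h3, ?_⟩
  intro e he hlex
  exfalso
  rw [hdiff, mem_DL] at he
  rw [hmem] at he0
  exact hlex (Or.inl (by omega))

theorem fill {D : Finset (ℕ × ℕ)} {ms : List ℕ} (h : D.card ≤ ms.count 1) : InjD D ms := by
  classical
  induction hc : D.card generalizing D ms with
  | zero =>
    rw [Finset.card_eq_zero.1 hc]
    exact InjD.empty _
  | succ v ih =>
    have hne : D.Nonempty := Finset.card_pos.1 (by omega)
    have h1 : 1 ∈ ms := List.count_pos_iff.1 (by omega)
    obtain ⟨e0, he0, hmin⟩ := Finset.exists_min_image D (fun e => toLex (e.2, e.1)) hne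
    have hlt : ∀ e ∈ D, e ≠ e0 → lexlt e0 e := by
      intro e he hne'
      have h2 := hmin e he
      rw [Prod.Lex.toLex_le_toLex] at h2
      rcases h2 with h2 | ⟨h2, h3⟩
      · exact Or.inl h2
      · dsimp only at h2 h3
        refine Or.inr ⟨h2, lt_of_le_of_ne h3 fun h4 => hne' (Prod.ext h4.symm h2.symm)⟩
    have hI : InjD (D \ {e0}) (ms.erase 1) := by
      have hcard : (D \ {e0}).card = v := by
        rw [Finset.sdiff_singleton_eq_erase, Finset.card_erase_of_mem he0]
        omega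
      refine ih ?_ hcard
      rw [hcard, List.count_erase_self]
      omega
    have h2 : InjD D (1 :: ms.erase 1) := by
      refine one_point (D' := {e0}) (Finset.singleton_subset_iff.2 he0) ?_ hI
      intro e he
      rw [Finset.mem_singleton] at he
      subst he
      refine ⟨fun _ => 1, one_mem_PF le_rfl, rfl, ?_, ?_⟩
      · intro e' he' hne'
        exact absurd (Finset.mem_singleton.1 he') hne'
      · intro e' he' hl
        rw [Finset.mem_sdiff, Finset.mem_singleton] at he'
        exact absurd (hlt e' he'.1 he'.2) hl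
    exact h2.perm (List.perm_cons_erase h1).symm

theorem fill_good {D : Finset (ℕ × ℕ)} {v : ℕ} (h : v ≤ D.card) : GoodD D (List.replicate v 1) := by
  obtain ⟨E, hE, hcard⟩ := Finset.exists_subset_card_eq h
  refine ⟨E, hE, ?_, fill ?_⟩
  · rw [List.map_replicate, List.sum_replicate, T_one, hcard, smul_eq_mul, mul_one]
  · rw [List.count_replicate_self, hcard]

end Pool.Agent.Helper28.HH
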