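import Pool.Agent.Helper28.HH.StE4

/-!
# Project HH, Theorem E on lists (block HH-E5)
-/

set_option autoImplicit false

namespace Pool.Agent.Helper28.HH

/-- a point of larger multiplicity kills more -/
private lemma head_mono {D : Finset (ℕ × ℕ)} {m m' : ℕ} {ms : List ℕ} (hm : m ≤ m')
    (h : InjD D (m :: ms)) : InjD D (m' :: ms) := by
  obtain ⟨ps, hps, h⟩ := h
  match ps, hps with
  | q :: ps, hps =>
    simp only [List.map_cons, List.cons.injEq] at hps
    obtain ⟨h1, h2⟩ := hps
    refine ⟨(m', q.2) :: ps, by simp [h2], fun c hc => h c fun r hr => ?_⟩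
    rcases List.mem_cons.1 hr with rfl | hr
    · rw [h1]
      have h3 := hc (m', r.2) List.mem_cons_self
      exact fun f hf => h3 f (PF_mono hm hf)
    · exact hc r (List.mem_cons_of_mem _ hr)

/-- **Theorem E** on lists.  PROOF: if `n ≤ m1`: `top_corner` with `m = n` and `PF_mono` (a point of
multiplicity `m1 ≥ n` kills everything: `InjD (DS n 0) (n :: ms)` by `top_corner`, the rows `b < 0` are
empty, and `Kill m1` implies `Kill n`).  If `m1 < n`: `top_corner`, sort `ms` ascending (`InjD.perm`), `low_rows`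
with `u = 0`, `μ = S = 0` (`InvE n m1 0 0` is trivial). -/
theorem thmE {n m1 m2 : ℕ} {ms : List ℕ} (h21 : m2 ≤ m1) (hms : ∀ m ∈ ms, m ≤ m2)
    (h : 2 * T n + m1 * (m2 - 1) ≤ 2 * (T m1 + (ms.map T).sum)) :
    InjD (DS n (fun _ => 0)) (m1 :: ms) := by
  rcases Nat.lt_or_ge m1 n with hn | hn
  · refine top_corner hn.le ?_
    have hp : (ms.insertionSort (· ≤ ·)).Perm ms := List.perm_insertionSort _ _
    have hinv : InvE n m1 (fun _ => 0) 0 :=
      ⟨fun _ _ => Nat.zero_le _, fun _ _ _ => Or.inr rfl,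
        ⟨0, fun b hb => absurd hb (Nat.not_lt_zero b), fun _ _ _ => Or.inl rfl⟩,
        fun _ _ h1 => absurd h1 (by omega)⟩
    have key := low_rows h21 hn (ms.insertionSort (· ≤ ·))
      (List.pairwise_insertionSort _ _) (fun m hm => hms m (hp.mem_iff.1 hm)) (fun _ => 0) 0 0 hinv
      (fun m _ => Nat.zero_le m) (fun i _ _ => by simp)
      (by rw [(hp.map T).sum_eq]; simpa using h)
    exact key.perm hp
  · refine head_mono hn (top_corner le_rfl ?_)
    have h0 : DL n (n - n) (fun _ => 0) = ∅ := by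
      ext e
      rw [mem_DL, Nat.sub_self]
      simp
    rw [h0]
    exact InjD.empty _

end Pool.Agent.Helper28.HH
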