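import Pool.Agent.Helper28.HH.Defs

/-!
# Project HH: Taylor conditions imply the Euler conditions (block HH-TK)

PROOF.  `Kill` is linear in `f ∈ PF m` (`Submodule.span_induction`), so let `f = e.1^i * e.2^j`, `i + j < m`.
`(a:ℝ)^i = ∑_{k ≤ i} S i k * choose a k` with real numbers `S i k` not depending on `a` (induction on `i`:
`a * choose a k = (k+1) choose a (k+1) + k choose a k`), and
`choose a k * x^a = choose a k * x^k * x^(a-k)` (`choose a k = 0` for `a < k`).  So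
`∑ c_e e.1^i e.2^j x^e.1 y^e.2 = ∑_{k≤i, l≤j} S i k S j l x^k y^l ∑ c_e choose choose x^(a-k) y^(b-l) = 0`
because `k + l ≤ i + j < m`.
-/

set_option autoImplicit false

namespace Pool.Agent.Helper28.HH

private lemma choose_mul56 (a k : ℕ) :
    (a : ℝ) * (a.choose k : ℝ) = ((k : ℝ) + 1) * (a.choose (k + 1) : ℝ) + (k : ℝ) * (a.choose k : ℝ) := by
  have h : a * a.choose k = (k + 1) * a.choose (k + 1) + k * a.choose k := by
    rcases Nat.lt_or_ge a k with h | h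
    · rw [Nat.choose_eq_zero_of_lt h, Nat.choose_eq_zero_of_lt (show a < k + 1 by omega)]
      simp
    · have h1 := Nat.choose_succ_right_eq a k
      obtain ⟨d, rfl⟩ := Nat.exists_eq_add_of_le h
      rw [Nat.add_sub_cancel_left] at h1
      rw [mul_comm (k + 1), h1]
      ring
  exact_mod_cast h

/-- powers of the first exponent -/
private lemma kill_fst56 {m : ℕ} {p : ℝ × ℝ} {D : Finset (ℕ × ℕ)} {c : ℕ × ℕ → ℝ}
    (h : ∀ i j, i + j < m → ∑ e ∈ D, c e * ((e.1.choose i : ℝ) * (e.2.choose j : ℝ)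
      * p.1 ^ (e.1 - i) * p.2 ^ (e.2 - j)) = 0) (i : ℕ) :
    ∀ k l, i + k + l < m → ∑ e ∈ D, c e * ((e.1 : ℝ) ^ i * (e.1.choose k : ℝ) * (e.2.choose l : ℝ)) *
      (p.1 ^ e.1 * p.2 ^ e.2) = 0 := by
  induction i with
  | zero =>
    intro k l hkl
    have h1 : ∀ e ∈ D, c e * ((e.1 : ℝ) ^ 0 * (e.1.choose k : ℝ) * (e.2.choose l : ℝ)) *
        (p.1 ^ e.1 * p.2 ^ e.2) = p.1 ^ k * p.2 ^ l * (c e * ((e.1.choose k : ℝ) * (e.2.choose l : ℝ)
          * p.1 ^ (e.1 - k) * p.2 ^ (e.2 - l))) := by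
      intro e _
      rcases Nat.lt_or_ge e.1 k with h2 | h2
      · rw [Nat.choose_eq_zero_of_lt h2]
        simp
      rcases Nat.lt_or_ge e.2 l with h3 | h3
      · rw [Nat.choose_eq_zero_of_lt h3]
        simp
      have h4 : p.1 ^ e.1 = p.1 ^ k * p.1 ^ (e.1 - k) := by
        rw [← pow_add, Nat.add_sub_cancel' h2]
      have h5 : p.2 ^ e.2 = p.2 ^ l * p.2 ^ (e.2 - l) := by
        rw [← pow_add, Nat.add_sub_cancel' h3]
      rw [h4, h5]
      ring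
    rw [Finset.sum_congr rfl h1, ← Finset.mul_sum, h k l (by omega), mul_zero]
  | succ i ih =>
    intro k l hkl
    have h1 : ∀ e ∈ D, c e * ((e.1 : ℝ) ^ (i + 1) * (e.1.choose k : ℝ) * (e.2.choose l : ℝ)) *
        (p.1 ^ e.1 * p.2 ^ e.2) =
        ((k : ℝ) + 1) * (c e * ((e.1 : ℝ) ^ i * (e.1.choose (k + 1) : ℝ) * (e.2.choose l : ℝ)) *
          (p.1 ^ e.1 * p.2 ^ e.2)) +
        (k : ℝ) * (c e * ((e.1 : ℝ) ^ i * (e.1.choose k : ℝ) * (e.2.choose l : ℝ)) *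
          (p.1 ^ e.1 * p.2 ^ e.2)) := by
      intro e _
      have h2 := choose_mul56 e.1 k
      calc c e * ((e.1 : ℝ) ^ (i + 1) * (e.1.choose k : ℝ) * (e.2.choose l : ℝ)) *
            (p.1 ^ e.1 * p.2 ^ e.2)
          = c e * ((e.1 : ℝ) ^ i * ((e.1 : ℝ) * (e.1.choose k : ℝ)) * (e.2.choose l : ℝ)) *
            (p.1 ^ e.1 * p.2 ^ e.2) := by ring
        _ = _ := by rw [h2]; ring
    rw [Finset.sum_congr rfl h1, Finset.sum_add_distrib, ← Finset.mul_sum, ← Finset.mul_sum,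
      ih (k + 1) l (by omega), ih k l (by omega)]
    simp

/-- powers of both exponents -/
private lemma kill_snd56 {m : ℕ} {p : ℝ × ℝ} {D : Finset (ℕ × ℕ)} {c : ℕ × ℕ → ℝ}
    (h : ∀ i j, i + j < m → ∑ e ∈ D, c e * ((e.1.choose i : ℝ) * (e.2.choose j : ℝ)
      * p.1 ^ (e.1 - i) * p.2 ^ (e.2 - j)) = 0) (j : ℕ) :
    ∀ i l, i + j + l < m → ∑ e ∈ D, c e * ((e.1 : ℝ) ^ i * (e.2 : ℝ) ^ j * (e.2.choose l : ℝ)) *
      (p.1 ^ e.1 * p.2 ^ e.2) = 0 := by
  induction j with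
  | zero =>
    intro i l hil
    rw [← kill_fst56 h i 0 l (by omega)]
    refine Finset.sum_congr rfl fun e _ => ?_
    rw [Nat.choose_zero_right]
    push_cast
    ring
  | succ j ih =>
    intro i l hil
    have h1 : ∀ e ∈ D, c e * ((e.1 : ℝ) ^ i * (e.2 : ℝ) ^ (j + 1) * (e.2.choose l : ℝ)) *
        (p.1 ^ e.1 * p.2 ^ e.2) =
        ((l : ℝ) + 1) * (c e * ((e.1 : ℝ) ^ i * (e.2 : ℝ) ^ j * (e.2.choose (l + 1) : ℝ)) *
          (p.1 ^ e.1 * p.2 ^ e.2)) +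
        (l : ℝ) * (c e * ((e.1 : ℝ) ^ i * (e.2 : ℝ) ^ j * (e.2.choose l : ℝ)) *
          (p.1 ^ e.1 * p.2 ^ e.2)) := by
      intro e _
      have h2 := choose_mul56 e.2 l
      calc c e * ((e.1 : ℝ) ^ i * (e.2 : ℝ) ^ (j + 1) * (e.2.choose l : ℝ)) *
            (p.1 ^ e.1 * p.2 ^ e.2)
          = c e * ((e.1 : ℝ) ^ i * (e.2 : ℝ) ^ j * ((e.2 : ℝ) * (e.2.choose l : ℝ))) *
            (p.1 ^ e.1 * p.2 ^ e.2) := by ring
        _ = _ := by rw [h2]; ring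
    rw [Finset.sum_congr rfl h1, Finset.sum_add_distrib, ← Finset.mul_sum, ← Finset.mul_sum,
      ih i (l + 1) (by omega), ih i l (by omega)]
    simp

theorem taylor_kill {m : ℕ} {p : ℝ × ℝ} {D : Finset (ℕ × ℕ)} {c : ℕ × ℕ → ℝ}
    (h : ∀ i j, i + j < m → ∑ e ∈ D, c e * ((e.1.choose i : ℝ) * (e.2.choose j : ℝ)
      * p.1 ^ (e.1 - i) * p.2 ^ (e.2 - j)) = 0) : Kill m p D c := by
  intro f hf
  unfold PF at hf
  induction hf using Submodule.span_induction with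
  | mem f hf =>
    obtain ⟨i, j, hij, rfl⟩ := hf
    rw [← kill_snd56 h j i 0 (by omega)]
    refine Finset.sum_congr rfl fun e _ => ?_
    rw [Nat.choose_zero_right]
    push_cast
    ring
  | zero => simp
  | add f g _ _ hf hg =>
    have h1 : ∀ e ∈ D, c e * (f + g) e * (p.1 ^ e.1 * p.2 ^ e.2) =
        c e * f e * (p.1 ^ e.1 * p.2 ^ e.2) + c e * g e * (p.1 ^ e.1 * p.2 ^ e.2) := by
      intro e _
      rw [Pi.add_apply]
      ring
    rw [Finset.sum_congr rfl h1, Finset.sum_add_distrib, hf, hg, add_zero]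
  | smul a f _ hf =>
    have h1 : ∀ e ∈ D, c e * (a • f) e * (p.1 ^ e.1 * p.2 ^ e.2) =
        a * (c e * f e * (p.1 ^ e.1 * p.2 ^ e.2)) := by
      intro e _
      rw [Pi.smul_apply, smul_eq_mul]
      ring
    rw [Finset.sum_congr rfl h1, ← Finset.mul_sum, hf, mul_zero]

end Pool.Agent.Helper28.HH
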