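import Pool.Agent.Helper28.HH.GG
import Pool.Agent.Helper28.HH.TK
import Pool.Agent.Helper1.FH.Mat

/-!
# Project HH: from diagrams and from helper1's `Inj` to `FR`, `KR` (blocks HH-G3, HH-G4)

`FR d m p` iff `CM d m p` has a right inverse, `KR d m p` iff it has a left inverse (matrices over a field).  For real
points the same matrix over `ℝ` is used, its inverse is mapped to `ℂ`.

HH-G3.  `KR_of_injD`: `ps` real points with injectivity in the Euler form (`InjD`; `ps.map fst = List.ofFn m`, so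
`ps` has length `n` and gives `Fin n → ℝ × ℝ`).  The Taylor conditions imply the Euler conditions (`taylor_kill`), so
the real Taylor matrix at these points has trivial kernel, hence a left inverse; map it to `ℂ`.
`FR_of_goodD`: `E ⊆ DS (d+1) 0`, `card E = ∑ T (m i) = card (Cidx m)`, `InjD E`: the square submatrix of the columns `E` of
the real Taylor matrix has trivial kernel, so it is invertible; this gives a right inverse of the whole matrix (zero
rows outside `E`); map it to `ℂ`.

HH-G4.  `KR_of_inj`: the same from `InjAt` (coefficients of `F : ℝ[X][Y]`, `Low (d+1)`; helper1's `injAt_iff`, matrix `A`).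
`FR_of_inj`: at the given real points let `V` be the space of (real) polynomials of degree `≤ d` with the first `k`
conditions; the `v` simple points kill it, so `dim V ≤ v`; rank-nullity: the rank of the matrix with `∑ T (m i)` rows is
`≥ T (d+1) - v = ∑ T (m i)`, so its rows are independent, so it has a right inverse; map it to `ℂ`.
-/

set_option autoImplicit false

namespace Pool.Agent.Helper28.HH

/-- The real Taylor functional. -/
private noncomputable def g3r (s e : ℕ × ℕ) (q : ℝ × ℝ) : ℝ :=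
  (e.1.choose s.1 : ℝ) * (e.2.choose s.2 : ℝ) * q.1 ^ (e.1 - s.1) * q.2 ^ (e.2 - s.2)

/-- The complex points given by real points. -/
private noncomputable def g3p {n : ℕ} (q : Fin n → ℝ × ℝ) (i : Fin n) : Fin 2 → ℂ := ![((q i).1 : ℂ), ((q i).2 : ℂ)]

private theorem g3_CM {n d : ℕ} {m : Fin n → ℕ} (q : Fin n → ℝ × ℝ) (r : Cidx m) (e : Midx d) :
    CM d m (g3p q) r e = ((g3r (r.2.1.1, r.2.1.2) (e.1.1, e.1.2) (q r.1) : ℝ) : ℂ) := by
  unfold CM phi g3r g3p
  push_cast
  simp

private theorem g3_pts {n : ℕ} {m : Fin n → ℕ} {D : Finset (ℕ × ℕ)} (h : InjD D (List.ofFn m)) :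
    ∃ q : Fin n → ℝ × ℝ, ∀ c : ℕ × ℕ → ℝ, (∀ (i : Fin n) (s : ℕ × ℕ), s.1 + s.2 < m i → ∑ e ∈ D, c e * g3r s e (q i) = 0) →
      ∀ e ∈ D, c e = 0 := by
  obtain ⟨ps, hps, h⟩ := h
  have hl : ps.length = n := by
    have h1 := congrArg List.length hps
    rwa [List.length_map, List.length_ofFn] at h1
  subst hl
  have hm : ∀ i : Fin ps.length, (ps.get i).1 = m i := by
    intro i
    have h1 : (ps.map Prod.fst).get ⟨i, by rw [List.length_map]; exact i.2⟩ = (List.ofFn m).get ⟨i, by rw [List.length_ofFn]; exact i.2⟩ := by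
      have h2 := List.get_of_eq hps ⟨i, by rw [List.length_map]; exact i.2⟩
      exact h2
    simpa using h1
  refine ⟨fun i => (ps.get i).2, fun c hc => h c fun q hq => ?_⟩
  obtain ⟨i, rfl⟩ := List.get_of_mem hq
  refine taylor_kill fun a b hab => ?_
  rw [hm i] at hab
  exact hc i (a, b) hab

private theorem g3_re {ι : Type*} [Fintype ι] {f : ι → ℝ} {c : ι → ℂ} (h : ∑ i, ((f i : ℝ) : ℂ) * c i = 0) :
    ∑ i, f i * (c i).re = 0 ∧ ∑ i, f i * (c i).im = 0 := by
  constructor
  · have h1 := congrArg Complex.re h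
    rw [Complex.re_sum] at h1
    simpa using h1
  · have h1 := congrArg Complex.im h
    rw [Complex.im_sum] at h1
    simpa using h1

/-- The equivalence of a triangle with a diagram. -/
private def g3eq (d : ℕ) : Midx d ≃ (DS (d + 1) (fun _ => 0)) where
  toFun e := ⟨(e.1.1, e.1.2), by
    have := e.2
    rw [mem_DS]
    simp only
    omega⟩
  invFun e := ⟨(⟨e.1.1, by
      have := (mem_DS.1 e.2).1
      omega⟩, ⟨e.1.2, by
      have := (mem_DS.1 e.2).1
      omega⟩), by
    have := (mem_DS.1 e.2).1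
    simp only
    omega⟩
  left_inv e := rfl
  right_inv e := rfl

private theorem g3_sum {d : ℕ} {M : Type*} [AddCommMonoid M] (F : ℕ × ℕ → M) :
    ∑ e ∈ DS (d + 1) (fun _ => 0), F e = ∑ e : Midx d, F (e.1.1, e.1.2) := by
  rw [← Finset.sum_coe_sort]
  exact (Equiv.sum_comp (g3eq d) (fun e : DS (d + 1) (fun _ => 0) => F e)).symm

open Classical in
private noncomputable def g3ext {d : ℕ} (c : Midx d → ℝ) (e : ℕ × ℕ) : ℝ :=
  if h : e ∈ DS (d + 1) (fun _ => 0) then c ((g3eq d).symm ⟨e, h⟩) else 0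

private theorem g3ext_eq {d : ℕ} (c : Midx d → ℝ) (e : Midx d) : g3ext c (e.1.1, e.1.2) = c e := by
  have h : ((e.1.1 : ℕ), (e.1.2 : ℕ)) ∈ DS (d + 1) (fun _ => 0) := (g3eq d e).2
  unfold g3ext
  rw [dif_pos h]
  exact congrArg c ((g3eq d).symm_apply_apply e)

theorem KR_of_injD {n d : ℕ} {m : Fin n → ℕ} (h : InjD (DS (d + 1) (fun _ => 0)) (List.ofFn m)) :
    ∃ p0 : Fin n → Fin 2 → ℂ, KR d m p0 := by
  obtain ⟨q, hq⟩ := g3_pts h
  refine ⟨g3p q, fun c hc => ?_⟩
  have key : ∀ f : Midx d → ℝ, (∀ r : Cidx m, ∑ e : Midx d, g3r (r.2.1.1, r.2.1.2) (e.1.1, e.1.2) (q r.1) * f e = 0) → ∀ e, f e = 0 := by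
    intro f hf e
    rw [← g3ext_eq f e]
    refine hq (g3ext f) (fun i s hs => ?_) _ (g3eq d e).2
    rw [g3_sum]
    refine Eq.trans ?_ (hf ⟨i, ⟨(⟨s.1, by omega⟩, ⟨s.2, by omega⟩), hs⟩⟩)
    refine Finset.sum_congr rfl fun e _ => ?_
    rw [g3ext_eq, mul_comm]
  have h1 : ∀ r : Cidx m, ∑ e : Midx d, ((g3r (r.2.1.1, r.2.1.2) (e.1.1, e.1.2) (q r.1) : ℝ) : ℂ) * c e = 0 := by
    intro r
    have h2 := congrFun hc r
    rw [Pi.zero_apply, Matrix.mulVec, dotProduct] at h2
    rw [← h2]
    refine Finset.sum_congr rfl fun e _ => ?_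
    rw [g3_CM]
  funext e
  refine Complex.ext ?_ ?_
  · exact key (fun e => (c e).re) (fun r => (g3_re (h1 r)).1) e
  · exact key (fun e => (c e).im) (fun r => (g3_re (h1 r)).2) e

private theorem g3_card (k : ℕ) : Fintype.card {s : Fin k × Fin k // (s.1 : ℕ) + s.2 < k} = T k := by
  have e : {s : Fin k × Fin k // (s.1 : ℕ) + s.2 < k} ≃ (DS k (fun _ => 0)) :=
    { toFun := fun e => ⟨(e.1.1, e.1.2), by
        have := e.2
        rw [mem_DS]
        simp only
        omega⟩
      invFun := fun e => ⟨(⟨e.1.1, by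
          have := (mem_DS.1 e.2).1
          omega⟩, ⟨e.1.2, by
          have := (mem_DS.1 e.2).1
          omega⟩), by
        have := (mem_DS.1 e.2).1
        simp only
        omega⟩
      left_inv := fun e => rfl
      right_inv := fun e => rfl }
  rw [Fintype.card_congr e, Fintype.card_coe, card_DS]
  have h1 : ∑ b ∈ Finset.range k, (k - b - 0) = ∑ b ∈ Finset.range k, (b + 1) := by
    rw [← Finset.sum_range_reflect]
    refine Finset.sum_congr rfl fun b hb => ?_
    rw [Finset.mem_range] at hb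
    omega
  rw [h1]
  induction k with
  | zero => rfl
  | succ k ih => 
    rw [Finset.sum_range_succ, T_succ]
    congr 1
    have e0 : {s : Fin k × Fin k // (s.1 : ℕ) + s.2 < k} ≃ (DS k (fun _ => 0)) :=
      { toFun := fun e => ⟨(e.1.1, e.1.2), by
          have := e.2
          rw [mem_DS]
          simp only
          omega⟩
        invFun := fun e => ⟨(⟨e.1.1, by
            have := (mem_DS.1 e.2).1
            omega⟩, ⟨e.1.2, by
            have := (mem_DS.1 e.2).1
            omega⟩), by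
          have := (mem_DS.1 e.2).1
          simp only
          omega⟩
        left_inv := fun e => rfl
        right_inv := fun e => rfl }
    refine ih e0 ?_
    rw [← Finset.sum_range_reflect]
    refine Finset.sum_congr rfl fun b hb => ?_
    rw [Finset.mem_range] at hb
    omega

theorem FR_of_goodD {n d : ℕ} {m : Fin n → ℕ} (h : GoodD (DS (d + 1) (fun _ => 0)) (List.ofFn m)) :
    ∃ p0 : Fin n → Fin 2 → ℂ, FR d m p0 := by
  classical
  obtain ⟨E, hE, hcard, h⟩ := h
  obtain ⟨q, hq⟩ := g3_pts h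
  have hc : Fintype.card (Cidx m) = Fintype.card E := by
    rw [Fintype.card_coe, hcard, Fintype.card_sigma, List.map_ofFn, List.sum_ofFn]
    exact Finset.sum_congr rfl fun i _ => g3_card (m i)
  let ε : Cidx m ≃ E := Fintype.equivOfCardEq hc
  let A : Matrix (Cidx m) (Cidx m) ℝ := fun r s => g3r (r.2.1.1, r.2.1.2) (ε s : ℕ × ℕ) (q r.1)
  have hA : Function.Injective A.mulVec := by
    rw [← Matrix.coe_mulVecLin, ← LinearMap.ker_eq_bot, LinearMap.ker_eq_bot']
    intro f hf
    rw [Matrix.coe_mulVecLin] at hf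
    let c : ℕ × ℕ → ℝ := fun e => if he : e ∈ E then f (ε.symm ⟨e, he⟩) else 0
    have hcE : ∀ e : E, c e = f (ε.symm e) := fun e => by
      change (if he : (e : ℕ × ℕ) ∈ E then f (ε.symm ⟨e, he⟩) else 0) = _
      rw [dif_pos e.2]
    have h1 := hq c (fun i s hs => ?_)
    · funext s
      have h2 := h1 (ε s) (ε s).2
      rw [hcE, ε.symm_apply_apply] at h2
      exact h2
    · have h2 := congrFun hf ⟨i, ⟨(⟨s.1, by omega⟩, ⟨s.2, by omega⟩), hs⟩⟩
      rw [Pi.zero_apply, Matrix.mulVec, dotProduct] at h2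
      rw [← h2, ← Finset.sum_coe_sort]
      rw [← Equiv.sum_comp ε]
      refine Finset.sum_congr rfl fun e _ => ?_
      rw [hcE, ε.symm_apply_apply, mul_comm]
  have hA2 : Function.Injective A.vecMul := by
    rw [Matrix.vecMul_injective_iff_isUnit]
    rwa [Matrix.mulVec_injective_iff_isUnit] at hA
  refine ⟨g3p q, ?_⟩
  unfold FR
  rw [Fintype.linearIndependent_iff]
  intro c hc0
  have key : ∀ f : Cidx m → ℝ, (∀ e : Midx d, ∑ r : Cidx m, g3r (r.2.1.1, r.2.1.2) (e.1.1, e.1.2) (q r.1) * f r = 0) → ∀ r, f r = 0 := by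
    intro f hf r
    have h1 : A.vecMul f = A.vecMul 0 := by
      rw [Matrix.zero_vecMul]
      funext s
      rw [Pi.zero_apply, Matrix.vecMul, dotProduct]
      have h2 := hf ((g3eq d).symm ⟨(ε s : ℕ × ℕ), hE (ε s).2⟩)
      refine Eq.trans ?_ h2
      refine Finset.sum_congr rfl fun r _ => ?_
      rw [mul_comm]
      rfl
    exact congrFun (hA2 h1) r
  have h1 : ∀ e : Midx d, ∑ r : Cidx m, ((g3r (r.2.1.1, r.2.1.2) (e.1.1, e.1.2) (q r.1) : ℝ) : ℂ) * c r = 0 := by
    intro e
    have h2 := congrFun hc0 e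
    rw [Finset.sum_apply, Pi.zero_apply] at h2
    rw [← h2]
    refine Finset.sum_congr rfl fun r _ => ?_
    rw [Pi.smul_apply, smul_eq_mul, g3_CM, mul_comm]
  intro r
  refine Complex.ext ?_ ?_
  · exact key (fun r => (c r).re) (fun e => (g3_re (h1 e)).1) r
  · exact key (fun r => (c r).im) (fun e => (g3_re (h1 e)).2) r

end Pool.Agent.Helper28.HH
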