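import Pool.Agent.Helper28.HH.Qs1

/-!
# Project HH (block HH-QS2)

`QS.small`: `m0 i = m i` if `3 ≤ m i`, else `0`.  If `QS n d m0` then `QS n d m`.  PROOF: for a finset `S` of indices put
`m_S i = m i` if `i ∈ S` or `3 ≤ m i`, else `0`; `Finset.induction` with `QS.update` (if `m i = 0` or `m i ≥ 3` nothing
changes), `S = univ`.
-/

set_option autoImplicit false

namespace Pool.Agent.Helper28.HH

open MvPolynomial

theorem QS.small {n d : ℕ} {m : Fin n → ℕ} (h : QS n d (fun i => if 3 ≤ m i then m i else 0)) :
    QS n d m := by
  classical
  have key : ∀ S : Finset (Fin n), QS n d (fun i => if i ∈ S ∨ 3 ≤ m i then m i else 0) := by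
    intro S
    induction S using Finset.induction_on with
    | empty => simpa using h
    | insert a S ha ih =>
      by_cases h3 : 3 ≤ m a
      · have he : (fun i => if i ∈ insert a S ∨ 3 ≤ m i then m i else 0)
            = (fun i => if i ∈ S ∨ 3 ≤ m i then m i else 0) := by
          funext i
          by_cases hi : i = a
          · subst hi; simp [h3]
          · simp [hi]
        rw [he]; exact ih
      · by_cases h0 : m a = 0
        · have he : (fun i => if i ∈ insert a S ∨ 3 ≤ m i then m i else 0)
              = (fun i => if i ∈ S ∨ 3 ≤ m i then m i else 0) := by
            funext i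
            by_cases hi : i = a
            · subst hi; simp [h0]
            · simp [hi]
          rw [he]; exact ih
        · have h1 := QS.update ih a (by simp [ha, h3]) (m a) (by omega)
          have he : (fun i => if i ∈ insert a S ∨ 3 ≤ m i then m i else 0)
              = Function.update (fun i => if i ∈ S ∨ 3 ≤ m i then m i else 0) a (m a) := by
            funext i
            by_cases hi : i = a
            · subst hi; simp
            · simp [hi]
          rw [he]; exact h1
  have h2 := key Finset.univ
  simpa using h2

end Pool.Agent.Helper28.HH
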