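import Pool.Agent.Helper28.HH.StA
import Pool.Agent.Helper28.HH.StE
import Pool.Agent.Helper28.HH.G3
import Pool.Agent.Helper28.HH.Qs

/-!
# Project HH: final statements (block HH-FIN)

`sharpS`: `thmS` for the sorted list of the multiplicities (`List.ofFn m` is a permutation of `M1 :: M2 :: ms`; `n = 0`:
`GoodD.nil`; `n = 1`: `thmS` with `M2 = 0`, `ms = []`, and drop the zero: `Kill 0` is trivial, `PF 0 = ⊥`), `FR_of_goodD`,
`FR.generic`.  `sharpE`: `thmE`, `KR_of_injD`, `KR.generic`.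
-/

set_option autoImplicit false

namespace Pool.Agent.Helper28.HH

open MvPolynomial

private lemma sum6 {n : ℕ} (m : Fin n → ℕ) :
    ∑ i, ((m i : ℤ) * ((m i : ℤ) + 1)) = 2 * ((((List.ofFn m).map T).sum : ℕ) : ℤ) := by
  rw [List.map_ofFn, List.sum_ofFn, Nat.cast_sum, Finset.mul_sum]
  refine Finset.sum_congr rfl fun i _ => ?_
  have := two_T (m i)
  simp only [Function.comp_apply]
  exact_mod_cast this.symm

private lemma perm6 {n : ℕ} (m : Fin n → ℕ) (i1 : Fin n) :
    (List.ofFn m).Perm (m i1 :: ((Finset.univ.erase i1).toList.map m)) := by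
  rw [← Multiset.coe_eq_coe, ← Fin.univ_val_map, ← Multiset.cons_coe, ← Multiset.map_coe,
    Finset.coe_toList, ← Multiset.map_cons, Finset.erase_val,
    Multiset.cons_erase (Finset.mem_univ_val i1)]

private lemma perm6' {n : ℕ} (m : Fin n → ℕ) (i1 i2 : Fin n) (h : i2 ≠ i1) :
    (List.ofFn m).Perm
      (m i1 :: m i2 :: (((Finset.univ.erase i1).erase i2).toList.map m)) := by
  refine (perm6 m i1).trans (List.Perm.cons _ ?_)
  rw [← Multiset.coe_eq_coe, ← Multiset.cons_coe, ← Multiset.map_coe, ← Multiset.map_coe,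
    Finset.coe_toList, Finset.coe_toList, ← Multiset.map_cons, Finset.erase_val (Finset.univ.erase i1),
    Multiset.cons_erase (show i2 ∈ (Finset.univ.erase i1).val from
      Finset.mem_erase.mpr ⟨h, Finset.mem_univ _⟩)]

private lemma drop6 {D : Finset (ℕ × ℕ)} {ms : List ℕ} (h : GoodD D (0 :: ms)) : GoodD D ms := by
  obtain ⟨E, hE, hc, ps, hps, hinj⟩ := h
  refine ⟨E, hE, by simpa using hc, ?_⟩
  cases ps with
  | nil => simp at hps
  | cons q ps =>
    simp only [List.map_cons, List.cons.injEq] at hps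
    refine ⟨ps, hps.2, fun c hcc => hinj c fun r hr => ?_⟩
    rcases List.mem_cons.mp hr with rfl | hr
    · intro f hf
      have h0 : PF r.1 = ⊥ := by
        rw [hps.1, PF, Submodule.span_eq_bot]
        rintro _ ⟨i, j, hij, _⟩
        exact absurd hij (Nat.not_lt_zero _)
      rw [h0, Submodule.mem_bot] at hf
      subst hf
      simp
    · exact hcc r hr

theorem sharpS {n d : ℕ} {m : Fin n → ℕ}
    (h0 : 0 ≤ ((d : ℤ) + 1) * ((d : ℤ) + 2) - ∑ i, ((m i : ℤ) * ((m i : ℤ) + 1)))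
    (h : ∀ i j, i ≠ j → 1 ≤ m i → 1 ≤ m j → 2 * (((m i : ℤ) - 1) * ((m j : ℤ) - 1)) ≤
      ((d : ℤ) + 1) * ((d : ℤ) + 2) - ∑ i, ((m i : ℤ) * ((m i : ℤ) + 1))) :
    ∃ g : MvPolynomial (Fin n × Fin 2) ℂ, g ≠ 0 ∧ ∀ p : Fin n → Fin 2 → ℂ,
      MvPolynomial.eval (fun ij : Fin n × Fin 2 => p ij.1 ij.2) g ≠ 0 → FR d m p := by
  suffices hg : GoodD (DS (d + 1) (fun _ => 0)) (List.ofFn m) by
    obtain ⟨p0, hp0⟩ := FR_of_goodD hg
    exact hp0.generic
  rcases Nat.eq_zero_or_pos n with rfl | hn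
  · rw [List.ofFn_zero]
    exact GoodD.nil _
  obtain ⟨i1, -, hi1⟩ := Finset.exists_max_image (Finset.univ : Finset (Fin n)) m ⟨⟨0, hn⟩, Finset.mem_univ _⟩
  have hT := two_T (d + 1)
  have hs := sum6 m
  by_cases hne : (Finset.univ.erase i1).Nonempty
  · obtain ⟨i2, hi2, hmax⟩ := Finset.exists_max_image (Finset.univ.erase i1) m hne
    have h21 : i2 ≠ i1 := (Finset.mem_erase.mp hi2).1
    have hp := perm6' m i1 i2 h21
    refine GoodD.perm hp.symm (thmS (hi1 i2 (Finset.mem_univ _)) ?_ ?_)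
    · intro x hx
      obtain ⟨j, hj, rfl⟩ := List.mem_map.mp hx
      exact hmax j (Finset.mem_of_mem_erase (Finset.mem_toList.mp hj))
    · have hps := (hp.map T).sum_eq
      simp only [List.map_cons, List.sum_cons] at hps
      set S := ((((Finset.univ.erase i1).erase i2).toList.map m).map T).sum with hS
      rw [hps] at hs
      rcases Nat.eq_zero_or_pos (m i2) with h2 | h2
      · rw [h2, Nat.zero_sub, Nat.mul_zero]
        rw [h2] at hs
        rw [hs] at h0
        have : (2 * (T (m i1) + (T 0 + S)) : ℤ) ≤ 2 * T (d + 1) := by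
          have hT' : (2 * (T (d + 1) : ℤ)) = ((d : ℤ) + 1) * ((d : ℤ) + 2) := by
            have : ((2 * T (d + 1) : ℕ) : ℤ) = (((d + 1) * (d + 1 + 1) : ℕ) : ℤ) := by rw [hT]
            push_cast at this ⊢
            linarith
          rw [hT']
          push_cast at h0 ⊢
          linarith
        have h5 : 2 * (T (m i1) + (T 0 + S)) ≤ 2 * T (d + 1) := by exact_mod_cast this
        omega
      · have h1 : 1 ≤ m i1 := Nat.le_trans h2 (hi1 i2 (Finset.mem_univ _))
        have h6 := h i1 i2 h21.symm h1 h2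
        rw [hs] at h6
        have hT' : (2 * (T (d + 1) : ℤ)) = ((d : ℤ) + 1) * ((d : ℤ) + 2) := by
          have : ((2 * T (d + 1) : ℕ) : ℤ) = (((d + 1) * (d + 1 + 1) : ℕ) : ℤ) := by rw [hT]
          push_cast at this ⊢
          linarith
        have h7 : (((m i1 - 1) * (m i2 - 1) : ℕ) : ℤ) = ((m i1 : ℤ) - 1) * ((m i2 : ℤ) - 1) := by
          push_cast [Nat.cast_sub h1, Nat.cast_sub (show 1 ≤ m i2 from h2)]
          ring
        have h8 : (2 * ((((T (m i1) + T (m i2) + S + (m i1 - 1) * (m i2 - 1) : ℕ)) : ℤ))) ≤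
            2 * (T (d + 1) : ℤ) := by
          rw [hT', Nat.cast_add, h7]
          push_cast at h6 ⊢
          linarith
        have h9 : 2 * (T (m i1) + T (m i2) + S + (m i1 - 1) * (m i2 - 1)) ≤ 2 * T (d + 1) := by
          exact_mod_cast h8
        omega
  · have he : Finset.univ.erase i1 = ∅ := Finset.not_nonempty_iff_eq_empty.mp hne
    have hp := perm6 m i1
    rw [he, Finset.toList_empty, List.map_nil] at hp
    have hps := (hp.map T).sum_eq
    simp only [List.map_cons, List.sum_cons, List.map_nil, List.sum_nil] at hps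
    refine GoodD.perm hp.symm (drop6 (GoodD.perm (List.Perm.swap 0 (m i1) [])
      (thmS (M1 := m i1) (M2 := 0) (ms := []) (Nat.zero_le _) (by simp) ?_)))
    rw [hps] at hs
    rw [hs] at h0
    have hT' : (2 * (T (d + 1) : ℤ)) = ((d : ℤ) + 1) * ((d : ℤ) + 2) := by
      have : ((2 * T (d + 1) : ℕ) : ℤ) = (((d + 1) * (d + 1 + 1) : ℕ) : ℤ) := by rw [hT]
      push_cast at this ⊢
      linarith
    have h5 : (2 * (T (m i1) : ℤ)) ≤ 2 * T (d + 1) := by
      rw [hT']
      push_cast at h0 ⊢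
      linarith
    have h6 : 2 * T (m i1) ≤ 2 * T (d + 1) := by exact_mod_cast h5
    simp only [T_zero, List.map_nil, List.sum_nil, Nat.zero_sub, Nat.mul_zero, Nat.add_zero]
    omega

theorem sharpE {n d : ℕ} {m : Fin n → ℕ} (i1 : Fin n) (h1 : ∀ j, m j ≤ m i1)
    (h0 : ((d : ℤ) + 1) * ((d : ℤ) + 2) ≤ ∑ i, ((m i : ℤ) * ((m i : ℤ) + 1)))
    (h : ∀ j, j ≠ i1 → 1 ≤ m j → (m i1 : ℤ) * ((m j : ℤ) - 1) ≤
      ∑ i, ((m i : ℤ) * ((m i : ℤ) + 1)) - ((d : ℤ) + 1) * ((d : ℤ) + 2)) :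
    ∃ g : MvPolynomial (Fin n × Fin 2) ℂ, g ≠ 0 ∧ ∀ p : Fin n → Fin 2 → ℂ,
      MvPolynomial.eval (fun ij : Fin n × Fin 2 => p ij.1 ij.2) g ≠ 0 → KR d m p := by
  suffices hg : InjD (DS (d + 1) (fun _ => 0)) (List.ofFn m) by
    obtain ⟨p0, hp0⟩ := KR_of_injD hg
    exact hp0.generic
  have hT := two_T (d + 1)
  have hs := sum6 m
  have hp := perm6 m i1
  have hps := (hp.map T).sum_eq
  simp only [List.map_cons, List.sum_cons] at hps
  rw [hps] at hs
  have hT' : (2 * (T (d + 1) : ℤ)) = ((d : ℤ) + 1) * ((d : ℤ) + 2) := by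
    have : ((2 * T (d + 1) : ℕ) : ℤ) = (((d + 1) * (d + 1 + 1) : ℕ) : ℤ) := by rw [hT]
    push_cast at this ⊢
    linarith
  rw [hs, ← hT'] at h0
  have h0' : 2 * T (d + 1) ≤ 2 * (T (m i1) + (((Finset.univ.erase i1).toList.map m).map T).sum) := by
    exact_mod_cast h0
  by_cases hne : (Finset.univ.erase i1).Nonempty
  · obtain ⟨i2, hi2, hmax⟩ := Finset.exists_max_image (Finset.univ.erase i1) m hne
    have h21 : i2 ≠ i1 := (Finset.mem_erase.mp hi2).1
    refine InjD.perm hp.symm (thmE (m2 := m i2) (h1 i2) ?_ ?_)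
    · intro x hx
      obtain ⟨j, hj, rfl⟩ := List.mem_map.mp hx
      exact hmax j (Finset.mem_toList.mp hj)
    · rcases Nat.eq_zero_or_pos (m i2) with h2 | h2
      · rw [h2, Nat.zero_sub, Nat.mul_zero, Nat.add_zero]
        exact h0'
      · have h6 := h i2 h21 h2
        rw [hs, ← hT'] at h6
        have h7 : ((m i1 * (m i2 - 1) : ℕ) : ℤ) = (m i1 : ℤ) * ((m i2 : ℤ) - 1) := by
          push_cast [Nat.cast_sub (show 1 ≤ m i2 from h2)]
          ring
        rw [← h7] at h6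
        have h8 : ((2 * T (d + 1) + m i1 * (m i2 - 1) : ℕ) : ℤ) ≤
            ((2 * (T (m i1) + (((Finset.univ.erase i1).toList.map m).map T).sum) : ℕ) : ℤ) := by
          rw [Nat.cast_add]
          push_cast at h6 ⊢
          linarith
        exact_mod_cast h8
  · have he : Finset.univ.erase i1 = ∅ := Finset.not_nonempty_iff_eq_empty.mp hne
    refine InjD.perm hp.symm (thmE (m2 := 0) (Nat.zero_le _) ?_ ?_)
    · intro x hx
      rw [he, Finset.toList_empty, List.map_nil] at hx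
      exact absurd hx List.not_mem_nil
    · rw [Nat.zero_sub, Nat.mul_zero, Nat.add_zero]
      exact h0'

end Pool.Agent.Helper28.HH
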