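import Pool.Agent.Helper28.HH.StE3

/-!
# Project HH, Theorem E (block HH-E3b: the invariant persists); notation in InvE.lean
-/

set_option autoImplicit false

namespace Pool.Agent.Helper28.HH

/-- PROOF.  `u' = u + sl`.  V1: `sl ≤ r`.  V2: `drop`.  V3: `b1` = the least `b` with `u b = 0` (or `n - m1`): rows
below it have `u b ≥ 1`, and `drop` gives the strict inequality; rows `b ≥ b1` have `u b = 0` (V2 by
induction), `u' b = sl b ≤ ss b`, `ss_bound`.  V4: if `1 ≤ u b`, V4 and `hh' ≤ hh`; if `u b = 0`, `1 ≤ sl b ≤ ss b`,
`ss_bound`. -/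
theorem InvE.step {n m1 m : ℕ} {u : ℕ → ℕ} {μ : ℕ} (h : InvE n m1 u μ) (hμ : μ ≤ m) (hm : m ≤ m1) :
    InvE n m1 (fun b => u b + sl n m u b) m := by
  classical
  obtain ⟨V1, V2, V3, V4⟩ := h
  have hI : InvE n m1 u μ := ⟨V1, V2, V3, V4⟩
  have hhle : ∀ b, hh n (fun b => u b + sl n m u b) b 0 ≤ hh n u b 0 := by
    intro b
    unfold hh
    refine Finset.card_le_card (Finset.monotone_filter_right _ ?_)
    intro b' hb'
    simp only at hb' ⊢
    omega
  have hz : ∀ b c, u b = 0 → b + c < n - m1 → u (b + c) = 0 := by
    intro b c hb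
    induction c with
    | zero => intro _; exact hb
    | succ c ih =>
      intro hc
      have h1 := ih (by omega)
      have h2 := V2 (b + c) (by omega) (by omega)
      have h3 : b + (c + 1) = b + c + 1 := by omega
      rw [h3]
      omega
  refine ⟨?_, ?_, ?_, ?_⟩
  · intro b hb
    have h1 := V1 b hb
    have h2 := (sl_le n m u b).1
    show u b + sl n m u b ≤ n - b
    omega
  · intro b hb h1
    exact (drop hI hμ hm hb (by omega)).1
  · have hex : ∃ b, u b = 0 ∨ n - m1 ≤ b := ⟨n - m1, Or.inr le_rfl⟩
    refine ⟨Nat.find hex, ?_, ?_⟩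
    · intro b hb hb1 h1
      have h2 := Nat.find_min hex hb
      have h3 := (drop hI hμ hm hb1 (by omega)).2 (by omega)
      omega
    · intro b hb hbw
      have h2 := Nat.find_spec hex
      have h3 : u (Nat.find hex) = 0 := by
        rcases h2 with h2 | h2
        · exact h2
        · omega
      have h4 : u b = 0 := by
        have h5 := hz (Nat.find hex) (b - Nat.find hex) h3 (by omega)
        have h6 : Nat.find hex + (b - Nat.find hex) = b := by omega
        rwa [h6] at h5
      have h7 := (sl_le n m u b).2.2
      rcases ss_bound hI hμ hm b hbw with h8 | h8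
      · left
        omega
      · right
        omega
  · intro b hb h1
    have h7 := (sl_le n m u b).2.2
    by_cases h2 : 1 ≤ u b
    · have h3 := V4 b hb h2
      have h4 := hhle b
      omega
    · rcases ss_bound hI hμ hm b hb with h8 | h8
      · omega
      · omega

end Pool.Agent.Helper28.HH
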