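import Pool.Agent.Helper28.HH.InvA

/-!
# Project HH: Theorem S, `v ≥ (M1 - 1)(M2 - 1)` implies independence (block HH-STA2)

Points are placed in ascending order.  State: `r b = n - b - u b` (row `b` is `a ∈ [u b, n - b)`).
`InvA n u i F F' μ`: rows below `i` empty, rows `≥ F` untouched, `u` decreases by at least `1` (by at
least `2` below `F'`) on `[i,F)`, `u b + (b - i) ≤ μ` on `[max i F', F)`, `F ≤ i + μ`.
`R = card (DS n u) = ∑_{b<n} r b` (`card_DS`).

FACTS.  (a) `r` is nondecreasing on `[i,F]`: `r (b+1) ≥ r b` for `i ≤ b < F` (`A3`), strictly for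
`b < F'` (`A4`).  `r b = n - b` for `b ≥ F`.
(b) If `R ≥ T(m-1) + (m-1) μ + 1` and `μ ≤ m`, then `F + m ≤ n`.  Otherwise `h = n - F ≤ m - 1`, all rows of
`[i,F)` have `r ≤ h` (if `F ≤ n`: `r ≤ r F = h`; if `F > n` then `r = 0` for them by the same
monotonicity), so `R ≤ (F-i) h + T h ≤ μ (m-1) + T (m-1)`.
(c) If `R ≥ T(m-1) + (m-1) μ + T(μ-1) + 1` then no row `b` with `max i F' ≤ b < F` has `r b ≤ m - 1`:
otherwise with `σ = u b ≥ 1`: `n - b = r b + σ ≤ m - 1 + σ`, rows `[i,b)` have `r ≤ r b ≤ m-1`, so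
`R ≤ (m-1)(b-i) + T(n-b) - σ ≤ (m-1)(b-i) + T(m-1+σ) - σ = T(m-1) + (m-1)(b-i+σ) + T(σ-1)`, and
`b - i + σ ≤ μ` (`A5`).

`lastA` (last point, `R ≥ T(m-1)+(m-1)μ+1`): by (b) `F + m ≤ n`.  `GoodD.mono` from the diagram
`DS n ũ`, `ũ b = n` for `b < F`, `0` for `b ≥ F`; there `row_good` with `i = j = F`,
`s b = m - (b - F)` for `F ≤ b < F + m`, `0` otherwise, and `GoodD.nil`.
-/

set_option autoImplicit false

namespace Pool.Agent.Helper28.HH

private lemma sum_T32 (k : ℕ) : ∑ c ∈ Finset.range k, (k - c) = T k := by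
  induction k with
  | zero => simp
  | succ k ih =>
    rw [Finset.sum_range_succ', T_succ, ← ih]
    simp only [Nat.add_sub_add_right, Nat.sub_zero]

private lemma sum_bound32 {n i F h : ℕ} (r : ℕ → ℕ) (h0 : ∀ b, b < i → r b = 0)
    (h1 : ∀ b, i ≤ b → b < F → r b ≤ h) (h2 : ∀ b, F ≤ b → r b ≤ n - b) :
    ∑ b ∈ Finset.range n, r b ≤ (F - i) * h + T (n - F) := by
  have key : ∀ b ∈ Finset.range n, r b ≤
      (if b ∈ Finset.Ico i F then h else 0) + (if F ≤ b then n - b else 0) := by
    intro b _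
    by_cases hb : b < i
    · rw [h0 b hb]
      exact Nat.zero_le _
    · push Not at hb
      by_cases hF : b < F
      · rw [if_pos (Finset.mem_Ico.mpr ⟨hb, hF⟩)]
        exact (h1 b hb hF).trans (Nat.le_add_right _ _)
      · push Not at hF
        rw [if_pos hF]
        exact (h2 b hF).trans (Nat.le_add_left _ _)
  refine (Finset.sum_le_sum key).trans ?_
  rw [Finset.sum_add_distrib]
  refine Nat.add_le_add ?_ ?_
  · rw [Finset.sum_ite_mem, Finset.sum_const, smul_eq_mul]
    refine Nat.mul_le_mul_right _ ?_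
    refine (Finset.card_le_card Finset.inter_subset_right).trans ?_
    rw [Nat.card_Ico]
  · rw [← Finset.sum_filter]
    have h3 : (Finset.range n).filter (fun b => F ≤ b) = Finset.Ico F n := by
      ext b
      simp only [Finset.mem_filter, Finset.mem_range, Finset.mem_Ico]
      exact ⟨fun h => ⟨h.2, h.1⟩, fun h => ⟨h.2, h.1⟩⟩
    rw [h3, Finset.sum_Ico_eq_sum_range, ← sum_T32 (n - F)]
    refine le_of_eq (Finset.sum_congr rfl fun c _ => ?_)
    omega

private lemma mono32 {n : ℕ} {u : ℕ → ℕ} {i F F' μ : ℕ} (hI : InvA n u i F F' μ) :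
    ∀ k b, i ≤ b → b + k = F → n - b - u b ≤ n - F := by
  intro k
  induction k with
  | zero =>
    intro b _ hb
    subst hb
    omega
  | succ k ih =>
    intro b hb hk
    have h1 := hI.A3 b hb (by omega)
    have h2 := ih (b + 1) (by omega) (by omega)
    omega

theorem lastA {n m : ℕ} {u : ℕ → ℕ} {i F F' μ : ℕ} (hI : InvA n u i F F' μ) (hm : 1 ≤ m) (hμ : μ ≤ m)
    (hR : T (m - 1) + (m - 1) * μ + 1 ≤ (DS n u).card) : GoodD (DS n u) [m] := by
  have hFm : F + m ≤ n := by
    by_contra hcon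
    push Not at hcon
    have h1 : ∑ b ∈ Finset.range n, (n - b - u b) ≤ (F - i) * (n - F) + T (n - F) := by
      refine sum_bound32 (fun b => n - b - u b) hI.A0 ?_ ?_
      · intro b hb hF
        exact mono32 hI (F - b) b hb (by omega)
      · intro b _
        exact Nat.sub_le _ _
    rw [card_DS] at hR
    have h2 : n - F ≤ m - 1 := by omega
    have h3 : T (n - F) ≤ T (m - 1) := T_mono h2
    have h4 : F - i ≤ μ := by
      have := hI.A6
      omega
    have h5 : (F - i) * (n - F) ≤ μ * (m - 1) := Nat.mul_le_mul h4 h2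
    rw [mul_comm μ] at h5
    omega
  refine GoodD.mono (E := DS n (fun b => if b < F then n else 0)) ?_ ?_
  · intro e he
    rw [mem_DS] at he ⊢
    refine ⟨he.1, ?_⟩
    have h1 := he.2
    by_cases hF : e.2 < F
    · rw [if_pos hF] at h1
      omega
    · push Not at hF
      rw [hI.A1 _ hF]
      exact Nat.zero_le _
  · refine row_good (i := F) (j := F) (s := fun b => if F ≤ b ∧ b < F + m then m - (b - F) else 0)
      le_rfl (Nat.le_add_right _ _) ?_ ?_ ?_ ?_ ?_ ?_ ?_ ?_ ?_ (GoodD.nil _)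
    · intro b hb
      simp only [if_pos hb]
      omega
    · intro b h1 h2
      omega
    · intro b hb
      simp only [if_neg (not_lt.mpr hb)]
      split_ifs with h
      · omega
      · omega
    · intro b hb
      rw [if_neg (by omega)]
    · intro b hb
      rw [if_neg (by omega)]
    · intro b h1 h2
      rw [if_pos ⟨h1, h2⟩]
      omega
    · intro b h1 h2
      rw [if_pos (show F ≤ b ∧ b < F + m from ⟨h1, h2⟩)]
      split_ifs with h
      · omega
      · omega
    · intro x hx y hy hxy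
      simp only at hxy
      rw [Set.mem_Ico] at hx hy
      rw [if_pos hx, if_pos hy] at hxy
      omega
    · rw [Finset.sum_Ico_eq_sum_range, Nat.add_sub_cancel_left, ← sum_T32 m]
      refine Finset.sum_congr rfl fun c hc => ?_
      rw [Finset.mem_range] at hc
      rw [if_pos ⟨Nat.le_add_right _ _, by omega⟩]
      omega

end Pool.Agent.Helper28.HH
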