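import Pool.Agent.Helper28.HH.StA1
import Pool.Agent.Helper28.HH.StA2

/-!
# Project HH: Theorem S on lists (block HH-STA)

`stA`: induction on `pre`.  `pre = []`: `lastA`: `T M1 + (M1-1)(M2-1) ≥ T(M1-1) + (M1-1) μ + 1` because
`T M1 = T(M1-1) + M1`, `μ ≤ M2` (if `μ = 0` or `M2 = 0` directly).  `pre = m :: pre'`: `stepA` applies because
`R ≥ T m + T M1 + (M1-1)(M2-1) ≥ T(m-1)+(m-1)μ+T(μ-1)+1` (`μ ≤ m ≤ M2 ≤ M1`: the difference is `≥ m`
when `μ = M1 = M2 = m`).  New `μ = m ≤ M2`, the rest of the list is `≥ m` by sortedness.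
-/

set_option autoImplicit false

namespace Pool.Agent.Helper28.HH

theorem stA {n M1 M2 : ℕ} (h21 : M2 ≤ M1) (h1 : 1 ≤ M1) : ∀ pre : List ℕ, pre.Pairwise (· ≤ ·) →
    (∀ m ∈ pre, 1 ≤ m ∧ m ≤ M2) → ∀ (u : ℕ → ℕ) (i F F' μ : ℕ), InvA n u i F F' μ → μ ≤ M2 →
    (∀ m ∈ pre, μ ≤ m) →
    (pre.map T).sum + T M1 + (M1 - 1) * (M2 - 1) ≤ (DS n u).card → GoodD (DS n u) (pre ++ [M1]) := by
  intro pre
  induction pre with
  | nil =>
    intro _ _ u i F F' μ hI hμ _ hR
    rw [List.nil_append]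
    apply lastA hI h1 (hμ.trans h21)
    have e1 : T M1 = T (M1 - 1) + M1 := by
      have := T_succ (M1 - 1)
      rwa [Nat.sub_add_cancel h1] at this
    have e2 : (M1 - 1) * μ + 1 ≤ M1 + (M1 - 1) * (M2 - 1) := by
      rcases Nat.eq_zero_or_pos M2 with h0 | h0
      · have : μ = 0 := by omega
        rw [this, mul_zero]
        omega
      · have e3 : (M1 - 1) * μ ≤ (M1 - 1) * (M2 - 1 + 1) := Nat.mul_le_mul_left _ (by omega)
        rw [mul_add, mul_one] at e3
        omega
    simp only [List.map_nil, List.sum_nil] at hR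
    omega
  | cons m pre ih =>
    intro hp hb u i F F' μ hI hμ hle hR
    rw [List.pairwise_cons] at hp
    obtain ⟨hm1, hm2⟩ := hb m (List.mem_cons_self)
    have hμm : μ ≤ m := hle m (List.mem_cons_self)
    rw [List.map_cons, List.sum_cons] at hR
    have e1 : T m = T (m - 1) + m := by
      have := T_succ (m - 1)
      rwa [Nat.sub_add_cancel hm1] at this
    have e2 : T (μ - 1) ≤ T (m - 1) := T_mono (by omega)
    have e3 : T m ≤ T M1 := T_mono (by omega)
    have e4 : (m - 1) * (m - 1) ≤ (M1 - 1) * (M2 - 1) := Nat.mul_le_mul (by omega) (by omega)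
    have e5 : (m - 1) * μ ≤ (m - 1) * (m - 1) + (m - 1) := by
      calc (m - 1) * μ ≤ (m - 1) * (m - 1 + 1) := Nat.mul_le_mul_left _ (by omega)
        _ = (m - 1) * (m - 1) + (m - 1) := by rw [mul_add, mul_one]
    obtain ⟨u', i', F1, F1', hI', hc, hg⟩ := stepA hI hm1 hμm (by omega)
    rw [List.cons_append]
    apply hg
    exact ih hp.2 (fun x hx => hb x (List.mem_cons_of_mem _ hx)) u' i' F1 F1' m hI' hm2 hp.1 (by omega)

lemma sta_zero {D : Finset (ℕ × ℕ)} {ms : List ℕ} (h : GoodD D ms) : GoodD D (0 :: ms) := by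
  obtain ⟨E, hE, hc, hI⟩ := h
  exact ⟨E, hE, by simpa using hc, hI.cons 0⟩

lemma sta_zeros {D : Finset (ℕ × ℕ)} {ms : List ℕ} (h : GoodD D ms) :
    ∀ zs : List ℕ, (∀ z ∈ zs, z = 0) → GoodD D (zs ++ ms)
  | [], _ => h
  | z :: zs, hz => by
    have h0 : z = 0 := hz z (List.mem_cons_self)
    subst h0
    exact sta_zero (sta_zeros h zs (fun x hx => hz x (List.mem_cons_of_mem _ hx)))

lemma sta_sum_zeros : ∀ zs : List ℕ, (∀ z ∈ zs, z = 0) → (zs.map T).sum = 0
  | [], _ => rfl
  | z :: zs, hz => by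
    have h0 : z = 0 := hz z (List.mem_cons_self)
    subst h0
    rw [List.map_cons, List.sum_cons, sta_sum_zeros zs (fun x hx => hz x (List.mem_cons_of_mem _ hx)),
      T_zero]

/-- **Theorem S** on lists: `M1 ≥ M2 ≥` all other multiplicities.  PROOF: sort `ms` (`List.insertionSort`
or `mergeSort`, permutation), put `M2` at its end, `stA` with `u = 0`, `i = F = F' = μ = 0`, zero
multiplicities dropped (`GoodD D ms → GoodD D (0 :: ms)`), `GoodD.perm`; `card (DS n 0) = T n`. -/
theorem thmS {n M1 M2 : ℕ} {ms : List ℕ} (h21 : M2 ≤ M1) (hms : ∀ m ∈ ms, m ≤ M2)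
    (h : T M1 + T M2 + (ms.map T).sum + (M1 - 1) * (M2 - 1) ≤ T n) :
    GoodD (DS n (fun _ => 0)) (M1 :: M2 :: ms) := by
  classical
  rcases Nat.eq_zero_or_pos M1 with h0 | h1
  · have hz := sta_zeros (GoodD.nil (DS n (fun _ => 0))) (M1 :: M2 :: ms) (by
      intro z hz
      rw [List.mem_cons, List.mem_cons] at hz
      rcases hz with hz | hz | hz
      · omega
      · omega
      · have := hms z hz
        omega)
    rwa [List.append_nil] at hz
  set l0 : List ℕ := (M2 :: ms).filter (fun x => decide (x ≠ 0)) with hl0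
  set z0 : List ℕ := (M2 :: ms).filter (fun x => !decide (x ≠ 0)) with hz0
  have hperm : (l0 ++ z0).Perm (M2 :: ms) := List.filter_append_perm _ _
  have hz0' : ∀ z ∈ z0, z = 0 := by
    intro z hz
    rw [hz0, List.mem_filter] at hz
    simpa using hz.2
  have hl0' : ∀ m ∈ l0, 1 ≤ m ∧ m ≤ M2 := by
    intro m hm
    rw [hl0, List.mem_filter] at hm
    refine ⟨Nat.one_le_iff_ne_zero.2 (by simpa using hm.2), ?_⟩
    rcases List.mem_cons.1 hm.1 with h2 | h2
    · exact h2.le
    · exact hms m h2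
  have hsum : (l0.map T).sum = T M2 + (ms.map T).sum := by
    have e1 := (hperm.map T).sum_eq
    rw [List.map_append, List.sum_append, sta_sum_zeros z0 hz0', List.map_cons, List.sum_cons] at e1
    omega
  set l : List ℕ := l0.insertionSort (· ≤ ·) with hl
  have hlp : l.Perm l0 := List.perm_insertionSort _ _
  have hls : l.Pairwise (· ≤ ·) := List.pairwise_insertionSort _ _
  have hcard : (DS n (fun _ => 0)).card = T n := by
    rw [card_DS, ← sta1_sum_desc]
    rfl
  have hI : InvA n (fun _ => 0) 0 0 0 0 := by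
    refine ⟨?_, ?_, ?_, ?_, ?_, ?_, ?_, ?_⟩
    · intro b hb
      omega
    · intro b _
      rfl
    · intro b
      exact Nat.zero_le _
    · intro b _ hb
      omega
    · intro b _ hb
      omega
    · intro b _ _ hb
      omega
    · exact le_refl _
    · exact le_refl _
  have hgood := stA h21 h1 l hls (fun m hm => hl0' m (hlp.mem_iff.1 hm)) (fun _ => 0) 0 0 0 0 hI
    (Nat.zero_le _) (fun _ _ => Nat.zero_le _) (by
      rw [(hlp.map T).sum_eq, hsum, hcard]
      omega)
  have hg2 := sta_zeros hgood z0 hz0'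
  refine hg2.perm ?_
  refine (List.perm_append_comm (l₁ := z0)).trans ?_
  rw [List.append_assoc]
  have p1 : (l ++ ([M1] ++ z0)).Perm ([M1] ++ (l ++ z0)) := by
    rw [← List.append_assoc, ← List.append_assoc]
    exact List.perm_append_comm.append_right z0
  refine p1.trans ?_
  rw [List.singleton_append]
  exact ((hlp.append_right z0).trans hperm).cons M1

end Pool.Agent.Helper28.HH
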