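import Mathlib

/-!
# Project HH: a square system of falling factorials (block HH-BIN)

PROOF of `binom_solve` (square linear system with matrix `(c)_γ = descending factorial`,
`c ∈ [r-k,r)`, `γ ∈ G`, `G ⊆ [0,r)`, `card G = k`).  It is enough that the rows are independent: suppose
`∑_c y c * (c)_γ = 0` for all `γ ∈ G`.  For naturals `c, γ < r`:
`(c)_γ * (r-1-γ)! = c! * ∏_{l=c+1}^{r-1} (l - γ)` (both sides `0` if `γ > c`; otherwise
`(c)_γ = c!/(c-γ)!` and the product is `(r-1-γ)!/(c-γ)!`).  So the polynomial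
`R(t) = ∑_c y c * c! * ∏_{l=c+1}^{r-1} (l - t)`, of degree `≤ k - 1`, vanishes at the `k` points of `G`,
so `R = 0` (`Polynomial.eq_zero_of_degree_lt_of_eval_finset_eq_zero` or similar).  Evaluate at
`t = r-1, r-2, ..., r-k`: at `t = c` the terms with smaller index vanish and the term `c` is
`y c * c! * ∏_{l=c+1}^{r-1} (l - c) ≠ 0`-multiple of `y c`, so downward induction gives `y = 0`.
Then the square matrix (indexed by `Fin k` twice, `Finset.orderEmbOfFin` or `Finset.equivFin`) is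
invertible and the system has a solution for every right hand side.
-/

set_option autoImplicit false

namespace Pool.Agent.Helper28.HH

private theorem fall26 {c : ℕ} : ∀ {γ : ℕ}, γ ≤ c →
    (∏ t ∈ Finset.range γ, ((c : ℝ) - t)) * ((c - γ).factorial : ℝ) = (c.factorial : ℝ) := by
  intro γ
  induction γ with
  | zero => intro _; simp
  | succ γ ih =>
    intro h
    have h1 := ih (by omega)
    have h2 : c - γ = (c - (γ + 1)) + 1 := by omega
    rw [h2, Nat.factorial_succ, ← h2] at h1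
    rw [Finset.prod_range_succ, ← h1]
    push_cast [Nat.cast_sub (show γ ≤ c by omega)]
    ring

private theorem ident26 {r c γ : ℕ} (hc : c < r) (hγ : γ < r) :
    (∏ t ∈ Finset.range γ, ((c : ℝ) - t)) * ((r - 1 - γ).factorial : ℝ) =
      (c.factorial : ℝ) * ∏ l ∈ Finset.Ico (c + 1) r, ((l : ℝ) - γ) := by
  by_cases h : γ ≤ c
  · revert hγ
    refine Nat.le_induction ?_ ?_ r (Nat.succ_le_of_lt hc)
    · intro _
      rw [Finset.Ico_self, Finset.prod_empty, mul_one]
      exact fall26 h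
    · intro m hm ih _
      have h1 : γ < m := by omega
      have h2 := ih h1
      have h3 : m + 1 - 1 - γ = (m - 1 - γ) + 1 := by omega
      have h4 : ((m - 1 - γ + 1 : ℕ) : ℝ) = (m : ℝ) - γ := by
        have h5 : m - 1 - γ + 1 = m - γ := by omega
        rw [h5, Nat.cast_sub h1.le]
      rw [Finset.prod_Ico_succ_top (by omega), h3, Nat.factorial_succ, Nat.cast_mul, h4]
      linear_combination ((m : ℝ) - γ) * h2
  · have h1 : ∏ t ∈ Finset.range γ, ((c : ℝ) - t) = 0 :=
      Finset.prod_eq_zero (Finset.mem_range.2 (show c < γ by omega)) (sub_self _)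
    have h2 : ∏ l ∈ Finset.Ico (c + 1) r, ((l : ℝ) - γ) = 0 :=
      Finset.prod_eq_zero (Finset.mem_Ico.2 ⟨show c + 1 ≤ γ by omega, hγ⟩) (sub_self _)
    rw [h1, h2, zero_mul, mul_zero]

open Polynomial in
private theorem indep26 {r k : ℕ} (G : Finset ℕ) (hG : ∀ γ ∈ G, γ < r) (hk : G.card = k)
    (hkr : k ≤ r) (y : ℕ → ℝ)
    (hy : ∀ γ ∈ G, ∑ c ∈ Finset.Ico (r - k) r, y c * ∏ t ∈ Finset.range γ, ((c : ℝ) - t) = 0) :
    ∀ c ∈ Finset.Ico (r - k) r, y c = 0 := by
  let R : ℝ[X] := ∑ c ∈ Finset.Ico (r - k) r,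
    C (y c * (c.factorial : ℝ)) * ∏ l ∈ Finset.Ico (c + 1) r, (C (l : ℝ) - X)
  have hev : ∀ a : ℝ, R.eval a = ∑ c ∈ Finset.Ico (r - k) r,
      (y c * (c.factorial : ℝ)) * ∏ l ∈ Finset.Ico (c + 1) r, ((l : ℝ) - a) := by
    intro a
    simp only [R, eval_finsetSum, eval_mul, eval_C, eval_prod, eval_sub, eval_X]
  have hdeg : R.degree < ((G.image (Nat.cast : ℕ → ℝ)).card : ℕ) := by
    rw [Finset.card_image_of_injective _ Nat.cast_injective, hk]
    rcases Nat.eq_zero_or_pos k with h0 | h0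
    · have h1 : R = 0 := by
        simp only [R]
        rw [h0, Nat.sub_zero, Finset.Ico_self, Finset.sum_empty]
      rw [h1, degree_zero]
      exact WithBot.bot_lt_coe _
    · refine (degree_sum_le _ _).trans_lt ((Finset.sup_lt_iff (WithBot.bot_lt_coe _)).2 ?_)
      intro c hc
      rw [Finset.mem_Ico] at hc
      have h0' : (C (y c * (c.factorial : ℝ)) * ∏ l ∈ Finset.Ico (c + 1) r, (C (l : ℝ) - X)).degree ≤
          (∏ l ∈ Finset.Ico (c + 1) r, (C (l : ℝ) - X)).degree := by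
        refine (degree_mul_le _ _).trans ?_
        calc (C (y c * (c.factorial : ℝ))).degree + (∏ l ∈ Finset.Ico (c + 1) r, (C (l : ℝ) - X)).degree
            ≤ 0 + (∏ l ∈ Finset.Ico (c + 1) r, (C (l : ℝ) - X)).degree :=
              add_le_add degree_C_le le_rfl
          _ = _ := zero_add _
      refine lt_of_le_of_lt h0' ?_
      refine lt_of_le_of_lt (degree_prod_le _ _) ?_
      have h1 : ∑ l ∈ Finset.Ico (c + 1) r, (C (l : ℝ) - X).degree ≤
          ∑ l ∈ Finset.Ico (c + 1) r, (1 : WithBot ℕ) := by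
        refine Finset.sum_le_sum fun l _ => ?_
        refine (degree_sub_le _ _).trans (max_le ?_ degree_X_le)
        exact degree_C_le.trans (by norm_num)
      refine lt_of_le_of_lt h1 ?_
      rw [Finset.sum_const, Nat.card_Ico, nsmul_eq_mul, mul_one]
      exact_mod_cast (show r - (c + 1) < k by omega)
  have hR : R = 0 := by
    refine eq_zero_of_degree_lt_of_eval_finset_eq_zero _ hdeg fun a ha => ?_
    obtain ⟨γ, hγ, rfl⟩ := Finset.mem_image.1 ha
    rw [hev]
    have h1 : ∀ c ∈ Finset.Ico (r - k) r,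
        (y c * (c.factorial : ℝ)) * ∏ l ∈ Finset.Ico (c + 1) r, ((l : ℝ) - γ) =
          (y c * ∏ t ∈ Finset.range γ, ((c : ℝ) - t)) * ((r - 1 - γ).factorial : ℝ) := by
      intro c hc
      rw [mul_assoc, ← ident26 (Finset.mem_Ico.1 hc).2 (hG γ hγ), mul_assoc]
    rw [Finset.sum_congr rfl h1, ← Finset.sum_mul, hy γ hγ, zero_mul]
  have key : ∀ j : ℕ, ∀ c ∈ Finset.Ico (r - k) r, r ≤ c + j → y c = 0 := by
    intro j
    induction j with
    | zero =>
      intro c hc hj
      have h1 := (Finset.mem_Ico.1 hc).2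
      omega
    | succ j ih =>
      intro c hc hj
      have h1 := hev (c : ℝ)
      rw [hR, eval_zero, Finset.sum_eq_single c] at h1
      · have h2 : ∏ l ∈ Finset.Ico (c + 1) r, ((l : ℝ) - c) ≠ 0 := by
          refine Finset.prod_ne_zero_iff.2 fun l hl => ?_
          have h3 := (Finset.mem_Ico.1 hl).1
          have h4 : (c : ℝ) < l := by exact_mod_cast h3
          exact sub_ne_zero.2 h4.ne'
        have h5 : (c.factorial : ℝ) ≠ 0 := by exact_mod_cast c.factorial_ne_zero
        rcases mul_eq_zero.1 h1.symm with h6 | h6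
        · exact (mul_eq_zero.1 h6).resolve_right h5
        · exact absurd h6 h2
      · intro c' hc' hne
        rcases lt_or_gt_of_ne hne with h6 | h6
        · have h7 : ∏ l ∈ Finset.Ico (c' + 1) r, ((l : ℝ) - c) = 0 :=
            Finset.prod_eq_zero (Finset.mem_Ico.2 ⟨h6, (Finset.mem_Ico.1 hc).2⟩) (sub_self _)
          rw [h7, mul_zero]
        · rw [ih c' hc' (by omega), zero_mul, zero_mul]
      · intro h6
        exact absurd hc h6
  intro c hc
  exact key (r - c) c hc (by omega)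

theorem binom_solve {r k : ℕ} (G : Finset ℕ) (hG : ∀ γ ∈ G, γ < r) (hk : G.card = k) (hkr : k ≤ r)
    (rhs : ℕ → ℝ) : ∃ x : ℕ → ℝ, ∀ c, r - k ≤ c → c < r →
      ∑ γ ∈ G, x γ * (∏ t ∈ Finset.range γ, ((c : ℝ) - t)) = rhs c := by
  classical
  have hcard : Fintype.card {x // x ∈ G} = Fintype.card {x // x ∈ Finset.Ico (r - k) r} := by
    rw [Fintype.card_coe, Fintype.card_coe, Nat.card_Ico, hk]
    omega
  let e : {x // x ∈ G} ≃ {x // x ∈ Finset.Ico (r - k) r} := Fintype.equivOfCardEq hcard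
  let M : Matrix {x // x ∈ Finset.Ico (r - k) r} {x // x ∈ Finset.Ico (r - k) r} ℝ :=
    fun c d => ∏ t ∈ Finset.range (e.symm d).1, ((c.1 : ℝ) - t)
  have hinj : Function.Injective M.vecMul := by
    intro v w hvw
    have h0 : Matrix.vecMul (v - w) M = 0 := by
      rw [Matrix.sub_vecMul]
      exact sub_eq_zero.2 hvw
    let y : ℕ → ℝ := fun c => if h : c ∈ Finset.Ico (r - k) r then (v - w) ⟨c, h⟩ else 0
    have hy : ∀ γ ∈ G, ∑ c ∈ Finset.Ico (r - k) r, y c * ∏ t ∈ Finset.range γ, ((c : ℝ) - t) = 0 := by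
      intro γ hγ
      have h1 := congrFun h0 (e ⟨γ, hγ⟩)
      rw [← Finset.sum_coe_sort]
      refine Eq.trans (Finset.sum_congr rfl fun c _ => ?_) h1
      have h2 : y c.1 = (v - w) c := dif_pos c.2
      change y c.1 * _ = (v - w) c * ∏ t ∈ Finset.range (e.symm (e ⟨γ, hγ⟩)).1, ((c.1 : ℝ) - t)
      rw [h2, Equiv.symm_apply_apply]
    have h3 := indep26 G hG hk hkr y hy
    funext c
    have h4 : y c.1 = (v - w) c := dif_pos c.2
    have h5 := h3 c.1 c.2
    rw [h4] at h5
    exact sub_eq_zero.1 h5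
  have hunit : IsUnit M := Matrix.vecMul_injective_iff_isUnit.1 hinj
  obtain ⟨x, hx⟩ := Matrix.mulVec_surjective_iff_isUnit.2 hunit fun c => rhs c.1
  refine ⟨fun γ => if h : γ ∈ G then x (e ⟨γ, h⟩) else 0, fun c hc1 hc2 => ?_⟩
  have hc : c ∈ Finset.Ico (r - k) r := Finset.mem_Ico.2 ⟨hc1, hc2⟩
  have h1 := congrFun hx ⟨c, hc⟩
  refine Eq.trans ?_ h1
  rw [← Finset.sum_coe_sort]
  change _ = ∑ d, M ⟨c, hc⟩ d * x d
  rw [← Equiv.sum_comp e]
  refine Finset.sum_congr rfl fun γ _ => ?_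
  have h6 : (if h : γ.1 ∈ G then x (e ⟨γ.1, h⟩) else 0) = x (e γ) := dif_pos γ.2
  change (if h : γ.1 ∈ G then x (e ⟨γ.1, h⟩) else 0) * _ =
    (∏ t ∈ Finset.range (e.symm (e γ)).1, ((c : ℝ) - t)) * x (e γ)
  rw [h6, Equiv.symm_apply_apply, mul_comm]

end Pool.Agent.Helper28.HH
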