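import Pool.Agent.Helper28.HH.Defs
import Pool.Agent.Helper28.HH.TK
import Pool.Agent.Helper1.FH.Mat
import Pool.Agent.Helper1.FH.Sums

/-!
# Project HH: from monomial diagrams to helper1's states with items on the line (block HH-BR)

`bridge`.  `u b = ∑_k onsl (x k) b`.  By hypothesis (lists → functions) there are `p : ι → ℝ × ℝ` such that
`(∀ k, Kill (offm (x k)) (p k) (DS n u) c) → c = 0` on `DS n u`.  Let `ν : ι → ℝ` be injective.  For `τ : ℝ` and `e = (a,b)` in
`DS n u` let `B τ e = monomial b ((∏_k (X - C (τ ν_k))^(onsl (x k) b)) * X^(a - u b))`, of total degree `< n`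
(`a < n - b`).  Matrix `N(τ)`: rows `(k,i,j)`, `i, j < n + 1 + max`, entry `tc (B τ e) (p k).1 (p k).2 i j` if
`i + j < offm (x k)`, else `0`; columns `e ∈ DS n u`.  The entries are polynomial in `τ`, hence continuous.  At `τ = 0`,
`B 0 e = X^a Y^b` (`onsl` sum `= u b`), so `N(0).mulVec c = 0` says that `∑ c_e X^a Y^b` satisfies the Taylor
conditions of all off items, so `c = 0` (`taylor_kill`): trivial kernel.  The Gram determinant `det (N(τ)ᵀ N(τ))` is
continuous and `≠ 0` at `0`, so `≠ 0` for some `τ ≠ 0`.  For this `τ` let the point of the on item `k` be `(τ ν_k, 0)`,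
of the off item `k` be `p k`.  `InjAt`: let `F` be `Low n` with all conditions.  On items: `(X - τ ν_k)^(slice) ∣ F.coeff b`
for every `b` (`tc_w_zero`, the Taylor coefficients of `F.coeff b` at `τ ν_k` of order `< slice` vanish); these factors are
coprime for different `k`, so their product divides `F.coeff b`, the quotient has degree `< n - b - u b`; so
`F = ∑_{e ∈ DS n u} c_e B τ e`, and the off conditions give `N(τ).mulVec c = 0`, `c = 0`, `F = 0`.
-/

set_option autoImplicit false

namespace Pool.Agent.Helper28.HH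

open Pool.Agent.Helper1.FH (Item Inj InjAt Low tc Ok tot)

/-- slices of the on-items -/
def onsl : Item → ℕ → ℕ
  | .on m g, b => Pool.Agent.Helper1.FH.sl m g b
  | .off _, _ => 0

/-- multiplicity of the off-items -/
def offm : Item → ℕ
  | .on _ _ => 0
  | .off m => m

namespace Br

open Polynomial

/-- from lists to functions -/
lemma exists_fun {ι : Type} (f : ι → ℕ) (L : List ι) (hL : L.Nodup) (ps : List (ℕ × (ℝ × ℝ)))
    (h : ps.map Prod.fst = L.map f) : ∃ p : ι → ℝ × ℝ, ∀ q ∈ ps, ∃ k ∈ L, q = (f k, p k) := by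
  classical
  induction L generalizing ps with
  | nil =>
    refine ⟨fun _ => 0, ?_⟩
    cases ps with
    | nil => simp
    | cons q ps => simp at h
  | cons a L ih =>
    cases ps with
    | nil => simp at h
    | cons q ps =>
      rw [List.map_cons, List.map_cons, List.cons.injEq] at h
      rw [List.nodup_cons] at hL
      obtain ⟨p', hp'⟩ := ih hL.2 ps h.2
      refine ⟨Function.update p' a q.2, ?_⟩
      intro r hr
      rw [List.mem_cons] at hr
      rcases hr with rfl | hr
      · refine ⟨a, List.mem_cons_self, ?_⟩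
        rw [Function.update_self, ← h.1]
      · obtain ⟨k, hk, hrk⟩ := hp' r hr
        refine ⟨k, List.mem_cons_of_mem _ hk, ?_⟩
        rw [Function.update_of_ne, hrk]
        rintro rfl
        exact hL.1 hk

lemma tc_monomial_poly (P : Polynomial ℝ) (b : ℕ) (u w : ℝ) (i j : ℕ) :
    tc (monomial b P) u w i j = (b.choose j : ℝ) * w ^ (b - j) * (taylor u P).coeff i := by
  unfold tc
  rw [taylor_coeff (r := C w), hasseDeriv_monomial, eval_monomial]
  have h1 : ((b.choose j : ℕ) : Polynomial ℝ) * P * C w ^ (b - j)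
      = C ((b.choose j : ℝ) * w ^ (b - j)) * P := by
    rw [C_mul, C_pow, C_eq_natCast]
    ring
  rw [h1, taylor_mul, taylor_C, coeff_C_mul]

/-- coefficientwise continuous families of polynomials -/
def CC (P : ℝ → Polynomial ℝ) : Prop := ∀ i, Continuous (fun t => (P t).coeff i)

lemma CC.const (P : Polynomial ℝ) : CC (fun _ => P) := fun _ => continuous_const

lemma CC.mul {P Q : ℝ → Polynomial ℝ} (hP : CC P) (hQ : CC Q) : CC (fun t => P t * Q t) := by
  intro i
  simp only [coeff_mul]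
  exact continuous_finsetSum _ (fun x _ => (hP x.1).mul (hQ x.2))

lemma CC.pow {P : ℝ → Polynomial ℝ} (hP : CC P) (s : ℕ) : CC (fun t => P t ^ s) := by
  induction s with
  | zero =>
    simp only [pow_zero]
    exact CC.const 1
  | succ s ih =>
    simp only [pow_succ]
    exact ih.mul hP

lemma CC.prod {α : Type*} (s : Finset α) {P : α → ℝ → Polynomial ℝ} (hP : ∀ a ∈ s, CC (P a)) :
    CC (fun t => ∏ a ∈ s, P a t) := by
  classical
  induction s using Finset.induction_on with
  | empty =>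
    simp only [Finset.prod_empty]
    exact CC.const 1
  | insert a s ha ih =>
    simp only [Finset.prod_insert ha]
    exact (hP a (Finset.mem_insert_self _ _)).mul
      (ih (fun b hb => hP b (Finset.mem_insert_of_mem hb)))

lemma CC.lin (u ν : ℝ) : CC (fun t => X + C u - C (t * ν)) := by
  intro i
  simp only [coeff_sub, coeff_C]
  refine continuous_const.sub ?_
  split_ifs
  · exact continuous_id.mul continuous_const
  · exact continuous_const

/-- `∏ (X - t ν_k)^(s_k)` -/
noncomputable def Q {ι : Type} [Fintype ι] (ν : ι → ℝ) (s : ι → ℕ) (t : ℝ) : Polynomial ℝ :=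
  ∏ k, (X - C (t * ν k)) ^ s k

lemma taylor_prod' {α : Type*} (u : ℝ) (s : Finset α) (P : α → Polynomial ℝ) :
    taylor u (∏ a ∈ s, P a) = ∏ a ∈ s, taylor u (P a) := map_prod (taylorAlgHom u) P s

lemma CC_taylor_Q {ι : Type} [Fintype ι] (ν : ι → ℝ) (s : ι → ℕ) (u : ℝ) :
    CC (fun t => taylor u (Q ν s t)) := by
  have h : ∀ t, taylor u (Q ν s t) = ∏ k, (X + C u - C (t * ν k)) ^ s k := by
    intro t
    rw [Q, taylor_prod']
    refine Finset.prod_congr rfl (fun k _ => ?_)
    rw [taylor_pow, map_sub, taylor_X, taylor_C]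
  simp only [h]
  exact CC.prod _ (fun k _ => (CC.lin u (ν k)).pow (s k))

lemma Q_zero {ι : Type} [Fintype ι] (ν : ι → ℝ) (s : ι → ℕ) : Q ν s 0 = X ^ (∑ k, s k) := by
  unfold Q
  simp only [zero_mul, C_0, sub_zero]
  exact Finset.prod_pow_eq_pow_sum _ _ _

lemma Q_monic {ι : Type} [Fintype ι] (ν : ι → ℝ) (s : ι → ℕ) (t : ℝ) : (Q ν s t).Monic :=
  monic_prod_of_monic _ _ (fun _ _ => (monic_X_sub_C _).pow _)

lemma Q_natDegree {ι : Type} [Fintype ι] (ν : ι → ℝ) (s : ι → ℕ) (t : ℝ) :
    (Q ν s t).natDegree = ∑ k, s k := by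
  unfold Q
  rw [natDegree_prod_of_monic _ _ (fun k _ => (monic_X_sub_C _).pow _)]
  refine Finset.sum_congr rfl (fun k _ => ?_)
  rw [natDegree_pow, natDegree_X_sub_C, mul_one]

lemma Q_dvd {ι : Type} [Fintype ι] {ν : ι → ℝ} (hν : Function.Injective ν) (s : ι → ℕ) {t : ℝ}
    (ht : t ≠ 0) {G : Polynomial ℝ} (h : ∀ k, ∀ i < s k, (taylor (t * ν k) G).coeff i = 0) :
    Q ν s t ∣ G := by
  unfold Q
  refine Finset.prod_dvd_of_coprime ?_ ?_
  · intro k _ l _ hkl
    refine IsCoprime.pow (isCoprime_X_sub_C_of_isUnit_sub ?_)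
    rw [isUnit_iff_ne_zero, sub_ne_zero]
    intro he
    exact hkl (hν (mul_left_cancel₀ ht he))
  · intro k _
    rw [X_sub_C_pow_dvd_iff, X_pow_dvd_iff]
    intro i hi
    rw [← taylor_apply]
    exact h k i hi

/-- the basis polynomials -/
noncomputable def B {ι : Type} [Fintype ι] (ν : ι → ℝ) (x : ι → Item) (t : ℝ) (e : ℕ × ℕ) :
    Polynomial ℝ :=
  Q ν (fun k => onsl (x k) e.2) t * X ^ (e.1 - ∑ k, onsl (x k) e.2)

lemma B_zero {ι : Type} [Fintype ι] (ν : ι → ℝ) (x : ι → Item) (e : ℕ × ℕ)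
    (he : ∑ k, onsl (x k) e.2 ≤ e.1) : B ν x 0 e = monomial e.1 1 := by
  unfold B
  rw [Q_zero, ← pow_add, ← X_pow_eq_monomial]
  congr 1
  omega

lemma CC_taylor_B {ι : Type} [Fintype ι] (ν : ι → ℝ) (x : ι → Item) (e : ℕ × ℕ) (u : ℝ) :
    CC (fun t => taylor u (B ν x t e)) := by
  unfold B
  simp only [taylor_mul]
  exact (CC_taylor_Q ν _ u).mul (CC.const _)

/-- the matrix of the off conditions -/
noncomputable def N {ι : Type} [Fintype ι] (K : ℕ) (D : Finset (ℕ × ℕ)) (ν : ι → ℝ) (x : ι → Item)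
    (p : ι → ℝ × ℝ) (t : ℝ) : Matrix (ι × Fin K × Fin K) D ℝ :=
  fun r e => if (r.2.1 : ℕ) + r.2.2 < offm (x r.1) then
    tc (monomial e.1.2 (B ν x t e.1)) (p r.1).1 (p r.1).2 r.2.1 r.2.2 else 0

lemma continuous_N {ι : Type} [Fintype ι] (K : ℕ) (D : Finset (ℕ × ℕ)) (ν : ι → ℝ) (x : ι → Item)
    (p : ι → ℝ × ℝ) : Continuous (N K D ν x p) := by
  refine continuous_pi (fun r => continuous_pi (fun e => ?_))
  unfold N
  split_ifs with h
  · simp only [tc_monomial_poly]
    exact continuous_const.mul (CC_taylor_B ν x e.1 _ _)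
  · exact continuous_const

lemma mulVec_N {ι : Type} [Fintype ι] (K : ℕ) (D : Finset (ℕ × ℕ)) (ν : ι → ℝ) (x : ι → Item)
    (p : ι → ℝ × ℝ) (t : ℝ) (c : ℕ × ℕ → ℝ) (k : ι) (i j : Fin K) :
    (N K D ν x p t).mulVec (fun e : D => c e.1) (k, i, j)
      = if (i : ℕ) + j < offm (x k) then
          ∑ e ∈ D, c e * tc (monomial e.2 (B ν x t e)) (p k).1 (p k).2 i j else 0 := by
  unfold Matrix.mulVec dotProduct N
  split_ifs with h
  · rw [← Finset.sum_coe_sort D]
    refine Finset.sum_congr rfl (fun e _ => ?_)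
    simp only [h, if_true]
    ring
  · simp [h]

lemma det_ne_zero {α β : Type*} [Fintype α] [Fintype β] [DecidableEq β] (M : Matrix α β ℝ)
    (h : ∀ c, M.mulVec c = 0 → c = 0) : (M.transpose * M).det ≠ 0 := by
  intro h0
  rw [← Matrix.exists_mulVec_eq_zero_iff] at h0
  obtain ⟨c, hc, hc0⟩ := h0
  exact hc (h c (Pool.Agent.Helper1.FH.mulVec_eq_zero_of_gram _ _ hc0))

lemma ker_of_det {α β : Type*} [Fintype α] [Fintype β] [DecidableEq β] (M : Matrix α β ℝ)
    (h : (M.transpose * M).det ≠ 0) (c : β → ℝ) (hc : M.mulVec c = 0) : c = 0 := by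
  by_contra hne
  apply h
  rw [← Matrix.exists_mulVec_eq_zero_iff]
  refine ⟨c, hne, ?_⟩
  rw [← Matrix.mulVec_mulVec, hc, Matrix.mulVec_zero]

/-- expansion of a polynomial with the on conditions -/
lemma expand {ι : Type} [Fintype ι] {n : ℕ} {ν : ι → ℝ} {x : ι → Item} {t : ℝ}
    {F : Polynomial (Polynomial ℝ)} (hF : Low n F)
    (h : ∀ b, Q ν (fun k => onsl (x k) b) t ∣ F.coeff b) :
    ∃ c : ℕ × ℕ → ℝ, F = ∑ e ∈ DS n (fun b => ∑ k, onsl (x k) b),
      monomial e.2 (C (c e) * B ν x t e) := by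
  classical
  choose G hG using h
  have hdeg : ∀ b i, (G b).coeff i ≠ 0 → i + (∑ k, onsl (x k) b) + b < n := by
    intro b i hi
    have hG0 : G b ≠ 0 := by
      intro h0
      rw [h0] at hi
      simp at hi
    have h1 : i ≤ (G b).natDegree := le_natDegree_of_ne_zero hi
    have h2 : (F.coeff b).natDegree = (∑ k, onsl (x k) b) + (G b).natDegree := by
      rw [hG b, (Q_monic ν _ t).natDegree_mul' hG0, Q_natDegree]
    have h3 : F.coeff b ≠ 0 := by
      rw [hG b]
      exact mul_ne_zero (Q_monic ν _ t).ne_zero hG0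
    have h4 : (F.coeff b).coeff (F.coeff b).natDegree ≠ 0 := by
      rw [coeff_natDegree]
      exact leadingCoeff_ne_zero.2 h3
    by_contra hcon
    exact h4 (hF _ _ (by omega))
  refine ⟨fun e => (G e.2).coeff (e.1 - ∑ k, onsl (x k) e.2), ?_⟩
  refine Polynomial.ext (fun b => ?_)
  rw [finsetSum_coeff]
  have h1 : ∀ e ∈ DS n (fun b => ∑ k, onsl (x k) b),
      (monomial e.2 (C ((G e.2).coeff (e.1 - ∑ k, onsl (x k) e.2)) * B ν x t e)).coeff b
        = Q ν (fun k => onsl (x k) b) t * (if e.2 = b then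
            C ((G b).coeff (e.1 - ∑ k, onsl (x k) b)) * X ^ (e.1 - ∑ k, onsl (x k) b) else 0) := by
    intro e _
    rw [coeff_monomial]
    split_ifs with h2
    · subst h2
      unfold B
      ring
    · rw [mul_zero]
  rw [Finset.sum_congr rfl h1, ← Finset.mul_sum, hG b]
  congr 1
  refine Polynomial.ext (fun i => ?_)
  rw [finsetSum_coeff]
  by_cases hi : (G b).coeff i = 0
  · rw [hi]
    symm
    apply Finset.sum_eq_zero
    intro e _
    split_ifs with h2
    · rw [coeff_C_mul, coeff_X_pow]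
      split_ifs with h3
      · rw [← h3, hi, zero_mul]
      · rw [mul_zero]
    · simp
  · have h5 := hdeg b i hi
    rw [Finset.sum_eq_single (i + ∑ k, onsl (x k) b, b)]
    · simp
    · intro e he hne
      rw [mem_DS] at he
      split_ifs with h2
      · rw [coeff_C_mul, coeff_X_pow, if_neg, mul_zero]
        intro h3
        apply hne
        obtain ⟨e1, e2⟩ := e
        simp only at *
        subst h2
        rw [Prod.mk.injEq]
        exact ⟨by omega, rfl⟩
      · simp
    · intro h6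
      exact absurd (mem_DS.2 ⟨by simpa using h5, by simp⟩) h6

/-- the points -/
noncomputable def pt {ι : Type} (t : ℝ) (ν : ι → ℝ) (p : ι → ℝ × ℝ) (x : ι → Item) (k : ι) : ℝ × ℝ :=
  match x k with
  | .on _ _ => (t * ν k, 0)
  | .off _ => p k

lemma pt_on {ι : Type} (t : ℝ) (ν : ι → ℝ) (p : ι → ℝ × ℝ) (x : ι → Item) (k : ι) {m g : ℕ}
    (h : x k = .on m g) : pt t ν p x k = (t * ν k, 0) := by
  unfold pt
  rw [h]

lemma pt_off {ι : Type} (t : ℝ) (ν : ι → ℝ) (p : ι → ℝ × ℝ) (x : ι → Item) (k : ι) {m : ℕ}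
    (h : x k = .off m) : pt t ν p x k = p k := by
  unfold pt
  rw [h]

end Br

open Br Polynomial in
theorem bridge {ι : Type} [Fintype ι] {n : ℕ} (x : ι → Item)
    (h : InjD (DS n (fun b => ∑ k, onsl (x k) b)) ((Finset.univ : Finset ι).toList.map (fun k => offm (x k)))) :
    Inj n x := by
  classical
  obtain ⟨ps, hps, h⟩ := h
  obtain ⟨p, hp⟩ := exists_fun (fun k => offm (x k)) _ (Finset.nodup_toList _) ps hps
  set u : ℕ → ℕ := fun b => ∑ k, onsl (x k) b with hu
  have hkill : ∀ c : ℕ × ℕ → ℝ, (∀ k, Kill (offm (x k)) (p k) (DS n u) c) → ∀ e ∈ DS n u, c e = 0 := by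
    intro c hc
    refine h c (fun q hq => ?_)
    obtain ⟨k, _, rfl⟩ := hp q hq
    exact hc k
  -- injective parameters
  obtain ⟨ν, hν⟩ : ∃ ν : ι → ℝ, Function.Injective ν :=
    ⟨fun k => ((Fintype.equivFin ι k : ℕ) : ℝ), fun k l hkl => by
      apply (Fintype.equivFin ι).injective
      apply Fin.ext
      exact Nat.cast_injective (R := ℝ) hkl⟩
  set K : ℕ := ∑ k, offm (x k) with hK
  have hKle : ∀ k, offm (x k) ≤ K := fun k =>
    Finset.single_le_sum (f := fun k => offm (x k)) (fun _ _ => Nat.zero_le _) (Finset.mem_univ k)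
  -- `t = 0`
  have h0 : ∀ c : DS n u → ℝ, (N K (DS n u) ν x p 0).mulVec c = 0 → c = 0 := by
    intro c hc
    set c' : ℕ × ℕ → ℝ := fun e => if he : e ∈ DS n u then c ⟨e, he⟩ else 0 with hc'
    have hcc : c = fun e : DS n u => c' e.1 := by
      funext e
      have he := e.2
      simp only [hc', dif_pos he]
    rw [hcc] at hc
    have h1 : ∀ e ∈ DS n u, c' e = 0 := by
      refine hkill c' (fun k => taylor_kill (fun i j hij => ?_))
      have hk := hKle k
      have h2 := congrFun hc (k, ⟨i, by omega⟩, ⟨j, by omega⟩)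
      rw [mulVec_N, if_pos hij] at h2
      rw [Pi.zero_apply] at h2
      rw [← h2]
      refine Finset.sum_congr rfl (fun e he => ?_)
      rw [B_zero ν x e (mem_DS.1 he).2, Pool.Agent.Helper1.FH.tc_monomial, one_mul]
    rw [hcc]
    funext e
    exact h1 e.1 e.2
  have hcont : Continuous (fun t => ((N K (DS n u) ν x p t).transpose * N K (DS n u) ν x p t).det) := by
    have h1 := continuous_N K (DS n u) ν x p
    exact (h1.matrix_transpose.matrix_mul h1).matrix_det
  obtain ⟨t, ht, hdet⟩ : ∃ t : ℝ, t ≠ 0 ∧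
      ((N K (DS n u) ν x p t).transpose * N K (DS n u) ν x p t).det ≠ 0 := by
    have h1 : ∀ᶠ t in nhds (0 : ℝ),
        ((N K (DS n u) ν x p t).transpose * N K (DS n u) ν x p t).det ≠ 0 :=
      hcont.continuousAt.eventually_ne (det_ne_zero _ h0)
    have h2 : ∃ᶠ t in nhds (0 : ℝ), t ≠ 0 := by
      rw [Filter.frequently_iff_neBot]
      have : (nhdsWithin (0 : ℝ) {0}ᶜ).NeBot := inferInstance
      exact this
    obtain ⟨t, ht1, ht2⟩ := (h2.and_eventually h1).exists
    exact ⟨t, ht1, ht2⟩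
  refine ⟨pt t ν p x, ?_⟩
  intro F hF hcond
  have hdvd : ∀ b, Q ν (fun k => onsl (x k) b) t ∣ F.coeff b := by
    intro b
    refine Q_dvd hν _ ht (fun k i hi => ?_)
    have h1 := hcond k
    rcases hxk : x k with ⟨m, g⟩ | m
    · rw [pt_on t ν p x k hxk, hxk] at h1
      rw [hxk] at hi
      have h2 := h1 i b hi
      simp only [Item.y] at h2
      rw [Pool.Agent.Helper1.FH.tc_w_zero] at h2
      exact h2
    · rw [hxk] at hi
      simp [onsl] at hi
  obtain ⟨c, hc⟩ := expand hF hdvd
  have hker := ker_of_det _ hdet (fun e => c e.1) (by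
    funext ⟨k, i, j⟩
    rw [mulVec_N]
    split_ifs with hij
    · have h1 := hcond k
      rcases hxk : x k with ⟨m, g⟩ | m
      · rw [hxk] at hij
        simp [offm] at hij
      · rw [pt_off t ν p x k hxk, hxk] at h1
        rw [hxk] at hij
        have h2 := h1 i j (by simp only [Item.slice]; simp only [offm] at hij; omega)
        simp only [Item.y] at h2
        rw [hc, Pool.Agent.Helper1.FH.tc_sum] at h2
        rw [Pi.zero_apply, ← h2]
        refine Finset.sum_congr rfl (fun e _ => ?_)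
        rw [tc_monomial_poly, tc_monomial_poly, taylor_mul, taylor_C, coeff_C_mul]
        ring
    · rfl)
  rw [hc]
  apply Finset.sum_eq_zero
  intro e he
  have h3 := congrFun hker ⟨e, he⟩
  simp only [Pi.zero_apply] at h3
  rw [h3, C_0, zero_mul, map_zero]

end Pool.Agent.Helper28.HH
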