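import Pool.Agent.Helper28.HH.Row

/-!
# Project HH: crude phase (block HH-CR).  `r b = n - b - u b`.

`crude`.  `V(u) = ∑_{b<n, r b ≥ 1} (r b + (M - 1))`.  Claim: if `V(u) ≤ ∑ T m` and
`Sl : ∀ b ≥ i, u (b+1) + 1 ≤ u b ∨ u (b+1) = 0`, rows below `i` empty, then `InjD (DS n u) ms`.
Induction on `ms`.  `ms = []`: `V = 0`, so all rows are empty.  `ms = m :: ms'`: if all rows are empty, done
(`InjD.empty`).  Let `i'` be the first nonempty row (`≥ i`); all rows `i' ≤ b < n` are nonempty (`r (b+1) ≥ r b` if
`u (b+1) ≠ 0`, `r (b+1) = n - b - 1 ≥ 1` otherwise).  `crude_step` at `i'`, `s b = m - (b - i')` for `b ≥ i'`, `0` below.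
If `n - i' ≤ m` (or `m = 0` trivial): every row `b` gets `s b = m - (b - i') ≥ n - b ≥ r b`, all rows become empty
(if `m = 0` nothing changes, `T 0 = 0`).  Otherwise the rows `[i', i'+m)` are `< n`, nonempty, and `V` decreases
on each of them by at least `s b`: if `r b > s b` by `s b`; otherwise by `r b + M - 1 ≥ M ≥ s b`.  Total `T m`.
`Sl` persists: `s (b+1) ≤ s b`, and `s (b+1) + 1 ≤ s b` if `s (b+1) ≥ 1`, for `b ≥ i'`.
-/

set_option autoImplicit false

namespace Pool.Agent.Helper28.HH

private lemma sum_tri31 (m k : ℕ) : ∑ c ∈ Finset.range k, (m - c) + T (m - k) = T m := by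
  induction k with
  | zero => simp
  | succ k ih =>
    rw [Finset.sum_range_succ, add_assoc]
    have h : m - k + T (m - (k + 1)) = T (m - k) := by
      rcases Nat.eq_zero_or_pos (m - k) with h0 | h0
      · have h1 : m - (k + 1) = 0 := by omega
        rw [h0, h1]
        simp
      · obtain ⟨j, hj⟩ : ∃ j, m - k = j + 1 := ⟨m - k - 1, by omega⟩
        have h1 : m - (k + 1) = j := by omega
        rw [hj, h1, T_succ]
        omega
    rw [h, ih]

private lemma sum_step31 (m i : ℕ) : ∀ k : ℕ,
    ∑ b ∈ Finset.range (i + k), (if b < i then 0 else m - (b - i)) = ∑ c ∈ Finset.range k, (m - c) := by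
  intro k
  induction k with
  | zero =>
    rw [add_zero, Finset.range_zero, Finset.sum_empty]
    refine Finset.sum_eq_zero fun b hb => ?_
    rw [if_pos (Finset.mem_range.1 hb)]
  | succ k ih =>
    rw [← add_assoc, Finset.sum_range_succ, ih, Finset.sum_range_succ, if_neg (by omega), Nat.add_sub_cancel_left]

theorem crude {n M : ℕ} (hM : 1 ≤ M) : ∀ ms : List ℕ, (∀ m ∈ ms, m ≤ M) → ∀ (u : ℕ → ℕ) (i : ℕ),
    (∀ b, b < i → n - b - u b = 0) →
    (∀ b, i ≤ b → (u (b + 1) + 1 ≤ u b ∨ u (b + 1) = 0)) →
    ∑ b ∈ (Finset.range n).filter (fun b => 0 < n - b - u b), (n - b - u b + (M - 1)) ≤ (ms.map T).sum →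
    InjD (DS n u) ms := by
  intro ms
  induction ms with
  | nil =>
    intro _ u i _ _ hV
    have hD : DS n u = ∅ := by
      rw [Finset.eq_empty_iff_forall_notMem]
      rintro ⟨a, b⟩ he
      rw [mem_DS] at he
      dsimp only at he
      have hb : b ∈ (Finset.range n).filter (fun b => 0 < n - b - u b) :=
        Finset.mem_filter.2 ⟨Finset.mem_range.2 (by omega), by omega⟩
      have h1 := Finset.single_le_sum (f := fun b => n - b - u b + (M - 1)) (fun _ _ => Nat.zero_le _) hb
      simp only [List.map_nil, List.sum_nil] at hV
      have h2 := h1.trans hV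
      omega
    rw [hD]
    exact InjD.empty []
  | cons m ms ih =>
    intro hms u i h0 hSl hV
    by_cases hne : ∃ b, b < n ∧ 0 < n - b - u b
    · classical
      obtain ⟨i', ⟨hi'n, hi'⟩, hmin⟩ : ∃ i', (i' < n ∧ 0 < n - i' - u i') ∧ ∀ b, b < i' → n - b - u b = 0 := by
        refine ⟨Nat.find hne, Nat.find_spec hne, fun b hb => ?_⟩
        have h1 := Nat.find_min hne hb
        have h2 := (Nat.find_spec hne).1
        by_contra h3
        exact h1 ⟨by omega, by omega⟩
      have hii' : i ≤ i' := by
        by_contra hcon
        have := h0 i' (by omega)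
        omega
      have hm : m ≤ M := hms m (List.mem_cons_self ..)
      have hms' : ∀ x ∈ ms, x ≤ M := fun x hx => hms x (List.mem_cons_of_mem _ hx)
      -- all the rows from `i'` on are nonempty
      have hrow : ∀ k, i' + k < n → 0 < n - (i' + k) - u (i' + k) := by
        intro k
        induction k with
        | zero =>
          intro _
          exact hi'
        | succ k ihk =>
          intro hk
          have h1 := ihk (by omega)
          have h2 := hSl (i' + k) (by omega)
          have e : i' + (k + 1) = i' + k + 1 := by ring
          rw [e]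
          rcases h2 with h2 | h2
          · omega
          · omega
      refine crude_step hmin (ih hms' _ i' (fun b hb => ?_) (fun b hb => ?_) ?_)
      · rw [if_pos hb, add_zero]
        exact hmin b hb
      · rw [if_neg (by omega), if_neg (by omega)]
        rcases hSl b (by omega) with h1 | h1
        · left
          omega
        · by_cases h2 : m - (b + 1 - i') = 0
          · right
            omega
          · left
            omega
      · rw [Finset.sum_filter] at hV ⊢
        rw [List.map_cons, List.sum_cons] at hV
        rcases Nat.lt_or_ge (i' + m) n with hB | hA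
        · have h1 : ∑ b ∈ Finset.range n, (if b < i' then 0 else m - (b - i')) = T m := by
            have h2 := sum_step31 m i' (n - i')
            rw [show i' + (n - i') = n by omega] at h2
            have h3 := sum_tri31 m (n - i')
            rw [show m - (n - i') = 0 by omega, T_zero, add_zero] at h3
            rw [h2, h3]
          have h4 : ∑ b ∈ Finset.range n,
                (if 0 < n - b - (u b + if b < i' then 0 else m - (b - i')) then
                  n - b - (u b + if b < i' then 0 else m - (b - i')) + (M - 1) else 0) +
              ∑ b ∈ Finset.range n, (if b < i' then 0 else m - (b - i')) ≤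
              ∑ b ∈ Finset.range n, (if 0 < n - b - u b then n - b - u b + (M - 1) else 0) := by
            rw [← Finset.sum_add_distrib]
            refine Finset.sum_le_sum fun b hb => ?_
            have hbn := Finset.mem_range.1 hb
            by_cases hbi : b < i'
            · simp only [if_pos hbi, add_zero]
              exact le_rfl
            · simp only [if_neg hbi]
              have h5 := hrow (b - i') (by omega)
              rw [show i' + (b - i') = b by omega] at h5
              rw [if_pos h5]
              split_ifs with h6
              · omega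
              · omega
          rw [h1] at h4
          omega
        · refine le_trans (le_of_eq (Finset.sum_eq_zero fun b hb => ?_)) (Nat.zero_le _)
          have hbn := Finset.mem_range.1 hb
          by_cases hbi : b < i'
          · rw [if_neg]
            rw [if_pos hbi, add_zero, hmin b hbi]
            exact lt_irrefl 0
          · rw [if_neg]
            rw [if_neg hbi]
            omega
    · have hD : DS n u = ∅ := by
        rw [Finset.eq_empty_iff_forall_notMem]
        rintro ⟨a, b⟩ he
        rw [mem_DS] at he
        dsimp only at he
        exact hne ⟨b, by omega, by omega⟩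
      rw [hD]
      exact InjD.empty _

end Pool.Agent.Helper28.HH
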