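import Mathlib

/-!
# Project HH (MP_6ec8e4_ag): fat points in the plane, monomial diagrams. Definitions.

A diagram is a finite set `D` of exponents `(a,b)`.  `PF m` is the space of polynomial functions of
degree `< m` of the exponents.  A coefficient vector `c` is killed by the point `p` with multiplicity
`m` (Euler form of the Taylor conditions) when `∑ c_e f(e) p^e = 0` for all `f` in `PF m`.
-/

set_option autoImplicit false

namespace Pool.Agent.Helper28.HH

/-- Triangular numbers. -/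
def T (m : ℕ) : ℕ := m * (m + 1) / 2

/-- polynomial functions of degree `< m` in the exponents -/
def PF (m : ℕ) : Submodule ℝ (ℕ × ℕ → ℝ) :=
  Submodule.span ℝ {f | ∃ i j : ℕ, i + j < m ∧ f = fun e => (e.1 : ℝ) ^ i * (e.2 : ℝ) ^ j}

/-- `c` satisfies the conditions of multiplicity `m` at `p` (Euler form) -/
def Kill (m : ℕ) (p : ℝ × ℝ) (D : Finset (ℕ × ℕ)) (c : ℕ × ℕ → ℝ) : Prop :=
  ∀ f ∈ PF m, ∑ e ∈ D, c e * f e * (p.1 ^ e.1 * p.2 ^ e.2) = 0

/-- for suitable points no non-zero polynomial with exponents in `D` has the multiplicities `ms` -/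
def InjD (D : Finset (ℕ × ℕ)) (ms : List ℕ) : Prop :=
  ∃ ps : List (ℕ × (ℝ × ℝ)), ps.map Prod.fst = ms ∧
    ∀ c : ℕ × ℕ → ℝ, (∀ q ∈ ps, Kill q.1 q.2 D c) → ∀ e ∈ D, c e = 0

/-- the conditions `ms` are independent on `D` (for suitable points) -/
def GoodD (D : Finset (ℕ × ℕ)) (ms : List ℕ) : Prop :=
  ∃ E ⊆ D, E.card = (ms.map T).sum ∧ InjD E ms

/-- row-lexicographic order: first the row `b`, then `a` -/
def lexlt (e e' : ℕ × ℕ) : Prop := e.2 < e'.2 ∨ (e.2 = e'.2 ∧ e.1 < e'.1)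

/-- the diagram `{(a,b) : a + b < n, u b ≤ a}` -/
def DS (n : ℕ) (u : ℕ → ℕ) : Finset (ℕ × ℕ) :=
  (Finset.range n ×ˢ Finset.range n).filter (fun e => e.1 + e.2 < n ∧ u e.2 ≤ e.1)

/-- the low rows `b < w` of `DS n u` -/
def DL (n w : ℕ) (u : ℕ → ℕ) : Finset (ℕ × ℕ) :=
  (DS n u).filter (fun e => e.2 < w)

lemma two_T (m : ℕ) : 2 * T m = m * (m + 1) := by
  unfold T
  exact Nat.mul_div_cancel' (Nat.even_mul_succ_self m).two_dvd

lemma T_succ (m : ℕ) : T (m + 1) = T m + (m + 1) := by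
  have h1 := two_T m
  have h2 := two_T (m + 1)
  nlinarith

@[simp] lemma T_zero : T 0 = 0 := rfl

@[simp] lemma T_one : T 1 = 1 := rfl

lemma T_mono {a b : ℕ} (h : a ≤ b) : T a ≤ T b := by
  have h1 := two_T a
  have h2 := two_T b
  nlinarith

@[simp] lemma mem_DS {n : ℕ} {u : ℕ → ℕ} {e : ℕ × ℕ} : e ∈ DS n u ↔ e.1 + e.2 < n ∧ u e.2 ≤ e.1 := by
  unfold DS
  rw [Finset.mem_filter, Finset.mem_product, Finset.mem_range, Finset.mem_range]
  constructor
  · rintro ⟨_, h⟩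
    exact h
  · rintro ⟨h1, h2⟩
    exact ⟨⟨by omega, by omega⟩, h1, h2⟩

@[simp] lemma mem_DL {n w : ℕ} {u : ℕ → ℕ} {e : ℕ × ℕ} :
    e ∈ DL n w u ↔ (e.1 + e.2 < n ∧ u e.2 ≤ e.1) ∧ e.2 < w := by
  unfold DL
  rw [Finset.mem_filter, mem_DS]

/-- number of elements of a diagram, row by row -/
lemma card_DS (n : ℕ) (u : ℕ → ℕ) : (DS n u).card = ∑ b ∈ Finset.range n, (n - b - u b) := by
  classical
  have h : DS n u = (Finset.range n).biUnion
      (fun b => (Finset.Ico (u b) (n - b)).image (fun a => (a, b))) := by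
    ext ⟨a, b⟩
    simp only [mem_DS, Finset.mem_biUnion, Finset.mem_range, Finset.mem_image, Finset.mem_Ico,
      Prod.mk.injEq]
    constructor
    · rintro ⟨h1, h2⟩
      exact ⟨b, by omega, a, ⟨h2, by omega⟩, rfl, rfl⟩
    · rintro ⟨b', h1, a', ⟨h2, h3⟩, rfl, rfl⟩
      exact ⟨by omega, h2⟩
  rw [h, Finset.card_biUnion]
  · apply Finset.sum_congr rfl
    intro b _
    rw [Finset.card_image_of_injective, Nat.card_Ico]
    intro x y hxy
    simpa using hxy
  · intro x _ y _ hxy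
    rw [Function.onFun, Finset.disjoint_left]
    rintro ⟨a, b⟩ h1 h2
    simp only [Finset.mem_image, Finset.mem_Ico, Prod.mk.injEq] at h1 h2
    obtain ⟨_, _, _, rfl⟩ := h1
    obtain ⟨_, _, _, h3⟩ := h2
    exact hxy h3.symm

lemma InjD.mono {D E : Finset (ℕ × ℕ)} {ms : List ℕ} (hED : E ⊆ D) (h : InjD D ms) : InjD E ms := by
  classical
  obtain ⟨ps, hps, h⟩ := h
  refine ⟨ps, hps, fun c hc e he => ?_⟩
  set c' : ℕ × ℕ → ℝ := fun e => if e ∈ E then c e else 0 with hc'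
  have h1 := h c' (fun q hq f hf => ?_) e (hED he)
  · simpa [hc', he] using h1
  · rw [← hc q hq f hf, ← Finset.sum_subset hED]
    · apply Finset.sum_congr rfl
      intro x hx
      simp [hc', hx]
    · intro x _ hx
      simp [hc', hx]

lemma InjD.perm {D : Finset (ℕ × ℕ)} {ms ms' : List ℕ} (hp : ms.Perm ms') (h : InjD D ms) :
    InjD D ms' := by
  obtain ⟨ps, rfl, h⟩ := h
  have key : ∀ l l' : List ℕ, l.Perm l' → ∀ ps : List (ℕ × (ℝ × ℝ)), ps.map Prod.fst = l →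
      ∃ ps' : List (ℕ × (ℝ × ℝ)), ps'.map Prod.fst = l' ∧ ps'.Perm ps := by
    intro l l' hl
    induction hl with
    | nil => intro ps h; exact ⟨ps, h, List.Perm.refl _⟩
    | cons x _ ih =>
      intro ps h
      cases ps with
      | nil => simp at h
      | cons q ps =>
        simp only [List.map_cons, List.cons.injEq] at h
        obtain ⟨ps', h1, h2⟩ := ih ps h.2
        exact ⟨q :: ps', by simp [h.1, h1], h2.cons q⟩
    | swap x y l =>
      intro ps h
      match ps, h with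
      | q :: r :: ps, h =>
        simp only [List.map_cons, List.cons.injEq] at h
        exact ⟨r :: q :: ps, by simp [h.1, h.2.1, h.2.2], List.Perm.swap _ _ _⟩
    | trans _ _ ih1 ih2 =>
      intro ps h
      obtain ⟨ps1, h1, h2⟩ := ih1 ps h
      obtain ⟨ps2, h3, h4⟩ := ih2 ps1 h1
      exact ⟨ps2, h3, h4.trans h2⟩
  obtain ⟨ps', h1, h2⟩ := key _ _ hp ps rfl
  exact ⟨ps', h1, fun c hc => h c (fun q hq => hc q (h2.mem_iff.2 hq))⟩

/-- more conditions -/
lemma InjD.append {D : Finset (ℕ × ℕ)} {ms : List ℕ} (ms' : List ℕ) (h : InjD D ms) :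
    InjD D (ms' ++ ms) := by
  obtain ⟨ps, rfl, h⟩ := h
  refine ⟨ms'.map (fun m => (m, (0, 0))) ++ ps, ?_, fun c hc => h c (fun q hq => hc q ?_)⟩
  · rw [List.map_append, List.map_map]
    congr 1
    exact List.map_id _
  · exact List.mem_append_right _ hq

lemma InjD.cons {D : Finset (ℕ × ℕ)} {ms : List ℕ} (m : ℕ) (h : InjD D ms) : InjD D (m :: ms) :=
  h.append [m]

lemma InjD.empty (ms : List ℕ) : InjD ∅ ms :=
  ⟨ms.map (fun m => (m, (0, 0))), by rw [List.map_map]; exact List.map_id _, by simp⟩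

lemma GoodD.mono {D E : Finset (ℕ × ℕ)} {ms : List ℕ} (hED : E ⊆ D) (h : GoodD E ms) : GoodD D ms := by
  obtain ⟨F, hF, h1, h2⟩ := h
  exact ⟨F, hF.trans hED, h1, h2⟩

lemma GoodD.perm {D : Finset (ℕ × ℕ)} {ms ms' : List ℕ} (hp : ms.Perm ms') (h : GoodD D ms) :
    GoodD D ms' := by
  obtain ⟨E, hE, h1, h2⟩ := h
  exact ⟨E, hE, by rw [h1]; exact (hp.map T).sum_eq, h2.perm hp⟩

lemma GoodD.nil (D : Finset (ℕ × ℕ)) : GoodD D [] := ⟨∅, by simp, by simp, InjD.empty _⟩

end Pool.Agent.Helper28.HH
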