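import Pool.Agent.Helper28.HH.GG
import Pool.Agent.Helper1.FH.Mat

/-!
# Project HH: from helper1's `Inj` to `FR`, `KR` (block HH-G4)

`FR d m p` iff `CM d m p` has a right inverse, `KR d m p` iff it has a left inverse (matrices over a field).  For real
points the same matrix over `ℝ` is used, its inverse is mapped to `ℂ`.

`KR_of_inj`: from `InjAt` at real points (coefficients of `F : ℝ[X][Y]`, `Low (d+1)`; `injAt_iff`, `tc_poly`,
`mulVec_A`): the real matrix of the Taylor conditions has trivial kernel, hence a left inverse.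
`FR_of_inj`: at the given real points let `V` be the space of (real) polynomials of degree `≤ d` with the first `k`
conditions; the `v` simple points kill it, so `dim V ≤ v`; rank-nullity: the rank of the matrix with `∑ T (m i)` rows is
`≥ T (d+1) - v = ∑ T (m i)`, so its rows are independent, so it has a right inverse; map it to `ℂ`.
-/

set_option autoImplicit false

namespace Pool.Agent.Helper28.HH

open Pool.Agent.Helper1.FH (Item Inj InjAt B A poly tc)

/-- real Taylor functional -/
private noncomputable def phr19 (s e : ℕ × ℕ) (q : ℝ × ℝ) : ℝ :=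
  (e.1.choose s.1 : ℝ) * (e.2.choose s.2 : ℝ) * q.1 ^ (e.1 - s.1) * q.2 ^ (e.2 - s.2)

private noncomputable def pc19 {n : ℕ} (p : Fin n → ℝ × ℝ) : Fin n → Fin 2 → ℂ :=
  fun i => ![((p i).1 : ℂ), ((p i).2 : ℂ)]

private noncomputable def RM19 {n : ℕ} (d : ℕ) (m : Fin n → ℕ) (p : Fin n → ℝ × ℝ) :
    Matrix (Cidx m) (Midx d) ℝ :=
  fun r e => phr19 (r.2.1.1, r.2.1.2) (e.1.1, e.1.2) (p r.1)

private theorem CM_eq19 {n : ℕ} (d : ℕ) (m : Fin n → ℕ) (p : Fin n → ℝ × ℝ) (r : Cidx m) (e : Midx d) :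
    CM d m (pc19 p) r e = ((RM19 d m p r e : ℝ) : ℂ) := by
  simp [CM, phi, pc19, RM19, phr19]

private def eqv19 (d : ℕ) : B (d + 1) ≃ Midx d where
  toFun q := ⟨(q.1, ⟨q.2, by have := q.2.2; omega⟩), by
    have := q.2.2
    have := q.1.2
    show (q.1 : ℕ) + (q.2 : ℕ) ≤ d
    omega⟩
  invFun e := ⟨e.1.1, ⟨e.1.2, by have := e.2; omega⟩⟩
  left_inv q := by
    rcases q with ⟨q1, q2⟩
    rfl
  right_inv e := by
    rcases e with ⟨⟨e1, e2⟩, he⟩
    rfl

private theorem inj_mid19 {ι : Type} {d : ℕ} {x : ι → ℕ} {p : ι → ℝ × ℝ}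
    (h : InjAt (d + 1) (fun k => Item.off (x k)) p) (a : Midx d → ℝ)
    (ha : ∀ k s, s.1 + s.2 < x k → ∑ e : Midx d, a e * phr19 s (e.1.1, e.1.2) (p k) = 0) : a = 0 := by
  have h1 := (Pool.Agent.Helper1.FH.injAt_iff _ p).1 h (fun q => a (eqv19 d q)) (by
    funext ⟨k, i, j⟩
    rw [Pool.Agent.Helper1.FH.mulVec_A]
    split_ifs with hij
    · rw [Pool.Agent.Helper1.FH.tc_poly]
      have h2 := ha k ((i : ℕ), (j : ℕ)) (by
        show (i : ℕ) + (j : ℕ) < x k
        have h3 : (i : ℕ) < x k - (j : ℕ) := hij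
        omega)
      rw [Pi.zero_apply, ← h2, ← Equiv.sum_comp (eqv19 d)]
      refine Finset.sum_congr rfl fun q _ => ?_
      rfl
    · rfl)
  funext e
  have h2 := congrFun h1 ((eqv19 d).symm e)
  simpa using h2

private theorem card_tri19 (n : ℕ) :
    Fintype.card {s : Fin n × Fin n // (s.1 : ℕ) + s.2 < n} = T n := by
  have e : {s : Fin n × Fin n // (s.1 : ℕ) + s.2 < n} ≃ ((a : Fin n) × Fin (n - a)) :=
    { toFun := fun s => ⟨s.1.1, ⟨s.1.2, by have := s.2; omega⟩⟩
      invFun := fun q => ⟨(q.1, ⟨q.2, by have := q.2.2; omega⟩), by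
        have := q.2.2
        show (q.1 : ℕ) + (q.2 : ℕ) < n
        omega⟩
      left_inv := by
        rintro ⟨⟨s1, s2⟩, hs⟩
        rfl
      right_inv := by
        rintro ⟨q1, q2⟩
        rfl }
  rw [Fintype.card_congr e, Fintype.card_sigma]
  simp only [Fintype.card_fin]
  rw [Fin.sum_univ_eq_sum_range (fun a => n - a) n]
  induction n with
  | zero => rfl
  | succ n ih =>
    rw [Finset.sum_range_succ', T_succ]
    have h1 : ∀ k ∈ Finset.range n, n + 1 - (k + 1) = n - k := fun k _ => by omega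
    rw [Finset.sum_congr rfl h1]
    have e' : {s : Fin n × Fin n // (s.1 : ℕ) + s.2 < n} ≃ ((a : Fin n) × Fin (n - a)) :=
      { toFun := fun s => ⟨s.1.1, ⟨s.1.2, by have := s.2; omega⟩⟩
        invFun := fun q => ⟨(q.1, ⟨q.2, by have := q.2.2; omega⟩), by
          have := q.2.2
          show (q.1 : ℕ) + (q.2 : ℕ) < n
          omega⟩
        left_inv := by
          rintro ⟨⟨s1, s2⟩, hs⟩
          rfl
        right_inv := by
          rintro ⟨q1, q2⟩
          rfl }
    rw [ih e']
    omega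

private theorem card_Midx19 (d : ℕ) : Fintype.card (Midx d) = T (d + 1) := by
  rw [← card_tri19 (d + 1)]
  refine Fintype.card_congr (Equiv.subtypeEquivRight fun s => ?_)
  omega

private theorem card_Cidx19 {n : ℕ} (m : Fin n → ℕ) : Fintype.card (Cidx m) = ∑ i, T (m i) := by
  rw [Fintype.card_sigma]
  exact Finset.sum_congr rfl fun i _ => card_tri19 (m i)

theorem KR_of_inj {k d : ℕ} {m : Fin k → ℕ} (h : Inj (d + 1) (fun i : Fin k => Item.off (m i))) :
    ∃ p0 : Fin k → Fin 2 → ℂ, KR d m p0 := by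
  obtain ⟨p, hp⟩ := h
  refine ⟨pc19 p, fun c hc => ?_⟩
  have key : ∀ (F : ℂ →ₗ[ℝ] ℝ), (fun e => F (c e)) = 0 := by
    intro F
    refine inj_mid19 hp _ fun i s hs => ?_
    have h1 := congrFun hc ⟨i, ⟨(⟨s.1, by omega⟩, ⟨s.2, by omega⟩), hs⟩⟩
    have h2 : (∑ e : Midx d, CM d m (pc19 p) ⟨i, ⟨(⟨s.1, by omega⟩, ⟨s.2, by omega⟩), hs⟩⟩ e * c e) = 0 := h1
    have h3 := congrArg F h2
    rw [map_sum, map_zero] at h3
    rw [← h3]
    refine Finset.sum_congr rfl fun e _ => ?_
    rw [CM_eq19, ← Complex.real_smul, map_smul, smul_eq_mul, mul_comm]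
    rfl
  funext e
  apply Complex.ext
  · exact congrFun (key Complex.reLm) e
  · exact congrFun (key Complex.imLm) e

theorem FR_of_inj {k d v : ℕ} {m : Fin k → ℕ} (hv : ∑ i, T (m i) + v = T (d + 1))
    (h : Inj (d + 1) (Sum.elim (fun i : Fin k => Item.off (m i)) (fun _ : Fin v => Item.off 1))) :
    ∃ p0 : Fin k → Fin 2 → ℂ, FR d m p0 := by
  classical
  obtain ⟨p, hp⟩ := h
  have hx : (Sum.elim (fun i : Fin k => Item.off (m i)) (fun _ : Fin v => Item.off 1)) =
      fun q => Item.off (Sum.elim m (fun _ : Fin v => 1) q) := by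
    funext q
    cases q <;> rfl
  rw [hx] at hp
  set pk : Fin k → ℝ × ℝ := fun i => p (Sum.inl i) with hpk
  set M : Matrix (Cidx m) (Midx d) ℝ := RM19 d m pk with hM
  set E : Matrix (Fin v) (Midx d) ℝ := fun j e => phr19 (0, 0) (e.1.1, e.1.2) (p (Sum.inr j)) with hE
  -- the simple points kill the kernel
  have hker : ∀ a : Midx d → ℝ, M.mulVec a = 0 → E.mulVec a = 0 → a = 0 := by
    intro a h1 h2
    refine inj_mid19 hp a fun q s hs => ?_
    rcases q with i | j
    · have hs' : s.1 + s.2 < m i := hs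
      have h3 : (∑ e : Midx d, M ⟨i, ⟨(⟨s.1, by omega⟩, ⟨s.2, by omega⟩), hs'⟩⟩ e * a e) = 0 :=
        congrFun h1 ⟨i, ⟨(⟨s.1, by omega⟩, ⟨s.2, by omega⟩), hs'⟩⟩
      rw [← h3]
      refine Finset.sum_congr rfl fun e _ => ?_
      rw [mul_comm]
      rfl
    · have hs' : s.1 + s.2 < 1 := hs
      have hs0 : s = (0, 0) := by
        apply Prod.ext
        · show s.1 = 0
          omega
        · show s.2 = 0
          omega
      have h3 : (∑ e : Midx d, E j e * a e) = 0 := congrFun h2 j
      rw [← h3, hs0]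
      refine Finset.sum_congr rfl fun e _ => ?_
      rw [mul_comm]
  have hdim : Module.finrank ℝ (LinearMap.ker M.mulVecLin) ≤ v := by
    have h1 : Function.Injective (E.mulVecLin.comp (LinearMap.ker M.mulVecLin).subtype) := by
      rw [injective_iff_map_eq_zero]
      intro a ha
      have h2 : (a : Midx d → ℝ) = 0 := by
        refine hker a ?_ ha
        have := a.2
        rw [LinearMap.mem_ker] at this
        exact this
      exact Subtype.ext h2
    have h2 := LinearMap.finrank_le_finrank_of_injective h1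
    rwa [Module.finrank_fin_fun] at h2
  have hrk : Fintype.card (Cidx m) ≤ M.rank := by
    have h1 := LinearMap.finrank_range_add_finrank_ker M.mulVecLin
    rw [Module.finrank_pi, card_Midx19] at h1
    have h2 : M.rank = Module.finrank ℝ (LinearMap.range M.mulVecLin) := rfl
    rw [card_Cidx19, h2]
    omega
  have hli : LinearIndependent ℝ M.row := by
    rw [linearIndependent_iff_card_eq_finrank_span]
    refine le_antisymm ?_ (finrank_range_le_card _)
    rw [Matrix.rank_eq_finrank_span_row] at hrk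
    exact hrk
  have hinj : Function.Injective M.vecMul := Matrix.vecMul_injective_iff.mpr hli
  refine ⟨pc19 pk, ?_⟩
  refine Matrix.vecMul_injective_iff.mp ?_
  intro x y hxy
  have h1 : Matrix.vecMul (x - y) (CM d m (pc19 pk)) = 0 := by
    rw [Matrix.sub_vecMul]
    exact sub_eq_zero.mpr hxy
  have key : ∀ (F : ℂ →ₗ[ℝ] ℝ), (fun r => F ((x - y) r)) = 0 := by
    intro F
    apply hinj
    show Matrix.vecMul (fun r => F ((x - y) r)) M = Matrix.vecMul 0 M
    rw [Matrix.zero_vecMul]
    funext e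
    have h2 : (∑ r : Cidx m, (x - y) r * CM d m (pc19 pk) r e) = 0 := congrFun h1 e
    have h3 := congrArg F h2
    rw [map_sum, map_zero] at h3
    rw [Pi.zero_apply, ← h3]
    show (∑ r : Cidx m, F ((x - y) r) * M r e) = _
    refine Finset.sum_congr rfl fun r _ => ?_
    rw [CM_eq19, mul_comm ((x - y) r), ← Complex.real_smul, map_smul, smul_eq_mul, mul_comm]
  refine sub_eq_zero.mp ?_
  funext r
  apply Complex.ext
  · exact congrFun (key Complex.reLm) r
  · exact congrFun (key Complex.imLm) r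

end Pool.Agent.Helper28.HH
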