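import Pool.Agent.Helper28.HH.GG0

/-!
# Project HH: translation to polynomials (block HH-G2)
-/

set_option autoImplicit false

namespace Pool.Agent.Helper28.HH

open MvPolynomial

/-! ### HH-G2: translation to polynomials.  `h = ∑ c_e X0^e1 X1^e2` for `totalDegree h ≤ d`; the coefficient of
`s` in `aeval (X + C p) h` is `∑ c_e phi s e p`.  `Van m p h ↔ (CM d m p).mulVec c = 0`.  The set of the finrank is a
submodule isomorphic to the kernel of `(CM d m p).mulVecLin`; `card (Cidx m) = ∑ m_i (m_i+1)/2`,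
`card (Midx d) = (d+1)(d+2)/2`; independent rows: rank = `card (Cidx m)`, kernel of dimension
`card (Midx d) - card (Cidx m)`. -/

/-- exponent vector -/
noncomputable def ex61 (a b : ℕ) : Fin 2 →₀ ℕ := Finsupp.single 0 a + Finsupp.single 1 b

lemma ex61_zero (a b : ℕ) : ex61 a b 0 = a := by
  simp [ex61]

lemma ex61_one (a b : ℕ) : ex61 a b 1 = b := by
  simp [ex61]

lemma ex61_self (s : Fin 2 →₀ ℕ) : ex61 (s 0) (s 1) = s := by
  ext i
  fin_cases i
  · exact ex61_zero _ _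
  · exact ex61_one _ _

lemma ex61_eq {a b : ℕ} {s : Fin 2 →₀ ℕ} : ex61 a b = s ↔ a = s 0 ∧ b = s 1 := by
  constructor
  · rintro rfl
    exact ⟨(ex61_zero _ _).symm, (ex61_one _ _).symm⟩
  · rintro ⟨rfl, rfl⟩
    exact ex61_self s

private lemma monomial61 (a b : ℕ) (c : ℂ) :
    (monomial (ex61 a b) c : MvPolynomial (Fin 2) ℂ) = C c * (X 0 ^ a * X 1 ^ b) := by
  rw [X_pow_eq_monomial, X_pow_eq_monomial, monomial_mul, C_mul_monomial]
  simp [ex61]

private lemma coeff_lin61 (a b : ℕ) (q : Fin 2 → ℂ) (s : Fin 2 →₀ ℕ) :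
    coeff s (((X 0 + C (q 0)) ^ a * (X 1 + C (q 1)) ^ b : MvPolynomial (Fin 2) ℂ))
      = phi (s 0, s 1) (a, b) q := by
  have h1 : ((X 0 + C (q 0)) ^ a * (X 1 + C (q 1)) ^ b : MvPolynomial (Fin 2) ℂ)
      = ∑ k ∈ Finset.range (a + 1), ∑ l ∈ Finset.range (b + 1),
        monomial (ex61 k l) ((a.choose k : ℂ) * (b.choose l : ℂ) * q 0 ^ (a - k) * q 1 ^ (b - l)) := by
    rw [add_pow, add_pow, Finset.sum_mul_sum]
    refine Finset.sum_congr rfl fun k _ => Finset.sum_congr rfl fun l _ => ?_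
    rw [monomial61]
    simp only [map_mul, map_pow, map_natCast]
    ring
  rw [h1, coeff_sum]
  simp only [coeff_sum, coeff_monomial, ex61_eq]
  have h2 : ∀ k l : ℕ, (if k = s 0 ∧ l = s 1 then
      ((a.choose k : ℂ) * (b.choose l : ℂ) * q 0 ^ (a - k) * q 1 ^ (b - l)) else 0)
      = if k = s 0 then (if l = s 1 then
        ((a.choose k : ℂ) * (b.choose l : ℂ) * q 0 ^ (a - k) * q 1 ^ (b - l)) else 0) else 0 := by
    intro k l
    by_cases hk : k = s 0 <;> by_cases hl : l = s 1 <;> simp [hk, hl]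
  simp only [h2]
  have h3 : ∀ k : ℕ, (∑ l ∈ Finset.range (b + 1), if k = s 0 then (if l = s 1 then
        ((a.choose k : ℂ) * (b.choose l : ℂ) * q 0 ^ (a - k) * q 1 ^ (b - l)) else 0) else 0)
      = if k = s 0 then ((a.choose k : ℂ) * (b.choose (s 1) : ℂ) * q 0 ^ (a - k) * q 1 ^ (b - s 1))
        else 0 := by
    intro k
    by_cases hk : k = s 0
    · simp only [hk, if_true]
      rw [Finset.sum_ite_eq']
      split_ifs with h
      · rfl
      · rw [Finset.mem_range, not_lt] at h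
        rw [Nat.choose_eq_zero_of_lt (n := b) (by omega)]
        simp
    · simp [hk]
  simp only [h3]
  rw [Finset.sum_ite_eq']
  unfold phi
  split_ifs with h
  · rfl
  · rw [Finset.mem_range, not_lt] at h
    simp only
    rw [Nat.choose_eq_zero_of_lt (n := a) (by omega)]
    simp

/-- polynomial of a coefficient vector -/
noncomputable def L61 (d : ℕ) : (Midx d → ℂ) →ₗ[ℂ] MvPolynomial (Fin 2) ℂ :=
  ∑ e : Midx d, (monomial (ex61 (e.1.1 : ℕ) (e.1.2 : ℕ))).comp (LinearMap.proj e)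

lemma L61_apply (d : ℕ) (c : Midx d → ℂ) :
    L61 d c = ∑ e : Midx d, monomial (ex61 (e.1.1 : ℕ) (e.1.2 : ℕ)) (c e) := by
  simp [L61, LinearMap.sum_apply]

lemma coeff_L61 (d : ℕ) (c : Midx d → ℂ) (e : Midx d) :
    coeff (ex61 (e.1.1 : ℕ) (e.1.2 : ℕ)) (L61 d c) = c e := by
  classical
  rw [L61_apply, coeff_sum, Finset.sum_eq_single e]
  · simp
  · intro b _ hb
    rw [coeff_monomial, if_neg]
    intro h
    rw [ex61_eq, ex61_zero, ex61_one] at h
    exact hb (Subtype.ext (Prod.ext (Fin.ext h.1) (Fin.ext h.2)))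
  · intro h
    exact absurd (Finset.mem_univ e) h

lemma L61_inj (d : ℕ) : Function.Injective (L61 d) := by
  intro c c' h
  funext e
  rw [← coeff_L61 d c e, ← coeff_L61 d c' e, h]

lemma L61_coeff {d : ℕ} (h : MvPolynomial (Fin 2) ℂ) (hd : h.totalDegree ≤ d) :
    L61 d (fun e => coeff (ex61 (e.1.1 : ℕ) (e.1.2 : ℕ)) h) = h := by
  classical
  ext s
  by_cases hs : s 0 + s 1 ≤ d
  · have he := coeff_L61 d (fun e => coeff (ex61 (e.1.1 : ℕ) (e.1.2 : ℕ)) h)
      ⟨(⟨s 0, by omega⟩, ⟨s 1, by omega⟩), hs⟩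
    simp only [ex61_self] at he
    exact he
  · have h0 : coeff s h = 0 := by
      apply coeff_eq_zero_of_totalDegree_lt
      refine lt_of_le_of_lt hd ?_
      have : ∑ i ∈ s.support, s i = s 0 + s 1 := by
        rw [Finset.sum_subset (Finset.subset_univ _)]
        · exact Fin.sum_univ_two _
        · intro x _ hx
          exact Finsupp.notMem_support_iff.mp hx
      rw [this]
      omega
    rw [h0, L61_apply, coeff_sum]
    refine Finset.sum_eq_zero fun e _ => ?_
    rw [coeff_monomial, if_neg]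
    intro h
    rw [ex61_eq] at h
    have := e.2
    omega

lemma totalDegree_L61 (d : ℕ) (c : Midx d → ℂ) : (L61 d c).totalDegree ≤ d := by
  rw [L61_apply]
  refine totalDegree_finsetSum_le fun e _ => ?_
  refine (totalDegree_monomial_le _ _).trans ?_
  have : (ex61 (e.1.1 : ℕ) (e.1.2 : ℕ)).sum (fun _ k => k) = (e.1.1 : ℕ) + e.1.2 := by
    rw [Finsupp.sum_fintype _ _ (fun _ => rfl), Fin.sum_univ_two, ex61_zero, ex61_one]
  exact this.le.trans e.2

lemma coeff_aeval61 {d : ℕ} (c : Midx d → ℂ) (q : Fin 2 → ℂ) (s : Fin 2 →₀ ℕ) :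
    coeff s (aeval (fun j : Fin 2 => (X j + C (q j) : MvPolynomial (Fin 2) ℂ)) (L61 d c))
      = ∑ e : Midx d, phi (s 0, s 1) (e.1.1, e.1.2) q * c e := by
  rw [L61_apply, map_sum, coeff_sum]
  refine Finset.sum_congr rfl fun e _ => ?_
  rw [monomial61, map_mul, map_mul, map_pow, map_pow, aeval_X, aeval_X, algHom_C, algebraMap_eq,
    coeff_C_mul, coeff_lin61, mul_comm]

private lemma van_L61 {n d : ℕ} {m : Fin n → ℕ} {p : Fin n → Fin 2 → ℂ} (c : Midx d → ℂ) :
    Van m p (L61 d c) ↔ (CM d m p).mulVec c = 0 := by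
  constructor
  · intro h
    funext r
    have := h r.1 (ex61 r.2.1.1 r.2.1.2) (by rw [ex61_zero, ex61_one]; exact r.2.2)
    rw [coeff_aeval61, ex61_zero, ex61_one] at this
    exact this
  · intro h i s hs
    rw [coeff_aeval61]
    have := congrFun h ⟨i, ⟨(⟨s 0, by omega⟩, ⟨s 1, by omega⟩), hs⟩⟩
    exact this

theorem van_iff {n d : ℕ} {m : Fin n → ℕ} {p : Fin n → Fin 2 → ℂ} (h : MvPolynomial (Fin 2) ℂ)
    (hd : h.totalDegree ≤ d) :
    Van m p h ↔ (CM d m p).mulVec
      (fun e => h.coeff (Finsupp.single 0 (e.1.1 : ℕ) + Finsupp.single 1 (e.1.2 : ℕ))) = 0 := by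
  have h1 := van_L61 (m := m) (p := p) (fun e : Midx d => coeff (ex61 (e.1.1 : ℕ) (e.1.2 : ℕ)) h)
  rw [L61_coeff h hd] at h1
  exact h1

private lemma card61 (m : ℕ) :
    2 * Fintype.card {s : Fin m × Fin m // (s.1 : ℕ) + s.2 < m} = m * (m + 1) := by
  rw [Fintype.card_subtype, Finset.card_filter, Fintype.sum_prod_type]
  have h1 : ∀ a : Fin m, (∑ b : Fin m, if (a : ℕ) + b < m then 1 else 0) = m - a := by
    intro a
    rw [Fin.sum_univ_eq_sum_range (fun b => if (a : ℕ) + b < m then 1 else 0) m, ← Finset.card_filter]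
    have : (Finset.range m).filter (fun b => (a : ℕ) + b < m) = Finset.range (m - a) := by
      ext b
      simp only [Finset.mem_filter, Finset.mem_range]
      omega
    rw [this, Finset.card_range]
  rw [Finset.sum_congr rfl (fun a _ => h1 a), Fin.sum_univ_eq_sum_range (fun a => m - a) m]
  have h2 : ∑ a ∈ Finset.range m, (m - a) = ∑ a ∈ Finset.range m, (a + 1) := by
    rw [← Finset.sum_range_reflect]
    refine Finset.sum_congr rfl fun a ha => ?_
    rw [Finset.mem_range] at ha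
    omega
  rw [h2, Finset.sum_add_distrib, mul_add, mul_comm 2, Finset.sum_range_id_mul_two]
  simp only [Finset.sum_const, Finset.card_range, smul_eq_mul, mul_one]
  cases m with
  | zero => rfl
  | succ k => simp only [Nat.add_sub_cancel]; ring

private lemma card_Cidx61 {n : ℕ} (m : Fin n → ℕ) :
    2 * Fintype.card (Cidx m) = ∑ i, m i * (m i + 1) := by
  rw [Fintype.card_sigma, Finset.mul_sum]
  exact Finset.sum_congr rfl fun i _ => card61 (m i)

private lemma card_Midx61 (d : ℕ) : 2 * Fintype.card (Midx d) = (d + 1) * (d + 2) := by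
  rw [← card61 (d + 1)]
  congr 1
  refine Fintype.card_congr (Equiv.subtypeEquivRight fun e => ?_)
  omega

theorem FR.finrank {n d : ℕ} {m : Fin n → ℕ} {p : Fin n → Fin 2 → ℂ} (h : FR d m p) :
    2 * (Module.finrank ℂ (Submodule.span ℂ
      {h : MvPolynomial (Fin 2) ℂ | h.totalDegree ≤ d ∧ ∀ i : Fin n, ∀ s : Fin 2 →₀ ℕ, s 0 + s 1 < m i →
        MvPolynomial.coeff s (MvPolynomial.aeval
          (fun j : Fin 2 => (MvPolynomial.X j + MvPolynomial.C (p i j) : MvPolynomial (Fin 2) ℂ)) h) = 0}) : ℤ)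
      = ((d : ℤ) + 1) * ((d : ℤ) + 2) - ∑ i, ((m i : ℤ) * ((m i : ℤ) + 1)) := by
  have hset : {h : MvPolynomial (Fin 2) ℂ | h.totalDegree ≤ d ∧ ∀ i : Fin n, ∀ s : Fin 2 →₀ ℕ,
      s 0 + s 1 < m i → MvPolynomial.coeff s (MvPolynomial.aeval
          (fun j : Fin 2 => (MvPolynomial.X j + MvPolynomial.C (p i j) : MvPolynomial (Fin 2) ℂ)) h) = 0}
      = ((LinearMap.ker (CM d m p).mulVecLin).map (L61 d) : Set (MvPolynomial (Fin 2) ℂ)) := by
    ext f
    simp only [Set.mem_ofPred_eq, SetLike.mem_coe, Submodule.mem_map, LinearMap.mem_ker,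
      Matrix.mulVecLin_apply]
    constructor
    · rintro ⟨h1, h2⟩
      refine ⟨fun e => coeff (ex61 (e.1.1 : ℕ) (e.1.2 : ℕ)) f, ?_, L61_coeff f h1⟩
      rw [← van_L61, L61_coeff f h1]
      exact h2
    · rintro ⟨c, hc, rfl⟩
      exact ⟨totalDegree_L61 d c, van_L61 c |>.mpr hc⟩
  rw [hset, Submodule.span_eq,
    ← (Submodule.equivMapOfInjective (L61 d) (L61_inj d) (LinearMap.ker (CM d m p).mulVecLin)).finrank_eq]
  have h1 := LinearMap.finrank_range_add_finrank_ker (CM d m p).mulVecLin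
  have h2 : Module.finrank ℂ (LinearMap.range (CM d m p).mulVecLin) = Fintype.card (Cidx m) :=
    LinearIndependent.rank_matrix h
  rw [h2, Module.finrank_fintype_fun_eq_card] at h1
  have h3 := card_Cidx61 m
  have h4 := card_Midx61 d
  zify at h1 h3 h4
  rw [← h4, ← h3, ← h1]
  ring

theorem KR.eq_zero {n d : ℕ} {m : Fin n → ℕ} {p : Fin n → Fin 2 → ℂ} (h : KR d m p)
    {f : MvPolynomial (Fin 2) ℂ} (hd : f.totalDegree ≤ d) (hf : Van m p f) : f = 0 := by
  have h1 := h _ ((van_iff f hd).mp hf)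
  rw [← L61_coeff f hd]
  have h2 : (fun e : Midx d => coeff (ex61 (e.1.1 : ℕ) (e.1.2 : ℕ)) f) = 0 := h1
  rw [h2, map_zero]

end Pool.Agent.Helper28.HH
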