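import Pool.Agent.Helper28.HH.Defs

/-!
# Project HH: generic statements over `ℂ` in the form of S00243 (blocks HH-G1, HH-G2)

`FR d m p`: the conditions of multiplicity `m i` at `p i` on the polynomials of degree `≤ d` are independent.
-/

set_option autoImplicit false

namespace Pool.Agent.Helper28.HH

open MvPolynomial

/-- Taylor functional of order `s` at `q` on the monomial `e` -/
noncomputable def phi (s e : ℕ × ℕ) (q : Fin 2 → ℂ) : ℂ :=
  (e.1.choose s.1 : ℂ) * (e.2.choose s.2 : ℂ) * q 0 ^ (e.1 - s.1) * q 1 ^ (e.2 - s.2)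

/-- index of a condition -/
abbrev Cidx {n : ℕ} (m : Fin n → ℕ) : Type := (i : Fin n) × {s : Fin (m i) × Fin (m i) // (s.1 : ℕ) + s.2 < m i}

/-- index of a monomial of degree `≤ d` -/
abbrev Midx (d : ℕ) : Type := {e : Fin (d + 1) × Fin (d + 1) // (e.1 : ℕ) + e.2 ≤ d}

/-- the matrix of the conditions -/
noncomputable def CM {n : ℕ} (d : ℕ) (m : Fin n → ℕ) (p : Fin n → Fin 2 → ℂ) : Matrix (Cidx m) (Midx d) ℂ :=
  fun r e => phi (r.2.1.1, r.2.1.2) (e.1.1, e.1.2) (p r.1)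

/-- the conditions are independent -/
def FR {n : ℕ} (d : ℕ) (m : Fin n → ℕ) (p : Fin n → Fin 2 → ℂ) : Prop :=
  LinearIndependent ℂ (fun r => CM d m p r)

/-- the conditions kill every polynomial of degree `≤ d` -/
def KR {n : ℕ} (d : ℕ) (m : Fin n → ℕ) (p : Fin n → Fin 2 → ℂ) : Prop :=
  ∀ c : Midx d → ℂ, (CM d m p).mulVec c = 0 → c = 0

/-- `h` has multiplicity `≥ m i` at `p i` -/
def Van {n : ℕ} (m : Fin n → ℕ) (p : Fin n → Fin 2 → ℂ) (h : MvPolynomial (Fin 2) ℂ) : Prop :=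
  ∀ i : Fin n, ∀ s : Fin 2 →₀ ℕ, s 0 + s 1 < m i →
    MvPolynomial.coeff s (MvPolynomial.aeval
      (fun j : Fin 2 => (MvPolynomial.X j + MvPolynomial.C (p i j) : MvPolynomial (Fin 2) ℂ)) h) = 0

end Pool.Agent.Helper28.HH
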