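import Pool.Agent.Helper28.HH.GG0

/-!
# Project HH: genericity (block HH-G1)
-/

set_option autoImplicit false

namespace Pool.Agent.Helper28.HH

open MvPolynomial

/-! ### HH-G1: genericity.  PROOF of `FR.generic`: `CM d m p0` has independent rows, so it has a right
inverse `A` (`CM d m p0 * A = 1`).  Let `CMg` be the matrix over `MvPolynomial (Fin n × Fin 2) ℂ` with entries
`choose * choose * X (i,0)^.. * X (i,1)^..` and `g = det (CMg * A.map C)`.  `eval p g = det (CM d m p * A)`; at `p0` it is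
`1`, so `g ≠ 0`; if `eval p g ≠ 0` then `CM d m p * A` is invertible, so the rows of `CM d m p` are independent.
`KR.generic`: the same with a left inverse, `g = det (A * CMg)`. -/

theorem right_inv75 {ι κ : Type} [Fintype ι] [Fintype κ] [DecidableEq ι] [DecidableEq κ]
    (M : Matrix ι κ ℂ) (h : LinearIndependent ℂ (fun r => M r)) :
    ∃ A : Matrix κ ι ℂ, M * A = 1 := by
  have hinj : Function.Injective M.vecMul := Matrix.vecMul_injective_iff.mpr h
  obtain ⟨g, hg⟩ := LinearMap.exists_leftInverse_of_injective M.vecMulLinear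
    (LinearMap.ker_eq_bot.mpr hinj)
  refine ⟨Matrix.of fun k i => g (Pi.single k 1) i, ?_⟩
  ext i j
  have h1 : g (M.vecMulLinear (Pi.single i 1)) = Pi.single i 1 := by
    rw [← LinearMap.comp_apply, hg, LinearMap.id_apply]
  have h2 : M.vecMulLinear (Pi.single i 1) = ∑ k, M i k • (Pi.single k (1 : ℂ) : κ → ℂ) := by
    funext l
    rw [Matrix.vecMulLinear_apply, Matrix.single_one_vecMul, Finset.sum_apply,
      Finset.sum_eq_single l]
    · simp [Matrix.row]
    · intro b _ hb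
      simp [Pi.single_apply, Ne.symm hb]
    · intro hl
      exact absurd (Finset.mem_univ l) hl
  rw [h2, map_sum] at h1
  have h3 := congrFun h1 j
  rw [Finset.sum_apply] at h3
  rw [Matrix.mul_apply, Matrix.one_apply]
  rw [Pi.single_apply] at h3
  rw [show (if i = j then (1 : ℂ) else 0) = if j = i then 1 else 0 by simp [eq_comm], ← h3]
  refine Finset.sum_congr rfl fun k _ => ?_
  rw [map_smul]
  rfl

/-- The generic matrix of the conditions. -/
private noncomputable def CMg75 {n : ℕ} (d : ℕ) (m : Fin n → ℕ) :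
    Matrix (Cidx m) (Midx d) (MvPolynomial (Fin n × Fin 2) ℂ) := fun r e =>
  C (((e.1.1 : ℕ).choose r.2.1.1 : ℂ) * ((e.1.2 : ℕ).choose r.2.1.2 : ℂ)) *
    X (r.1, 0) ^ ((e.1.1 : ℕ) - r.2.1.1) * X (r.1, 1) ^ ((e.1.2 : ℕ) - r.2.1.2)

private theorem eval_CMg75 {n : ℕ} (d : ℕ) (m : Fin n → ℕ) (p : Fin n → Fin 2 → ℂ) :
    (CMg75 d m).map (MvPolynomial.eval (fun ij : Fin n × Fin 2 => p ij.1 ij.2)) = CM d m p := by
  ext r e
  simp only [Matrix.map_apply, CMg75, CM, phi, map_mul, map_pow, eval_C, eval_X]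

private theorem key75 {σ ι κ : Type} [Fintype ι] [Fintype κ] [DecidableEq ι] [DecidableEq κ]
    (M : Matrix ι κ (MvPolynomial σ ℂ)) (A : Matrix κ ι (MvPolynomial σ ℂ)) (P : σ → ℂ) :
    MvPolynomial.eval P (Matrix.det (M * A)) =
      Matrix.det (M.map (MvPolynomial.eval P) * A.map (MvPolynomial.eval P)) := by
  rw [RingHom.map_det, RingHom.mapMatrix_apply, Matrix.map_mul]

private theorem map_C75 {n : ℕ} {ι κ : Type} (A : Matrix ι κ ℂ) (P : Fin n × Fin 2 → ℂ) :
    (A.map (C : ℂ → MvPolynomial (Fin n × Fin 2) ℂ)).map (MvPolynomial.eval P) = A := by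
  ext i j
  simp

theorem FR.generic {n d : ℕ} {m : Fin n → ℕ} {p0 : Fin n → Fin 2 → ℂ} (h : FR d m p0) :
    ∃ g : MvPolynomial (Fin n × Fin 2) ℂ, g ≠ 0 ∧ ∀ p : Fin n → Fin 2 → ℂ,
      MvPolynomial.eval (fun ij : Fin n × Fin 2 => p ij.1 ij.2) g ≠ 0 → FR d m p := by
  obtain ⟨A, hA⟩ := right_inv75 (CM d m p0) h
  obtain ⟨A', hA'⟩ : ∃ A' : Matrix (Midx d) (Cidx m) (MvPolynomial (Fin n × Fin 2) ℂ),
      A' = A.map C := ⟨_, rfl⟩
  have key : ∀ p : Fin n → Fin 2 → ℂ,
      MvPolynomial.eval (fun ij : Fin n × Fin 2 => p ij.1 ij.2)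
        (Matrix.det (CMg75 d m * A')) = Matrix.det (CM d m p * A) := by
    intro p
    rw [key75, eval_CMg75, hA', map_C75]
  refine ⟨Matrix.det (CMg75 d m * A'), ?_, ?_⟩
  · intro h0
    have h1 := key p0
    rw [h0, map_zero, hA, Matrix.det_one] at h1
    exact zero_ne_one h1
  · intro p hp
    rw [key p] at hp
    refine Matrix.vecMul_injective_iff.mp ?_
    intro x y hxy
    have h1 : Matrix.vecMul (x - y) (CM d m p) = 0 := by
      rw [Matrix.sub_vecMul]
      exact sub_eq_zero.mpr hxy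
    refine sub_eq_zero.mp (Matrix.eq_zero_of_vecMul_eq_zero hp ?_)
    rw [← Matrix.vecMul_vecMul, h1, Matrix.zero_vecMul]

theorem KR.generic {n d : ℕ} {m : Fin n → ℕ} {p0 : Fin n → Fin 2 → ℂ} (h : KR d m p0) :
    ∃ g : MvPolynomial (Fin n × Fin 2) ℂ, g ≠ 0 ∧ ∀ p : Fin n → Fin 2 → ℂ,
      MvPolynomial.eval (fun ij : Fin n × Fin 2 => p ij.1 ij.2) g ≠ 0 → KR d m p := by
  have hinj : Function.Injective (CM d m p0).mulVec := by
    intro x y hxy
    have h1 : (CM d m p0).mulVec (x - y) = 0 := by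
      rw [Matrix.mulVec_sub]
      exact sub_eq_zero.mpr hxy
    exact sub_eq_zero.mp (h _ h1)
  have hT : LinearIndependent ℂ (fun e => (CM d m p0).transpose e) :=
    Matrix.mulVec_injective_iff.mp hinj
  obtain ⟨B, hB⟩ := right_inv75 (CM d m p0).transpose hT
  have hA : B.transpose * CM d m p0 = 1 := by
    have := congrArg Matrix.transpose hB
    rwa [Matrix.transpose_mul, Matrix.transpose_transpose, Matrix.transpose_one] at this
  obtain ⟨A', hA'⟩ : ∃ A' : Matrix (Midx d) (Cidx m) (MvPolynomial (Fin n × Fin 2) ℂ),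
      A' = B.transpose.map C := ⟨_, rfl⟩
  have key : ∀ p : Fin n → Fin 2 → ℂ,
      MvPolynomial.eval (fun ij : Fin n × Fin 2 => p ij.1 ij.2)
        (Matrix.det (A' * CMg75 d m)) = Matrix.det (B.transpose * CM d m p) := by
    intro p
    rw [key75, eval_CMg75, hA', map_C75]
  refine ⟨Matrix.det (A' * CMg75 d m), ?_, ?_⟩
  · intro h0
    have h1 := key p0
    rw [h0, map_zero, hA, Matrix.det_one] at h1
    exact zero_ne_one h1
  · intro p hp c hc
    rw [key p] at hp
    refine Matrix.eq_zero_of_mulVec_eq_zero hp ?_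
    rw [← Matrix.mulVec_mulVec, hc, Matrix.mulVec_zero]

end Pool.Agent.Helper28.HH
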