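import Pool.Agent.Helper28.HH.Row

/-!
# Project HH: the invariant of Theorem S
-/

set_option autoImplicit false

namespace Pool.Agent.Helper28.HH

structure InvA (n : ℕ) (u : ℕ → ℕ) (i F F' μ : ℕ) : Prop where
  A0 : ∀ b, b < i → n - b - u b = 0
  A1 : ∀ b, F ≤ b → u b = 0
  A2 : ∀ b, u b ≤ n - b
  A3 : ∀ b, i ≤ b → b < F → u (b + 1) + 1 ≤ u b
  A4 : ∀ b, i ≤ b → b < F' → u (b + 1) + 2 ≤ u b
  A5 : ∀ b, i ≤ b → F' ≤ b → b < F → u b + (b - i) ≤ μ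
  A6 : F ≤ i + μ
  A7 : F' ≤ F

end Pool.Agent.Helper28.HH
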