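import Pool.Agent.Helper28.HH.Nest

/-!
# Project HH: Theorem E, sharp emptiness `2 v ≤ - m1 (m2 - 1)` (blocks HH-E1, HH-E2, HH-E3, HH-E4)

The largest point `m1` is put at the top corner (`top_corner`); the low rows `b < w = n - m1` remain
(`n - b ≥ m1 + 1` for them).  The other points are placed in ascending order by `nest` (exact
lexicographic basis).  Notation: `r b = n - b - u b`, `s b = sl n m u b`, `f γ = γ + hh n u b γ` (row `b`),
`G b = gs n m u b = ∑_{γ<m} (m - γ - hh n u b γ)`, `ss b = card {γ < m | f γ < m}`.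
-/

set_option autoImplicit false

namespace Pool.Agent.Helper28.HH

/-- conditions left above the row `b` -/
def gs (n m : ℕ) (u : ℕ → ℕ) (b : ℕ) : ℕ := ∑ γ ∈ Finset.range m, (m - (γ + hh n u b γ))

/-- slice of an infinite row -/
def ss (n m : ℕ) (u : ℕ → ℕ) (b : ℕ) : ℕ :=
  ((Finset.range m).filter (fun γ => γ + hh n u b γ < m)).card

/-- the invariant of the state after the points of multiplicity `≤ μ` -/
structure InvE (n m1 : ℕ) (u : ℕ → ℕ) (μ : ℕ) : Prop where
  V1 : ∀ b, b < n - m1 → u b ≤ n - b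
  V2 : ∀ b, b + 1 < n - m1 → u b < n - b → (u (b + 1) + 1 ≤ u b ∨ u (b + 1) = 0)
  V3 : ∃ b1, (∀ b, b < b1 → b + 1 < n - m1 → u b < n - b → n - b - u b < n - (b + 1) - u (b + 1)) ∧
    (∀ b, b1 ≤ b → b < n - m1 → (u b = 0 ∨ u b + hh n u b 0 ≤ μ))
  V4 : ∀ b, b < n - m1 → 1 ≤ u b → hh n u b 0 + 1 ≤ μ

end Pool.Agent.Helper28.HH
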