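import Mathlib

/-!
# Project HH: a derivation argument on an irreducible curve (block HH-K1)

`wr_zero`: `a b' = a' b` in `ℂ[x]`, `a ≠ 0`, implies `b = c a`.  PROOF: if `b ≠ 0` and `deg a ≠ deg b` the leading
coefficient of `a b' - a' b` is `(deg b - deg a) lc a lc b ≠ 0`.  So `deg a = deg b` (or `b = 0`); `b - c a` with `c = lc b / lc a`
has smaller degree (or is `0`) and the same property, so it is `0`.

`curve_const`: `R = ℂ[x][y]`, `f` irreducible of `y`-degree `≥ 1`, `δ` a derivation of `R` over `ℂ` with `f ∣ δ f` and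
`δ a = w a'` for `a ∈ ℂ[x]`, `f ∤ w`.  If `f ∤ g` and `f ∣ g δh - h δg` then `f ∣ h - ζ g` for a constant `ζ`.
PROOF.  Let `L` be the fraction field of `R/(f)` and `x = h/g` in `L`; `L` is algebraic over `ℂ[x]`.  Take a nonzero
polynomial `p` over `ℂ[x]` of minimal degree `n` with `p(x) = 0`.  Applying `δ` to the homogenised relation gives
`p^∂(x) = 0`, `p^∂` = the polynomial of the derivatives of the coefficients.  The combination of `p`, `p^∂` in which the top
coefficient is cancelled is `0` by minimality, so all coefficients of `p` are constant multiples of the top one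
(`wr_zero`), so `x` is algebraic over `ℂ`, so `x` is a constant.
-/

set_option autoImplicit false

namespace Pool.Agent.Helper28.HH

open Polynomial

private theorem wr_deg {a b : ℂ[X]} (ha : a ≠ 0) (hb : b ≠ 0)
    (h : a * derivative b = derivative a * b) : a.natDegree = b.natDegree := by
  rcases Nat.eq_zero_or_pos b.natDegree with hb0 | hb0
  · have h1 : derivative b = 0 := derivative_of_natDegree_zero hb0
    rw [h1, mul_zero] at h
    have h2 : derivative a = 0 := by
      rcases mul_eq_zero.1 h.symm with h3 | h3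
      · exact h3
      · exact absurd h3 hb
    rw [derivative_eq_zero.1 h2, hb0]
  rcases Nat.eq_zero_or_pos a.natDegree with ha0 | ha0
  · have h1 : derivative a = 0 := derivative_of_natDegree_zero ha0
    rw [h1, zero_mul] at h
    have h2 : derivative b = 0 := by
      rcases mul_eq_zero.1 h with h3 | h3
      · exact absurd h3 ha
      · exact h3
    rw [derivative_eq_zero.1 h2, ha0]
  have e1 := coeff_mul_add_eq_of_natDegree_le (f := a) (g := derivative b) (df := a.natDegree)
    (dg := b.natDegree - 1) le_rfl (natDegree_derivative_le b)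
  have e2 := coeff_mul_add_eq_of_natDegree_le (f := derivative a) (g := b) (df := a.natDegree - 1)
    (dg := b.natDegree) (natDegree_derivative_le a) le_rfl
  have e3 : a.natDegree + (b.natDegree - 1) = a.natDegree - 1 + b.natDegree := by omega
  rw [h, e3, e2, coeff_derivative, coeff_derivative, Nat.sub_add_cancel ha0,
    Nat.sub_add_cancel hb0] at e1
  have la : a.coeff a.natDegree ≠ 0 := by simpa using ha
  have lb : b.coeff b.natDegree ≠ 0 := by simpa using hb
  have e4 : ((a.natDegree - 1 : ℕ) : ℂ) + 1 = a.natDegree := by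
    have := Nat.sub_add_cancel ha0
    exact_mod_cast this
  have e5 : ((b.natDegree - 1 : ℕ) : ℂ) + 1 = b.natDegree := by
    have := Nat.sub_add_cancel hb0
    exact_mod_cast this
  rw [e4, e5] at e1
  have e6 : a.coeff a.natDegree * b.coeff b.natDegree * ((a.natDegree : ℂ) - b.natDegree) = 0 := by
    linear_combination e1
  rcases mul_eq_zero.1 e6 with h7 | h7
  · rcases mul_eq_zero.1 h7 with h8 | h8
    · exact absurd h8 la
    · exact absurd h8 lb
  · exact_mod_cast sub_eq_zero.1 h7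

theorem wr_zero {a b : ℂ[X]} (ha : a ≠ 0) (h : a * derivative b = derivative a * b) :
    ∃ c : ℂ, b = C c * a := by
  by_cases hb : b = 0
  · exact ⟨0, by simp [hb]⟩
  have hd := wr_deg ha hb h
  have la : a.leadingCoeff ≠ 0 := leadingCoeff_ne_zero.2 ha
  refine ⟨b.leadingCoeff / a.leadingCoeff, ?_⟩
  by_contra hne
  have hd0 : b - C (b.leadingCoeff / a.leadingCoeff) * a ≠ 0 := sub_ne_zero.2 hne
  set c := b.leadingCoeff / a.leadingCoeff with hc
  have h' : a * derivative (b - C c * a) = derivative a * (b - C c * a) := by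
    rw [derivative_sub, derivative_C_mul]
    linear_combination h
  have hd1 := wr_deg ha hd0 h'
  have h2 : (b - C c * a).coeff (b - C c * a).natDegree = 0 := by
    rw [← hd1, coeff_sub, coeff_C_mul]
    have h3 : b.coeff a.natDegree = b.leadingCoeff := by rw [hd]; rfl
    rw [h3, hc]
    change b.leadingCoeff - b.leadingCoeff / a.leadingCoeff * a.leadingCoeff = 0
    field_simp
    ring
  exact hd0 (leadingCoeff_eq_zero.1 h2)

section

variable {L : Type*} [Field L] (ψ : ℂ[X][X] →+* L)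

/-- the homogenised value of `p` at `(h, g)` -/
private noncomputable def hom (n : ℕ) (g h : ℂ[X][X]) (p : ℂ[X][X]) : ℂ[X][X] :=
  ∑ i ∈ Finset.range (n + 1), C (p.coeff i) * (h ^ i * g ^ (n - i))

/-- the value of `p` at `x` -/
private noncomputable def val (x : L) (p : ℂ[X][X]) : L := p.eval₂ (ψ.comp C) x

private theorem val_range {n : ℕ} (x : L) {p : ℂ[X][X]} (hp : p.natDegree ≤ n) :
    val ψ x p = ∑ i ∈ Finset.range (n + 1), ψ (C (p.coeff i)) * x ^ i := by
  unfold val
  rw [eval₂_eq_sum_range' _ (Nat.lt_succ_of_le hp)]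
  rfl

private theorem psi_hom {n : ℕ} {g h : ℂ[X][X]} {x : L} (hx : ψ h = x * ψ g) {p : ℂ[X][X]}
    (hp : p.natDegree ≤ n) : ψ (hom n g h p) = ψ g ^ n * val ψ x p := by
  rw [val_range ψ x hp, hom, map_sum, Finset.mul_sum]
  refine Finset.sum_congr rfl fun i hi => ?_
  have hi' : i ≤ n := by simpa [Nat.lt_succ_iff] using hi
  rw [map_mul, map_mul, map_pow, map_pow, hx]
  have : ψ g ^ n = ψ g ^ i * ψ g ^ (n - i) := by rw [← pow_add, Nat.add_sub_cancel' hi']
  rw [this]
  ring

private theorem der_step (δ : Derivation ℂ ℂ[X][X] ℂ[X][X]) (u v : ℂ[X][X]) :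
    ψ (δ (v * u)) = ψ v * ψ (δ u) + ψ u * ψ (δ v) := by
  rw [Derivation.leibniz, smul_eq_mul, smul_eq_mul, map_add, map_mul, map_mul]

private theorem der_mon (δ : Derivation ℂ ℂ[X][X] ℂ[X][X]) {g h : ℂ[X][X]}
    (hgh : ψ g * ψ (δ h) = ψ h * ψ (δ g)) (i j : ℕ) :
    ψ g * ψ (δ (h ^ i * g ^ j)) = (i + j : ℕ) * (ψ (δ g) * ψ (h ^ i * g ^ j)) := by
  induction i with
  | zero =>
    induction j with
    | zero => simp
    | succ j ih =>
      have e : h ^ 0 * g ^ (j + 1) = g * (h ^ 0 * g ^ j) := by ring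
      rw [e, der_step, map_mul ψ g]
      push_cast at ih ⊢
      linear_combination (ψ g) * ih
  | succ i ih =>
    have e : h ^ (i + 1) * g ^ j = h * (h ^ i * g ^ j) := by ring
    rw [e, der_step, map_mul ψ h]
    push_cast at ih ⊢
    linear_combination (ψ h) * ih + ψ (h ^ i * g ^ j) * hgh

private theorem der_hom (δ : Derivation ℂ ℂ[X][X] ℂ[X][X]) {g h w : ℂ[X][X]}
    (hδ : ∀ a : ℂ[X], δ (C a) = w * C (derivative a))
    (hgh : ψ g * ψ (δ h) = ψ h * ψ (δ g)) (n : ℕ) {p q : ℂ[X][X]}
    (hq : ∀ i, q.coeff i = derivative (p.coeff i)) :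
    ψ g * ψ (δ (hom n g h p)) = n * (ψ (δ g) * ψ (hom n g h p)) + ψ g * ψ w * ψ (hom n g h q) := by
  unfold hom
  rw [map_sum, map_sum, map_sum, map_sum, Finset.mul_sum, Finset.mul_sum, Finset.mul_sum,
    Finset.mul_sum, ← Finset.sum_add_distrib]
  refine Finset.sum_congr rfl fun i hi => ?_
  have hi' : i ≤ n := by simpa [Nat.lt_succ_iff] using hi
  have e := der_mon ψ δ hgh i (n - i)
  rw [Nat.add_sub_cancel' hi'] at e
  rw [der_step, hδ, hq, map_mul ψ w, map_mul ψ (C (p.coeff i)), map_mul ψ (C (derivative (p.coeff i)))]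
  linear_combination (ψ (C (p.coeff i))) * e

private theorem exists_zero {f : ℂ[X][X]} (hf : f ≠ 0) (hψf : ψ f = 0) (x : L) (g h : ℂ[X][X])
    (hg : ψ g ≠ 0) (hx : ψ h = x * ψ g) : ∃ p : ℂ[X][X], p ≠ 0 ∧ val ψ x p = 0 := by
  let _ : Algebra ℂ[X] L := (ψ.comp C).toAlgebra
  have hY : IsAlgebraic ℂ[X] (ψ X) := by
    refine ⟨f, hf, ?_⟩
    have : aeval (ψ X) f = ψ f := by
      have h1 : (aeval (ψ X) : ℂ[X][X] →ₐ[ℂ[X]] L).toRingHom = ψ := by
        apply Polynomial.ringHom_ext
        · intro a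
          simp only [AlgHom.toRingHom_eq_coe, RingHom.coe_coe, aeval_C]
          rfl
        · simp
      exact congrArg (fun F : ℂ[X][X] →+* L => F f) h1
    rw [this, hψf]
  have hall : ∀ u : ℂ[X][X], IsAlgebraic ℂ[X] (ψ u) := by
    intro u
    induction u using Polynomial.induction_on with
    | C a =>
      exact isAlgebraic_algebraMap (R := ℂ[X]) (A := L) a
    | add p q hp hq => rw [map_add]; exact hp.add hq
    | monomial n a h =>
      rw [pow_succ, ← mul_assoc, map_mul]
      exact h.mul hY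
  have hxa : IsAlgebraic ℂ[X] x := by
    have : x = ψ h * (ψ g)⁻¹ := by rw [hx]; field_simp
    rw [this]
    exact (hall h).mul (hall g).inv
  obtain ⟨p, hp, hpx⟩ := hxa
  exact ⟨p, hp, hpx⟩

private theorem const_of_root {r : ℂ[X]} (hr : r ≠ 0) {x : L}
    (hx : r.eval₂ (ψ.comp (C.comp C)) x = 0) : ∃ ζ : ℂ, x = ψ (C (C ζ)) := by
  let _ : Algebra ℂ L := (ψ.comp (C.comp C)).toAlgebra
  have h1 : IsAlgebraic ℂ x := ⟨r, hr, hx⟩
  have h2 : IsIntegral ℂ x := isAlgebraic_iff_isIntegral.1 h1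
  have h3 := IsAlgClosed.degree_eq_one_of_irreducible ℂ (minpoly.irreducible h2)
  obtain ⟨ζ, hζ⟩ := minpoly.mem_range_of_degree_eq_one ℂ x h3
  exact ⟨ζ, hζ.symm⟩

end

private theorem exists_field {f : ℂ[X][X]} (hP : Prime f) :
    ∃ (L : Type) (_ : Field L) (ψ : ℂ[X][X] →+* L), ∀ u, ψ u = 0 ↔ f ∣ u := by
  have h2 : IsDomain (AdjoinRoot f) := AdjoinRoot.isDomain_of_prime hP
  refine ⟨FractionRing (AdjoinRoot f), inferInstance,
    (algebraMap (AdjoinRoot f) (FractionRing (AdjoinRoot f))).comp (AdjoinRoot.mk f), fun u => ?_⟩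
  rw [RingHom.comp_apply, FaithfulSMul.algebraMap_eq_zero_iff, AdjoinRoot.mk_eq_zero]

theorem curve_const {f : ℂ[X][X]} (hf : Irreducible f) (hdeg : 1 ≤ f.natDegree)
    (δ : Derivation ℂ ℂ[X][X] ℂ[X][X]) {w : ℂ[X][X]} (hw : ¬ f ∣ w)
    (hδ : ∀ a : ℂ[X], δ (C a) = w * C (derivative a)) (hδf : f ∣ δ f) {g h : ℂ[X][X]} (hg : ¬ f ∣ g)
    (hgh : f ∣ g * δ h - h * δ g) : ∃ ζ : ℂ, f ∣ h - C (C ζ) * g := by
  classical
  have hP : Prime f := hf.prime
  obtain ⟨L, _, ψ, hψ⟩ := exists_field hP
  have hg0 : ψ g ≠ 0 := fun e => hg ((hψ g).1 e)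
  have hw0 : ψ w ≠ 0 := fun e => hw ((hψ w).1 e)
  set x : L := ψ h / ψ g with hxdef
  have hx : ψ h = x * ψ g := by rw [hxdef]; field_simp
  have hgh' : ψ g * ψ (δ h) = ψ h * ψ (δ g) := by
    have e := (hψ _).2 hgh
    rw [map_sub, map_mul, map_mul] at e
    exact sub_eq_zero.1 e
  have hfv : ψ f = 0 := (hψ f).2 dvd_rfl
  have hex : ∃ n : ℕ, ∃ p : ℂ[X][X], p ≠ 0 ∧ p.natDegree = n ∧ val ψ x p = 0 := by
    obtain ⟨p, hp, hpx⟩ := exists_zero ψ hP.ne_zero hfv x g h hg0 hx
    exact ⟨_, p, hp, rfl, hpx⟩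
  set n := Nat.find hex with hn
  obtain ⟨p, hp, hpn, hpx⟩ := Nat.find_spec hex
  rw [← hn] at hpn
  have hmin : ∀ q : ℂ[X][X], val ψ x q = 0 → q.natDegree ≤ n → q.coeff n = 0 → q = 0 := by
    intro q hq hqn hq0
    by_contra hne
    have hlt : q.natDegree < n := by
      refine lt_of_le_of_ne hqn fun e => ?_
      rw [← e] at hq0
      exact hne (leadingCoeff_eq_zero.1 hq0)
    exact Nat.find_min hex hlt ⟨q, hne, rfl, hq⟩
  -- the derivative of the coefficients
  let q : ℂ[X][X] := ∑ i ∈ Finset.range (n + 1), monomial i (derivative (p.coeff i))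
  have hq : ∀ i, q.coeff i = derivative (p.coeff i) := by
    intro i
    simp only [q, finsetSum_coeff, coeff_monomial]
    by_cases hi : i ∈ Finset.range (n + 1)
    · rw [Finset.sum_eq_single_of_mem i hi (fun j _ hj => if_neg hj), if_pos rfl]
    · rw [Finset.sum_eq_zero fun j hj => if_neg (fun e : j = i => hi (e ▸ hj))]
      have : p.natDegree < i := by
        rw [hpn]
        simpa [Nat.lt_succ_iff] using hi
      rw [coeff_eq_zero_of_natDegree_lt this, derivative_zero]
  have hqn : q.natDegree ≤ n := by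
    rw [natDegree_le_iff_coeff_eq_zero]
    intro i hi
    rw [hq, coeff_eq_zero_of_natDegree_lt (by rw [hpn]; exact hi), derivative_zero]
  have hqx : val ψ x q = 0 := by
    have e1 : ψ (hom n g h p) = 0 := by rw [psi_hom ψ hx hpn.le, hpx, mul_zero]
    have e2 : ψ (δ (hom n g h p)) = 0 := by
      obtain ⟨Q, hQ⟩ := (hψ _).1 e1
      obtain ⟨S, hS⟩ := hδf
      rw [hQ, Derivation.leibniz, smul_eq_mul, smul_eq_mul, hS, map_add, map_mul, map_mul, map_mul,
        hfv]
      ring
    have e3 := der_hom ψ δ hδ hgh' n hq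
    rw [e2, e1, mul_zero, mul_zero, mul_zero, zero_add] at e3
    have e4 : ψ (hom n g h q) = 0 := by
      rcases mul_eq_zero.1 e3.symm with e5 | e5
      · exact absurd e5 (mul_ne_zero hg0 hw0)
      · exact e5
    rw [psi_hom ψ hx hqn] at e4
    rcases mul_eq_zero.1 e4 with e5 | e5
    · exact absurd e5 (pow_ne_zero _ hg0)
    · exact e5
  set a : ℂ[X] := p.coeff n with ha
  have ha0 : a ≠ 0 := by
    rw [ha, ← hpn]
    simpa using hp
  have hcomb : C a * q - C (derivative a) * p = 0 := by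
    apply hmin
    · have e : val ψ x (C a * q - C (derivative a) * p) =
          ψ (C a) * val ψ x q - ψ (C (derivative a)) * val ψ x p := by
        simp only [val, eval₂_sub, eval₂_mul, eval₂_C]
        rfl
      rw [e, hqx, hpx, mul_zero, mul_zero, sub_zero]
    · refine (natDegree_sub_le _ _).trans (max_le ?_ ?_)
      · exact (natDegree_C_mul_le _ _).trans hqn
      · exact (natDegree_C_mul_le _ _).trans hpn.le
    · rw [coeff_sub, coeff_C_mul, coeff_C_mul, hq, ← ha]
      ring
  have hprop : ∀ i, ∃ c : ℂ, p.coeff i = C c * a := by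
    intro i
    apply wr_zero ha0
    have e := congrArg (fun u : ℂ[X][X] => u.coeff i) hcomb
    simp only [coeff_sub, coeff_C_mul, coeff_zero, hq] at e
    exact sub_eq_zero.1 e
  choose c hc using hprop
  let r : ℂ[X] := ∑ i ∈ Finset.range (n + 1), monomial i (c i)
  have hr : ∀ i, i ≤ n → r.coeff i = c i := by
    intro i hi
    simp only [r, finsetSum_coeff, coeff_monomial]
    rw [Finset.sum_eq_single_of_mem i (Finset.mem_range.2 (Nat.lt_succ_of_le hi))
      (fun j _ hj => if_neg hj), if_pos rfl]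
  have hcn : c n ≠ 0 := by
    intro e
    have := hc n
    rw [e, C_0, zero_mul] at this
    exact ha0 this
  have hr0 : r ≠ 0 := by
    intro e
    apply hcn
    rw [← hr n le_rfl, e, coeff_zero]
  have hrn : r.natDegree ≤ n := by
    refine natDegree_sum_le_of_forall_le _ _ fun i hi => ?_
    exact (natDegree_monomial_le _).trans (by simpa [Nat.lt_succ_iff] using hi)
  have hCa : ψ (C a) ≠ 0 := by
    intro e
    have h1 := (hψ _).1 e
    have h2 := natDegree_le_of_dvd h1 (by simpa using ha0)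
    rw [natDegree_C] at h2
    omega
  have hrx : r.eval₂ (ψ.comp (C.comp C)) x = 0 := by
    rw [eval₂_eq_sum_range' _ (Nat.lt_succ_of_le hrn)]
    have e1 : val ψ x p = ψ (C a) * ∑ i ∈ Finset.range (n + 1),
        (ψ.comp (C.comp C)) (r.coeff i) * x ^ i := by
      rw [val_range ψ x hpn.le, Finset.mul_sum]
      refine Finset.sum_congr rfl fun i hi => ?_
      have hi' : i ≤ n := by simpa [Nat.lt_succ_iff] using hi
      rw [hc i, C_mul, map_mul, hr i hi']
      simp only [RingHom.comp_apply]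
      ring
    rw [hpx] at e1
    rcases mul_eq_zero.1 e1.symm with e2 | e2
    · exact absurd e2 hCa
    · exact e2
  obtain ⟨ζ, hζ⟩ := const_of_root ψ hr0 hrx
  refine ⟨ζ, (hψ _).1 ?_⟩
  rw [map_sub, map_mul, ← hζ, ← hx, sub_self]

end Pool.Agent.Helper28.HH
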