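import Pool.Agent.Helper28.HH.K3

/-!
# Project HH: jets of a linear system containing an irreducible curve of top degree (block HH-K2)

`jets`: `V` a subspace of `ℂ[X0,X1]` of polynomials of total degree `≤ d`, `f ∈ V` irreducible of total degree
`d`, `f, g, h ∈ V` independent: for some `q` the map `h ↦ (h(q), h_0(q), h_1(q))` is onto `ℂ³` on `V`.
PROOF.  If the determinant `Δ` of the matrix with rows `(f,g,h), (f_0,g_0,h_0), (f_1,g_1,h_1)` (partial derivatives)
is not the zero polynomial, take `q` with `Δ(q) ≠ 0` (`MvPolynomial.funext`).  Suppose `Δ = 0`.  Expanding,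
`f (g_0 h_1 - g_1 h_0) = g δh - h δg` up to sign, `δ = f_1 ∂_0 - f_0 ∂_1` (a `ℂ`-derivation, `δ f = 0`), so
`f ∣ g δh - h δg`.  `f` is not constant.  Case 1: `X1` occurs in `f`.  Take an algebra isomorphism
`φ : MvPolynomial (Fin 2) ℂ ≃ₐ[ℂ] ℂ[X][X]` with `φ X0 = C X`, `φ X1 = X`; `natDegree (φ f) ≥ 1`; transport `δ`:
`δ' = φ ∘ δ ∘ φ⁻¹`, `δ' (C a) = φ(f_1) * C a'` (both sides are determined by `a = X`), `w = φ (f_1)`, `φ f ∤ w`
because `w` is the `y`-derivative of `φ f`, nonzero of smaller `y`-degree.  `f ∤ g`: otherwise `g = c f` by degrees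
(`totalDegree g ≤ d = totalDegree f`).  `curve_const` gives `f ∣ h - ζ g`, so `h - ζ g = c f` by degrees: contradiction to
independence.  Case 2: `X1` does not occur, so `X0` occurs: the same after swapping the variables
(`MvPolynomial.rename (Equiv.swap 0 1)` or the isomorphism with `φ X0 = X`, `φ X1 = C X` and `-δ`).
-/

set_option autoImplicit false

namespace Pool.Agent.Helper28.HH

open MvPolynomial

section

variable {i j : Fin 2}

private lemma fin2 (hij : i ≠ j) (k : Fin 2) : k = i ∨ k = j := by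
  revert i j k; decide

private noncomputable def toPP (i : Fin 2) : MvPolynomial (Fin 2) ℂ →ₐ[ℂ] Polynomial (Polynomial ℂ) :=
  aeval (fun k => if k = i then Polynomial.C Polynomial.X else Polynomial.X)

private noncomputable def ofPP (i j : Fin 2) : Polynomial (Polynomial ℂ) →ₐ[ℂ] MvPolynomial (Fin 2) ℂ :=
  Polynomial.eval₂AlgHom (Polynomial.aeval (X i)) (X j) (fun _ => Commute.all _ _)

private lemma toPP_i (i : Fin 2) : toPP i (X i) = Polynomial.C Polynomial.X := by
  simp [toPP]

private lemma toPP_j (hij : i ≠ j) : toPP i (X j) = Polynomial.X := by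
  simp [toPP, hij.symm]

private lemma ofPP_C (i j : Fin 2) (a : Polynomial ℂ) : ofPP i j (Polynomial.C a) = Polynomial.aeval (X i) a := by
  simp [ofPP]

private lemma ofPP_X (i j : Fin 2) : ofPP i j Polynomial.X = X j := by
  simp [ofPP]

private lemma to_of (hij : i ≠ j) : (toPP i).comp (ofPP i j) = AlgHom.id ℂ _ := by
  apply Polynomial.algHom_ext'
  · apply Polynomial.algHom_ext
    simp [ofPP_C, toPP_i]
  · simp [ofPP_X, toPP_j hij]

private lemma of_to (hij : i ≠ j) : (ofPP i j).comp (toPP i) = AlgHom.id ℂ _ := by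
  apply MvPolynomial.algHom_ext
  intro k
  rcases fin2 hij k with rfl | rfl
  · simp [toPP_i, ofPP_C]
  · simp [toPP_j hij, ofPP_X]

private noncomputable def phi (i j : Fin 2) (hij : i ≠ j) :
    MvPolynomial (Fin 2) ℂ ≃ₐ[ℂ] Polynomial (Polynomial ℂ) :=
  AlgEquiv.ofAlgHom (toPP i) (ofPP i j) (to_of hij) (of_to hij)

private lemma phi_i (hij : i ≠ j) : phi i j hij (X i) = Polynomial.C Polynomial.X := toPP_i i

private lemma phi_j (hij : i ≠ j) : phi i j hij (X j) = Polynomial.X := toPP_j hij

private lemma phi_C (hij : i ≠ j) (c : ℂ) : phi i j hij (C c) = Polynomial.C (Polynomial.C c) := by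
  have := (phi i j hij).commutes c
  simpa using this

private lemma phi_symm_C (hij : i ≠ j) (a : Polynomial ℂ) :
    (phi i j hij).symm (Polynomial.C a) = Polynomial.aeval (X i) a := ofPP_C i j a

private lemma phi_der (hij : i ≠ j) (u : MvPolynomial (Fin 2) ℂ) :
    phi i j hij (pderiv j u) = Polynomial.derivative (phi i j hij u) := by
  induction u using MvPolynomial.induction_on with
  | C a => rw [pderiv_C, map_zero, phi_C, Polynomial.derivative_C]
  | add p q hp hq => rw [map_add, map_add, hp, hq, map_add, Polynomial.derivative_add]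
  | mul_X p k hp =>
    rw [Derivation.leibniz, smul_eq_mul, smul_eq_mul, map_add, map_mul, map_mul, hp, map_mul,
      Polynomial.derivative_mul]
    rcases fin2 hij k with rfl | rfl
    · rw [pderiv_X_of_ne hij, map_zero, phi_i, Polynomial.derivative_C]
      ring
    · rw [pderiv_X_self, map_one, phi_j, Polynomial.derivative_X]
      ring

private noncomputable def dlt (i j : Fin 2) (hij : i ≠ j) (f : MvPolynomial (Fin 2) ℂ) :
    Derivation ℂ (Polynomial (Polynomial ℂ)) (Polynomial (Polynomial ℂ)) :=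
  Derivation.mk'
    { toFun := fun u => phi i j hij (pderiv j f * pderiv i ((phi i j hij).symm u)
        - pderiv i f * pderiv j ((phi i j hij).symm u))
      map_add' := fun u v => by
        simp only [map_add, map_sub, map_mul]
        ring
      map_smul' := fun c u => by
        simp only [map_smul, Derivation.map_smul, map_sub, map_mul, RingHom.id_apply, mul_smul_comm, smul_sub] }
    (fun a b => by
      simp only [LinearMap.coe_mk, AddHom.coe_mk, map_mul, map_sub, Derivation.leibniz, smul_eq_mul,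
        map_add, AlgEquiv.apply_symm_apply]
      ring)

private lemma dlt_apply (hij : i ≠ j) (f u : MvPolynomial (Fin 2) ℂ) :
    dlt i j hij f (phi i j hij u) = phi i j hij (pderiv j f * pderiv i u - pderiv i f * pderiv j u) := by
  change phi i j hij (pderiv j f * pderiv i ((phi i j hij).symm (phi i j hij u))
        - pderiv i f * pderiv j ((phi i j hij).symm (phi i j hij u))) = _
  rw [AlgEquiv.symm_apply_apply]

private lemma dlt_C (hij : i ≠ j) (f : MvPolynomial (Fin 2) ℂ) (a : Polynomial ℂ) :
    dlt i j hij f (Polynomial.C a) = phi i j hij (pderiv j f) * Polynomial.C (Polynomial.derivative a) := by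
  have e : Polynomial.C a = phi i j hij (Polynomial.aeval (X i) a) := by
    rw [← phi_symm_C hij, AlgEquiv.apply_symm_apply]
  have e' : Polynomial.C (Polynomial.derivative a)
      = phi i j hij (Polynomial.aeval (X i) (Polynomial.derivative a)) := by
    rw [← phi_symm_C hij, AlgEquiv.apply_symm_apply]
  rw [e', e, dlt_apply, Derivation.map_aeval, Derivation.map_aeval, pderiv_X_self,
    pderiv_X_of_ne hij, smul_zero, mul_zero, sub_zero, map_mul, smul_eq_mul, mul_one]

private lemma key (hij : i ≠ j) {f g h : MvPolynomial (Fin 2) ℂ} (hf : Irreducible f)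
    (hdeg : 1 ≤ (phi i j hij f).natDegree) (hg : ¬ f ∣ g)
    (hgh : f ∣ g * (pderiv j f * pderiv i h - pderiv i f * pderiv j h)
      - h * (pderiv j f * pderiv i g - pderiv i f * pderiv j g)) :
    ∃ ζ : ℂ, f ∣ h - C ζ * g := by
  have hf' : Irreducible (phi i j hij f) := (MulEquiv.irreducible_iff (phi i j hij)).2 hf
  have hw : ¬ phi i j hij f ∣ phi i j hij (pderiv j f) := by
    rw [phi_der]
    intro hd
    have hne : Polynomial.derivative (phi i j hij f) ≠ 0 := by
      intro e
      have := Polynomial.derivative_eq_zero.1 e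
      omega
    have h1 := Polynomial.natDegree_le_of_dvd hd hne
    have h2 := Polynomial.natDegree_derivative_lt (p := phi i j hij f) (by omega)
    omega
  have hδf : phi i j hij f ∣ dlt i j hij f (phi i j hij f) := by
    rw [dlt_apply, mul_comm, sub_self, map_zero]
    exact dvd_zero _
  have hg' : ¬ phi i j hij f ∣ phi i j hij g := fun e => hg ((map_dvd_iff (phi i j hij)).1 e)
  have hgh' : phi i j hij f ∣ phi i j hij g * dlt i j hij f (phi i j hij h)
      - phi i j hij h * dlt i j hij f (phi i j hij g) := by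
    rw [dlt_apply, dlt_apply, ← map_mul, ← map_mul, ← map_sub]
    exact (map_dvd_iff (phi i j hij)).2 hgh
  obtain ⟨ζ, hζ⟩ := curve_const hf' hdeg (dlt i j hij f) hw (dlt_C hij f) hδf hg' hgh'
  refine ⟨ζ, ?_⟩
  rw [← phi_C hij ζ, ← map_mul, ← map_sub] at hζ
  exact (map_dvd_iff (phi i j hij)).1 hζ

end

private lemma occurs {f : MvPolynomial (Fin 2) ℂ} (hf : Irreducible f) :
    1 ≤ (phi 0 1 (by decide) f).natDegree ∨ 1 ≤ (phi 1 0 (by decide) f).natDegree := by
  by_contra hcon
  rw [not_or] at hcon
  obtain ⟨h1, h2⟩ := hcon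
  have e1 := Polynomial.eq_C_of_natDegree_eq_zero (Nat.lt_one_iff.1 (not_le.1 h1))
  set a := (phi 0 1 (by decide) f).coeff 0 with ha
  have e2 : f = Polynomial.aeval (X 0) a := by
    rw [← phi_symm_C (i := 0) (j := 1) (by decide) a, ← e1, AlgEquiv.symm_apply_apply]
  have e3 : phi 1 0 (by decide) f = a.map Polynomial.C := by
    rw [e2, ← Polynomial.aeval_algHom_apply, phi_j (i := 1) (j := 0) (by decide)]
    exact Polynomial.aeval_X_left_eq_map a
  rw [e3, Polynomial.natDegree_map_eq_of_injective Polynomial.C_injective] at h2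
  have e4 := Polynomial.eq_C_of_natDegree_eq_zero (Nat.lt_one_iff.1 (not_le.1 h2))
  rw [e4, Polynomial.aeval_C] at e2
  by_cases hc : a.coeff 0 = 0
  · rw [hc, map_zero] at e2
    exact hf.ne_zero e2
  · apply hf.not_isUnit
    rw [e2]
    exact (isUnit_iff_ne_zero.2 hc).map (algebraMap ℂ (MvPolynomial (Fin 2) ℂ))

private lemma dvd_const {d : ℕ} {f u : MvPolynomial (Fin 2) ℂ} (hf : f ≠ 0) (hfd : f.totalDegree = d)
    (hu : u.totalDegree ≤ d) (h : f ∣ u) : ∃ c : ℂ, u = C c * f := by
  obtain ⟨k, rfl⟩ := h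
  by_cases hk : k = 0
  · exact ⟨0, by simp [hk]⟩
  rw [totalDegree_mul_of_isDomain hf hk, hfd] at hu
  have h0 : k.totalDegree = 0 := by omega
  rw [totalDegree_eq_zero_iff_eq_C] at h0
  exact ⟨coeff 0 k, by rw [← h0, mul_comm]⟩

theorem jets {d : ℕ} {f g h : MvPolynomial (Fin 2) ℂ} (hf : Irreducible f) (hfd : f.totalDegree = d)
    (hgd : g.totalDegree ≤ d) (hhd : h.totalDegree ≤ d) (hlin : LinearIndependent ℂ ![f, g, h]) :
    ∃ q : Fin 2 → ℂ, ∀ x y z : ℂ, ∃ α β γ : ℂ, ∀ F : MvPolynomial (Fin 2) ℂ, F = C α * f + C β * g + C γ * h →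
      eval q F = x ∧ eval q (pderiv 0 F) = y ∧ eval q (pderiv 1 F) = z := by
  classical
  have hindep : ∀ a b c : ℂ, C a * f + C b * g + C c * h = 0 → a = 0 ∧ b = 0 ∧ c = 0 := by
    intro a b c e
    have h1 := (Fintype.linearIndependent_iff.1 hlin) ![a, b, c] (by
      simp only [Fin.sum_univ_three, Matrix.cons_val_zero, Matrix.cons_val_one, Matrix.cons_val_two,
        Matrix.tail_cons, Matrix.head_cons, smul_eq_C_mul, Matrix.cons_val]
      exact e)
    exact ⟨h1 0, h1 1, h1 2⟩
  let Δ : MvPolynomial (Fin 2) ℂ := Matrix.det !![f, g, h; pderiv 0 f, pderiv 0 g, pderiv 0 h;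
    pderiv 1 f, pderiv 1 g, pderiv 1 h]
  have hΔ : Δ = f * (pderiv 0 g * pderiv 1 h - pderiv 1 g * pderiv 0 h)
      + (g * (pderiv 1 f * pderiv 0 h - pderiv 0 f * pderiv 1 h)
      - h * (pderiv 1 f * pderiv 0 g - pderiv 0 f * pderiv 1 g)) := by
    simp only [Δ, Matrix.det_fin_three, Matrix.of_apply, Matrix.cons_val', Matrix.cons_val_zero,
      Matrix.cons_val_one, Matrix.cons_val_two, Matrix.tail_cons, Matrix.head_cons, Matrix.cons_val]
    ring
  by_cases h0 : Δ = 0
  · exfalso
    have hfg : ¬ f ∣ g := by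
      intro hd
      obtain ⟨c, hc⟩ := dvd_const hf.ne_zero hfd hgd hd
      have := (hindep c (-1) 0 (by rw [hc]; simp)).2.1
      norm_num at this
    have hdv : f ∣ g * (pderiv 1 f * pderiv 0 h - pderiv 0 f * pderiv 1 h)
        - h * (pderiv 1 f * pderiv 0 g - pderiv 0 f * pderiv 1 g) := by
      refine ⟨-(pderiv 0 g * pderiv 1 h - pderiv 1 g * pderiv 0 h), ?_⟩
      rw [h0] at hΔ
      linear_combination -hΔ
    have hζ : ∃ ζ : ℂ, f ∣ h - C ζ * g := by
      rcases occurs hf with h1 | h1
      · exact key (by decide) hf h1 hfg hdv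
      · refine key (by decide) hf h1 hfg ?_
        have := (dvd_neg (a := f)).2 hdv
        convert this using 1
        ring
    obtain ⟨ζ, hζ⟩ := hζ
    have hdeg : (h - C ζ * g).totalDegree ≤ d := by
      refine (totalDegree_sub _ _).trans (max_le hhd ?_)
      refine (totalDegree_mul _ _).trans ?_
      rw [totalDegree_C, zero_add]
      exact hgd
    obtain ⟨c, hc⟩ := dvd_const hf.ne_zero hfd hdeg hζ
    have := (hindep (-c) (-ζ) 1 (by
      simp only [map_neg, C_1]
      linear_combination hc)).2.2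
    norm_num at this
  · have hq : ∃ q : Fin 2 → ℂ, eval q Δ ≠ 0 := by
      by_contra hcon
      exact h0 (MvPolynomial.funext fun q => by rw [not_ne_iff.1 fun e => hcon ⟨q, e⟩, map_zero])
    obtain ⟨q, hq⟩ := hq
    refine ⟨q, fun x y z => ?_⟩
    let M : Matrix (Fin 3) (Fin 3) ℂ := !![eval q f, eval q g, eval q h;
      eval q (pderiv 0 f), eval q (pderiv 0 g), eval q (pderiv 0 h);
      eval q (pderiv 1 f), eval q (pderiv 1 g), eval q (pderiv 1 h)]
    have hM : M.det = eval q Δ := by
      rw [hΔ]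
      simp only [M, Matrix.det_fin_three, Matrix.of_apply, Matrix.cons_val', Matrix.cons_val_zero,
        Matrix.cons_val_one, Matrix.cons_val_two, Matrix.tail_cons, Matrix.head_cons, Matrix.cons_val,
        map_add, map_sub, map_mul]
      ring
    have hu : IsUnit M.det := by rw [hM]; exact isUnit_iff_ne_zero.2 hq
    have hs : M.mulVec (M⁻¹.mulVec ![x, y, z]) = ![x, y, z] := by
      rw [Matrix.mulVec_mulVec, Matrix.mul_nonsing_inv _ hu, Matrix.one_mulVec]
    set v := M⁻¹.mulVec ![x, y, z] with hv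
    refine ⟨v 0, v 1, v 2, fun F hF => ?_⟩
    have e0 := congrFun hs 0
    have e1 := congrFun hs 1
    have e2 := congrFun hs 2
    simp only [M, Matrix.mulVec, dotProduct, Fin.sum_univ_three, Matrix.of_apply, Matrix.cons_val',
      Matrix.cons_val_zero, Matrix.cons_val_one, Matrix.cons_val_two, Matrix.tail_cons, Matrix.head_cons,
      Matrix.cons_val] at e0 e1 e2
    subst hF
    refine ⟨?_, ?_, ?_⟩
    · simp only [map_add, map_mul, eval_C]
      linear_combination e0
    · simp only [map_add, Derivation.leibniz, smul_eq_mul, pderiv_C, mul_zero, add_zero, map_mul, eval_C]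
      linear_combination e1
    · simp only [map_add, Derivation.leibniz, smul_eq_mul, pderiv_C, mul_zero, add_zero, map_mul, eval_C]
      linear_combination e2

end Pool.Agent.Helper28.HH
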