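import Mathlib

/-!
# Project HH: pencils (block HH-K2b)

`pencil`: `f` irreducible of total degree `d`, `g` of total degree `≤ d`, not a multiple of `f`: for some `q` no nonzero
combination `α f + β g` has value and both partial derivatives `0` at `q`.
PROOF.  Otherwise for every `q` the vectors `(f, f_0, f_1)(q)`, `(g, g_0, g_1)(q)` are dependent, so
`f g_0 = g f_0` and `f g_1 = g f_1` as polynomials.  `f` is prime: `f ∣ g` or (`f ∣ f_0` and `f ∣ f_1`).  If `f ∣ g` then `g = c f`
by degrees: contradiction.  `f ∣ f_j` means `f_j = 0` by degrees; both zero: `f` is constant, contradiction.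
-/

set_option autoImplicit false

namespace Pool.Agent.Helper28.HH

open MvPolynomial

theorem pencil_deg {i : Fin 2} {p : MvPolynomial (Fin 2) ℂ} (h : pderiv i p ≠ 0) :
    (pderiv i p).totalDegree < p.totalDegree := by
  classical
  have hs : (pderiv i p).support.Nonempty := by
    rw [Finset.nonempty_iff_ne_empty]
    exact fun h0 => h (MvPolynomial.support_eq_empty.mp h0)
  obtain ⟨m, hm, hdeg⟩ := Finset.exists_mem_eq_sup _ hs (fun s => Multiset.card (Finsupp.toMultiset s))
  rw [MvPolynomial.totalDegree_eq, hdeg]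
  have hc := MvPolynomial.mem_support_iff.mp hm
  rw [coeff_pderiv] at hc
  have hc' : m + Finsupp.single i 1 ∈ p.support := MvPolynomial.mem_support_iff.mpr (left_ne_zero_of_mul hc)
  have := MvPolynomial.le_totalDegree hc'
  rw [Finsupp.sum_add_index' (fun _ => rfl) (fun _ _ _ => rfl)] at this
  simp only [Finsupp.sum_single_index] at this
  have h2 : Multiset.card (Finsupp.toMultiset m) = m.sum fun _ e => e := Finsupp.card_toMultiset m
  omega

theorem pencil_dvd {i : Fin 2} {p : MvPolynomial (Fin 2) ℂ} (h : p ∣ pderiv i p) : pderiv i p = 0 := by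
  by_contra h0
  have h1 := pencil_deg h0
  obtain ⟨c, hc⟩ := h
  have hc0 : c ≠ 0 := by rintro rfl; exact h0 (by rw [hc, mul_zero])
  have hp0 : p ≠ 0 := by rintro rfl; exact h0 (by rw [hc, zero_mul])
  rw [hc, MvPolynomial.totalDegree_mul_of_isDomain hp0 hc0] at h1
  omega

theorem pencil_const {p : MvPolynomial (Fin 2) ℂ} (h : ∀ i, pderiv i p = 0) : p = C (coeff 0 p) := by
  classical
  ext m
  rw [coeff_C]
  split_ifs with hm
  · rw [hm]
  · have : ∃ i, m i ≠ 0 := by
      by_contra hcon
      push Not at hcon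
      exact hm (Finsupp.ext fun i => (hcon i).symm)
    obtain ⟨i, hi⟩ := this
    have hm' : m - Finsupp.single i 1 + Finsupp.single i 1 = m := by
      apply tsub_add_cancel_of_le
      rw [Finsupp.single_le_iff]
      omega
    have h1 := coeff_pderiv p (m - Finsupp.single i 1) (i := i)
    rw [h i, coeff_zero, hm'] at h1
    have h2 : ((((m - Finsupp.single i 1 : Fin 2 →₀ ℕ) i : ℕ)) : ℂ) + 1 ≠ 0 := Nat.cast_add_one_ne_zero _
    exact (mul_eq_zero.mp h1.symm).resolve_right h2

theorem pencil {d : ℕ} {f g : MvPolynomial (Fin 2) ℂ} (hf : Irreducible f) (hfd : f.totalDegree = d)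
    (hgd : g.totalDegree ≤ d) (hlin : LinearIndependent ℂ ![f, g]) :
    ∃ q : Fin 2 → ℂ, ∀ α β : ℂ, ∀ F : MvPolynomial (Fin 2) ℂ, F = C α * f + C β * g →
      eval q F = 0 → eval q (pderiv 0 F) = 0 → eval q (pderiv 1 F) = 0 → α = 0 ∧ β = 0 := by
  classical
  by_contra hcon
  push Not at hcon
  have key : ∀ i, f * pderiv i g = g * pderiv i f := by
    intro i
    apply MvPolynomial.funext
    intro q
    obtain ⟨α, β, F, hF, h0, h1, h2, h3⟩ := hcon q
    have hi : eval q (pderiv i F) = 0 := by
      fin_cases i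
      · exact h1
      · exact h2
    have e0 : α * eval q f + β * eval q g = 0 := by
      rw [hF] at h0; simpa using h0
    have ei : α * eval q (pderiv i f) + β * eval q (pderiv i g) = 0 := by
      rw [hF, map_add, pderiv_C_mul, pderiv_C_mul] at hi; simpa using hi
    rw [map_mul, map_mul]
    by_cases ha : α = 0
    · have hb := h3 ha
      rw [ha, zero_mul, zero_add] at e0 ei
      rw [(mul_eq_zero.mp e0).resolve_left hb, (mul_eq_zero.mp ei).resolve_left hb]; ring
    · have : α * (eval q f * eval q (pderiv i g) - eval q g * eval q (pderiv i f)) = 0 := by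
        linear_combination eval q (pderiv i g) * e0 - eval q g * ei
      exact sub_eq_zero.mp ((mul_eq_zero.mp this).resolve_left ha)
  have hp : Prime f := hf.prime
  have hf0 : f ≠ 0 := hf.ne_zero
  have hg0 : g ≠ 0 := hlin.ne_zero 1
  by_cases hfg : f ∣ g
  · obtain ⟨c, hc⟩ := hfg
    have hc0 : c ≠ 0 := by rintro rfl; exact hg0 (by rw [hc, mul_zero])
    have h1 : g.totalDegree = f.totalDegree + c.totalDegree := by
      conv_lhs => rw [hc]
      exact MvPolynomial.totalDegree_mul_of_isDomain hf0 hc0
    have h2 : c.totalDegree = 0 := by omega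
    obtain ⟨a, ha⟩ : ∃ a, c = C a := ⟨_, (MvPolynomial.totalDegree_eq_zero_iff_eq_C.mp h2)⟩
    rw [LinearIndependent.pair_iff] at hlin
    have := (hlin a (-1) (by rw [hc, ha, MvPolynomial.smul_eq_C_mul, MvPolynomial.smul_eq_C_mul, C_neg, C_1]; ring)).2
    norm_num at this
  · have hz : ∀ i, pderiv i f = 0 := by
      intro i
      apply pencil_dvd
      have : f ∣ g * pderiv i f := ⟨_, (key i).symm⟩
      exact (hp.dvd_or_dvd this).resolve_left hfg
    have hC := pencil_const hz
    have hu : IsUnit f := by
      rw [hC]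
      apply IsUnit.map
      rw [isUnit_iff_ne_zero]
      intro h0
      apply hf0
      rw [hC, h0, C_0]
    exact hf.not_isUnit hu

end Pool.Agent.Helper28.HH
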