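import Pool.Agent.Helper28.HH.Tri
import Pool.Agent.Helper28.HH.Bin

/-!
# Project HH: the exact lexicographic basis of a nested row diagram (block HH-NEST)

`D = DL n w u`: rows `b < w`, row `b` is `a ∈ [u b, n - b)`, i.e. `c := n - 1 - a - b ∈ [0, r b)`,
`r b = n - b - u b`.  Hypothesis: `min (r b) m` is nondecreasing in `b < w`.
`hh n u b γ` = number of rows `b' < b` with `γ < r b'`; `Γ b = {γ < min (r b) m : hh b γ + γ < m}`,
`sl b = card (Γ b)`.  `D'` = in each row the `sl b` elements with smallest `a` (largest `c`).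

PROOF of `nest`.  `one_point` with `D' = (DL n w u).filter (fun e => e.1 < u e.2 + sl n m u e.2)`,
`D \ D' = DL n w (fun b => u b + sl n m u b)`.  Dual functions: `triangulate` with `κ e = e.2`,
`Z κ = {e ∈ D | e.2 < κ}`.  An `e ∈ D \ D'` with `¬ lexlt e0 e` is in a lower row (in the row of `e0` the
elements of `D \ D'` have larger `a`), so it is in `Z (e0.2)`.  The function `g` for `e0 = (a0,b0)`:
for `γ ∈ Γ b0` let `h = hh n u b0 γ` and
`N γ e = (∏_{l=1}^{h} (e.2 - (b0 - l))) * ∏_{γ' < γ} ((n-1-γ') - e.1 - e.2)`, degree `h + γ < m`.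
It vanishes on `Z b0`: if `e.2 = b0 - l` with `1 ≤ l ≤ h` the first product is zero; if `e.2 < b0 - h`
then `r (e.2) ≤ γ` (the rows `b' < b0` with `γ < r b'` are the last `h` rows below `b0`, because
`min (r b') m` is nondecreasing and `γ < m`), so `c = n-1-e.1-e.2 < r (e.2) ≤ γ` is one of the `γ'`.
On the row `b0`: `N γ (a,b0) = h! * (c)(c-1)...(c-γ+1)`, `c = n-1-a-b0`.  By `binom_solve` (with
`r = r b0`, `G = Γ b0`, `k = sl b0 = card G ≤ r`) there are coefficients `x γ` such that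
`∑_γ x γ * (c)_γ` is `1` at `c0` and `0` at the other `c ∈ [r - k, r)`.  So
`g = ∑_γ (x γ / (hh b0 γ)!) • N γ`.
-/

set_option autoImplicit false

namespace Pool.Agent.Helper28.HH

/-- number of rows below `b` with more than `γ` elements -/
def hh (n : ℕ) (u : ℕ → ℕ) (b γ : ℕ) : ℕ :=
  ((Finset.range b).filter (fun b' => γ < n - b' - u b')).card

/-- size of the slice of an `m`-fold point in the row `b` -/
def sl (n m : ℕ) (u : ℕ → ℕ) (b : ℕ) : ℕ :=
  ((Finset.range (min (n - b - u b) m)).filter (fun γ => hh n u b γ + γ < m)).card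

/-- the function `N` of the proof -/
private noncomputable def nf63 (n : ℕ) (b0 h γ : ℕ) : ℕ × ℕ → ℝ := fun e =>
  (∏ l ∈ Finset.range h, ((e.2 : ℝ) - ((b0 : ℝ) - ((l : ℝ) + 1)))) *
    ∏ t ∈ Finset.range γ, (((n : ℝ) - 1 - (t : ℝ)) - (e.1 : ℝ) - (e.2 : ℝ))

private lemma nf_mem63 (n b0 h γ m : ℕ) (hm : h + γ < m) : nf63 n b0 h γ ∈ PF m := by
  have h1 : (fun e : ℕ × ℕ => ∏ l ∈ Finset.range h, ((e.2 : ℝ) - ((b0 : ℝ) - ((l : ℝ) + 1)))) ∈ PF (h + 1) := by
    have h2 := PF_prod (Finset.range h) (fun (l : ℕ) (e : ℕ × ℕ) => (e.2 : ℝ) - ((b0 : ℝ) - ((l : ℝ) + 1)))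
      (fun l _ => snd_sub_mem _)
    rwa [Finset.card_range] at h2
  have h3 : (fun e : ℕ × ℕ => ∏ t ∈ Finset.range γ, (((n : ℝ) - 1 - (t : ℝ)) - (e.1 : ℝ) - (e.2 : ℝ))) ∈ PF (γ + 1) := by
    have h4 := PF_prod (Finset.range γ) (fun (t : ℕ) (e : ℕ × ℕ) => ((n : ℝ) - 1 - (t : ℝ)) - (e.1 : ℝ) - (e.2 : ℝ))
      (fun t _ => third_sub_mem _)
    rwa [Finset.card_range] at h4
  exact PF_mono (by omega) (PF_mul h1 h3)

private lemma nf_row63 {n a b0 c : ℕ} (hc : c + 1 + a + b0 = n) (h γ : ℕ) :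
    nf63 n b0 h γ (a, b0) = (h.factorial : ℝ) * ∏ t ∈ Finset.range γ, ((c : ℝ) - t) := by
  unfold nf63
  congr 1
  · have h1 : ∀ l ∈ Finset.range h, ((b0 : ℝ) - ((b0 : ℝ) - ((l : ℝ) + 1))) = ((l + 1 : ℕ) : ℝ) := by
      intro l _
      push_cast
      ring
    change ∏ l ∈ Finset.range h, ((b0 : ℝ) - ((b0 : ℝ) - ((l : ℝ) + 1))) = _
    rw [Finset.prod_congr rfl h1, ← Nat.cast_prod, Finset.prod_range_add_one_eq_factorial]
  · refine Finset.prod_congr rfl fun t _ => ?_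
    have h1 : (n : ℝ) = c + 1 + a + b0 := by exact_mod_cast hc.symm
    change ((n : ℝ) - 1 - (t : ℝ)) - (a : ℝ) - (b0 : ℝ) = _
    rw [h1]
    ring

private lemma nf_low63 {n w m : ℕ} {u : ℕ → ℕ}
    (hnest : ∀ b b', b < b' → b' < w → min (n - b - u b) m ≤ min (n - b' - u b') m)
    {b0 γ : ℕ} (hb0 : b0 < w) (hγ : γ < m) {e : ℕ × ℕ} (he : e ∈ DL n w u) (heb : e.2 < b0) :
    nf63 n b0 (hh n u b0 γ) γ e = 0 := by
  rw [mem_DL] at he
  unfold nf63
  rcases le_or_gt b0 (e.2 + hh n u b0 γ) with h1 | h1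
  · have h2 : ∏ l ∈ Finset.range (hh n u b0 γ), ((e.2 : ℝ) - ((b0 : ℝ) - ((l : ℝ) + 1))) = 0 := by
      refine Finset.prod_eq_zero (i := b0 - e.2 - 1) (Finset.mem_range.2 (by omega)) ?_
      have h3 : ((b0 - e.2 - 1 : ℕ) : ℝ) = (b0 : ℝ) - e.2 - 1 := by
        rw [Nat.cast_sub (by omega), Nat.cast_sub heb.le]
        push_cast
        ring
      rw [h3]
      ring
    rw [h2, zero_mul]
  · have hr : n - e.2 - u e.2 ≤ γ := by
      by_contra hcon
      push Not at hcon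
      have h2 : Finset.Ico e.2 b0 ⊆ (Finset.range b0).filter (fun b' => γ < n - b' - u b') := by
        intro b' hb'
        rw [Finset.mem_Ico] at hb'
        rw [Finset.mem_filter, Finset.mem_range]
        refine ⟨hb'.2, ?_⟩
        rcases Nat.eq_or_lt_of_le hb'.1 with h3 | h3
        · rw [← h3]
          exact hcon
        · have h4 := hnest e.2 b' h3 (hb'.2.trans hb0)
          have h5 : γ < min (n - e.2 - u e.2) m := lt_min hcon hγ
          exact (h5.trans_le h4).trans_le (min_le_left _ _)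
      have h3 := Finset.card_le_card h2
      rw [Nat.card_Ico] at h3
      change b0 - e.2 ≤ hh n u b0 γ at h3
      omega
    have h2 : ∏ t ∈ Finset.range γ, (((n : ℝ) - 1 - (t : ℝ)) - (e.1 : ℝ) - (e.2 : ℝ)) = 0 := by
      refine Finset.prod_eq_zero (i := n - 1 - e.1 - e.2) (Finset.mem_range.2 (by omega)) ?_
      have h3 : ((n - 1 - e.1 - e.2 : ℕ) : ℝ) = (n : ℝ) - 1 - e.1 - e.2 := by
        rw [Nat.cast_sub (by omega), Nat.cast_sub (by omega), Nat.cast_sub (by omega)]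
        push_cast
        ring
      rw [h3]
      ring
    rw [h2, mul_zero]

theorem nest {n w m : ℕ} {u : ℕ → ℕ}
    (hnest : ∀ b b', b < b' → b' < w → min (n - b - u b) m ≤ min (n - b' - u b') m)
    {ms : List ℕ} (hI : InjD (DL n w (fun b => u b + sl n m u b)) ms) :
    InjD (DL n w u) (m :: ms) := by
  classical
  obtain ⟨D', hD'⟩ : ∃ D' : Finset (ℕ × ℕ), D' = (DL n w u).filter (fun e => e.1 < u e.2 + sl n m u e.2) := ⟨_, rfl⟩
  have hmem : ∀ e, e ∈ D' ↔ e ∈ DL n w u ∧ e.1 < u e.2 + sl n m u e.2 := fun e => by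
    rw [hD', Finset.mem_filter]
  have hsd : DL n w u \ D' = DL n w (fun b => u b + sl n m u b) := by
    ext e
    rw [Finset.mem_sdiff, hmem, mem_DL, mem_DL]
    constructor
    · rintro ⟨⟨⟨h1, h2⟩, h3⟩, h4⟩
      refine ⟨⟨h1, ?_⟩, h3⟩
      by_contra h5
      exact h4 ⟨⟨⟨h1, h2⟩, h3⟩, not_le.1 h5⟩
    · rintro ⟨⟨h1, h2⟩, h3⟩
      have h2' : u e.2 + sl n m u e.2 ≤ e.1 := h2
      refine ⟨⟨⟨h1, by omega⟩, h3⟩, fun h4 => ?_⟩
      have h5 := h4.2
      omega
  have hsub : D' ⊆ DL n w u := fun e he => ((hmem e).1 he).1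
  refine one_point hsub ?_ (hsd ▸ hI)
  have htri := triangulate (m := m) D' (fun e => e.2) (fun κ => {e | e ∈ DL n w u ∧ e.2 < κ})
    (fun κ κ' hκ e he => ⟨he.1, he.2.trans_le hκ⟩) ?_
  · intro e0 he0
    obtain ⟨f, hf, h1, h2, h3⟩ := htri e0 he0
    refine ⟨f, hf, h1, h2, fun e he hlex => ?_⟩
    rw [hsd, mem_DL] at he
    obtain ⟨⟨he1, he2⟩, he3⟩ := he
    have he2' : u e.2 + sl n m u e.2 ≤ e.1 := he2
    apply h3
    refine ⟨mem_DL.2 ⟨⟨he1, by omega⟩, he3⟩, ?_⟩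
    unfold lexlt at hlex
    push Not at hlex
    obtain ⟨h4, h5⟩ := hlex
    rcases Nat.eq_or_lt_of_le h4 with h6 | h6
    · exfalso
      have h7 := h5 h6.symm
      have h8 := ((hmem e0).1 he0).2
      rw [← h6] at h8
      omega
    · exact h6
  · intro e0 he0
    obtain ⟨a0, b0⟩ := e0
    obtain ⟨he0D, he0s⟩ := (hmem _).1 he0
    have he0D' := mem_DL.1 he0D
    change (a0 + b0 < n ∧ u b0 ≤ a0) ∧ b0 < w at he0D'
    change a0 < u b0 + sl n m u b0 at he0s
    obtain ⟨⟨hn0, hu0⟩, hb0w⟩ := he0D'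
    obtain ⟨G, hGdef⟩ : ∃ G : Finset ℕ, G = (Finset.range (min (n - b0 - u b0) m)).filter
      (fun γ => hh n u b0 γ + γ < m) := ⟨_, rfl⟩
    have hGm : ∀ γ ∈ G, (γ < n - b0 - u b0 ∧ γ < m) ∧ hh n u b0 γ + γ < m := by
      intro γ hγ
      rw [hGdef, Finset.mem_filter, Finset.mem_range, lt_min_iff] at hγ
      exact hγ
    have hk : G.card = sl n m u b0 := by
      rw [hGdef]
      rfl
    have hkr : sl n m u b0 ≤ n - b0 - u b0 := by
      rw [← hk]
      have h1 : G ⊆ Finset.range (n - b0 - u b0) := fun γ hγ => Finset.mem_range.2 (hGm γ hγ).1.1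
      have h2 := Finset.card_le_card h1
      rwa [Finset.card_range] at h2
    obtain ⟨x, hx⟩ := binom_solve (r := n - b0 - u b0) (k := sl n m u b0) G (fun γ hγ => (hGm γ hγ).1.1) hk hkr
      (fun c => if c = n - 1 - a0 - b0 then 1 else 0)
    have hrow : ∀ a, (a, b0) ∈ D' → ∑ γ ∈ G, (x γ / ((hh n u b0 γ).factorial : ℝ)) * nf63 n b0 (hh n u b0 γ) γ (a, b0) =
        if a = a0 then 1 else 0 := by
      intro a ha
      obtain ⟨haD, has⟩ := (hmem _).1 ha
      have haD' := mem_DL.1 haD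
      change (a + b0 < n ∧ u b0 ≤ a) ∧ b0 < w at haD'
      change a < u b0 + sl n m u b0 at has
      obtain ⟨⟨hn1, hu1⟩, -⟩ := haD'
      have h1 := hx (n - 1 - a - b0) (by omega) (by omega)
      have h2 : ∀ γ ∈ G, (x γ / ((hh n u b0 γ).factorial : ℝ)) * nf63 n b0 (hh n u b0 γ) γ (a, b0) =
          x γ * ∏ t ∈ Finset.range γ, (((n - 1 - a - b0 : ℕ) : ℝ) - t) := by
        intro γ _
        rw [nf_row63 (c := n - 1 - a - b0) (by omega)]
        have h3 : ((hh n u b0 γ).factorial : ℝ) ≠ 0 := by exact_mod_cast (Nat.factorial_pos _).ne'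
        field_simp
      rw [Finset.sum_congr rfl h2, h1]
      by_cases haa : a = a0
      · rw [if_pos haa, if_pos (by rw [haa])]
      · rw [if_neg haa, if_neg (by omega)]
    refine ⟨∑ γ ∈ G, (x γ / ((hh n u b0 γ).factorial : ℝ)) • nf63 n b0 (hh n u b0 γ) γ,
      Submodule.sum_mem _ fun γ hγ => Submodule.smul_mem _ _ (nf_mem63 _ _ _ _ _ (hGm γ hγ).2), ?_, ?_, ?_⟩
    · rw [Finset.sum_apply]
      have h1 := hrow a0 he0
      rw [if_pos rfl] at h1
      exact h1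
    · intro e he hne hle
      rw [Finset.sum_apply]
      change e.2 ≤ b0 at hle
      rcases Nat.eq_or_lt_of_le hle with h1 | h1
      · obtain ⟨a, b⟩ := e
        change b = b0 at h1
        subst h1
        have h2 := hrow a he
        rw [if_neg (fun h3 => hne (by rw [h3]))] at h2
        exact h2
      · refine Finset.sum_eq_zero fun γ hγ => ?_
        change (x γ / ((hh n u b0 γ).factorial : ℝ)) * nf63 n b0 (hh n u b0 γ) γ e = 0
        rw [nf_low63 hnest hb0w (hGm γ hγ).1.2 (hsub he) h1, mul_zero]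
    · rintro e ⟨he, heb⟩
      change e.2 < b0 at heb
      rw [Finset.sum_apply]
      refine Finset.sum_eq_zero fun γ hγ => ?_
      change (x γ / ((hh n u b0 γ).factorial : ℝ)) * nf63 n b0 (hh n u b0 γ) γ e = 0
      rw [nf_low63 hnest hb0w (hGm γ hγ).1.2 he heb, mul_zero]

end Pool.Agent.Helper28.HH
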