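import Pool.Agent.Helper28.HH.Defs

/-!
# Project HH: the one-point lemma (block HH-ONE)

One point `p₁ = (τ, τ^K)`, `K` large, `τ → 0` (descending version: `p₁ = (τ⁻¹, τ⁻ᴷ)`).

PROOF of `limit_lemma`.  Let `ps` be good points for `S = D \ D'`.  For `τ ≠ 0` let `c` satisfy the
conditions of `(m, pt τ) :: ps` on `D`.  By `h` the values of `c` on `D'` are
`c e0 = - ∑_{e ∈ S} c e * al e e0 * τ ^ k e e0`.  Put them into the conditions of `q ∈ ps` with the
monomial functions `f = e.1^i * e.2^j`, `i + j < q.1` (enough for `Kill`, by `Submodule.span_induction`,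
linearity): `∑_{e ∈ S} c e * (φ e - ∑_{e0 ∈ D'} al e e0 * τ ^ k e e0 * φ e0) = 0`, `φ e = f e * q.2^e`.
So `N(τ).mulVec c = 0`, with `N(τ) : Matrix (Fin ps.length × Fin M × Fin M) S ℝ` (`M` larger than all
multiplicities, entries `0` when `i + j ≥ q.1`), entries polynomial (continuous) in `τ`.
`N(0)` has trivial kernel because `al e e0 * 0 ^ k = 0` (`hk`) and `ps` is good for `S`.  Hence the
Gram determinant `det (N(τ)ᵀ * N(τ))` is `≠ 0` at `τ = 0` (a real matrix `N` with trivial kernel has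
`det (Nᵀ N) ≠ 0`: `Matrix.exists_mulVec_eq_zero_iff`, `dotProduct_self_eq_zero`), it is continuous in
`τ`, so it is `≠ 0` for some `τ ≠ 0`; for this `τ` the kernel of `N(τ)` is trivial, so `c = 0` on `S`,
and then `c = 0` on `D'` by `h`.

PROOF of `one_point`.  `K = 1 + max of e.1 over D`, `w e = e.1 + K * e.2`, `pt τ = (τ, τ^K)`,
`k e e0 = w e - w e0`, `al e e0 = F e0 e` (`F e0` the function given by `H`).  If `al e e0 ≠ 0` then
`lexlt e0 e`, so `w e0 < w e`.  For `c` killed: use `f = F e0`: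
`0 = ∑_{e ∈ D} c e * F e0 e * τ^(w e) = c e0 * τ^(w e0) + ∑_{e ∈ D \ D'} c e * F e0 e * τ^(w e)`; divide
by `τ^(w e0)`.
PROOF of `one_point_desc`: the same with `pt τ = (τ⁻¹, (τ⁻¹)^K)`, `k e e0 = w e0 - w e`.
-/

set_option autoImplicit false

namespace Pool.Agent.Helper28.HH

open Filter Topology

/-- the value of a monomial function times a monomial -/
private noncomputable def phi34 (q : ℝ × ℝ) (i j : ℕ) (e : ℕ × ℕ) : ℝ :=
  (e.1 : ℝ) ^ i * (e.2 : ℝ) ^ j * (q.1 ^ e.1 * q.2 ^ e.2)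

private lemma kill_iff34 {m : ℕ} {p : ℝ × ℝ} {D : Finset (ℕ × ℕ)} {c : ℕ × ℕ → ℝ} :
    Kill m p D c ↔ ∀ i j : ℕ, i + j < m → ∑ e ∈ D, c e * phi34 p i j e = 0 := by
  constructor
  · intro h i j hij
    have h1 := h (fun e => (e.1 : ℝ) ^ i * (e.2 : ℝ) ^ j) (Submodule.subset_span ⟨i, j, hij, rfl⟩)
    rw [← h1]
    refine Finset.sum_congr rfl fun e _ => ?_
    rw [phi34]
    ring
  · intro h f hf
    induction hf using Submodule.span_induction with
    | mem f hf =>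
      obtain ⟨i, j, hij, rfl⟩ := hf
      rw [← h i j hij]
      refine Finset.sum_congr rfl fun e _ => ?_
      rw [phi34]
      ring
    | zero => simp
    | add f g _ _ hf hg =>
      have h1 : ∑ e ∈ D, c e * (f + g) e * (p.1 ^ e.1 * p.2 ^ e.2) =
          ∑ e ∈ D, c e * f e * (p.1 ^ e.1 * p.2 ^ e.2) +
            ∑ e ∈ D, c e * g e * (p.1 ^ e.1 * p.2 ^ e.2) := by
        rw [← Finset.sum_add_distrib]
        refine Finset.sum_congr rfl fun e _ => ?_
        rw [Pi.add_apply]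
        ring
      rw [h1, hf, hg, add_zero]
    | smul a f _ hf =>
      have h1 : ∑ e ∈ D, c e * (a • f) e * (p.1 ^ e.1 * p.2 ^ e.2) =
          a * ∑ e ∈ D, c e * f e * (p.1 ^ e.1 * p.2 ^ e.2) := by
        rw [Finset.mul_sum]
        refine Finset.sum_congr rfl fun e _ => ?_
        rw [Pi.smul_apply, smul_eq_mul]
        ring
      rw [h1, hf, mul_zero]

theorem limit_lemma {D D' : Finset (ℕ × ℕ)} (hsub : D' ⊆ D) {m : ℕ} {ms : List ℕ}
    (k : ℕ × ℕ → ℕ × ℕ → ℕ) (al : ℕ × ℕ → ℕ × ℕ → ℝ) (pt : ℝ → ℝ × ℝ)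
    (hk : ∀ e ∈ D \ D', ∀ e0 ∈ D', al e e0 ≠ 0 → 1 ≤ k e e0)
    (h : ∀ τ : ℝ, τ ≠ 0 → ∀ c : ℕ × ℕ → ℝ, Kill m (pt τ) D c →
      ∀ e0 ∈ D', c e0 = -∑ e ∈ D \ D', c e * al e e0 * τ ^ (k e e0))
    (hI : InjD (D \ D') ms) : InjD D (m :: ms) := by
  classical
  obtain ⟨ps, hps, hinj⟩ := hI
  set M : ℕ := (ps.map Prod.fst).sum + 1 with hM
  have hle : ∀ q ∈ ps, q.1 < M := by
    intro q hq
    have h1 : q.1 ≤ (ps.map Prod.fst).sum :=
      List.single_le_sum (fun _ _ => Nat.zero_le _) _ (List.mem_map.2 ⟨q, hq, rfl⟩)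
    omega
  -- the columns
  let psi : ℝ → (ℝ × ℝ) → ℕ → ℕ → ℕ × ℕ → ℝ := fun τ q i j e =>
    phi34 q i j e - ∑ e0 ∈ D', al e e0 * τ ^ (k e e0) * phi34 q i j e0
  let col : ℝ → {e // e ∈ D \ D'} → (Fin ps.length × Fin M × Fin M) → ℝ := fun τ e x =>
    if (x.2.1 : ℕ) + (x.2.2 : ℕ) < (ps.get x.1).1 then
      psi τ (ps.get x.1).2 x.2.1 x.2.2 e else 0
  have hcont : Continuous col := by
    refine continuous_pi fun e => continuous_pi fun x => ?_
    show Continuous fun τ : ℝ => if (x.2.1 : ℕ) + (x.2.2 : ℕ) < (ps.get x.1).1 then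
      phi34 (ps.get x.1).2 x.2.1 x.2.2 e - ∑ e0 ∈ D', al e e0 * τ ^ (k e e0) *
        phi34 (ps.get x.1).2 x.2.1 x.2.2 e0 else 0
    split_ifs
    · refine continuous_const.sub (continuous_finsetSum _ fun e0 _ => ?_)
      exact (continuous_const.mul (continuous_id.pow _)).mul continuous_const
    · exact continuous_const
  -- a relation between the columns
  have hrel : ∀ (τ : ℝ) (c : ℕ × ℕ → ℝ), (∀ q ∈ ps, ∀ i j : ℕ, i + j < q.1 →
      ∑ e ∈ D \ D', c e * psi τ q.2 i j e = 0) → ∑ e : {e // e ∈ D \ D'}, c e • col τ e = 0 := by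
    intro τ c hc
    funext x
    rw [Finset.sum_apply, Pi.zero_apply]
    by_cases hx : (x.2.1 : ℕ) + (x.2.2 : ℕ) < (ps.get x.1).1
    · have h1 := hc (ps.get x.1) (List.get_mem _ _) _ _ hx
      rw [← h1, ← Finset.sum_coe_sort (D \ D')]
      refine Finset.sum_congr rfl fun e _ => ?_
      rw [Pi.smul_apply, smul_eq_mul]
      show c e * (if (x.2.1 : ℕ) + (x.2.2 : ℕ) < (ps.get x.1).1 then _ else 0) = _
      rw [if_pos hx]
    · refine Finset.sum_eq_zero fun e _ => ?_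
      rw [Pi.smul_apply, smul_eq_mul]
      show c e * (if (x.2.1 : ℕ) + (x.2.2 : ℕ) < (ps.get x.1).1 then _ else 0) = _
      rw [if_neg hx, mul_zero]
  have hrel' : ∀ (τ : ℝ) (g : {e // e ∈ D \ D'} → ℝ), ∑ e, g e • col τ e = 0 →
      ∀ q ∈ ps, ∀ i j : ℕ, i + j < q.1 → ∑ e : {e // e ∈ D \ D'}, g e * psi τ q.2 i j e = 0 := by
    intro τ g hg q hq i j hij
    obtain ⟨n, hn⟩ := List.get_of_mem hq
    have hqM := hle q hq
    have h1 := congrFun hg (n, ⟨i, by omega⟩, ⟨j, by omega⟩)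
    rw [Finset.sum_apply, Pi.zero_apply] at h1
    rw [← h1]
    refine Finset.sum_congr rfl fun e _ => ?_
    rw [Pi.smul_apply, smul_eq_mul]
    show _ = g e * (if i + j < (ps.get n).1 then psi τ (ps.get n).2 i j e else 0)
    rw [hn, if_pos hij]
  -- independence at zero
  have hzero : LinearIndependent ℝ (col 0) := by
    rw [Fintype.linearIndependent_iff]
    intro g hg e
    set c : ℕ × ℕ → ℝ := fun e => if h : e ∈ D \ D' then g ⟨e, h⟩ else 0 with hcdef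
    have hcg : ∀ e : {e // e ∈ D \ D'}, c e = g e := fun e => by
      simp only [hcdef]
      rw [dif_pos e.2]
    have h1 : ∀ q ∈ ps, Kill q.1 q.2 (D \ D') c := by
      intro q hq
      rw [kill_iff34]
      intro i j hij
      rw [← hrel' 0 g hg q hq i j hij, ← Finset.sum_coe_sort (D \ D')]
      refine Finset.sum_congr rfl fun e _ => ?_
      rw [hcg]
      congr 1
      show _ = phi34 q.2 i j e - ∑ e0 ∈ D', al e e0 * 0 ^ (k e e0) * phi34 q.2 i j e0
      rw [Finset.sum_eq_zero, sub_zero]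
      intro e0 he0
      by_cases h0 : al e e0 = 0
      · rw [h0, zero_mul, zero_mul]
      · have h2 := hk e e.2 e0 he0 h0
        rw [zero_pow (by omega), mul_zero, zero_mul]
    rw [← hcg]
    exact hinj c h1 e e.2
  have hev : ∀ᶠ τ in 𝓝 (0 : ℝ), LinearIndependent ℝ (col τ) :=
    hcont.continuousAt.eventually ((isOpen_setOfPred_linearIndependent (𝕜 := ℝ)).mem_nhds hzero)
  have hev' : ∀ᶠ τ in 𝓝[≠] (0 : ℝ), LinearIndependent ℝ (col τ) ∧ τ ≠ 0 :=
    (hev.filter_mono nhdsWithin_le_nhds).and self_mem_nhdsWithin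
  obtain ⟨τ, hτ, hτ0⟩ := hev'.exists
  refine ⟨(m, pt τ) :: ps, by rw [List.map_cons, hps], fun c hc => ?_⟩
  have hD' := h τ hτ0 c (hc (m, pt τ) List.mem_cons_self)
  have hS : ∀ e ∈ D \ D', c e = 0 := by
    have h1 : ∑ e : {e // e ∈ D \ D'}, c e • col τ e = 0 := by
      refine hrel τ c fun q hq i j hij => ?_
      have h2 := (kill_iff34.1 (hc q (List.mem_cons_of_mem _ hq))) i j hij
      rw [← Finset.sum_sdiff hsub] at h2
      have h3 : ∑ e0 ∈ D', c e0 * phi34 q.2 i j e0 =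
          -∑ e ∈ D \ D', c e * ∑ e0 ∈ D', al e e0 * τ ^ (k e e0) * phi34 q.2 i j e0 := by
        have h4 : ∑ e ∈ D \ D', c e * ∑ e0 ∈ D', al e e0 * τ ^ (k e e0) * phi34 q.2 i j e0 =
            ∑ e0 ∈ D', (∑ e ∈ D \ D', c e * al e e0 * τ ^ (k e e0)) * phi34 q.2 i j e0 := by
          simp only [Finset.mul_sum, Finset.sum_mul]
          rw [Finset.sum_comm]
          refine Finset.sum_congr rfl fun e _ => Finset.sum_congr rfl fun e0 _ => ?_
          ring
        rw [h4, ← Finset.sum_neg_distrib]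
        refine Finset.sum_congr rfl fun e0 he0 => ?_
        rw [hD' e0 he0]
        ring
      rw [h3, ← sub_eq_add_neg, ← Finset.sum_sub_distrib] at h2
      rw [← h2]
      refine Finset.sum_congr rfl fun e _ => ?_
      show c e * (phi34 q.2 i j e - _) = _
      ring
    rw [Fintype.linearIndependent_iff] at hτ
    intro e he
    exact hτ (fun e => c e) h1 ⟨e, he⟩
  intro e he
  by_cases h1 : e ∈ D'
  · rw [hD' e h1, Finset.sum_eq_zero, neg_zero]
    intro e' he'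
    rw [hS e' he', zero_mul, zero_mul]
  · exact hS e (Finset.mem_sdiff.2 ⟨he, h1⟩)

/-- the weight of an exponent -/
private def wt34 (K : ℕ) (e : ℕ × ℕ) : ℕ := e.1 + K * e.2

private lemma wt_lt34 {K : ℕ} {e e' : ℕ × ℕ} (he : e.1 < K) (h : lexlt e e') :
    wt34 K e < wt34 K e' := by
  unfold wt34
  rcases h with h | ⟨h, h'⟩
  · have h1 : K * (e.2 + 1) ≤ K * e'.2 := Nat.mul_le_mul_left K h
    rw [Nat.mul_add, Nat.mul_one] at h1
    omega
  · rw [h]
    omega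

private lemma le_sup34 {D : Finset (ℕ × ℕ)} {e : ℕ × ℕ} (he : e ∈ D) :
    e.1 < D.sup Prod.fst + 1 :=
  Nat.lt_succ_of_le (Finset.le_sup (f := Prod.fst) he)

private lemma pow_wt34 (K : ℕ) (x : ℝ) (e : ℕ × ℕ) : x ^ e.1 * (x ^ K) ^ e.2 = x ^ (wt34 K e) := by
  rw [wt34, pow_add, pow_mul]

/-- the equation for `c e0` -/
private lemma split34 {D D' : Finset (ℕ × ℕ)} (hsub : D' ⊆ D) {m K : ℕ} {x : ℝ}
    {c : ℕ × ℕ → ℝ} (hc : Kill m (x, x ^ K) D c) {f : ℕ × ℕ → ℝ} (hf : f ∈ PF m)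
    {e0 : ℕ × ℕ} (he0 : e0 ∈ D') (h1 : f e0 = 1) (h2 : ∀ e ∈ D', e ≠ e0 → f e = 0) :
    c e0 * x ^ (wt34 K e0) = -∑ e ∈ D \ D', c e * f e * x ^ (wt34 K e) := by
  have h := hc f hf
  rw [← Finset.sum_sdiff hsub] at h
  have h3 : ∑ e ∈ D', c e * f e * ((x, x ^ K).1 ^ e.1 * (x, x ^ K).2 ^ e.2) =
      c e0 * x ^ (wt34 K e0) := by
    rw [Finset.sum_eq_single_of_mem e0 he0]
    · show c e0 * f e0 * (x ^ e0.1 * (x ^ K) ^ e0.2) = _
      rw [h1, pow_wt34, mul_one]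
    · intro e he hne
      rw [h2 e he hne, mul_zero, zero_mul]
  rw [h3] at h
  have h4 : ∑ e ∈ D \ D', c e * f e * ((x, x ^ K).1 ^ e.1 * (x, x ^ K).2 ^ e.2) =
      ∑ e ∈ D \ D', c e * f e * x ^ (wt34 K e) := by
    refine Finset.sum_congr rfl fun e _ => ?_
    show c e * f e * (x ^ e.1 * (x ^ K) ^ e.2) = _
    rw [pow_wt34]
  rw [h4] at h
  linarith

theorem one_point {D D' : Finset (ℕ × ℕ)} (hsub : D' ⊆ D) {m : ℕ} {ms : List ℕ}
    (H : ∀ e0 ∈ D', ∃ f ∈ PF m, f e0 = 1 ∧ (∀ e ∈ D', e ≠ e0 → f e = 0) ∧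
      (∀ e ∈ D \ D', ¬ lexlt e0 e → f e = 0))
    (hI : InjD (D \ D') ms) : InjD D (m :: ms) := by
  choose! F hF using H
  set K := D.sup Prod.fst + 1 with hK
  refine limit_lemma hsub (fun e e0 => wt34 K e - wt34 K e0) (fun e e0 => F e0 e)
    (fun τ => (τ, τ ^ K)) ?_ ?_ hI
  · intro e he e0 he0 hne
    have h1 : lexlt e0 e := by
      by_contra h
      exact hne ((hF e0 he0).2.2.2 e he h)
    have h2 := wt_lt34 (le_sup34 (hsub he0)) h1
    rw [← hK] at h2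
    show 1 ≤ wt34 K e - wt34 K e0
    omega
  · intro τ hτ c hc e0 he0
    obtain ⟨hf, hf1, hf2, hf3⟩ := hF e0 he0
    have h1 := split34 hsub hc hf he0 hf1 hf2
    have h2 : ∑ e ∈ D \ D', c e * F e0 e * τ ^ (wt34 K e) =
        (∑ e ∈ D \ D', c e * F e0 e * τ ^ (wt34 K e - wt34 K e0)) * τ ^ (wt34 K e0) := by
      rw [Finset.sum_mul]
      refine Finset.sum_congr rfl fun e he => ?_
      by_cases h3 : lexlt e0 e
      · have h4 := wt_lt34 (le_sup34 (hsub he0)) h3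
        rw [← hK] at h4
        rw [mul_assoc _ (τ ^ _) (τ ^ _), ← pow_add, Nat.sub_add_cancel h4.le]
      · rw [hf3 e he h3]
        ring
    rw [h2, ← neg_mul] at h1
    exact mul_right_cancel₀ (pow_ne_zero _ hτ) h1

theorem one_point_desc {D D' : Finset (ℕ × ℕ)} (hsub : D' ⊆ D) {m : ℕ} {ms : List ℕ}
    (H : ∀ e0 ∈ D', ∃ f ∈ PF m, f e0 = 1 ∧ (∀ e ∈ D', e ≠ e0 → f e = 0) ∧
      (∀ e ∈ D \ D', ¬ lexlt e e0 → f e = 0))
    (hI : InjD (D \ D') ms) : InjD D (m :: ms) := by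
  choose! F hF using H
  set K := D.sup Prod.fst + 1 with hK
  refine limit_lemma hsub (fun e e0 => wt34 K e0 - wt34 K e) (fun e e0 => F e0 e)
    (fun τ => (τ⁻¹, τ⁻¹ ^ K)) ?_ ?_ hI
  · intro e he e0 he0 hne
    have h1 : lexlt e e0 := by
      by_contra h
      exact hne ((hF e0 he0).2.2.2 e he h)
    have h2 := wt_lt34 (le_sup34 (Finset.mem_sdiff.1 he).1) h1
    rw [← hK] at h2
    show 1 ≤ wt34 K e0 - wt34 K e
    omega
  · intro τ hτ c hc e0 he0
    obtain ⟨hf, hf1, hf2, hf3⟩ := hF e0 he0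
    have h1 := split34 hsub hc hf he0 hf1 hf2
    have h2 : ∑ e ∈ D \ D', c e * F e0 e * τ⁻¹ ^ (wt34 K e) =
        (∑ e ∈ D \ D', c e * F e0 e * τ ^ (wt34 K e0 - wt34 K e)) * τ⁻¹ ^ (wt34 K e0) := by
      rw [Finset.sum_mul]
      refine Finset.sum_congr rfl fun e he => ?_
      by_cases h3 : lexlt e e0
      · have h4 := wt_lt34 (le_sup34 (Finset.mem_sdiff.1 he).1) h3
        rw [← hK] at h4
        have h5 : τ ^ (wt34 K e0 - wt34 K e) * τ⁻¹ ^ (wt34 K e0) = τ⁻¹ ^ (wt34 K e) := by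
          conv_lhs => rw [← Nat.sub_add_cancel h4.le, Nat.add_sub_cancel, pow_add, ← mul_assoc,
            ← mul_pow, mul_inv_cancel₀ hτ, one_pow, one_mul]
        rw [mul_assoc _ (τ ^ _) (τ⁻¹ ^ _), h5]
      · rw [hf3 e he h3]
        ring
    rw [h2, ← neg_mul] at h1
    exact mul_right_cancel₀ (pow_ne_zero _ (inv_ne_zero hτ)) h1

end Pool.Agent.Helper28.HH
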