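import Pool.Agent.Helper28.HH.GG

/-!
# Project HH: Theorem E is sharp (block HH-OPE)

`k ≥ 1` points `p_1..p_k` of multiplicity `μ` and one point `p_0` of multiplicity `k μ`, degree `k μ`: the product of the
`μ`-th powers of the lines `p_0 p_j` is a nonzero polynomial of degree `≤ k μ` with these multiplicities, for all
positions of the points; `(d+1)(d+2) - ∑ m_i(m_i+1) = 2 - d (μ - 1)`.
PROOF: `f = ∏_{j=1}^k ℓ_j^μ`, `ℓ_j` a nonzero polynomial of degree `≤ 1` vanishing at `p 0` and `p j.succ`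
(`(p j 1 - p 0 1)(X0 - p 0 0) - (p j 0 - p 0 0)(X1 - p 0 1)` if the points differ, `X0 - p 0 0` otherwise).  The
coefficients of order `< M` of a product of `M` polynomials without constant term are `0`
(`aeval (X + C p)` is a ring homomorphism; `ℓ(X+p)` has no constant term; e.g. by induction, or via the ideal generated
by the variables).
-/

set_option autoImplicit false

namespace Pool.Agent.Helper28.HH

open MvPolynomial

private theorem ope_line (q r : Fin 2 → ℂ) :
    ∃ l : MvPolynomial (Fin 2) ℂ, l ≠ 0 ∧ l.totalDegree ≤ 1 ∧ eval q l = 0 ∧ eval r l = 0 := by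
  have hd : ∀ (a b : ℂ), (C a * (X 0 - C (q 0)) - C b * (X 1 - C (q 1)) : MvPolynomial (Fin 2) ℂ).totalDegree ≤ 1 := by
    intro a b
    have h1 : ∀ (c : ℂ) (i : Fin 2), (C c * (X i - C (q i)) : MvPolynomial (Fin 2) ℂ).totalDegree ≤ 1 := by
      intro c i
      refine (MvPolynomial.totalDegree_mul _ _).trans ?_
      rw [MvPolynomial.totalDegree_C, zero_add]
      refine (MvPolynomial.totalDegree_sub _ _).trans (max_le ?_ ?_)
      · exact (MvPolynomial.totalDegree_X i).le
      · rw [MvPolynomial.totalDegree_C]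
        exact Nat.zero_le 1
    exact (MvPolynomial.totalDegree_sub _ _).trans (max_le (h1 a 0) (h1 b 1))
  by_cases h : q = r
  · subst h
    refine ⟨C 1 * (X 0 - C (q 0)) - C 0 * (X 1 - C (q 1)), fun h0 => ?_, hd 1 0, by simp, by simp⟩
    have h1 := congrArg (eval (fun i : Fin 2 => q i + 1)) h0
    simp at h1
  · refine ⟨C (r 1 - q 1) * (X 0 - C (q 0)) - C (r 0 - q 0) * (X 1 - C (q 1)), fun h0 => h ?_, hd _ _, by simp, ?_⟩
    · have h1 := congrArg (eval (fun i : Fin 2 => if i = 0 then q 0 + 1 else q 1)) h0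
      have h2 := congrArg (eval (fun i : Fin 2 => if i = 0 then q 0 else q 1 + 1)) h0
      simp at h1 h2
      funext i
      fin_cases i
      · exact sub_eq_zero.1 h2
      · exact (sub_eq_zero.1 h1).symm
    · simp only [map_sub, map_mul, eval_C, eval_X]
      ring

/-- the coefficients of order less than `M` vanish -/
private def OpeO (M : ℕ) (g : MvPolynomial (Fin 2) ℂ) : Prop := ∀ s : Fin 2 →₀ ℕ, s 0 + s 1 < M → coeff s g = 0

private theorem ope_zero (g : MvPolynomial (Fin 2) ℂ) : OpeO 0 g := fun _ hs => absurd hs (Nat.not_lt_zero _)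

private theorem ope_one {g : MvPolynomial (Fin 2) ℂ} (h : coeff 0 g = 0) : OpeO 1 g := by
  intro s hs
  have h0 : s = 0 := by
    ext i
    fin_cases i
    · change s 0 = 0
      omega
    · change s 1 = 0
      omega
  rw [h0, h]

private theorem ope_mul {a b : ℕ} {g h : MvPolynomial (Fin 2) ℂ} (hg : OpeO a g) (hh : OpeO b h) : OpeO (a + b) (g * h) := by
  classical
  intro s hs
  rw [MvPolynomial.coeff_mul]
  refine Finset.sum_eq_zero fun x hx => ?_
  have h1 : x.1 + x.2 = s := Finset.HasAntidiagonal.mem_antidiagonal.1 hx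
  have h2 : ∀ i, x.1 i + x.2 i = s i := fun i => by rw [← h1]; rfl
  by_cases h3 : x.1 0 + x.1 1 < a
  · rw [hg _ h3, zero_mul]
  · have h4 : x.2 0 + x.2 1 < b := by
      have e0 := h2 0
      have e1 := h2 1
      omega
    rw [hh _ h4, mul_zero]

private theorem ope_pow {g : MvPolynomial (Fin 2) ℂ} (hg : OpeO 1 g) (n : ℕ) : OpeO n (g ^ n) := by
  induction n with
  | zero => exact ope_zero _
  | succ n ih =>
    rw [pow_succ]
    exact ope_mul ih hg

private theorem ope_prod {κ : Type*} (s : Finset κ) (a : κ → ℕ) (g : κ → MvPolynomial (Fin 2) ℂ) (h : ∀ i ∈ s, OpeO (a i) (g i)) :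
    OpeO (∑ i ∈ s, a i) (∏ i ∈ s, g i) := by
  classical
  induction s using Finset.induction_on with
  | empty => exact ope_zero _
  | insert i s hi ih =>
    rw [Finset.sum_insert hi, Finset.prod_insert hi]
    exact ope_mul (h i (Finset.mem_insert_self _ _)) (ih fun j hj => h j (Finset.mem_insert_of_mem hj))

private theorem ope_cc (q : Fin 2 → ℂ) (g : MvPolynomial (Fin 2) ℂ) :
    coeff 0 (aeval (fun j : Fin 2 => (X j + C (q j) : MvPolynomial (Fin 2) ℂ)) g) = eval q g := by
  have h : (constantCoeff (R := ℂ) (σ := Fin 2)).comp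
      ((aeval (fun j : Fin 2 => (X j + C (q j) : MvPolynomial (Fin 2) ℂ))).toRingHom : MvPolynomial (Fin 2) ℂ →+* MvPolynomial (Fin 2) ℂ) =
      eval q := by
    apply MvPolynomial.ringHom_ext
    · intro a
      simp
    · intro i
      simp
  exact RingHom.congr_fun h g

theorem optE {k μ : ℕ} (p : Fin (k + 1) → Fin 2 → ℂ) :
    ∃ f : MvPolynomial (Fin 2) ℂ, f ≠ 0 ∧ f.totalDegree ≤ k * μ ∧
      Van (Fin.cons (k * μ) (fun _ => μ) : Fin (k + 1) → ℕ) p f := by
  classical
  choose l hl0 hld hlq hlr using fun j : Fin k => ope_line (p 0) (p j.succ)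
  refine ⟨∏ j : Fin k, l j ^ μ, Finset.prod_ne_zero_iff.2 fun j _ => pow_ne_zero _ (hl0 j), ?_, ?_⟩
  · refine (MvPolynomial.totalDegree_finsetProd _ _).trans ?_
    calc ∑ j : Fin k, (l j ^ μ).totalDegree ≤ ∑ _j : Fin k, μ := by
          refine Finset.sum_le_sum fun j _ => (MvPolynomial.totalDegree_pow _ _).trans ?_
          calc μ * (l j).totalDegree ≤ μ * 1 := Nat.mul_le_mul_left _ (hld j)
            _ = μ := mul_one μ
      _ = k * μ := by rw [Finset.sum_const, Finset.card_univ, Fintype.card_fin, smul_eq_mul]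
  · intro i
    refine Fin.cases ?_ (fun i => ?_) i
    · intro s hs
      rw [Fin.cons_zero] at hs
      rw [map_prod]
      have h1 : OpeO (∑ _j : Fin k, μ) (∏ j : Fin k, aeval (fun j : Fin 2 => (X j + C (p 0 j) : MvPolynomial (Fin 2) ℂ)) (l j ^ μ)) := by
        refine ope_prod _ _ _ fun j _ => ?_
        rw [map_pow]
        exact ope_pow (ope_one (by rw [ope_cc, hlq])) μ
      refine h1 s ?_
      rw [Finset.sum_const, Finset.card_univ, Fintype.card_fin, smul_eq_mul]
      exact hs
    · intro s hs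
      rw [Fin.cons_succ] at hs
      rw [map_prod]
      have h1 : OpeO (∑ j : Fin k, if j = i then μ else 0)
          (∏ j : Fin k, aeval (fun j : Fin 2 => (X j + C (p i.succ j) : MvPolynomial (Fin 2) ℂ)) (l j ^ μ)) := by
        refine ope_prod _ _ _ fun j _ => ?_
        by_cases hj : j = i
        · rw [if_pos hj, hj, map_pow]
          exact ope_pow (ope_one (by rw [ope_cc, hlr])) μ
        · rw [if_neg hj]
          exact ope_zero _
      refine h1 s ?_
      rw [Finset.sum_ite_eq' Finset.univ i (fun _ => μ), if_pos (Finset.mem_univ _)]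
      exact hs

theorem optE_value (k μ : ℕ) :
    (((k * μ : ℕ) : ℤ) + 1) * (((k * μ : ℕ) : ℤ) + 2)
      - ∑ i : Fin (k + 1), (((Fin.cons (k * μ) (fun _ => μ) : Fin (k + 1) → ℕ) i : ℤ)
        * (((Fin.cons (k * μ) (fun _ => μ) : Fin (k + 1) → ℕ) i : ℤ) + 1))
      = 2 - ((k * μ : ℕ) : ℤ) * ((μ : ℤ) - 1) := by
  rw [Fin.sum_univ_succ]
  simp only [Fin.cons_zero, Fin.cons_succ, Finset.sum_const, Finset.card_univ, Fintype.card_fin, nsmul_eq_mul]
  push_cast
  ring

end Pool.Agent.Helper28.HH
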