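import Pool.Agent.Helper28.HH.GG

/-!
# Project HH: Theorem S is sharp (block HH-OPS)

`d = a + b - 2`, multiplicities `a, b ≥ 1` at two points: the conditions are never independent, although
`(d+1)(d+2) - a(a+1) - b(b+1) = 2(a-1)(b-1) - 2`.

PROOF.  `finrank_ge`: the set is (up to the isomorphism with coefficient vectors, as in `FR.finrank`) the kernel of
`CM d m p`, of dimension `≥ card (Midx d) - card (Cidx m)` (rank `≤` number of rows).
`optS`: if `d = 0` (`a = b = 1`): degree `≤ 0`, right-hand side `2 - 4 = -2 < 0 ≤` left-hand side.  If `d ≥ 1`: let `ℓ` be a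
nonzero polynomial of degree `≤ 1` vanishing at `p 0` and `p 1` (`(p 1 1 - p 0 1)(X0 - p 0 0) - (p 1 0 - p 0 0)(X1 - p 0 1)` if
`p 0 ≠ p 1`, `X0 - p 0 0` otherwise).  `h ↦ ℓ h` is injective and maps the polynomials of degree `≤ d - 1` with
multiplicities `a - 1, b - 1` into those of degree `≤ d` with multiplicities `a, b` (`(ℓ h)(X + p_i)`: `ℓ(X + p_i)` has no
constant term).  So by `finrank_ge` `2 finrank ≥ d(d+1) - (a-1)a - (b-1)b = (d+1)(d+2) - a(a+1) - b(b+1) + 2`
because `a + b = d + 2`.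
-/

set_option autoImplicit false

namespace Pool.Agent.Helper28.HH

open MvPolynomial

/-- number of index pairs below the diagonal -/
private lemma gauss34 (a : ℕ) : 2 * ∑ i ∈ Finset.range a, (a - i) = a * (a + 1) := by
  induction a with
  | zero => rfl
  | succ a ih =>
    rw [Finset.sum_range_succ']
    simp only [Nat.add_sub_add_right, Nat.sub_zero]
    nlinarith [ih]

private lemma card_pairs34 (a : ℕ) :
    2 * Fintype.card {s : Fin a × Fin a // (s.1 : ℕ) + s.2 < a} = a * (a + 1) := by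
  rw [Fintype.card_subtype, Finset.card_filter, Fintype.sum_prod_type]
  have h1 : ∀ i : Fin a, (∑ j : Fin a, if (i : ℕ) + j < a then 1 else 0) = a - i := by
    intro i
    rw [Fin.sum_univ_eq_sum_range (fun j => if (i : ℕ) + j < a then 1 else 0) a, ← Finset.card_filter]
    have h2 : (Finset.range a).filter (fun j => (i : ℕ) + j < a) = Finset.range (a - i) := by
      ext j
      rw [Finset.mem_filter, Finset.mem_range, Finset.mem_range]
      omega
    rw [h2, Finset.card_range]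
  simp only [h1]
  rw [Fin.sum_univ_eq_sum_range (fun i => a - i) a]
  exact gauss34 a

private lemma card_Midx34 (d : ℕ) : 2 * Fintype.card (Midx d) = (d + 1) * (d + 2) := by
  rw [← card_pairs34 (d + 1)]
  congr 1
  refine Fintype.card_congr (Equiv.subtypeEquivRight fun s => ?_)
  exact Nat.lt_succ_iff.symm

private lemma card_Cidx34 {n : ℕ} (m : Fin n → ℕ) :
    2 * Fintype.card (Cidx m) = ∑ i, m i * (m i + 1) := by
  rw [Fintype.card_sigma, Finset.mul_sum]
  exact Finset.sum_congr rfl fun i _ => card_pairs34 (m i)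

/-- the exponent of an index -/
private noncomputable def ex34 {d : ℕ} (e : Midx d) : Fin 2 →₀ ℕ :=
  Finsupp.single 0 (e.1.1 : ℕ) + Finsupp.single 1 (e.1.2 : ℕ)

private lemma ex_zero34 {d : ℕ} (e : Midx d) : ex34 e 0 = e.1.1 := by
  simp [ex34]

private lemma ex_one34 {d : ℕ} (e : Midx d) : ex34 e 1 = e.1.2 := by
  simp [ex34]

private lemma ex_inj34 {d : ℕ} : Function.Injective (ex34 (d := d)) := by
  intro e e' h
  have h0 := DFunLike.congr_fun h 0
  have h1 := DFunLike.congr_fun h 1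
  rw [ex_zero34, ex_zero34] at h0
  rw [ex_one34, ex_one34] at h1
  exact Subtype.ext (Prod.ext (Fin.ext h0) (Fin.ext h1))

/-- the polynomial with given coefficients -/
private noncomputable def ofc34 (d : ℕ) : (Midx d → ℂ) →ₗ[ℂ] MvPolynomial (Fin 2) ℂ :=
  Fintype.linearCombination ℂ (fun e : Midx d => (monomial (ex34 e) (1 : ℂ)))

private lemma coeff_ofc34 {d : ℕ} (c : Midx d → ℂ) (s : Fin 2 →₀ ℕ) :
    coeff s (ofc34 d c) = ∑ e, if ex34 e = s then c e else 0 := by
  rw [ofc34, Fintype.linearCombination_apply, coeff_sum]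
  refine Finset.sum_congr rfl fun e _ => ?_
  rw [coeff_smul, coeff_monomial, smul_eq_mul]
  split_ifs
  · rw [mul_one]
  · rw [mul_zero]

private lemma coeff_ofc_ex34 {d : ℕ} (c : Midx d → ℂ) (e : Midx d) :
    coeff (ex34 e) (ofc34 d c) = c e := by
  rw [coeff_ofc34, Finset.sum_eq_single e]
  · rw [if_pos rfl]
  · intro e' _ h
    rw [if_neg fun h' => h (ex_inj34 h')]
  · intro h
    exact absurd (Finset.mem_univ e) h

private lemma sum_support34 (s : Fin 2 →₀ ℕ) : (s.sum fun _ e => e) = s 0 + s 1 := by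
  rw [Finsupp.sum_fintype _ _ (fun _ => rfl), Fin.sum_univ_two]

private lemma totalDegree_ofc34 {d : ℕ} (c : Midx d → ℂ) : (ofc34 d c).totalDegree ≤ d := by
  rw [totalDegree, Finset.sup_le_iff]
  intro s hs
  rw [sum_support34]
  by_contra hlt
  rw [mem_support_iff, coeff_ofc34] at hs
  apply hs
  refine Finset.sum_eq_zero fun e _ => ?_
  rw [if_neg]
  rintro rfl
  rw [ex_zero34, ex_one34] at hlt
  exact hlt e.2

private lemma ofc_coeff34 {d : ℕ} {h : MvPolynomial (Fin 2) ℂ} (hd : h.totalDegree ≤ d) :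
    ofc34 d (fun e => coeff (ex34 e) h) = h := by
  ext s
  by_cases hs : s 0 + s 1 ≤ d
  · have h1 : s = ex34 (⟨(⟨s 0, by omega⟩, ⟨s 1, by omega⟩), hs⟩ : Midx d) := by
      ext i
      fin_cases i
      · exact (ex_zero34 (⟨(⟨s 0, by omega⟩, ⟨s 1, by omega⟩), hs⟩ : Midx d)).symm
      · exact (ex_one34 (⟨(⟨s 0, by omega⟩, ⟨s 1, by omega⟩), hs⟩ : Midx d)).symm
    rw [h1, coeff_ofc_ex34]
  · have h1 : coeff s h = 0 := by
      apply coeff_eq_zero_of_totalDegree_lt
      have h2 := sum_support34 s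
      rw [Finsupp.sum] at h2
      omega
    rw [h1, coeff_ofc34]
    refine Finset.sum_eq_zero fun e _ => ?_
    rw [if_neg]
    rintro rfl
    rw [ex_zero34, ex_one34] at hs
    exact hs e.2

/-- the polynomials of the theorem -/
private def W34 {n : ℕ} (d : ℕ) (m : Fin n → ℕ) (p : Fin n → Fin 2 → ℂ) :
    Set (MvPolynomial (Fin 2) ℂ) :=
  {h : MvPolynomial (Fin 2) ℂ | h.totalDegree ≤ d ∧ ∀ i : Fin n, ∀ s : Fin 2 →₀ ℕ, s 0 + s 1 < m i →
        MvPolynomial.coeff s (MvPolynomial.aeval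
          (fun j : Fin 2 => (MvPolynomial.X j + MvPolynomial.C (p i j) : MvPolynomial (Fin 2) ℂ)) h) = 0}

private lemma span_W_le34 {n d : ℕ} (m : Fin n → ℕ) (p : Fin n → Fin 2 → ℂ) :
    Submodule.span ℂ (W34 d m p) ≤ LinearMap.range (ofc34 d) := by
  rw [Submodule.span_le]
  intro h hh
  exact ⟨_, ofc_coeff34 hh.1⟩

private lemma finite_span_W34 {n d : ℕ} (m : Fin n → ℕ) (p : Fin n → Fin 2 → ℂ) :
    Module.Finite ℂ (Submodule.span ℂ (W34 d m p)) :=
  Submodule.finiteDimensional_of_le (span_W_le34 m p)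

theorem finrank_ge {n d : ℕ} (m : Fin n → ℕ) (p : Fin n → Fin 2 → ℂ) :
    ((d : ℤ) + 1) * ((d : ℤ) + 2) - ∑ i, ((m i : ℤ) * ((m i : ℤ) + 1)) ≤
      2 * (Module.finrank ℂ (Submodule.span ℂ
      {h : MvPolynomial (Fin 2) ℂ | h.totalDegree ≤ d ∧ ∀ i : Fin n, ∀ s : Fin 2 →₀ ℕ, s 0 + s 1 < m i →
        MvPolynomial.coeff s (MvPolynomial.aeval
          (fun j : Fin 2 => (MvPolynomial.X j + MvPolynomial.C (p i j) : MvPolynomial (Fin 2) ℂ)) h) = 0}) : ℤ) := by
  change _ ≤ 2 * (Module.finrank ℂ (Submodule.span ℂ (W34 d m p)) : ℤ)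
  have hfin := finite_span_W34 (d := d) m p
  have hinj : Function.Injective (ofc34 d) := by
    intro c c' h
    funext e
    rw [← coeff_ofc_ex34 c e, ← coeff_ofc_ex34 c' e, h]
  have h1 : (LinearMap.ker (CM d m p).mulVecLin).map (ofc34 d) ≤ Submodule.span ℂ (W34 d m p) := by
    rintro _ ⟨c, hc, rfl⟩
    apply Submodule.subset_span
    refine ⟨totalDegree_ofc34 c, ?_⟩
    have h2 := (van_iff (m := m) (p := p) (ofc34 d c) (totalDegree_ofc34 c)).2
    apply h2
    have h3 : (fun e : Midx d => coeff (Finsupp.single 0 (e.1.1 : ℕ) + Finsupp.single 1 (e.1.2 : ℕ)) (ofc34 d c)) = c := by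
      funext e
      exact coeff_ofc_ex34 c e
    rw [h3]
    exact hc
  have h2 := Submodule.finrank_mono h1
  rw [← (Submodule.equivMapOfInjective (ofc34 d) hinj _).finrank_eq] at h2
  have h3 := LinearMap.finrank_range_add_finrank_ker (CM d m p).mulVecLin
  have h4 := Submodule.finrank_le (LinearMap.range (CM d m p).mulVecLin)
  rw [Module.finrank_fintype_fun_eq_card] at h3 h4
  have h5 := card_Midx34 d
  have h6 := card_Cidx34 m
  have h7 : (∑ i, ((m i : ℤ) * ((m i : ℤ) + 1))) = ((∑ i, m i * (m i + 1) : ℕ) : ℤ) := by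
    push_cast
    rfl
  rw [h7]
  have h8 : ((d : ℤ) + 1) * ((d : ℤ) + 2) = (((d + 1) * (d + 2) : ℕ) : ℤ) := by
    push_cast
    rfl
  rw [h8]
  omega

private lemma line34 (p : Fin 2 → Fin 2 → ℂ) : ∃ α β : ℂ, (α ≠ 0 ∨ β ≠ 0) ∧
    ∀ i : Fin 2, α * (p i 0 - p 0 0) + β * (p i 1 - p 0 1) = 0 := by
  by_cases h : p 1 0 - p 0 0 = 0 ∧ p 1 1 - p 0 1 = 0
  · refine ⟨1, 0, Or.inl one_ne_zero, fun i => ?_⟩
    fin_cases i
    · simp
    · show 1 * (p 1 0 - p 0 0) + 0 * (p 1 1 - p 0 1) = 0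
      rw [h.1]
      ring
  · refine ⟨p 1 1 - p 0 1, -(p 1 0 - p 0 0), ?_, fun i => ?_⟩
    · rw [neg_ne_zero]
      tauto
    · fin_cases i
      · simp
      · show (p 1 1 - p 0 1) * (p 1 0 - p 0 0) + -(p 1 0 - p 0 0) * (p 1 1 - p 0 1) = 0
        ring

/-- a line through both points -/
private lemma exists_line34 (p : Fin 2 → Fin 2 → ℂ) : ∃ l : MvPolynomial (Fin 2) ℂ, l ≠ 0 ∧
    l.totalDegree ≤ 1 ∧ ∀ i : Fin 2, coeff 0 (MvPolynomial.aeval
      (fun j : Fin 2 => (MvPolynomial.X j + MvPolynomial.C (p i j) : MvPolynomial (Fin 2) ℂ)) l) = 0 := by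
  obtain ⟨α, β, hne, h⟩ := line34 p
  refine ⟨C α * (X 0 - C (p 0 0)) + C β * (X 1 - C (p 0 1)), ?_, ?_, fun i => ?_⟩
  · intro h0
    rcases hne with hne | hne
    · apply hne
      have h1 := congrArg (eval (fun j : Fin 2 => p 0 j + if j = 0 then 1 else 0)) h0
      simpa using h1
    · apply hne
      have h1 := congrArg (eval (fun j : Fin 2 => p 0 j + if j = 1 then 1 else 0)) h0
      simpa using h1
  · have key : ∀ (γ x : ℂ) (j : Fin 2), (C γ * (X j - C x) : MvPolynomial (Fin 2) ℂ).totalDegree ≤ 1 := by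
      intro γ x j
      refine (totalDegree_mul _ _).trans ?_
      rw [totalDegree_C, zero_add]
      refine (totalDegree_sub _ _).trans ?_
      rw [totalDegree_C, totalDegree_X]
      simp
    exact (totalDegree_add _ _).trans (max_le (key _ _ _) (key _ _ _))
  · rw [← constantCoeff_eq, ← h i]
    simp only [map_add, map_mul, map_sub, aeval_X, aeval_C, MvPolynomial.algebraMap_eq, constantCoeff_C,
      constantCoeff_X]
    ring

private lemma mul_mem34 {d : ℕ} {m m' : Fin 2 → ℕ} {p : Fin 2 → Fin 2 → ℂ} (hm : ∀ i, m i ≤ m' i + 1)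
    {l h : MvPolynomial (Fin 2) ℂ} (hl : l.totalDegree ≤ 1) (hl0 : ∀ i : Fin 2, coeff 0 (MvPolynomial.aeval
      (fun j : Fin 2 => (MvPolynomial.X j + MvPolynomial.C (p i j) : MvPolynomial (Fin 2) ℂ)) l) = 0)
    (hh : h ∈ W34 d m' p) : l * h ∈ W34 (d + 1) m p := by
  refine ⟨(totalDegree_mul _ _).trans ?_, fun i s hs => ?_⟩
  · have := hh.1
    omega
  · rw [map_mul, coeff_mul]
    refine Finset.sum_eq_zero fun x hx => ?_
    rw [Finset.HasAntidiagonal.mem_antidiagonal] at hx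
    by_cases h0 : x.1 = 0
    · rw [h0, hl0, zero_mul]
    · rw [hh.2 i x.2, mul_zero]
      have h1 : x.1 0 ≠ 0 ∨ x.1 1 ≠ 0 := by
        by_contra hc
        push Not at hc
        apply h0
        ext j
        fin_cases j
        · exact hc.1
        · exact hc.2
      have h2 : x.1 0 + x.2 0 = s 0 := by rw [← hx]; rfl
      have h3 : x.1 1 + x.2 1 = s 1 := by rw [← hx]; rfl
      have h4 := hm i
      omega

theorem optS {a b : ℕ} (ha : 1 ≤ a) (hb : 1 ≤ b) (p : Fin 2 → Fin 2 → ℂ) :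
    (((a + b - 2 : ℕ) : ℤ) + 1) * (((a + b - 2 : ℕ) : ℤ) + 2) - ∑ i : Fin 2, ((![a, b] i : ℤ) * ((![a, b] i : ℤ) + 1)) + 2 ≤
      2 * (Module.finrank ℂ (Submodule.span ℂ
      {h : MvPolynomial (Fin 2) ℂ | h.totalDegree ≤ a + b - 2 ∧
        ∀ i : Fin 2, ∀ s : Fin 2 →₀ ℕ, s 0 + s 1 < ![a, b] i →
        MvPolynomial.coeff s (MvPolynomial.aeval
          (fun j : Fin 2 => (MvPolynomial.X j + MvPolynomial.C (p i j) : MvPolynomial (Fin 2) ℂ)) h) = 0}) : ℤ) := by
  change _ ≤ 2 * (Module.finrank ℂ (Submodule.span ℂ (W34 (a + b - 2) ![a, b] p)) : ℤ)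
  obtain ⟨a, rfl⟩ : ∃ a', a = a' + 1 := ⟨a - 1, by omega⟩
  obtain ⟨b, rfl⟩ : ∃ b', b = b' + 1 := ⟨b - 1, by omega⟩
  rw [show a + 1 + (b + 1) - 2 = a + b by omega, Fin.sum_univ_two]
  simp only [Matrix.cons_val_zero, Matrix.cons_val_one]
  rcases Nat.eq_zero_or_pos (a + b) with hd | hd
  · obtain ⟨rfl, rfl⟩ : a = 0 ∧ b = 0 := by omega
    have := Int.natCast_nonneg (Module.finrank ℂ (Submodule.span ℂ (W34 (0 + 0) ![0 + 1, 0 + 1] p)))
    push_cast
    linarith
  · obtain ⟨d, hd'⟩ : ∃ d, a + b = d + 1 := ⟨a + b - 1, by omega⟩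
    obtain ⟨l, hl0, hl1, hl2⟩ := exists_line34 p
    have hfin := finite_span_W34 (d := a + b) ![a + 1, b + 1] p
    have h1 : (Submodule.span ℂ (W34 d ![a, b] p)).map (LinearMap.mulLeft ℂ l) ≤
        Submodule.span ℂ (W34 (a + b) ![a + 1, b + 1] p) := by
      rw [Submodule.map_span, Submodule.span_le]
      rintro _ ⟨h, hh, rfl⟩
      apply Submodule.subset_span
      rw [hd']
      refine mul_mem34 (m := ![a + 1, b + 1]) (m' := ![a, b]) (fun i => ?_) hl1 hl2 hh
      fin_cases i <;> simp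
    have hinj : Function.Injective (LinearMap.mulLeft ℂ l) := by
      intro x y hxy
      exact mul_left_cancel₀ hl0 hxy
    have h2 := Submodule.finrank_mono h1
    rw [← (Submodule.equivMapOfInjective (LinearMap.mulLeft ℂ l) hinj _).finrank_eq] at h2
    have h3 := finrank_ge (d := d) ![a, b] p
    change _ ≤ 2 * (Module.finrank ℂ (Submodule.span ℂ (W34 d ![a, b] p)) : ℤ) at h3
    rw [Fin.sum_univ_two] at h3
    simp only [Matrix.cons_val_zero, Matrix.cons_val_one] at h3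
    have h4 : (a : ℤ) + b = d + 1 := by exact_mod_cast hd'
    have h5 : (d : ℤ) = a + b - 1 := by linarith
    rw [h5] at h3
    push_cast
    have h6 : (Module.finrank ℂ (Submodule.span ℂ (W34 d ![a, b] p)) : ℤ) ≤
      Module.finrank ℂ (Submodule.span ℂ (W34 (a + b) ![a + 1, b + 1] p)) := by exact_mod_cast h2
    nlinarith [h3, h6]

end Pool.Agent.Helper28.HH
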