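import Pool.Agent.Helper28.HH.Row
import Pool.Agent.Helper28.HH.Cr

/-!
# Project HH: exact phase (block HH-PH).  `r b = n - b - u b`, all multiplicities `≤ M`.

`phase`.  `InvP`: rows below `i` empty, `M u (b+1) ≤ (M-1) u b` for `b ≥ i`, `u b = 0` for `b ≥ i + M`,
`u b ≤ n - b`.  Induction on the length of `ms`.
If `DS n u = ∅`: `InjD.empty`.  Increase `i` to the first nonempty row.  If `n ≤ i + 3M`: `card ≤ T (n - i) ≤ T (3M)`;
first alternative: `fill`; second: `crude`, `V ≤ card + (M-1)(n-i) ≤ card + (M-1) 3M ≤ card + T (3M)`.
If `n > i + 3M`: if all `m ∈ ms` are `≤ 1` then `∑ T m = count 1`, `fill`.  Otherwise take `m ∈ ms`, `m ≥ 2`, to the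
front (`List.perm_cons_erase`).  Let `j` be the first row `≥ i` with `r ≥ m`.  Claim: for `i ≤ b < j`
`r b ≥ 1 + (b - i)`, `r b < r (b+1)`, so `j ≤ i + m - 1`.  Indeed `r b ≤ m - 1` gives `b - i ≤ m - 2`, so
`u b = n - b - r b ≥ n - i - (m-2) - (m-1) ≥ M + 1`, and `M (u b - u (b+1)) ≥ u b > M` gives
`u b ≥ u (b+1) + 2`.  `choose_sizes` with `X = r`, `row_inj`.  Capacity: rows `j ≤ b < i + m` have `r b ≥ m`: induction,
`r (b+1) ≥ r b` if `u (b+1) ≥ 1` (`u b > u (b+1)`), `r (b+1) = n - b - 1 ≥ m` otherwise.
New state `u + s`, base `j`: `M (s (b+1)) ≤ (M-1) s b` for `b ≥ j` because `s (b+1) + 1 ≤ s b ≤ M` or both `0`.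
`card` decreases by `T m`, `count 1` does not change (`m ≥ 2`).
-/

set_option autoImplicit false

namespace Pool.Agent.Helper28.HH

structure InvP (n M : ℕ) (u : ℕ → ℕ) (i : ℕ) : Prop where
  P0 : ∀ b, b < i → n - b - u b = 0
  P1 : ∀ b, i ≤ b → M * u (b + 1) ≤ (M - 1) * u b
  P2 : ∀ b, i + M ≤ b → u b = 0
  P3 : ∀ b, u b ≤ n - b

/-- rows of a state after the base are almost as long as the previous ones, or more -/
private lemma u_drop {n M : ℕ} (hM : 1 ≤ M) {u : ℕ → ℕ} {i : ℕ} (h : InvP n M u i) {b : ℕ} (hb : i ≤ b) :
    u (b + 1) + 1 ≤ u b ∨ u (b + 1) = 0 := by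
  by_cases h1 : u (b + 1) = 0
  · right; exact h1
  · left
    have h2 := h.P1 b hb
    by_contra h3
    have h4 : u b ≤ u (b + 1) := by omega
    have h5 : (M - 1) * u b ≤ (M - 1) * u (b + 1) := Nat.mul_le_mul le_rfl h4
    obtain ⟨a, rfl⟩ : ∃ a, M = a + 1 := ⟨M - 1, by omega⟩
    rw [Nat.add_sub_cancel] at *
    have h6 : (a + 1) * u (b + 1) = a * u (b + 1) + u (b + 1) := by ring
    omega

private lemma card_le_T {n i : ℕ} {u : ℕ → ℕ} (h0 : ∀ b, b < i → n - b - u b = 0) :
    (DS n u).card ≤ T (n - i) := by
  rw [card_DS]
  have h1 : ∀ a : ℕ, ∑ b ∈ Finset.range a, (a - b) = T a := by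
    intro a
    induction a with
    | zero => rfl
    | succ a ih =>
      rw [Finset.sum_range_succ', T_succ, ← ih]
      simp only [Nat.sub_zero, Nat.add_sub_add_right]
  rcases Nat.lt_or_ge n i with hn | hn
  · have h2 : ∑ b ∈ Finset.range n, (n - b - u b) = 0 := by
      apply Finset.sum_eq_zero
      intro b hb
      rw [Finset.mem_range] at hb
      exact h0 b (by omega)
    omega
  · obtain ⟨a, rfl⟩ : ∃ a, n = i + a := ⟨n - i, by omega⟩
    rw [Finset.sum_range_add, Nat.add_sub_cancel_left, ← h1]
    have h2 : ∑ b ∈ Finset.range i, (i + a - b - u b) = 0 := by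
      apply Finset.sum_eq_zero
      intro b hb
      rw [Finset.mem_range] at hb
      exact h0 b (by omega)
    rw [h2, zero_add]
    apply Finset.sum_le_sum
    intro b _
    omega

private lemma count_of_small {ms : List ℕ} (h : ∀ m ∈ ms, m ≤ 1) : (ms.map T).sum = ms.count 1 := by
  induction ms with
  | nil => rfl
  | cons m ms ih =>
    rw [List.map_cons, List.sum_cons, List.count_cons, ih (fun x hx => h x (List.mem_cons_of_mem _ hx))]
    have h1 := h m List.mem_cons_self
    interval_cases m
    · simp
    · simp [add_comm]

theorem phase {n M : ℕ} (hM : 1 ≤ M) : ∀ (k : ℕ) (ms : List ℕ), ms.length = k → (∀ m ∈ ms, m ≤ M) →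
    ∀ (u : ℕ → ℕ) (i : ℕ), InvP n M u i → (DS n u).card ≤ (ms.map T).sum →
    (T (3 * M) ≤ ms.count 1 ∨ (DS n u).card + T (3 * M) ≤ (ms.map T).sum) → InjD (DS n u) ms := by
  classical
  intro k
  induction k with
  | zero =>
    intro ms hms _ u i _ hcard _
    have h1 : ms = [] := List.eq_nil_of_length_eq_zero hms
    subst h1
    simp only [List.map_nil, List.sum_nil, Nat.le_zero, Finset.card_eq_zero] at hcard
    rw [hcard]
    exact InjD.empty _
  | succ k ih =>
    intro ms hms hmM u i0 hinv0 hcard halt
    by_cases hne : ∀ b, n - b - u b = 0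
    · have h1 : DS n u = ∅ := by
        rw [← Finset.card_eq_zero, card_DS]
        exact Finset.sum_eq_zero (fun b _ => hne b)
      rw [h1]
      exact InjD.empty _
    push Not at hne
    -- the first nonempty row
    set i := Nat.find hne with hi
    have hi1 : n - i - u i ≠ 0 := Nat.find_spec hne
    have hi2 : ∀ b, b < i → n - b - u b = 0 := by
      intro b hb
      have := Nat.find_min hne hb
      omega
    have hi0 : i0 ≤ i := by
      by_contra h1
      exact hi1 (hinv0.P0 i (by omega))
    have hinv : InvP n M u i := ⟨hi2, fun b hb => hinv0.P1 b (by omega), fun b hb => hinv0.P2 b (by omega), hinv0.P3⟩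
    clear_value i
    have hdrop : ∀ b, i ≤ b → u (b + 1) + 1 ≤ u b ∨ u (b + 1) = 0 := fun b hb => u_drop hM hinv hb
    have hcT := card_le_T hi2
    have hT3 := two_T (3 * M)
    by_cases hn : n ≤ i + 3 * M
    · have hTT := T_mono (show n - i ≤ 3 * M by omega)
      rcases halt with h1 | h1
      · exact fill (by omega)
      · apply crude hM ms hmM u i hi2 hdrop
        have h2 : ∑ b ∈ (Finset.range n).filter (fun b => 0 < n - b - u b), (n - b - u b + (M - 1))
            ≤ (DS n u).card + (M - 1) * (n - i) := by
          rw [Finset.sum_add_distrib, card_DS]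
          apply Nat.add_le_add
          · exact Finset.sum_le_sum_of_subset (Finset.filter_subset _ _)
          · rw [Finset.sum_const, smul_eq_mul, mul_comm]
            apply Nat.mul_le_mul le_rfl
            have h3 : (Finset.range n).filter (fun b => 0 < n - b - u b) ⊆ Finset.Ico i n := by
              intro b hb
              rw [Finset.mem_filter, Finset.mem_range] at hb
              rw [Finset.mem_Ico]
              refine ⟨?_, hb.1⟩
              by_contra h4
              have := hi2 b (by omega)
              omega
            have h4 := Finset.card_le_card h3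
            rwa [Nat.card_Ico] at h4
        have h3 : (M - 1) * (n - i) ≤ (M - 1) * (3 * M) := Nat.mul_le_mul le_rfl (by omega)
        have h4 : 2 * ((M - 1) * (3 * M)) ≤ 3 * M * (3 * M + 1) := by
          obtain ⟨a, rfl⟩ : ∃ a, M = a + 1 := ⟨M - 1, by omega⟩
          rw [Nat.add_sub_cancel]
          nlinarith
        omega
    · by_cases hsmall : ∀ m ∈ ms, m ≤ 1
      · rw [count_of_small hsmall] at hcard
        exact fill hcard
      push Not at hsmall
      obtain ⟨m, hm, hm2⟩ := hsmall
      have hmM' := hmM m hm
      have hperm := List.perm_cons_erase hm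
      apply InjD.perm hperm.symm
      set ms' := ms.erase m with hms'
      have hlen : ms'.length = k := by
        have := hperm.length_eq
        rw [List.length_cons, hms] at this
        omega
      have hsum : (ms.map T).sum = T m + (ms'.map T).sum := by
        rw [(hperm.map T).sum_eq, List.map_cons, List.sum_cons]
      have hcount : ms'.count 1 = ms.count 1 := by
        rw [hperm.count_eq, List.count_cons]
        simp [show m ≠ 1 by omega]
      -- growth of the rows
      have hgrow : ∀ b, i ≤ b → (∀ c, i ≤ c → c ≤ b → n - c - u c < m) →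
          1 + (b - i) ≤ n - b - u b ∧ n - b - u b < n - (b + 1) - u (b + 1) := by
        intro b hb
        induction b, hb using Nat.le_induction with
        | base =>
          intro hc
          have h1 := hc i le_rfl le_rfl
          refine ⟨by omega, ?_⟩
          have h2 := hinv.P1 i le_rfl
          have h3 := hinv.P3 i
          have h4 : u (i + 1) + 2 ≤ u i := by
            by_contra h5
            have h6 : M * u i ≤ M * u (i + 1) + M := by
              have : M * u i ≤ M * (u (i + 1) + 1) := Nat.mul_le_mul le_rfl (by omega)
              rwa [mul_add, mul_one] at this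
            obtain ⟨a, rfl⟩ : ∃ a, M = a + 1 := ⟨M - 1, by omega⟩
            rw [Nat.add_sub_cancel] at *
            have h7 : (a + 1) * u i = a * u i + u i := by ring
            omega
          omega
        | succ b hb ihb =>
          intro hc
          have h0 := ihb (fun c hc1 hc2 => hc c hc1 (by omega))
          have h1 := hc (b + 1) (by omega) le_rfl
          refine ⟨by omega, ?_⟩
          have h2 := hinv.P1 (b + 1) (by omega)
          have h3 := hinv.P3 (b + 1)
          have h4 : u (b + 1 + 1) + 2 ≤ u (b + 1) := by
            by_contra h5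
            have h6 : M * u (b + 1) ≤ M * u (b + 1 + 1) + M := by
              have : M * u (b + 1) ≤ M * (u (b + 1 + 1) + 1) := Nat.mul_le_mul le_rfl (by omega)
              rwa [mul_add, mul_one] at this
            obtain ⟨a, rfl⟩ : ∃ a, M = a + 1 := ⟨M - 1, by omega⟩
            rw [Nat.add_sub_cancel] at *
            have h7 : (a + 1) * u (b + 1) = a * u (b + 1) + u (b + 1) := by ring
            omega
          omega
      have hex : ∃ b, i ≤ b ∧ m ≤ n - b - u b := by
        by_contra h1
        push Not at h1
        have h2 := (hgrow (i + m) (by omega) (fun c hc _ => h1 c hc)).1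
        have h3 := h1 (i + m) (by omega)
        omega
      set j := Nat.find hex with hj
      have hj1 : i ≤ j ∧ m ≤ n - j - u j := Nat.find_spec hex
      have hj2 : ∀ b, i ≤ b → b < j → n - b - u b < m := by
        intro b hb hbj
        have := Nat.find_min hex hbj
        push Not at this
        exact this hb
      clear_value j
      have hg : ∀ b, i ≤ b → b < j → 1 + (b - i) ≤ n - b - u b ∧ n - b - u b < n - (b + 1) - u (b + 1) :=
        fun b hb hbj => hgrow b hb (fun c hc1 hc2 => hj2 c hc1 (by omega))
      obtain ⟨hjm, s, hsX, hs0, hs1, hs2, hs3, hs5, hs4, hssum⟩ :=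
        choose_sizes (m := m) hj1.1 (fun b => n - b - u b)
          (fun b hb hbj => ⟨by have := (hg b hb hbj).1; omega, hj2 b hb hbj⟩)
          (fun b hb hbj => (hg b hb (by omega)).2) (by omega)
      have hcapj : ∀ b, j ≤ b → b < i + m → m ≤ n - b - u b := by
        intro b hb
        induction b, hb using Nat.le_induction with
        | base => exact fun _ => hj1.2
        | succ b hb ihb =>
          intro h1
          have h2 := ihb (by omega)
          rcases hdrop b (by omega) with h3 | h3
          · omega
          · rw [h3]
            omega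
      have hcap : ∀ b, i ≤ b → s b ≤ n - b - u b := by
        intro b hb
        rcases Nat.lt_or_ge b j with h1 | h1
        · exact (hsX b hb h1).le
        · rcases Nat.lt_or_ge b (i + m) with h2 | h2
          · exact (hs2 b hb h2).2.trans (hcapj b h1 h2)
          · rw [hs1 b h2]
            exact Nat.zero_le _
      apply row_inj (i := i) (j := j) (u := u) (s := s) hj1.1 hjm.le hi2 hsX hcap hs0 hs1 hs2 hs3 hs4
      -- the new state
      have hsle : ∀ b, s b ≤ n - b - u b := by
        intro b
        rcases Nat.lt_or_ge b i with h1 | h1
        · rw [hs0 b h1]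
          exact Nat.zero_le _
        · exact hcap b h1
      have hcard' : (DS n (fun b => u b + s b)).card + T m = (DS n u).card := by
        rw [card_DS, card_DS, ← hssum]
        have h1 : ∑ b ∈ Finset.Ico i (i + m), s b = ∑ b ∈ Finset.range n, s b := by
          apply Finset.sum_subset
          · intro b hb
            rw [Finset.mem_Ico] at hb
            rw [Finset.mem_range]
            omega
          · intro b _ hb
            rw [Finset.mem_Ico] at hb
            rcases Nat.lt_or_ge b i with h2 | h2
            · exact hs0 b h2
            · exact hs1 b (by omega)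
        rw [h1, ← Finset.sum_add_distrib]
        apply Finset.sum_congr rfl
        intro b _
        have := hsle b
        omega
      apply ih ms' hlen (fun x hx => hmM x (List.mem_of_mem_erase hx)) _ j
      · refine ⟨?_, ?_, ?_, ?_⟩
        · intro b hb
          rcases Nat.lt_or_ge b i with h1 | h1
          · have := hi2 b h1
            show n - b - (u b + s b) = 0
            omega
          · have := hsX b h1 hb
            show n - b - (u b + s b) = 0
            omega
        · intro b hb
          show M * (u (b + 1) + s (b + 1)) ≤ (M - 1) * (u b + s b)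
          have h1 := hinv.P1 b (by omega)
          have h2 : M * s (b + 1) ≤ (M - 1) * s b := by
            rcases Nat.lt_or_ge b (i + m) with h3 | h3
            · have h4 := hs3 b hb h3
              have h5 := (hs2 b (by omega) h3).2
              obtain ⟨a, rfl⟩ : ∃ a, M = a + 1 := ⟨M - 1, by omega⟩
              rw [Nat.add_sub_cancel]
              have h6 : (a + 1) * (s (b + 1) + 1) ≤ (a + 1) * s b := Nat.mul_le_mul le_rfl h4
              have h7 : (a + 1) * (s (b + 1) + 1) = (a + 1) * s (b + 1) + (a + 1) := by ring
              have h8 : (a + 1) * s b = a * s b + s b := by ring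
              omega
            · rw [hs1 (b + 1) (by omega)]
              simp
          rw [mul_add, mul_add]
          omega
        · intro b hb
          show u b + s b = 0
          rw [hinv.P2 b (by omega), hs1 b (by omega)]
        · intro b
          show u b + s b ≤ n - b
          have h1 := hsle b
          have h2 := hinv.P3 b
          omega
      · omega
      · rcases halt with h1 | h1
        · left
          rw [hcount]
          exact h1
        · right
          omega

end Pool.Agent.Helper28.HH
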