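import Pool.Agent.Helper28.HH.One
import Pool.Agent.Helper28.HH.PF

/-!
# Project HH: the row rule (block HH-PRI)

PROOF of `prio_dual`: `D' = (DS n u).filter (fun e => e.1 < u e.2 + s e.2)`.  Row `b` of `D'` is
`a ∈ [u b, u b + min (s b) (n - b - u b))`, empty if `b ∉ L`.  Apply `triangulate` with `κ e = key e.2`,
`Z κ = {e | e.2 ∈ L ∧ key e.2 < κ}` and, for `e0 = (a0,b0)`,
`g e = C * ∏_{β ∈ L, key β < key b0} (e.2 - β) * ∏_{a ∈ row b0 of D', a ≠ a0} (e.1 - a)`,
of degree `card + (min (s b0) (n-b0-u b0) - 1) < m` (`hdeg`), `C` normalising `g e0 = 1` (the product is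
`≠ 0` at `e0`).  It vanishes on the rows `β` with smaller key, and if `e ∈ D'`, `e ≠ e0`,
`key e.2 ≤ key b0`: either the key is smaller (zero) or `e.2 = b0` (`hkey`), `e.1 ≠ a0`: zero.
Last item: `e ∈ DS n u \ D'` not after `e0`: if `e.2 = b0` then `e.1 ≤ a0 < u b0 + s b0`, so `e ∈ D'`,
impossible; so `e.2 < b0`, the row `e.2` has `u + s ≤ e.1 < n - e.2`, so by `hspan` `e ∈ Z`.

`prio_inj`: `one_point`, `DS n u \ D' = DS n (fun b => u b + s b)`.
`prio_good`: `E0 ⊆ D \ D'` from the hypothesis, `E = E0 ∪ D'`, `E \ D' = E0`; the dual functions are the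
same; `card D' = ∑_b min (s b) (n - b - u b)`.
-/

set_option autoImplicit false

namespace Pool.Agent.Helper28.HH

private lemma mem_D38 {n : ℕ} {u s : ℕ → ℕ} {e : ℕ × ℕ} :
    e ∈ (DS n u).filter (fun e => e.1 < u e.2 + s e.2) ↔
      (e.1 + e.2 < n ∧ u e.2 ≤ e.1) ∧ e.1 < u e.2 + s e.2 := by
  rw [Finset.mem_filter, mem_DS]

private lemma sdiff38 {n : ℕ} {u s : ℕ → ℕ} :
    DS n u \ (DS n u).filter (fun e => e.1 < u e.2 + s e.2) = DS n (fun b => u b + s b) := by
  ext e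
  rw [Finset.mem_sdiff, mem_D38, mem_DS, mem_DS]
  constructor
  · rintro ⟨h1, h2⟩
    refine ⟨h1.1, ?_⟩
    by_contra h3
    exact h2 ⟨h1, not_le.1 h3⟩
  · rintro ⟨h1, h2⟩
    refine ⟨⟨h1, by omega⟩, ?_⟩
    rintro ⟨_, h3⟩
    omega

private lemma card38 {n : ℕ} {u s : ℕ → ℕ} :
    ((DS n u).filter (fun e => e.1 < u e.2 + s e.2)).card =
      ∑ b ∈ Finset.range n, min (s b) (n - b - u b) := by
  have h1 := Finset.card_sdiff_add_card_eq_card
    (Finset.filter_subset (fun e : ℕ × ℕ => e.1 < u e.2 + s e.2) (DS n u))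
  rw [sdiff38, card_DS, card_DS] at h1
  have h2 : ∑ b ∈ Finset.range n, (n - b - u b) =
      ∑ b ∈ Finset.range n, (n - b - (u b + s b)) +
        ∑ b ∈ Finset.range n, min (s b) (n - b - u b) := by
    rw [← Finset.sum_add_distrib]
    refine Finset.sum_congr rfl fun b _ => ?_
    omega
  omega

theorem prio_dual {n m : ℕ} {u s : ℕ → ℕ} (L : Finset ℕ) (key : ℕ → ℕ)
    (hs : ∀ b, b ∉ L → min (s b) (n - b - u b) = 0)
    (hkey : Set.InjOn key L)
    (hdeg : ∀ b ∈ L, 0 < min (s b) (n - b - u b) →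
      (L.filter (fun β => key β < key b)).card + min (s b) (n - b - u b) ≤ m)
    (hspan : ∀ b b0, b < b0 → b0 ∈ L → 0 < min (s b0) (n - b0 - u b0) → s b < n - b - u b →
      b ∈ L ∧ key b < key b0) :
    ∀ e0 ∈ (DS n u).filter (fun e => e.1 < u e.2 + s e.2), ∃ f ∈ PF m, f e0 = 1 ∧
      (∀ e ∈ (DS n u).filter (fun e => e.1 < u e.2 + s e.2), e ≠ e0 → f e = 0) ∧
      (∀ e ∈ DS n u \ (DS n u).filter (fun e => e.1 < u e.2 + s e.2), ¬ lexlt e0 e → f e = 0) := by
  classical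
  set D' : Finset (ℕ × ℕ) := (DS n u).filter (fun e => e.1 < u e.2 + s e.2) with hD'
  have hmem : ∀ e : ℕ × ℕ, e ∈ D' ↔ (e.1 + e.2 < n ∧ u e.2 ≤ e.1) ∧ e.1 < u e.2 + s e.2 :=
    fun e => mem_D38
  have hpos : ∀ e ∈ D', 0 < min (s e.2) (n - e.2 - u e.2) := by
    intro e he
    rw [hmem] at he
    omega
  have hL : ∀ e ∈ D', e.2 ∈ L := by
    intro e he
    by_contra h
    have h1 := hs _ h
    have h2 := hpos e he
    omega
  have key' := triangulate (m := m) D' (fun e => key e.2)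
    (fun κ => {e : ℕ × ℕ | e.2 ∈ L ∧ key e.2 < κ})
    (fun κ κ' hκ e he => ⟨he.1, lt_of_lt_of_le he.2 hκ⟩) (by
    intro e0 he0
    have hL0 := hL e0 he0
    have hpos0 := hpos e0 he0
    have he0' := he0
    rw [hmem] at he0'
    obtain ⟨a0, b0⟩ := e0
    obtain ⟨⟨h1, h2⟩, h3⟩ := he0'
    dsimp only at h1 h2 h3 hL0 hpos0
    set P : ℕ × ℕ → ℝ := fun e => ∏ β ∈ L.filter (fun β => key β < key b0),
      ((e.2 : ℝ) - (β : ℝ)) with hP
    set Q : ℕ × ℕ → ℝ := fun e =>
      ∏ a ∈ (Finset.Ico (u b0) (u b0 + min (s b0) (n - b0 - u b0))).erase a0,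
        ((e.1 : ℝ) - (a : ℝ)) with hQ
    have hPm : P ∈ PF ((L.filter (fun β => key β < key b0)).card + 1) :=
      PF_prod _ (fun (β : ℕ) (e : ℕ × ℕ) => (e.2 : ℝ) - (β : ℝ)) fun β _ => snd_sub_mem _
    have hQm : Q ∈ PF (((Finset.Ico (u b0) (u b0 + min (s b0) (n - b0 - u b0))).erase a0).card
        + 1) :=
      PF_prod _ (fun (a : ℕ) (e : ℕ × ℕ) => (e.1 : ℝ) - (a : ℝ)) fun a _ => fst_sub_mem _
    have hPQ := PF_mul hPm hQm
    have hd := hdeg b0 hL0 hpos0
    have hcard : (L.filter (fun β => key β < key b0)).card +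
        ((Finset.Ico (u b0) (u b0 + min (s b0) (n - b0 - u b0))).erase a0).card + 1 ≤ m := by
      rw [Finset.card_erase_of_mem (Finset.mem_Ico.2 ⟨h2, by omega⟩), Nat.card_Ico]
      omega
    have hPQ' := PF_mono hcard hPQ
    have hP0 : P (a0, b0) ≠ 0 := by
      rw [hP]
      refine Finset.prod_ne_zero_iff.2 fun β hβ => ?_
      rw [Finset.mem_filter] at hβ
      rw [sub_ne_zero]
      intro h
      have h4 : b0 = β := by exact_mod_cast h
      rw [h4] at hβ
      exact lt_irrefl _ hβ.2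
    have hQ0 : Q (a0, b0) ≠ 0 := by
      rw [hQ]
      refine Finset.prod_ne_zero_iff.2 fun a ha => ?_
      rw [sub_ne_zero]
      intro h
      have h4 : a0 = a := by exact_mod_cast h
      exact (Finset.ne_of_mem_erase ha) h4.symm
    have hPz : ∀ e : ℕ × ℕ, e.2 ∈ L → key e.2 < key b0 → P e = 0 := by
      intro e h4 h5
      rw [hP]
      exact Finset.prod_eq_zero (Finset.mem_filter.2 ⟨h4, h5⟩) (sub_self _)
    refine ⟨(P (a0, b0) * Q (a0, b0))⁻¹ • (P * Q), Submodule.smul_mem _ _ hPQ', ?_, ?_, ?_⟩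
    · rw [Pi.smul_apply, Pi.mul_apply, smul_eq_mul]
      exact inv_mul_cancel₀ (mul_ne_zero hP0 hQ0)
    · intro e he hne hle
      dsimp only at hle
      rw [Pi.smul_apply, Pi.mul_apply, smul_eq_mul]
      rcases Nat.lt_or_ge (key e.2) (key b0) with h4 | h4
      · rw [hPz e (hL e he) h4, zero_mul, mul_zero]
      · have h5 : e.2 = b0 := hkey (hL e he) hL0 (le_antisymm hle h4)
        rw [hmem, h5] at he
        have h6 : Q e = 0 := by
          rw [hQ]
          refine Finset.prod_eq_zero (i := e.1) (Finset.mem_erase.2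
            ⟨?_, Finset.mem_Ico.2 ⟨he.1.2, by omega⟩⟩) (sub_self _)
          intro h7
          exact hne (Prod.ext h7 h5)
        rw [h6, mul_zero, mul_zero]
    · intro e he
      rw [Pi.smul_apply, Pi.mul_apply, smul_eq_mul, hPz e he.1 he.2, zero_mul, mul_zero])
  intro e0 he0
  obtain ⟨f, h1, h2, h3, h4⟩ := key' e0 he0
  refine ⟨f, h1, h2, h3, fun e he hlex => h4 e ?_⟩
  rw [Finset.mem_sdiff, mem_DS, hmem] at he
  have hL0 := hL e0 he0
  have hpos0 := hpos e0 he0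
  rw [hmem] at he0
  unfold lexlt at hlex
  push Not at hlex
  rcases lt_or_eq_of_le hlex.1 with h5 | h5
  · exact hspan e.2 e0.2 h5 hL0 hpos0 (by omega)
  · exfalso
    have h6 := hlex.2 h5.symm
    refine he.2 ⟨he.1, ?_⟩
    rw [h5]
    omega

theorem prio_inj {n m : ℕ} {u s : ℕ → ℕ} (L : Finset ℕ) (key : ℕ → ℕ)
    (hs : ∀ b, b ∉ L → min (s b) (n - b - u b) = 0)
    (hkey : Set.InjOn key L)
    (hdeg : ∀ b ∈ L, 0 < min (s b) (n - b - u b) →
      (L.filter (fun β => key β < key b)).card + min (s b) (n - b - u b) ≤ m)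
    (hspan : ∀ b b0, b < b0 → b0 ∈ L → 0 < min (s b0) (n - b0 - u b0) → s b < n - b - u b →
      b ∈ L ∧ key b < key b0)
    {ms : List ℕ} (hI : InjD (DS n (fun b => u b + s b)) ms) : InjD (DS n u) (m :: ms) := by
  classical
  refine one_point (D' := (DS n u).filter (fun e => e.1 < u e.2 + s e.2))
    (Finset.filter_subset _ _) (prio_dual L key hs hkey hdeg hspan) ?_
  rw [sdiff38]
  exact hI

theorem prio_good {n m : ℕ} {u s : ℕ → ℕ} (L : Finset ℕ) (key : ℕ → ℕ)
    (hs : ∀ b, b ∉ L → min (s b) (n - b - u b) = 0)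
    (hkey : Set.InjOn key L)
    (hdeg : ∀ b ∈ L, 0 < min (s b) (n - b - u b) →
      (L.filter (fun β => key β < key b)).card + min (s b) (n - b - u b) ≤ m)
    (hspan : ∀ b b0, b < b0 → b0 ∈ L → 0 < min (s b0) (n - b0 - u b0) → s b < n - b - u b →
      b ∈ L ∧ key b < key b0)
    (hcard : ∑ b ∈ Finset.range n, min (s b) (n - b - u b) = T m)
    {ms : List ℕ} (hI : GoodD (DS n (fun b => u b + s b)) ms) : GoodD (DS n u) (m :: ms) := by
  classical
  obtain ⟨E0, hE0, hc, hI⟩ := hI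
  have hdis : Disjoint E0 ((DS n u).filter (fun e => e.1 < u e.2 + s e.2)) := by
    rw [Finset.disjoint_left]
    intro e h1 h2
    have h3 := hE0 h1
    rw [← sdiff38, Finset.mem_sdiff] at h3
    exact h3.2 h2
  have hE0' : E0 ⊆ DS n u := by
    intro e h1
    have h3 := hE0 h1
    rw [← sdiff38, Finset.mem_sdiff] at h3
    exact h3.1
  refine ⟨E0 ∪ (DS n u).filter (fun e => e.1 < u e.2 + s e.2),
    Finset.union_subset hE0' (Finset.filter_subset _ _), ?_, ?_⟩
  · rw [Finset.card_union_of_disjoint hdis, hc, card38, hcard, List.map_cons, List.sum_cons]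
    exact Nat.add_comm _ _
  · have hsd : (E0 ∪ (DS n u).filter (fun e => e.1 < u e.2 + s e.2)) \
        (DS n u).filter (fun e => e.1 < u e.2 + s e.2) = E0 := by
      rw [Finset.union_sdiff_right, Finset.sdiff_eq_self_of_disjoint hdis]
    refine one_point (D' := (DS n u).filter (fun e => e.1 < u e.2 + s e.2))
      Finset.subset_union_right ?_ (by rw [hsd]; exact hI)
    intro e0 he0
    obtain ⟨f, h1, h2, h3, h4⟩ := prio_dual L key hs hkey hdeg hspan e0 he0
    refine ⟨f, h1, h2, h3, fun e he => h4 e ?_⟩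
    rw [hsd] at he
    exact Finset.mem_sdiff.2 ⟨hE0' he, Finset.disjoint_left.1 hdis he⟩

end Pool.Agent.Helper28.HH
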