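import Pool.Agent.Helper28.HH.GG

/-!
# Project HH: shifts (block HH-QS0)

Definition of `QS` and the low coefficients of `h(X+q)` (Taylor expansion; by `MvPolynomial.induction_on` or monomials).
-/

set_option autoImplicit false

namespace Pool.Agent.Helper28.HH

open MvPolynomial

def QS (n d : ℕ) (m : Fin n → ℕ) : Prop :=
  ∃ g : MvPolynomial (Fin n × Fin 2) ℂ, g ≠ 0 ∧ ∀ p : Fin n → Fin 2 → ℂ,
    MvPolynomial.eval (fun ij : Fin n × Fin 2 => p ij.1 ij.2) g ≠ 0 →
    (∃ f : MvPolynomial (Fin 2) ℂ, Irreducible f ∧ f.totalDegree = d ∧ Van m p f) → FR d m p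

lemma coeff_zero_shift (q : Fin 2 → ℂ) (h : MvPolynomial (Fin 2) ℂ) :
    MvPolynomial.coeff 0 (MvPolynomial.aeval
      (fun j : Fin 2 => (MvPolynomial.X j + MvPolynomial.C (q j) : MvPolynomial (Fin 2) ℂ)) h) = eval q h := by
  induction h using MvPolynomial.induction_on with
  | C a => simp [MvPolynomial.algebraMap_eq]
  | add f g hf hg => rw [map_add, coeff_add, hf, hg, map_add]
  | mul_X f i hf =>
    rw [map_mul, aeval_X, map_mul, eval_X, mul_add, coeff_add, mul_comm _ (C (q i)), coeff_C_mul, hf, coeff_mul_X']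
    simp [mul_comm]

lemma coeff_single_shift (q : Fin 2 → ℂ) (h : MvPolynomial (Fin 2) ℂ) (j : Fin 2) :
    MvPolynomial.coeff (Finsupp.single j 1) (MvPolynomial.aeval
      (fun j : Fin 2 => (MvPolynomial.X j + MvPolynomial.C (q j) : MvPolynomial (Fin 2) ℂ)) h)
        = eval q (pderiv j h) := by
  induction h using MvPolynomial.induction_on with
  | C a =>
    rw [pderiv_C, map_zero, aeval_C, MvPolynomial.algebraMap_eq, coeff_C, if_neg]
    intro h0
    have h1 := DFunLike.congr_fun h0 j
    simp at h1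
  | add f g hf hg => rw [map_add, coeff_add, hf, hg, map_add, map_add]
  | mul_X f i hf =>
    rw [map_mul, aeval_X, mul_add, coeff_add, mul_comm _ (C (q i)), coeff_C_mul, hf, coeff_mul_X', pderiv_mul, map_add, map_mul, map_mul, eval_X,
      add_comm, mul_comm (q i)]
    congr 1
    by_cases hij : i = j
    · subst hij
      rw [if_pos (by simp), tsub_self, coeff_zero_shift, pderiv_X_self, map_one, mul_one]
    · rw [if_neg, pderiv_X_of_ne hij, map_zero, mul_zero]
      intro h0
      rw [Finsupp.mem_support_iff, Finsupp.single_apply] at h0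
      exact h0 (if_neg (Ne.symm hij))

end Pool.Agent.Helper28.HH
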