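import Pool.Agent.Helper28.HH.Qs1a
import Pool.Agent.Helper28.HH.K4
import Pool.Agent.Helper28.HH.K5

/-!
# Project HH: adding points of multiplicity 1 and 2 (block HH-QS)

`QS n d m`: for general `p`, if an irreducible curve of degree `d` has multiplicities `≥ m`, the conditions are
independent.
`QS.update`, PROOF.  `m' = update m i μ`.  Case 1: `FR d m' p0` for some `p0`: `FR.generic`.  Case 2: `KR d m' p0` for some
`p0`: `KR.generic`; if `g(p) ≠ 0` and `f` is irreducible with `Van m' p f` then `f = 0` (`KR.eq_zero`), contradiction.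
Case 3: neither.  Take `g` of `QS n d m`.  Suppose `g(p) ≠ 0` and `f` irreducible, `totalDegree f = d`, `Van m' p f`.  Then
`Van m p f` (`m ≤ m'`), so `FR d m p`.  Let `V = {h | totalDegree h ≤ d, Van m p h}`.  `m i = 0`, so `Van m` does not depend on
`p i`.  For `q` let `p_q = update p i q`.
(*) If the jets of order `< μ` at `q` are onto on `V` then `FR d m' p_q` (`FR.jets`, `FR_of_jets`).
(**) If no nonzero `h ∈ V` has multiplicity `≥ μ` at `q` then `KR d m' p_q`.
`μ = 1`: `f ≠ 0`, take `q` with `f(q) ≠ 0`, (*): contradiction.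
`μ = 2`: the coefficients of order `≤ 1` of `h(X+q)` are `eval q h`, `eval q (pderiv j h)`.  If there are `g1, h1 ∈ V` with
`f, g1, h1` independent: `jets` and (*): contradiction.  If there is `g1 ∈ V` with `f, g1` independent, then every `h ∈ V` is a
combination of `f, g1`; `pencil` and (**): contradiction.  Otherwise `V = ℂ f`; `q` with `f(q) ≠ 0` and (**): contradiction.
-/

set_option autoImplicit false

namespace Pool.Agent.Helper28.HH

open MvPolynomial

/-- (*) -/
lemma qs_star {n d : ℕ} {m : Fin n → ℕ} {p : Fin n → Fin 2 → ℂ} (h : FR d m p) (i : Fin n) (hi : m i = 0)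
    (μ : ℕ) (q : Fin 2 → ℂ)
    (hq : ∀ t : (Fin 2 →₀ ℕ) → ℂ, ∃ F : MvPolynomial (Fin 2) ℂ, F.totalDegree ≤ d ∧ Van m p F ∧
      ∀ s, s 0 + s 1 < μ → jet q s F = t s) :
    FR d (Function.update m i μ) (Function.update p i q) := by
  classical
  apply FR_of_jets
  intro t
  obtain ⟨F, hF, hFj⟩ := h.jets t
  obtain ⟨G, hG, hGV, hGj⟩ := hq (fun s => t i s - jet q s F)
  refine ⟨F + G, (totalDegree_add _ _).trans (max_le hF hG), fun j s hs => ?_⟩
  rw [jet_add]
  by_cases hj : j = i
  · subst hj
    rw [Function.update_self] at hs ⊢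
    rw [hGj s hs]
    ring
  · rw [Function.update_of_ne hj] at hs ⊢
    rw [hFj j s hs]
    have h1 : jet (p j) s G = 0 := hGV j s hs
    rw [h1, add_zero]

/-- (**) -/
lemma qs_star2 {n d : ℕ} {m : Fin n → ℕ} {p : Fin n → Fin 2 → ℂ} (i : Fin n) (hi : m i = 0)
    (μ : ℕ) (q : Fin 2 → ℂ)
    (hq : ∀ F : MvPolynomial (Fin 2) ℂ, F.totalDegree ≤ d → Van m p F →
      (∀ s, s 0 + s 1 < μ → jet q s F = 0) → F = 0) :
    KR d (Function.update m i μ) (Function.update p i q) := by
  classical
  intro c hc
  have hd := totalDegree_L61 d c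
  have hV : Van (Function.update m i μ) (Function.update p i q) (L61 d c) := by
    rw [van_iff _ hd]
    have h1 : (fun e : Midx d => (L61 d c).coeff (Finsupp.single 0 (e.1.1 : ℕ) + Finsupp.single 1 (e.1.2 : ℕ)))
        = c := by
      funext e
      exact coeff_L61 d c e
    rw [h1]
    exact hc
  have h0 : L61 d c = 0 := by
    apply hq _ hd
    · intro j s hs
      by_cases hj : j = i
      · subst hj
        omega
      · have h2 := hV j s (by rw [Function.update_of_ne hj]; exact hs)
        rw [Function.update_of_ne hj] at h2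
        exact h2
    · intro s hs
      have h2 := hV i s (by rw [Function.update_self]; exact hs)
      rw [Function.update_self] at h2
      exact h2
  funext e
  rw [← coeff_L61 d c e, h0]
  simp

lemma van_add {n : ℕ} {m : Fin n → ℕ} {p : Fin n → Fin 2 → ℂ} {F G : MvPolynomial (Fin 2) ℂ}
    (hF : Van m p F) (hG : Van m p G) : Van m p (F + G) := by
  intro i s hs
  rw [map_add, coeff_add, hF i s hs, hG i s hs, add_zero]

lemma van_C_mul {n : ℕ} {m : Fin n → ℕ} {p : Fin n → Fin 2 → ℂ} (a : ℂ) {F : MvPolynomial (Fin 2) ℂ}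
    (hF : Van m p F) : Van m p (C a * F) := by
  intro i s hs
  rw [map_mul, algHom_C, algebraMap_eq, coeff_C_mul, hF i s hs, mul_zero]

lemma deg_C_mul {d : ℕ} (a : ℂ) {F : MvPolynomial (Fin 2) ℂ} (hF : F.totalDegree ≤ d) :
    (C a * F).totalDegree ≤ d := by
  refine (totalDegree_mul _ _).trans ?_
  rw [totalDegree_C, zero_add]
  exact hF

/-- an index of order at most one -/
lemma order_le_one {s : Fin 2 →₀ ℕ} (hs : s 0 + s 1 < 2) :
    s = 0 ∨ s = Finsupp.single 0 1 ∨ s = Finsupp.single 1 1 := by
  by_cases h0 : s 0 = 1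
  · right; left
    ext j
    fin_cases j
    · simpa using h0
    · have : s 1 = 0 := by omega
      simpa using this
  · by_cases h1 : s 1 = 1
    · right; right
      ext j
      fin_cases j
      · have : s 0 = 0 := by omega
        simpa using this
      · simpa using h1
    · left
      ext j
      fin_cases j
      · have : s 0 = 0 := by omega
        simpa using this
      · have : s 1 = 0 := by omega
        simpa using this

lemma exists_eval_ne28 {f : MvPolynomial (Fin 2) ℂ} (hf : f ≠ 0) : ∃ q : Fin 2 → ℂ, eval q f ≠ 0 := by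
  by_contra hcon
  push Not at hcon
  exact hf (MvPolynomial.funext fun q => by rw [hcon q, map_zero])

theorem QS.update {n d : ℕ} {m : Fin n → ℕ} (h : QS n d m) (i : Fin n) (hi : m i = 0) (μ : ℕ)
    (hμ : μ = 1 ∨ μ = 2) : QS n d (Function.update m i μ) := by
  classical
  by_cases h1 : ∃ p0, FR d (Function.update m i μ) p0
  · obtain ⟨p0, h1⟩ := h1
    obtain ⟨g, hg, h2⟩ := h1.generic
    exact ⟨g, hg, fun p hp _ => h2 p hp⟩
  by_cases h2 : ∃ p0, KR d (Function.update m i μ) p0
  · obtain ⟨p0, h2⟩ := h2
    obtain ⟨g, hg, h3⟩ := h2.generic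
    refine ⟨g, hg, fun p hp hf => ?_⟩
    obtain ⟨f, hf1, hf2, hf3⟩ := hf
    exact absurd ((h3 p hp).eq_zero hf2.le hf3) hf1.ne_zero
  push Not at h1 h2
  obtain ⟨g, hg, hQ⟩ := h
  refine ⟨g, hg, fun p hp hf => ?_⟩
  exfalso
  obtain ⟨f, hf1, hf2, hf3⟩ := hf
  have hfV : Van m p f := by
    intro j s hs
    apply hf3 j s
    by_cases hj : j = i
    · subst hj
      omega
    · rw [Function.update_of_ne hj]
      exact hs
  have hFR := hQ p hp ⟨f, hf1, hf2, hfV⟩
  rcases hμ with rfl | rfl
  · -- multiplicity one
    obtain ⟨q, hq⟩ := exists_eval_ne28 hf1.ne_zero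
    apply h1 (Function.update p i q)
    apply qs_star hFR i hi
    intro t
    refine ⟨C (t 0 / eval q f) * f, deg_C_mul _ hf2.le, van_C_mul _ hfV, fun s hs => ?_⟩
    have hs0 : s = 0 := by
      ext j
      fin_cases j
      · have : s 0 = 0 := by omega
        simpa using this
      · have : s 1 = 0 := by omega
        simpa using this
    subst hs0
    unfold jet
    rw [coeff_zero_shift, map_mul, eval_C]
    field_simp
  · -- multiplicity two
    by_cases h3 : ∃ g1 h1 : MvPolynomial (Fin 2) ℂ, g1.totalDegree ≤ d ∧ h1.totalDegree ≤ d ∧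
        Van m p g1 ∧ Van m p h1 ∧ LinearIndependent ℂ ![f, g1, h1]
    · obtain ⟨g1, k1, hg1, hk1, hg1V, hk1V, hlin⟩ := h3
      obtain ⟨q, hq⟩ := jets hf1 hf2 hg1 hk1 hlin
      apply h1 (Function.update p i q)
      apply qs_star hFR i hi
      intro t
      obtain ⟨α, β, γ, hF⟩ := hq (t 0) (t (Finsupp.single 0 1)) (t (Finsupp.single 1 1))
      obtain ⟨e1, e2, e3⟩ := hF _ rfl
      refine ⟨C α * f + C β * g1 + C γ * k1, ?_, ?_, fun s hs => ?_⟩
      · refine (totalDegree_add _ _).trans (max_le ((totalDegree_add _ _).trans (max_le ?_ ?_)) ?_)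
        · exact deg_C_mul _ hf2.le
        · exact deg_C_mul _ hg1
        · exact deg_C_mul _ hk1
      · exact van_add (van_add (van_C_mul _ hfV) (van_C_mul _ hg1V)) (van_C_mul _ hk1V)
      · unfold jet
        rcases order_le_one hs with rfl | rfl | rfl
        · rw [coeff_zero_shift]
          exact e1
        · rw [coeff_single_shift]
          exact e2
        · rw [coeff_single_shift]
          exact e3
    · by_cases h4 : ∃ g1 : MvPolynomial (Fin 2) ℂ, g1.totalDegree ≤ d ∧ Van m p g1 ∧
          LinearIndependent ℂ ![f, g1]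
      · obtain ⟨g1, hg1, hg1V, hlin⟩ := h4
        obtain ⟨q, hq⟩ := pencil hf1 hf2 hg1 hlin
        apply h2 (Function.update p i q)
        apply qs_star2 i hi
        intro F hF hFV hFj
        have hcomb : ∃ α β : ℂ, F = C α * f + C β * g1 := by
          by_contra hcon
          apply h3
          refine ⟨g1, F, hg1, hF, hg1V, hFV, ?_⟩
          rw [Fintype.linearIndependent_iff]
          intro a ha
          simp only [Fin.sum_univ_three, Matrix.cons_val_zero, Matrix.cons_val_one,
            Matrix.cons_val_two, Matrix.tail_cons, Matrix.head_cons, Matrix.cons_val,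
            smul_eq_C_mul] at ha
          have ha2 : a 2 = 0 := by
            by_contra h5
            apply hcon
            refine ⟨-(a 0) / a 2, -(a 1) / a 2, ?_⟩
            have h6 : C (a 2) * F = C (-(a 0)) * f + C (-(a 1)) * g1 := by
              rw [map_neg, map_neg]
              linear_combination ha
            have h7 : F = C (a 2)⁻¹ * (C (a 2) * F) := by
              rw [← mul_assoc, ← C_mul, inv_mul_cancel₀ h5, C_1, one_mul]
            rw [h7, h6, mul_add, ← mul_assoc, ← mul_assoc, ← C_mul, ← C_mul]
            congr 3 <;> ring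
          rw [ha2, C_0, zero_mul, add_zero] at ha
          have h8 := (Fintype.linearIndependent_iff.1 hlin) ![a 0, a 1] (by
            simp only [Fin.sum_univ_two, Matrix.cons_val_zero, Matrix.cons_val_one, smul_eq_C_mul]
            exact ha)
          intro j
          fin_cases j
          · exact h8 0
          · exact h8 1
          · exact ha2
        obtain ⟨α, β, hαβ⟩ := hcomb
        have e1 := hFj 0 (by simp)
        have e2 := hFj (Finsupp.single 0 1) (by simp)
        have e3 := hFj (Finsupp.single 1 1) (by simp)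
        unfold jet at e1 e2 e3
        rw [coeff_zero_shift] at e1
        rw [coeff_single_shift] at e2 e3
        obtain ⟨h5, h6⟩ := hq α β F hαβ e1 e2 e3
        rw [hαβ, h5, h6]
        simp
      · obtain ⟨q, hq⟩ := exists_eval_ne28 hf1.ne_zero
        apply h2 (Function.update p i q)
        apply qs_star2 i hi
        intro F hF hFV hFj
        have hcomb : ∃ α : ℂ, F = C α * f := by
          by_contra hcon
          apply h4
          refine ⟨F, hF, hFV, ?_⟩
          rw [Fintype.linearIndependent_iff]
          intro a ha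
          simp only [Fin.sum_univ_two, Matrix.cons_val_zero, Matrix.cons_val_one,
            smul_eq_C_mul] at ha
          have ha1 : a 1 = 0 := by
            by_contra h5
            apply hcon
            refine ⟨-(a 0) / a 1, ?_⟩
            have h6 : C (a 1) * F = C (-(a 0)) * f := by
              rw [map_neg]
              linear_combination ha
            have h7 : F = C (a 1)⁻¹ * (C (a 1) * F) := by
              rw [← mul_assoc, ← C_mul, inv_mul_cancel₀ h5, C_1, one_mul]
            rw [h7, h6, ← mul_assoc, ← C_mul]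
            congr 2
            ring
          rw [ha1, C_0, zero_mul, add_zero] at ha
          have ha0 : a 0 = 0 := by
            rcases mul_eq_zero.1 ha with h5 | h5
            · exact (C_eq_zero (R := ℂ) (σ := Fin 2)).1 h5
            · exact absurd h5 hf1.ne_zero
          intro j
          fin_cases j
          · exact ha0
          · exact ha1
        obtain ⟨α, hα⟩ := hcomb
        have e1 := hFj 0 (by simp)
        unfold jet at e1
        rw [coeff_zero_shift, hα, map_mul, eval_C] at e1
        rcases mul_eq_zero.1 e1 with h5 | h5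
        · rw [hα, h5, C_0, zero_mul]
        · exact absurd h5 hq

end Pool.Agent.Helper28.HH
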