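import Pool.Agent.Helper28.HH.Qs0

/-!
# Project HH: independence of the conditions as surjectivity onto jets
-/

set_option autoImplicit false

namespace Pool.Agent.Helper28.HH

open MvPolynomial

/-- Taylor coefficient of order `s` of `h` at `q` -/
noncomputable def jet (q : Fin 2 → ℂ) (s : Fin 2 →₀ ℕ) (h : MvPolynomial (Fin 2) ℂ) : ℂ :=
  coeff s (aeval (fun j : Fin 2 => (X j + C (q j) : MvPolynomial (Fin 2) ℂ)) h)

lemma jet_add (q : Fin 2 → ℂ) (s : Fin 2 →₀ ℕ) (h h' : MvPolynomial (Fin 2) ℂ) :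
    jet q s (h + h') = jet q s h + jet q s h' := by
  simp [jet]

theorem FR.jets {n d : ℕ} {m : Fin n → ℕ} {p : Fin n → Fin 2 → ℂ} (h : FR d m p)
    (t : Fin n → (Fin 2 →₀ ℕ) → ℂ) : ∃ F : MvPolynomial (Fin 2) ℂ, F.totalDegree ≤ d ∧
      ∀ i s, s 0 + s 1 < m i → jet (p i) s F = t i s := by
  classical
  obtain ⟨A, hA⟩ := right_inv75 (CM d m p) h
  let w : Cidx m → ℂ := fun r => t r.1 (ex61 r.2.1.1 r.2.1.2)
  refine ⟨L61 d (A.mulVec w), totalDegree_L61 d _, fun i s hs => ?_⟩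
  unfold jet
  rw [coeff_aeval61]
  have h1 : (CM d m p).mulVec (A.mulVec w) = w := by
    rw [Matrix.mulVec_mulVec, hA, Matrix.one_mulVec]
  have h2 := congrFun h1 ⟨i, ⟨(⟨s 0, by omega⟩, ⟨s 1, by omega⟩), hs⟩⟩
  have h3 : w ⟨i, ⟨(⟨s 0, by omega⟩, ⟨s 1, by omega⟩), hs⟩⟩ = t i s := by
    show t i (ex61 (s 0) (s 1)) = t i s
    rw [ex61_self]
  rw [h3] at h2
  exact h2

theorem FR_of_jets {n d : ℕ} {m : Fin n → ℕ} {p : Fin n → Fin 2 → ℂ}
    (h : ∀ t : Fin n → (Fin 2 →₀ ℕ) → ℂ, ∃ F : MvPolynomial (Fin 2) ℂ, F.totalDegree ≤ d ∧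
      ∀ i s, s 0 + s 1 < m i → jet (p i) s F = t i s) : FR d m p := by
  classical
  have hinj : Function.Injective (CM d m p).vecMulLinear := by
    rw [injective_iff_map_eq_zero]
    intro w hw
    funext r
    obtain ⟨F, hF, hj⟩ := h (fun i s => if i = r.1 ∧ s = ex61 r.2.1.1 r.2.1.2 then 1 else 0)
    have h1 : (CM d m p).mulVec (fun e => coeff (ex61 (e.1.1 : ℕ) (e.1.2 : ℕ)) F) = Pi.single r 1 := by
      funext r'
      have h2 := hj r'.1 (ex61 r'.2.1.1 r'.2.1.2) (by rw [ex61_zero, ex61_one]; exact r'.2.2)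
      have h3 := coeff_aeval61 (d := d) (fun e => coeff (ex61 (e.1.1 : ℕ) (e.1.2 : ℕ)) F) (p r'.1)
        (ex61 r'.2.1.1 r'.2.1.2)
      rw [L61_coeff F hF, ex61_zero, ex61_one] at h3
      unfold jet at h2
      rw [h3] at h2
      have h4 : (CM d m p).mulVec (fun e => coeff (ex61 (e.1.1 : ℕ) (e.1.2 : ℕ)) F) r' =
          ∑ e : Midx d, phi (r'.2.1.1, r'.2.1.2) (e.1.1, e.1.2) (p r'.1) *
            coeff (ex61 (e.1.1 : ℕ) (e.1.2 : ℕ)) F := rfl
      rw [h4, h2, Pi.single_apply]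
      by_cases hr : r' = r
      · subst hr
        simp
      · rw [if_neg hr, if_neg]
        rintro ⟨h5, h6⟩
        apply hr
        obtain ⟨i, ⟨⟨a, b⟩, hab⟩⟩ := r
        obtain ⟨i', ⟨⟨a', b'⟩, hab'⟩⟩ := r'
        simp only at h5 h6
        subst h5
        rw [ex61_eq, ex61_zero, ex61_one] at h6
        have h7 : a' = a := Fin.ext h6.1
        have h8 : b' = b := Fin.ext h6.2
        subst h7 h8
        rfl
    have h2 : w ⬝ᵥ (CM d m p).mulVec (fun e => coeff (ex61 (e.1.1 : ℕ) (e.1.2 : ℕ)) F) = 0 := by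
      rw [Matrix.dotProduct_mulVec]
      have : Matrix.vecMul w (CM d m p) = 0 := hw
      rw [this, zero_dotProduct]
    rw [h1] at h2
    simpa using h2
  exact Matrix.vecMul_injective_iff.mp hinj

end Pool.Agent.Helper28.HH
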