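import Pool.Agent.Helper28.HH.InvE

/-!
# Project HH, Theorem E (block HH-E1); notation in InvE.lean
-/

set_option autoImplicit false

namespace Pool.Agent.Helper28.HH

/-! ### HH-E1: elementary facts -/

/-- staircase lemma: `f (γ+1) ≤ f γ + 1`, `m ≤ f γ0`.  PROOF: induction downward from `γ0`:
`m - f (γ0 - k) ≤ card {γ ∈ [γ0-k, γ0) | f γ < m}` and the sum over `[γ0-k,γ0)` is `≤ T` of that number
(if `f γ < m` the number grows by one and the new term is at most the new number). -/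
theorem staircase (m : ℕ) (f : ℕ → ℕ) (hf : ∀ γ, f (γ + 1) ≤ f γ + 1) (γ0 : ℕ) (h0 : m ≤ f γ0) :
    m - f 0 ≤ ((Finset.range γ0).filter (fun γ => f γ < m)).card ∧
    ∑ γ ∈ Finset.range γ0, (m - f γ) ≤ T ((Finset.range γ0).filter (fun γ => f γ < m)).card := by
  induction γ0 generalizing f with
  | zero => simp [h0]
  | succ k ih =>
    obtain ⟨h1, h2⟩ := ih (fun γ => f (γ + 1)) (fun γ => hf (γ + 1)) h0
    have hc : ((Finset.range (k + 1)).filter (fun γ => f γ < m)).card =
        ((Finset.range k).filter (fun γ => f (γ + 1) < m)).card + (if f 0 < m then 1 else 0) := by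
      rw [Finset.card_filter, Finset.card_filter, Finset.sum_range_succ']
    rw [hc, Finset.sum_range_succ']
    have h3 := hf 0
    simp only [zero_add] at h1 h3
    split_ifs with h4
    · rw [T_succ]
      omega
    · have h5 : m - f 0 = 0 := by omega
      rw [h5]
      simp only [add_zero]
      exact ⟨Nat.zero_le _, h2⟩

/-- discrete intermediate value -/
theorem step_value (m : ℕ) (f : ℕ → ℕ) (hf : ∀ γ, f (γ + 1) ≤ f γ + 1) {γ1 γ0 : ℕ} (h : γ1 < γ0)
    (h1 : f γ1 < m) (h0 : m ≤ f γ0) : ∃ γ, γ1 ≤ γ ∧ γ < γ0 ∧ f γ + 1 = m := by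
  induction γ0 with
  | zero => omega
  | succ k ih =>
    by_cases h2 : m ≤ f k
    · rcases Nat.lt_or_ge γ1 k with h3 | h3
      · obtain ⟨γ, ha, hb, hc⟩ := ih h3 h2
        exact ⟨γ, ha, by omega, hc⟩
      · have h4 : γ1 = k := by omega
        rw [h4] at h1
        omega
    · have h5 := hf k
      exact ⟨k, by omega, by omega, by omega⟩

lemma hh_succ (n : ℕ) (u : ℕ → ℕ) (b γ : ℕ) :
    hh n u (b + 1) γ = hh n u b γ + (if γ < n - b - u b then 1 else 0) := by
  unfold hh
  rw [Finset.card_filter, Finset.card_filter, Finset.sum_range_succ]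

lemma hh_anti (n : ℕ) (u : ℕ → ℕ) (b γ : ℕ) : hh n u b (γ + 1) ≤ hh n u b γ := by
  unfold hh
  refine Finset.card_le_card fun x hx => ?_
  rw [Finset.mem_filter] at hx ⊢
  exact ⟨hx.1, by omega⟩

/-- `G (b+1) + s b = G b` (termwise, `hh_succ`) -/
lemma gs_succ (n m : ℕ) (u : ℕ → ℕ) (b : ℕ) : gs n m u (b + 1) + sl n m u b = gs n m u b := by
  have hs : sl n m u b = ∑ γ ∈ Finset.range m,
      (if γ < n - b - u b ∧ γ + hh n u b γ < m then 1 else 0) := by
    unfold sl
    rw [← Finset.card_filter]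
    congr 1
    ext γ
    simp only [Finset.mem_filter, Finset.mem_range, lt_min_iff]
    omega
  rw [hs]
  unfold gs
  rw [← Finset.sum_add_distrib]
  refine Finset.sum_congr rfl fun γ _ => ?_
  rw [hh_succ]
  split_ifs <;> omega

private lemma h80_hh_zero (n : ℕ) (u : ℕ → ℕ) (γ : ℕ) : hh n u 0 γ = 0 := by
  simp [hh]

private lemma h80_sum (m : ℕ) : ∑ γ ∈ Finset.range m, (m - γ) = T m := by
  induction m with
  | zero => rfl
  | succ k ih =>
    rw [Finset.sum_range_succ', T_succ, ← ih]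
    simp

lemma gs_zero (n m : ℕ) (u : ℕ → ℕ) : gs n m u 0 = T m := by
  unfold gs
  simp only [h80_hh_zero, add_zero]
  exact h80_sum m

lemma sl_le (n m : ℕ) (u : ℕ → ℕ) (b : ℕ) : sl n m u b ≤ n - b - u b ∧ sl n m u b ≤ m ∧
    sl n m u b ≤ ss n m u b := by
  have h1 : sl n m u b ≤ min (n - b - u b) m := by
    unfold sl
    exact (Finset.card_filter_le _ _).trans_eq (Finset.card_range _)
  refine ⟨h1.trans (min_le_left _ _), h1.trans (min_le_right _ _), ?_⟩
  unfold sl ss
  refine Finset.card_le_card fun x hx => ?_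
  simp only [Finset.mem_filter, Finset.mem_range, lt_min_iff] at hx ⊢
  omega

lemma sl_eq (n m : ℕ) (u : ℕ → ℕ) (b : ℕ) (h : m ≤ n - b - u b) : sl n m u b = ss n m u b := by
  unfold sl ss
  rw [min_eq_right h]
  congr 1
  ext x
  simp only [Finset.mem_filter, Finset.mem_range]
  omega

lemma ss_zero (n m : ℕ) (u : ℕ → ℕ) : ss n m u 0 = m := by
  unfold ss
  simp only [h80_hh_zero, add_zero]
  rw [Finset.filter_true_of_mem (fun x hx => Finset.mem_range.1 hx), Finset.card_range]

lemma ss_anti (n m : ℕ) (u : ℕ → ℕ) (b : ℕ) : ss n m u (b + 1) ≤ ss n m u b := by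
  unfold ss
  refine Finset.card_le_card fun x hx => ?_
  rw [Finset.mem_filter, hh_succ] at hx
  rw [Finset.mem_filter]
  exact ⟨hx.1, by omega⟩

private lemma h80_stair (n m : ℕ) (u : ℕ → ℕ) (b : ℕ) :
    m - hh n u b 0 ≤ ss n m u b ∧ gs n m u b ≤ T (ss n m u b) := by
  have h := staircase m (fun γ => γ + hh n u b γ) (fun γ => by
    have := hh_anti n u b γ
    show γ + 1 + hh n u b (γ + 1) ≤ γ + hh n u b γ + 1
    omega) m (by
    show m ≤ m + hh n u b m
    omega)
  simp only [zero_add] at h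
  exact h

/-- `staircase` with `γ0 = m` -/
lemma ss_ge (n m : ℕ) (u : ℕ → ℕ) (b : ℕ) : m ≤ ss n m u b + hh n u b 0 := by
  have := (h80_stair n m u b).1
  omega

/-- `staircase` with `γ0 = m` -/
lemma gs_le (n m : ℕ) (u : ℕ → ℕ) (b : ℕ) : gs n m u b ≤ T (ss n m u b) :=
  (h80_stair n m u b).2

/-- a row with at least `m` elements: the element `γ` with `f γ = m - 1` (`step_value`) is lost.  -/
lemma ss_strict (n m : ℕ) (u : ℕ → ℕ) (b : ℕ) (h : m ≤ n - b - u b) (h1 : 1 ≤ ss n m u b) :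
    ss n m u (b + 1) + 1 ≤ ss n m u b := by
  obtain ⟨γ1, hγ1⟩ : ((Finset.range m).filter (fun γ => γ + hh n u b γ < m)).Nonempty := by
    rw [← Finset.card_pos]
    exact h1
  rw [Finset.mem_filter, Finset.mem_range] at hγ1
  obtain ⟨γ, -, h2, h3⟩ := step_value m (fun γ => γ + hh n u b γ) (fun γ => by
    have := hh_anti n u b γ
    show γ + 1 + hh n u b (γ + 1) ≤ γ + hh n u b γ + 1
    omega) hγ1.1 hγ1.2 (show m ≤ m + hh n u b m by omega)
  have h3' : γ + hh n u b γ + 1 = m := h3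
  rw [← Nat.lt_iff_add_one_le]
  unfold ss
  refine Finset.card_lt_card ?_
  rw [Finset.ssubset_iff_of_subset]
  · refine ⟨γ, ?_, ?_⟩
    · rw [Finset.mem_filter, Finset.mem_range]
      exact ⟨h2, by omega⟩
    · rw [Finset.mem_filter, hh_succ]
      rintro ⟨-, h4⟩
      rw [if_pos (by omega)] at h4
      omega
  · intro x hx
    rw [Finset.mem_filter, hh_succ] at hx
    rw [Finset.mem_filter]
    exact ⟨hx.1, by omega⟩

end Pool.Agent.Helper28.HH
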