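import Pool.Agent.Helper28.HH.StE1

/-!
# Project HH, Theorem E (block HH-E2); notation in InvE.lean
-/

set_option autoImplicit false

namespace Pool.Agent.Helper28.HH

/-! ### HH-E2: a short row `b` that survives (`x = r b < m`, `sl b < x`) -/

/-- nestedness: from V2 (untouched rows have `r = n - b ≥ m1 + 1`) -/
lemma nested {n m1 m : ℕ} {u : ℕ → ℕ} {μ : ℕ} (h : InvE n m1 u μ) (hm : m ≤ m1) :
    ∀ b b', b < b' → b' < n - m1 → min (n - b - u b) m ≤ min (n - b' - u b') m := by
  have step : ∀ b, b + 1 < n - m1 →
      min (n - b - u b) m ≤ min (n - (b + 1) - u (b + 1)) m := by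
    intro b hb
    rcases Nat.lt_or_ge (u b) (n - b) with h1 | h1
    · rcases h.V2 b hb h1 with h2 | h2
      · exact min_le_min (by omega) le_rfl
      · refine le_min ?_ (Nat.min_le_right _ _)
        have := Nat.min_le_right (n - b - u b) m
        omega
    · have h2 : n - b - u b = 0 := by omega
      rw [h2, Nat.zero_min]
      exact Nat.zero_le _
  intro b b' hbb
  induction b', hbb using Nat.le_induction with
  | base => exact step b
  | succ c hc ih => exact fun hc' => (ih (by omega)).trans (step c hc')

/-- rows below `b` have at most `r b` elements if `r b < m` -/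
lemma hh_eq_zero {n m1 m : ℕ} {u : ℕ → ℕ} {μ : ℕ} (h : InvE n m1 u μ) (hm : m ≤ m1) {b γ : ℕ}
    (hb : b < n - m1) (h1 : n - b - u b ≤ γ) (h2 : γ < m) : hh n u b γ = 0 := by
  unfold hh
  rw [Finset.card_eq_zero, Finset.filter_eq_empty_iff]
  intro b' hb'
  rw [Finset.mem_range] at hb'
  have h3 := nested h hm b' b hb' hb
  have h4 : min (n - b - u b) m = n - b - u b := min_eq_left (h1.trans h2.le)
  rw [h4] at h3
  rcases min_le_iff.1 h3 with h5 | h5 <;> omega

/-- a surviving short row has few rows below it.  PROOF: `x = n - b - u b < m`; there is `γ < x` with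
`f γ ≥ m` (else `sl b = x`).  Take `b1` of V3.  If `b ≤ b1`: the nonempty rows below `b` have strictly
increasing sizes, so `hh n u b γ ≤ x - 1 - γ` for all `γ < x`, `f γ ≤ x - 1 < m`: contradiction.  If
`b1 < b` (or `b1 ≤ b`): `u b ≠ 0` (else `x = n - b ≥ m1 + 1`), so `u b + hh n u b 0 ≤ μ ≤ m1` and
`x = n - b - u b ≥ m1 + 1 - u b ≥ hh n u b 0 + 1`. -/
lemma short_row {n m1 m : ℕ} {u : ℕ → ℕ} {μ : ℕ} (h : InvE n m1 u μ) (hμ : μ ≤ m) (hm : m ≤ m1) {b : ℕ}
    (hb : b < n - m1) (h1 : n - b - u b < m) (h2 : sl n m u b < n - b - u b) :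
    hh n u b 0 + 1 ≤ n - b - u b := by
  obtain ⟨b1, hV, hW⟩ := h.V3
  rcases Nat.lt_or_ge b b1 with hbb | hbb
  · have key : ∀ k b', b' + k = b → 0 < n - b' - u b' → n - b' - u b' + k ≤ n - b - u b := by
      intro k
      induction k with
      | zero =>
        intro b' hb' _
        have : b' = b := by omega
        rw [this]
        omega
      | succ k ih =>
        intro b' hb' hpos
        have h3 := hV b' (by omega) (by omega) (by omega)
        have h4 := ih (b' + 1) (by omega) (by omega)
        omega
    have hsub : (Finset.range b).filter (fun b' => 0 < n - b' - u b') ⊆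
        Finset.Ico (b + 1 - (n - b - u b)) b := by
      intro b' hb'
      rw [Finset.mem_filter, Finset.mem_range] at hb'
      have h3 := key (b - b') b' (by omega) hb'.2
      rw [Finset.mem_Ico]
      omega
    have h3 := Finset.card_le_card hsub
    rw [Nat.card_Ico] at h3
    unfold hh
    omega
  · rcases hW b hbb hb with h3 | h3 <;> omega

end Pool.Agent.Helper28.HH
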