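import Pool.Agent.Helper28.HH.StE2
import Pool.Agent.Helper28.HH.Tail

/-!
# Project HH, Theorem E (block HH-E2b: the tail inequality); notation in InvE.lean
-/

set_option autoImplicit false

namespace Pool.Agent.Helper28.HH

/-- **the tail inequality**.  PROOF.  Let `x = r i`, `s = sl i`.  If `m ≤ x`: `G ≤ T s` (`gs_le`, `sl_eq`),
`2 T s = s (s+1) ≤ (m+1) s`.  If `x < m`: let `γ0` be the largest `γ < x` with `f γ ≥ m` (exists since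
`s < x`).  For `γ0 < γ < x` `f γ < m`, for `x ≤ γ < m` `f γ = γ < m` (`hh_eq_zero`).  So with
`s1 = card {γ < γ0 | f γ < m}`: `s = s1 + (x - 1 - γ0)`,
`G ≤ T s1 + ∑_{γ0 < γ < m} (m - γ) = T s1 + T (m - 1 - γ0)` (`staircase`).  `s1 ≥ m - hh i 0 ≥ m - x + 1`
(`staircase`, `short_row`), `s1 ≤ γ0`.  Put `z = m - x ≥ 1`, `t = m - 1 - γ0 ≥ z`; `s = s1 + t - z`.
`s1 (m - s1) ≥ (z+1)(t+1)`, hence
`(m+1) s - s1(s1+1) - t(t+1) = s1(m-s1) + (m+1)(t-z) - t(t+1) ≥ (t+1) + (m-t)(t-z) ≥ 0`. -/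
theorem tail_le {n m1 m : ℕ} {u : ℕ → ℕ} {μ : ℕ} (h : InvE n m1 u μ) (hμ : μ ≤ m) (hm : m ≤ m1) {i : ℕ}
    (hi : i < n - m1) (h2 : sl n m u i < n - i - u i) :
    2 * gs n m u i ≤ (m + 1) * sl n m u i :=
  tail_abs (fun _ h3 h4 => hh_eq_zero h hm hi h3 h4) (fun h3 => short_row h hμ hm hi h3 h2) h2

end Pool.Agent.Helper28.HH
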