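import Pool.Agent.Helper28.HH.StE2

/-!
# Project HH, Theorem E (block HH-E2c: short_strict); notation in InvE.lean
-/

set_option autoImplicit false

namespace Pool.Agent.Helper28.HH

/-- a surviving short row: one element `γ < x` with `f γ = m - 1` is lost in the next row.
PROOF: there is `γ0 < x` with `f γ0 ≥ m`; `f 0 = hh b 0 < m` (`short_row`); `step_value` gives `γ < γ0` with
`f γ = m - 1`.  First claim: the set on the left is contained in the set of `sl b` minus this `γ`.
Second claim: `ss (b+1)` counts `γ < m` with `γ + hh (b+1) γ < m`, contained in the set of `ss b` minus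
this `γ` (`hh (b+1) γ = hh b γ + 1` there). -/
lemma short_strict {n m1 m : ℕ} {u : ℕ → ℕ} {μ : ℕ} (h : InvE n m1 u μ) (hμ : μ ≤ m) (hm : m ≤ m1) {b : ℕ}
    (hb : b < n - m1) (h1 : n - b - u b < m) (h2 : sl n m u b < n - b - u b) :
    ((Finset.range (n - b - u b)).filter (fun γ => γ + hh n u b γ + 1 < m)).card + 1 ≤ sl n m u b ∧
      ss n m u (b + 1) + 1 ≤ ss n m u b := by
  have h3 := short_row h hμ hm hb h1 h2
  have hmin : min (n - b - u b) m = n - b - u b := min_eq_left h1.le
  obtain ⟨γ0, hγ0, hγm⟩ : ∃ γ0, γ0 < n - b - u b ∧ m ≤ γ0 + hh n u b γ0 := by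
    by_contra hcon
    push Not at hcon
    have h4 : sl n m u b = n - b - u b := by
      unfold sl
      rw [hmin, Finset.filter_true_of_mem, Finset.card_range]
      intro γ hγ
      have := hcon γ (Finset.mem_range.mp hγ)
      omega
    omega
  have hpos : 0 < γ0 := by
    rcases Nat.eq_zero_or_pos γ0 with h0 | h0
    · subst h0
      omega
    · exact h0
  obtain ⟨γ, -, hγ, hγe⟩ := step_value m (fun γ => γ + hh n u b γ)
    (fun γ => by have := hh_anti n u b γ; show γ + 1 + hh n u b (γ + 1) ≤ γ + hh n u b γ + 1; omega)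
    hpos (show 0 + hh n u b 0 < m by omega) hγm
  have hγe' : γ + hh n u b γ + 1 = m := hγe
  have hγx : γ < n - b - u b := by omega
  constructor
  · have hn : γ ∉ (Finset.range (n - b - u b)).filter (fun γ => γ + hh n u b γ + 1 < m) := by
      rw [Finset.mem_filter]
      rintro ⟨-, h5⟩
      omega
    rw [← Finset.card_insert_of_notMem hn]
    unfold sl
    rw [hmin]
    apply Finset.card_le_card
    intro g hg
    rw [Finset.mem_insert] at hg
    rw [Finset.mem_filter, Finset.mem_range]
    rcases hg with rfl | hg
    · exact ⟨hγx, by omega⟩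
    · rw [Finset.mem_filter, Finset.mem_range] at hg
      exact ⟨hg.1, by omega⟩
  · have hs := hh_succ n u b
    have hn : γ ∉ (Finset.range m).filter (fun γ => γ + hh n u (b + 1) γ < m) := by
      rw [Finset.mem_filter]
      rintro ⟨-, h5⟩
      have h6 := hs γ
      rw [if_pos hγx] at h6
      omega
    unfold ss
    rw [← Finset.card_insert_of_notMem hn]
    apply Finset.card_le_card
    intro g hg
    rw [Finset.mem_insert] at hg
    rw [Finset.mem_filter, Finset.mem_range]
    rcases hg with rfl | hg
    · exact ⟨by omega, by omega⟩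
    · rw [Finset.mem_filter, Finset.mem_range] at hg
      have h6 := hs g
      refine ⟨hg.1, ?_⟩
      have h7 := hg.2
      split_ifs at h6 <;> omega

end Pool.Agent.Helper28.HH
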