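import Pool.Agent.Helper28.HH.StE2c

/-!
# Project HH, Theorem E (block HH-E3: drop, ss_bound); notation in InvE.lean
-/

set_option autoImplicit false

namespace Pool.Agent.Helper28.HH

/-! ### HH-E3: the invariant persists -/

/-- the drop of `u` at a surviving row.  PROOF.  Case `m ≤ r b`: then `m ≤ r (b+1)` and
`sl (b+1) + 1 ≤ sl b` or `sl b = 0 = sl (b+1)` (`sl_eq`, `ss_strict`, `ss_anti`).  With V2: first claim; second claim:
`u b ≥ 1`, so `u (b+1) + 1 ≤ u b` (V2), and `sl b = ss b ≥ m - hh b 0 ≥ 1` (`ss_ge`, V4), so the drop is `≥ 2`.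
Case `x = r b < m`: `u b ≥ 1`.  `r (b+1) ≥ x`; `sl (b+1) ≤ card {γ < x | f_b γ + 1 < m} + (min (r (b+1)) m - x)`
(`hh_succ`), `≤ sl b - 1 + r (b+1) - x` (`short_strict`), and `u b = u (b+1) + 1 + r (b+1) - x`.  So the drop
is `≥ 2`. -/
lemma drop {n m1 m : ℕ} {u : ℕ → ℕ} {μ : ℕ} (h : InvE n m1 u μ) (hμ : μ ≤ m) (hm : m ≤ m1) {b : ℕ}
    (hb : b + 1 < n - m1) (h2 : sl n m u b < n - b - u b) :
    (u (b + 1) + sl n m u (b + 1) + 1 ≤ u b + sl n m u b ∨ u (b + 1) + sl n m u (b + 1) = 0) ∧
      (1 ≤ u b → u (b + 1) + sl n m u (b + 1) + 2 ≤ u b + sl n m u b) := by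
  have hV2 := h.V2 b hb (by omega)
  have hV1 := h.V1 (b + 1) hb
  have hV1' := h.V1 b (by omega)
  by_cases hx : m ≤ n - b - u b
  · have hx' : m ≤ n - (b + 1) - u (b + 1) := by omega
    have e1 := sl_eq n m u b hx
    have e2 := sl_eq n m u (b + 1) hx'
    have ha := ss_anti n m u b
    rw [e1, e2]
    constructor
    · rcases Nat.eq_zero_or_pos (ss n m u b) with h0 | h0
      · rcases hV2 with hV2 | hV2
        · left; omega
        · right; omega
      · have hs := ss_strict n m u b hx h0
        left
        omega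
    · intro hu
      have h4 := h.V4 b (by omega) hu
      have h5 := ss_ge n m u b
      have hs := ss_strict n m u b hx (by omega)
      omega
  · push Not at hx
    have hs := (short_strict h hμ hm (by omega) hx h2).1
    have hle : sl n m u (b + 1) ≤
        ((Finset.range (n - b - u b)).filter (fun γ => γ + hh n u b γ + 1 < m)).card +
          (n - (b + 1) - u (b + 1) - (n - b - u b)) := by
      have hsub : (Finset.range (min (n - (b + 1) - u (b + 1)) m)).filter
          (fun γ => hh n u (b + 1) γ + γ < m) ⊆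
          (Finset.range (n - b - u b)).filter (fun γ => γ + hh n u b γ + 1 < m) ∪
            Finset.Ico (n - b - u b) (n - (b + 1) - u (b + 1)) := by
        intro γ hγ
        rw [Finset.mem_filter, Finset.mem_range, lt_min_iff] at hγ
        rw [Finset.mem_union, Finset.mem_filter, Finset.mem_range, Finset.mem_Ico]
        have h6 := hh_succ n u b γ
        by_cases hγx : γ < n - b - u b
        · rw [if_pos hγx] at h6
          left
          omega
        · right
          omega
      calc sl n m u (b + 1) ≤ _ := Finset.card_le_card hsub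
        _ ≤ _ := Finset.card_union_le _ _
        _ = _ := by rw [Nat.card_Ico]
    constructor
    · left
      omega
    · intro _
      omega

/-- PROOF: induction on `b`.  `b = 0`: `ss 0 = m`, `hh 0 = 0`.  Row `b` not surviving: `hh' (b+1) 0 = hh' b 0`,
`ss_anti`.  Row `b` surviving: `hh' (b+1) 0 = hh' b 0 + 1`; `ss (b+1) + 1 ≤ ss b` if `ss b ≥ 1`: `ss_strict` or
`short_strict`. -/
lemma ss_bound {n m1 m : ℕ} {u : ℕ → ℕ} {μ : ℕ} (h : InvE n m1 u μ) (hμ : μ ≤ m) (hm : m ≤ m1) :
    ∀ b, b < n - m1 → ss n m u b = 0 ∨ ss n m u b + hh n (fun b => u b + sl n m u b) b 0 ≤ m := by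
  intro b
  induction b with
  | zero =>
    intro _
    right
    rw [ss_zero]
    simp [hh]
  | succ b ih =>
    intro hb
    have hI := ih (by omega)
    have h6 := hh_succ n (fun b => u b + sl n m u b) b 0
    have ha := ss_anti n m u b
    rcases Nat.eq_zero_or_pos (ss n m u b) with h0 | h0
    · left
      omega
    right
    have hI' : ss n m u b + hh n (fun b => u b + sl n m u b) b 0 ≤ m := by omega
    by_cases hsv : 0 < n - b - (u b + sl n m u b)
    · rw [if_pos hsv] at h6
      have hs : ss n m u (b + 1) + 1 ≤ ss n m u b := by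
        by_cases hx : m ≤ n - b - u b
        · exact ss_strict n m u b hx h0
        · exact (short_strict h hμ hm (by omega) (by omega) (by omega)).2
      omega
    · rw [if_neg hsv] at h6
      omega

end Pool.Agent.Helper28.HH
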