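import Pool.Agent.Helper28.HH.StE2b
import Pool.Agent.Helper28.HH.StE3b

/-!
# Project HH, Theorem E (block HH-E4: counting); notation in InvE.lean
-/

set_option autoImplicit false

namespace Pool.Agent.Helper28.HH

/-! ### HH-E4: counting and Theorem E -/

/-- PROOF: induction on `ms` with `nest` (hypothesis `nested`).  The hypothesis `hV` persists: for `i`
surviving after the step, `T m = ∑_{b<i} sl b + G i` (`gs_zero`, `gs_succ`) and
`2 G i ≤ (m+1) sl i ≤ (m2+1) sl i` (`tail_le`).  At the end (`ms = []`) `DL n (n-m1) u = ∅`: otherwise let `i < n - m1`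
be the least row with `u i < n - i`; `u b = n - b` below; with `N = n - i ≥ m1 + 1` and
`∑_{b<i} (n-b) = T n - T N` the hypotheses give
`2 T N - 2 T m1 + m1 (m2-1) ≤ (m2+1)(N-1)`, false: for `N = m1 + 1 + y` the difference is
`2 + y (2 m1 + 2 + y - m2) > 0` (`m2 = 0` separately or by truncation). -/
theorem low_rows {n m1 m2 : ℕ} (h21 : m2 ≤ m1) (h1 : m1 < n) : ∀ ms : List ℕ, ms.Pairwise (· ≤ ·) →
    (∀ m ∈ ms, m ≤ m2) → ∀ (u : ℕ → ℕ) (μ S : ℕ), InvE n m1 u μ → (∀ m ∈ ms, μ ≤ m) →
    (∀ i, i < n - m1 → u i < n - i → 2 * S ≤ 2 * ∑ b ∈ Finset.range i, u b + (m2 + 1) * u i) →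
    2 * T n + m1 * (m2 - 1) ≤ 2 * (T m1 + S + (ms.map T).sum) →
    InjD (DL n (n - m1) u) ms := by
  intro ms
  induction ms with
  | nil =>
    intro _ _ u μ S h _ hV hS
    have hempty : ∀ e, e ∉ DL n (n - m1) u := by
      intro e he
      have hex : ∃ i, i < n - m1 ∧ u i < n - i := by
        rw [mem_DL] at he
        exact ⟨e.2, he.2, by omega⟩
      classical
      obtain ⟨h2, h3⟩ := Nat.find_spec hex
      have hlow : ∀ b ∈ Finset.range (Nat.find hex), u b = n - b := by
        intro b hb
        have hb' := Finset.mem_range.mp hb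
        have h4 := Nat.find_min hex hb'
        have h5 := h.V1 b (by omega)
        omega
      have h4 := hV _ h2 h3
      rw [Finset.sum_congr rfl hlow] at h4
      revert h2 h3 h4
      generalize Nat.find hex = i
      intro h2 h3 h4
      have hsum : ∀ j, j ≤ n → ∑ b ∈ Finset.range j, (n - b) + T (n - j) = T n := by
        intro j
        induction j with
        | zero => intro _; simp
        | succ j ih =>
          intro hj
          have h5 := ih (by omega)
          have h6 : n - j = (n - (j + 1)) + 1 := by omega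
          have h7 := T_succ (n - (j + 1))
          rw [← h6] at h7
          rw [Finset.sum_range_succ]
          omega
      have h5 := hsum i (by omega)
      obtain ⟨y, hy⟩ : ∃ y, n - i = m1 + 1 + y := ⟨n - i - (m1 + 1), by omega⟩
      have h6 : u i ≤ m1 + y := by omega
      have h7 := Nat.mul_le_mul_left (m2 + 1) h6
      have h8 := two_T (n - i)
      have h9 := two_T m1
      rw [hy] at h8 h5
      simp only [List.map_nil, List.sum_nil, Nat.add_zero] at hS
      have h10 : m1 * m2 ≤ m1 * (m2 - 1) + m1 := by
        have h11 : m2 ≤ (m2 - 1) + 1 := by omega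
        calc m1 * m2 ≤ m1 * ((m2 - 1) + 1) := Nat.mul_le_mul_left _ h11
          _ = _ := by ring
      have h12 : y * m2 ≤ y * m1 := Nat.mul_le_mul_left _ h21
      nlinarith
    exact ⟨[], rfl, fun c _ e he => absurd he (hempty e)⟩
  | cons m ms ih =>
    intro hp hle u μ S h hμ hV hS
    rw [List.pairwise_cons] at hp
    have hm2 : m ≤ m2 := hle m List.mem_cons_self
    have hm : m ≤ m1 := hm2.trans h21
    have hμm : μ ≤ m := hμ m List.mem_cons_self
    refine nest (fun b b' hb hb' => nested h hm b b' hb hb') ?_
    refine ih hp.2 (fun m' hm' => hle m' (List.mem_cons_of_mem _ hm')) _ m (S + T m) (h.step hμm hm)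
      (fun m' hm' => hp.1 m' hm') ?_ ?_
    · intro i hi h2
      have h3 : sl n m u i < n - i - u i := by omega
      have h4 := hV i hi (by omega)
      have h5 := tail_le h hμm hm hi h3
      have h6 : ∀ j, ∑ b ∈ Finset.range j, sl n m u b + gs n m u j = T m := by
        intro j
        induction j with
        | zero => simp [gs_zero]
        | succ j ihj =>
          have h7 := gs_succ n m u j
          rw [Finset.sum_range_succ]
          omega
      have h7 := h6 i
      have h8 : (m + 1) * sl n m u i ≤ (m2 + 1) * sl n m u i := Nat.mul_le_mul_right _ (by omega)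
      have h9 : ∑ b ∈ Finset.range i, (u b + sl n m u b) =
          ∑ b ∈ Finset.range i, u b + ∑ b ∈ Finset.range i, sl n m u b := Finset.sum_add_distrib
      show 2 * (S + T m) ≤ 2 * ∑ b ∈ Finset.range i, (u b + sl n m u b) + (m2 + 1) * (u i + sl n m u i)
      rw [h9, mul_add (m2 + 1)]
      omega
    · rw [List.map_cons, List.sum_cons] at hS
      omega

end Pool.Agent.Helper28.HH
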