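import Pool.Agent.Helper28.HH.Br
import Pool.Agent.Helper28.HH.Ph

/-!
# Project HH: terminal lemmas for helper1 (block HH-TI)

`TI28`, `TII28`: `bridge` and `phase` with `i = 0`.  `InvP`: each slice function is `≤ M`, strictly decreasing until `0`
(`onsl y (b+1) + 1 ≤ onsl y b` or `onsl y (b+1) = 0 = ...`), so `M u(b+1) ≤ (M-1) u b`; `u b = 0` for `b ≥ M`;
`u 0 = tot tr ≤ n` and `u (b+1) ≤ u b - 1` or `0` give `u b ≤ n - b`.
`card (DS n u) = ∑_{b<n} (n-b-u b) = T n - ∑_{b<n} u b = T n - ∑_{on} sz` and `∑_{off} sz = ∑ T (offm (x k))`,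
`count 1 = tot fill`.
-/

set_option autoImplicit false

namespace Pool.Agent.Helper28.HH

open Pool.Agent.Helper1.FH (Item Inj InjAt Low tc Ok tot)

private lemma onsl_succ_h12 {M : ℕ} {y : Item} (hy : y.ok M) (b : ℕ) :
    M * onsl y (b + 1) ≤ (M - 1) * onsl y b := by
  cases y with
  | on m g =>
    simp only [onsl, Item.ok] at *
    by_cases h0 : Pool.Agent.Helper1.FH.sl m g (b + 1) = 0
    · rw [h0]; simp
    · have h1 : Pool.Agent.Helper1.FH.sl m g (b + 1) + 1 ≤ Pool.Agent.Helper1.FH.sl m g b := by
        unfold Pool.Agent.Helper1.FH.sl at *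
        split_ifs at * <;> omega
      have h2 : Pool.Agent.Helper1.FH.sl m g b ≤ M := by
        unfold Pool.Agent.Helper1.FH.sl
        split_ifs <;> omega
      have h3 : M * (Pool.Agent.Helper1.FH.sl m g (b + 1) + 1) ≤ M * Pool.Agent.Helper1.FH.sl m g b :=
        Nat.mul_le_mul le_rfl h1
      rw [Nat.mul_add, mul_one] at h3
      rw [Nat.sub_mul, one_mul]
      omega
  | off m => simp [onsl]

private lemma onsl_big_h12 {M : ℕ} {y : Item} (hy : y.ok M) {b : ℕ} (hb : M ≤ b) : onsl y b = 0 := by
  cases y with
  | on m g =>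
    simp only [onsl, Item.ok] at *
    unfold Pool.Agent.Helper1.FH.sl
    split_ifs <;> omega
  | off m => rfl

private lemma onsl_zero_h12 {M : ℕ} {y : Item} (hy : y.ok M) : onsl y 0 = y.tr := by
  cases y with
  | on m g =>
    simp only [onsl, Item.ok, Item.tr] at *
    unfold Pool.Agent.Helper1.FH.sl
    split_ifs <;> omega
  | off m => rfl

private lemma sl_sum_h12 : ∀ (N m g : ℕ), m ≤ N → g ≤ m →
    ∑ b ∈ Finset.range N, Pool.Agent.Helper1.FH.sl m g b = (Item.on m g).sz := by
  intro N
  induction N with
  | zero =>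
    intro m g hm hg
    have h1 : m = 0 := by omega
    have h2 : g = 0 := by omega
    subst h1 h2
    rfl
  | succ N ih =>
    intro m g hm hg
    rw [Finset.sum_range_succ']
    have h1 : ∀ b ∈ Finset.range N, Pool.Agent.Helper1.FH.sl m g (b + 1) =
        Pool.Agent.Helper1.FH.sl (m - 1) (min g (m - 1)) b := by
      intro b _
      unfold Pool.Agent.Helper1.FH.sl
      split_ifs <;> omega
    rw [Finset.sum_congr rfl h1, ih (m - 1) (min g (m - 1)) (by omega) (by omega)]
    have h2 : (Item.on m g).ok m := ⟨le_rfl, hg⟩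
    have h3 := Pool.Agent.Helper1.FH.sz_shift h2
    have h4 : Pool.Agent.Helper1.FH.sl m g 0 = (Item.on m g).tr := onsl_zero_h12 h2
    rw [h4]
    exact h3

private lemma onsl_sum_h12 {M : ℕ} {y : Item} (hy : y.ok M) {N : ℕ} (hN : M ≤ N) :
    ∑ b ∈ Finset.range N, onsl y b + T (offm y) = y.sz := by
  cases y with
  | on m g =>
    simp only [Item.ok] at hy
    have h1 := sl_sum_h12 N m g (by omega) hy.2
    simp only [onsl, offm, T_zero, add_zero]
    exact h1
  | off m =>
    simp only [onsl, offm, Finset.sum_const_zero, zero_add]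
    rfl

private lemma fill_h12 (y : Item) : (if offm y = 1 then 1 else 0) = y.fill := by
  cases y with
  | on m g => rfl
  | off m => rfl

private lemma core_h12 {M : ℕ} (hM : 1 ≤ M) {ι : Type} [Fintype ι] (n : ℕ) (x : ι → Item) (hx : Ok M x)
    (htr : tot Item.tr x ≤ n) :
    InvP n M (fun b => ∑ k, onsl (x k) b) 0 ∧
    (DS n (fun b => ∑ k, onsl (x k) b)).card + tot Item.sz x =
      T n + (((Finset.univ : Finset ι).toList.map (fun k => offm (x k))).map T).sum ∧
    ((Finset.univ : Finset ι).toList.map (fun k => offm (x k))).count 1 = tot Item.fill x ∧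
    ∀ m ∈ (Finset.univ : Finset ι).toList.map (fun k => offm (x k)), m ≤ M := by
  set u : ℕ → ℕ := fun b => ∑ k, onsl (x k) b with hu
  have P1 : ∀ b, M * u (b + 1) ≤ (M - 1) * u b := by
    intro b
    simp only [hu, Finset.mul_sum]
    exact Finset.sum_le_sum (fun k _ => onsl_succ_h12 (hx k) b)
  have P2 : ∀ b, M ≤ b → u b = 0 := by
    intro b hb
    simp only [hu]
    exact Finset.sum_eq_zero (fun k _ => onsl_big_h12 (hx k) hb)
  have P3 : ∀ b, u b ≤ n - b := by
    intro b
    induction b with
    | zero =>
      have h1 : u 0 = tot Item.tr x := by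
        simp only [hu, tot]
        exact Finset.sum_congr rfl (fun k _ => onsl_zero_h12 (hx k))
      rw [h1]
      exact htr
    | succ b ih =>
      have h1 := P1 b
      rcases Nat.eq_zero_or_pos (u (b + 1)) with h0 | h0
      · rw [h0]; exact Nat.zero_le _
      · have h2 : u (b + 1) < u b := by
          by_contra hc
          have hc' : u b ≤ u (b + 1) := Nat.le_of_not_lt hc
          have h3 : M * u b ≤ M * u (b + 1) := Nat.mul_le_mul le_rfl hc'
          rw [Nat.sub_mul, one_mul] at h1
          have h4 : u b ≤ M * u b := Nat.le_mul_of_pos_left _ hM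
          have h5 : M * u b ≤ M * u b - u b := le_trans h3 h1
          have h6 : u b = 0 := by omega
          have h7 : M * u (b + 1) ≤ 0 := by
            rw [h6] at h1
            simpa using h1
          have h8 : 1 * u (b + 1) ≤ M * u (b + 1) := Nat.mul_le_mul hM le_rfl
          omega
        omega
  refine ⟨⟨fun b hb => absurd hb (Nat.not_lt_zero b), fun b _ => P1 b, fun b hb => P2 b (by omega), P3⟩, ?_, ?_, ?_⟩
  · have hT : ∑ b ∈ Finset.range n, (n - b) = T n := by
      have : ∀ n : ℕ, ∑ b ∈ Finset.range n, (n - b) = T n := by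
        intro n
        induction n with
        | zero => rfl
        | succ n ih =>
          rw [Finset.sum_range_succ', T_succ, ← ih]
          congr 1
          apply Finset.sum_congr rfl
          intro b _
          omega
      exact this n
    have h1 : (DS n u).card + ∑ b ∈ Finset.range n, u b = T n := by
      rw [card_DS, ← Finset.sum_add_distrib, ← hT]
      apply Finset.sum_congr rfl
      intro b _
      have := P3 b
      omega
    have h2 : ∑ b ∈ Finset.range n, u b = ∑ b ∈ Finset.range (max n M), u b := by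
      apply Finset.sum_subset
      · intro b hb
        rw [Finset.mem_range] at *
        exact lt_of_lt_of_le hb (le_max_left _ _)
      · intro b _ hb
        rw [Finset.mem_range] at hb
        have := P3 b
        omega
    have h3 : ∑ b ∈ Finset.range (max n M), u b + ∑ k, T (offm (x k)) = tot Item.sz x := by
      simp only [hu]
      rw [Finset.sum_comm, ← Finset.sum_add_distrib]
      simp only [tot]
      exact Finset.sum_congr rfl (fun k _ => onsl_sum_h12 (hx k) (le_max_right _ _))
    have h4 : (((Finset.univ : Finset ι).toList.map (fun k => offm (x k))).map T).sum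
        = ∑ k, T (offm (x k)) := by
      rw [List.map_map, Finset.sum_map_toList]
      rfl
    rw [h4, ← h3, ← h2]
    omega
  · have h5 : ∀ l : List ι, (l.map (fun k => offm (x k))).count 1 = (l.map (fun k => (x k).fill)).sum := by
      intro l
      induction l with
      | nil => rfl
      | cons a l ih =>
        rw [List.map_cons, List.map_cons, List.sum_cons, List.count_cons, ih, ← fill_h12]
        simp only [beq_iff_eq]
        omega
    rw [h5, Finset.sum_map_toList]
    rfl
  · intro m hm
    rw [List.mem_map] at hm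
    obtain ⟨k, _, rfl⟩ := hm
    have := hx k
    cases hk : x k with
    | on m g => simp [offm]
    | off m =>
      rw [hk] at this
      exact this

theorem TI28 {M : ℕ} (hM : 1 ≤ M) {ι : Type} [Fintype ι] (n : ℕ) (x : ι → Item) (hx : Ok M x)
    (htr : tot Item.tr x ≤ n) (hsz : Pool.Agent.Helper1.FH.T n ≤ tot Item.sz x)
    (hf : Pool.Agent.Helper1.FH.T (3 * M) ≤ tot Item.fill x) : Inj n x := by
  obtain ⟨h1, h2, h3, h4⟩ := core_h12 hM n x hx htr
  have e1 : Pool.Agent.Helper1.FH.T n = T n := rfl
  have e2 : Pool.Agent.Helper1.FH.T (3 * M) = T (3 * M) := rfl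
  apply bridge
  apply phase hM _ _ rfl h4 _ 0 h1
  · omega
  · left
    omega

theorem TII28 {M : ℕ} (hM : 1 ≤ M) {ι : Type} [Fintype ι] (n : ℕ) (x : ι → Item) (hx : Ok M x)
    (htr : tot Item.tr x ≤ n)
    (hsz : Pool.Agent.Helper1.FH.T n + Pool.Agent.Helper1.FH.T (3 * M) ≤ tot Item.sz x) : Inj n x := by
  obtain ⟨h1, h2, h3, h4⟩ := core_h12 hM n x hx htr
  have e1 : Pool.Agent.Helper1.FH.T n = T n := rfl
  have e2 : Pool.Agent.Helper1.FH.T (3 * M) = T (3 * M) := rfl
  apply bridge
  apply phase hM _ _ rfl h4 _ 0 h1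
  · omega
  · right
    omega

end Pool.Agent.Helper28.HH
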